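import Pool.Agent.Lib_MP_644907_h.COC

/-!
# COCF: the cocompact case in the form of the frozen statement (proved from the pieces)
-/

set_option autoImplicit false

open Complex MeasureTheory Metric Filter
open scoped Topology

namespace Pool.Agent.DimDropH

open Pool.Agent.DimDrop (IsoD isoD_of_form)
open Pool.Agent.DimDropF (IG mb dmb exists_IG)

theorem cocompact_case {n : ℕ} (p : Fin n → ℝ) (g : Fin n → ℂ → ℂ) (hp : ∀ i, 0 < p i) (hp1 : ∑ i, p i = 1)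
    (hg : ∀ i, ∃ u a : ℂ, ‖u‖ = 1 ∧ ‖a‖ < 1 ∧
      (g i = (fun z : ℂ => u * (z - a) / (1 - starRingEnd ℂ a * z)) ∨
       g i = (fun z : ℂ => u * (starRingEnd ℂ z - a) / (1 - starRingEnd ℂ a * starRingEnd ℂ z))))
    (S : Set (ℂ → ℂ))
    (hS : S = ⋂₀ {T : Set (ℂ → ℂ) | Set.range g ⊆ T ∧ ∀ f ∈ T, ∀ h ∈ T, f ∘ h ∈ T})
    (hinv : ∀ f ∈ S, ∃ h ∈ S, ∀ z : ℂ, ‖z‖ ≤ 1 → h (f z) = z)
    (hdisc : ∀ r : ℝ, r < 1 →
        ((fun f : ℂ → ℂ => (Metric.closedBall (0:ℂ) 1).restrict f) ''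
          {f : ℂ → ℂ | f ∈ S ∧ ‖f 0‖ ≤ r}).Finite)
    (hcoc : ∃ r : ℝ, r < 1 ∧ ∀ z : ℂ, ‖z‖ < 1 → ∃ f ∈ S, ‖f z‖ ≤ r)
    (ν : Measure ℂ) (hν : IsProbabilityMeasure ν) (hs : ν (Metric.sphere (0:ℂ) 1)ᶜ = 0)
    (hstat : ∀ A : Set ℂ, MeasurableSet A → ν A = ∑ i, ENNReal.ofReal (p i) * ν (g i ⁻¹' A)) :
    ∃ E : Set ℂ, MeasurableSet E ∧ ν Eᶜ = 0 ∧
      dimH E < dimH (closure ((fun f : ℂ → ℂ => f 0) '' S) ∩ Metric.sphere (0:ℂ) 1) := by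
  have hn : 0 < n := by
    rcases Nat.eq_zero_or_pos n with h | h
    · subst h
      simp at hp1
    · exact h
  have hiso : ∀ i, IsoD (g i) := fun i => isoD_of_form (g i) (hg i)
  obtain ⟨Γ, hΓ, A, e, he, hgen⟩ := exists_IG hn g hiso S hS hinv hdisc hcoc
  let R : RW Γ n := ⟨p, hp, hp1, e, hgen⟩
  have hst : ∀ E : Set ℂ, MeasurableSet E → ν E = ∑ i, ENNReal.ofReal (R.p i) * ν (A.f (R.e i) ⁻¹' E) := by
    intro E hE
    rw [hstat E hE]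
    refine Finset.sum_congr rfl fun i _ => ?_
    congr 1
    have hae : ∀ᵐ ζ ∂ν, ζ ∈ Metric.sphere (0:ℂ) 1 := by
      rw [MeasureTheory.ae_iff]
      exact hs
    refine MeasureTheory.measure_congr ?_
    filter_upwards [hae] with ζ hζ
    have h1 : ‖ζ‖ ≤ 1 := by
      rw [mem_sphere_zero_iff_norm] at hζ
      exact hζ.le
    have h2 : A.f (R.e i) ζ = g i ζ := he i ζ h1
    have h3 : (ζ ∈ g i ⁻¹' E) = (ζ ∈ A.f (R.e i) ⁻¹' E) := by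
      simp only [Set.mem_preimage, h2]
    exact h3
  let W : WD Γ n := ⟨A, R, ν, hν, hs, hst, fun ζ => no_atoms A R ν hν hs hst ζ⟩
  obtain ⟨E, hE, hE0, hE1⟩ := W.drop
  refine ⟨E, hE, hE0, hE1.trans_le (dim_circle.trans (dimH_mono (limit_set A S ?_)))⟩
  have hgS : ∀ i, g i ∈ S := by
    intro i
    rw [hS]
    rintro T ⟨h1, _⟩
    exact h1 ⟨i, rfl⟩
  have hcomp : ∀ f ∈ S, ∀ h ∈ S, f ∘ h ∈ S := by
    intro f hf h hh
    rw [hS] at hf hh ⊢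
    intro T hT
    exact hT.2 f (hf T hT) h (hh T hT)
  have key : ∀ γ : Γ, γ ∈ {γ : Γ | ∃ f ∈ S, ∀ z : ℂ, ‖z‖ ≤ 1 → A.f γ z = f z} := by
    refine hgen _ (fun i => ⟨g i, hgS i, he i⟩) ?_
    rintro x ⟨f, hf, hfx⟩ y ⟨h, hh, hhy⟩
    refine ⟨f ∘ h, hcomp f hf h hh, fun z hz => ?_⟩
    rw [A.mul' x y z hz, Function.comp_apply, ← hhy z hz]
    exact hfx _ ((A.iso y).norm_le z hz)
  intro γ
  obtain ⟨f, hf, hfγ⟩ := key γ
  exact ⟨f, hf, (hfγ 0 (by simp)).symm⟩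

end Pool.Agent.DimDropH
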