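import Mathlib

/-!
# Piece ARC: dyadic arcs, selection
-/

set_option autoImplicit false

open Complex MeasureTheory Metric Filter
open scoped Topology

namespace Pool.Agent.DimDropH

/-- dyadic arcs of the circle -/
noncomputable def Ar (m j : ℕ) : Set ℂ := circleMap 0 1 '' Set.Ico (2 * Real.pi * j / 2 ^ m) (2 * Real.pi * (j + 1) / 2 ^ m)

theorem ARC_mem_iff (m j : ℕ) (θ : ℝ) :
    θ ∈ Set.Ico (2 * Real.pi * j / 2 ^ m) (2 * Real.pi * (j + 1) / 2 ^ m) ↔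
      (j:ℝ) ≤ θ * 2 ^ m / (2 * Real.pi) ∧ θ * 2 ^ m / (2 * Real.pi) < (j:ℝ) + 1 := by
  have hpi : (0:ℝ) < 2 * Real.pi := Real.two_pi_pos
  have h2 : (0:ℝ) < 2 ^ m := by positivity
  rw [Set.mem_Ico, le_div_iff₀ hpi, div_lt_iff₀ hpi, div_le_iff₀ h2, lt_div_iff₀ h2]
  constructor
  · rintro ⟨h, h'⟩
    exact ⟨by linarith, by linarith⟩
  · rintro ⟨h, h'⟩
    exact ⟨by linarith, by linarith⟩

theorem ARC_mem (m j : ℕ) (z : ℂ) :
    z ∈ Ar m j ↔ ∃ θ : ℝ, ((j:ℝ) ≤ θ * 2 ^ m / (2 * Real.pi) ∧ θ * 2 ^ m / (2 * Real.pi) < (j:ℝ) + 1) ∧ circleMap 0 1 θ = z := by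
  unfold Ar
  rw [Set.mem_image]
  constructor
  · rintro ⟨θ, h, h'⟩
    exact ⟨θ, (ARC_mem_iff m j θ).1 h, h'⟩
  · rintro ⟨θ, h, h'⟩
    exact ⟨θ, (ARC_mem_iff m j θ).2 h, h'⟩

theorem ARC_width (m j : ℕ) : 2 * Real.pi * ((j:ℝ) + 1) / 2 ^ m - 2 * Real.pi * j / 2 ^ m = 2 * Real.pi / 2 ^ m := by
  ring

theorem Ar_meas (m j : ℕ) : MeasurableSet (Ar m j) := by
  unfold Ar
  refine MeasurableSet.image_of_continuousOn_injOn measurableSet_Ico (continuous_circleMap 0 1).continuousOn ?_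
  refine injOn_circleMap_of_abs_sub_le' one_ne_zero ?_
  rw [ARC_width]
  exact div_le_self Real.two_pi_pos.le (one_le_pow₀ (by norm_num))

theorem Ar_disj (m j k : ℕ) (hj : j < 2 ^ m) (hk : k < 2 ^ m) (h : j ≠ k) : Disjoint (Ar m j) (Ar m k) := by
  rw [Set.disjoint_left]
  intro z hz hz'
  rw [ARC_mem] at hz hz'
  obtain ⟨θ, ⟨h1, h2⟩, h3⟩ := hz
  obtain ⟨φ, ⟨h4, h5⟩, h6⟩ := hz'
  have hpi : (0:ℝ) < 2 * Real.pi := Real.two_pi_pos
  have hm : (0:ℝ) < 2 ^ m := by positivity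
  have hj' : (j:ℝ) + 1 ≤ 2 ^ m := by exact_mod_cast hj
  have hk' : (k:ℝ) + 1 ≤ 2 ^ m := by exact_mod_cast hk
  have j0 : (0:ℝ) ≤ j := Nat.cast_nonneg j
  have k0 : (0:ℝ) ≤ k := Nat.cast_nonneg k
  have e : θ = φ := by
    refine eq_of_circleMap_eq one_ne_zero ?_ (h3.trans h6.symm)
    have : |θ * 2 ^ m / (2 * Real.pi) - φ * 2 ^ m / (2 * Real.pi)| < 2 ^ m := by
      rw [abs_lt]
      constructor <;> linarith
    rw [← sub_div, ← sub_mul, abs_div, abs_mul, abs_of_pos hm, abs_of_pos hpi, div_lt_iff₀ hpi, mul_comm] at this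
    exact lt_of_mul_lt_mul_left this hm.le
  subst e
  apply h
  have a1 : (j:ℝ) < k + 1 := lt_of_le_of_lt h1 h5
  have a2 : (k:ℝ) < j + 1 := lt_of_le_of_lt h4 h2
  have b1 : j < k + 1 := by exact_mod_cast a1
  have b2 : k < j + 1 := by exact_mod_cast a2
  omega

theorem Ar_cover (m : ℕ) : ⋃ j ∈ Finset.range (2 ^ m), Ar m j = sphere (0:ℂ) 1 := by
  ext z
  rw [Set.mem_iUnion₂]
  have hpi : (0:ℝ) < 2 * Real.pi := Real.two_pi_pos
  have hm : (0:ℝ) < 2 ^ m := by positivity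
  constructor
  · rintro ⟨j, _, hz⟩
    rw [ARC_mem] at hz
    obtain ⟨θ, _, h3⟩ := hz
    rw [← h3]
    exact circleMap_mem_sphere 0 zero_le_one θ
  · intro hz
    have h1 : ∃ θ : ℝ, circleMap 0 1 θ = z := by
      have : z ∈ Set.range (circleMap 0 1) := by
        rw [range_circleMap]
        simpa using hz
      exact this
    obtain ⟨θ, hθ⟩ := h1
    obtain ⟨y, ⟨hy0, hy1⟩, hy⟩ := (periodic_circleMap 0 1).exists_mem_Ico₀ Real.two_pi_pos θ
    have t0 : 0 ≤ y * 2 ^ m / (2 * Real.pi) := by positivity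
    refine ⟨⌊y * 2 ^ m / (2 * Real.pi)⌋₊, ?_, ?_⟩
    · rw [Finset.mem_range, Nat.floor_lt t0]
      push_cast
      rw [div_lt_iff₀ hpi, mul_comm]
      exact mul_lt_mul_of_pos_left hy1 hm
    · rw [ARC_mem]
      exact ⟨y, ⟨Nat.floor_le t0, Nat.lt_floor_add_one _⟩, by rw [← hy, hθ]⟩

theorem Ar_split (m L j : ℕ) : Ar m j = ⋃ l ∈ Finset.range (2 ^ L), Ar (m + L) (2 ^ L * j + l) := by
  ext z
  rw [Set.mem_iUnion₂]
  have hpi : (0:ℝ) < 2 * Real.pi := Real.two_pi_pos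
  have hm : (0:ℝ) < 2 ^ m := by positivity
  have hL : (0:ℝ) < 2 ^ L := by positivity
  have key : ∀ θ : ℝ, θ * 2 ^ (m + L) / (2 * Real.pi) = 2 ^ L * (θ * 2 ^ m / (2 * Real.pi)) := by
    intro θ
    rw [pow_add]
    ring
  constructor
  · intro hz
    rw [ARC_mem] at hz
    obtain ⟨θ, ⟨h1, h2⟩, h3⟩ := hz
    set t := θ * 2 ^ m / (2 * Real.pi) with ht
    have u0 : 0 ≤ 2 ^ L * (t - j) := by
      apply mul_nonneg hL.le
      linarith
    refine ⟨⌊2 ^ L * (t - j)⌋₊, ?_, ?_⟩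
    · rw [Finset.mem_range, Nat.floor_lt u0]
      push_cast
      nlinarith
    · rw [ARC_mem]
      refine ⟨θ, ?_, h3⟩
      rw [key, ← ht]
      push_cast
      have f1 := Nat.floor_le u0
      have f2 := Nat.lt_floor_add_one (2 ^ L * (t - j))
      constructor
      · linarith
      · linarith
  · rintro ⟨l, hl, hz⟩
    rw [Finset.mem_range] at hl
    rw [ARC_mem] at hz ⊢
    obtain ⟨θ, ⟨h1, h2⟩, h3⟩ := hz
    rw [key] at h1 h2
    set t := θ * 2 ^ m / (2 * Real.pi) with ht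
    push_cast at h1 h2
    have hl' : (l:ℝ) + 1 ≤ 2 ^ L := by exact_mod_cast hl
    have l0 : (0:ℝ) ≤ l := Nat.cast_nonneg l
    refine ⟨θ, ⟨?_, ?_⟩, h3⟩
    · have : (2:ℝ) ^ L * j ≤ 2 ^ L * t := by linarith
      exact le_of_mul_le_mul_left this hL
    · have : (2:ℝ) ^ L * t < 2 ^ L * (j + 1) := by linarith
      exact lt_of_mul_lt_mul_left this hL.le

theorem Ar_sum (ν : Measure ℂ) [IsFiniteMeasure ν] (m L j : ℕ) (hj : j < 2 ^ m) :
    (ν (Ar m j)).toReal = ∑ l ∈ Finset.range (2 ^ L), (ν (Ar (m + L) (2 ^ L * j + l))).toReal := by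
  rw [Ar_split m L j, measure_biUnion_finset, ENNReal.toReal_sum]
  · intro l _
    exact measure_ne_top _ _
  · intro l hl l' hl' hne
    have b : ∀ l ∈ (Finset.range (2 ^ L) : Set ℕ), 2 ^ L * j + l < 2 ^ (m + L) := by
      intro l hl
      have hl2 : l < 2 ^ L := by simpa using hl
      calc 2 ^ L * j + l < 2 ^ L * j + 2 ^ L := by omega
        _ = 2 ^ L * (j + 1) := by ring
        _ ≤ 2 ^ L * 2 ^ m := Nat.mul_le_mul_left _ hj
        _ = 2 ^ (m + L) := by rw [pow_add, mul_comm]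
    exact Ar_disj (m + L) _ _ (b l hl) (b l' hl') (by omega)
  · intro l _
    exact Ar_meas _ _

theorem Ar_diam (m j : ℕ) (z w : ℂ) (hz : z ∈ Ar m j) (hw : w ∈ Ar m j) : ‖z - w‖ ≤ 2 * Real.pi / 2 ^ m := by
  unfold Ar at hz hw
  obtain ⟨θ, ⟨h1, h2⟩, rfl⟩ := hz
  obtain ⟨φ, ⟨h3, h4⟩, rfl⟩ := hw
  have h := (lipschitzWith_circleMap 0 1).dist_le_mul θ φ
  rw [dist_eq_norm, Real.dist_eq] at h
  simp only [map_one, NNReal.coe_one, one_mul] at h
  refine h.trans ?_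
  have hw := ARC_width m j
  rw [abs_le]
  constructor <;> linarith

end Pool.Agent.DimDropH
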