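import Pool.Agent.Lib_MP_644907_h.ARC

/-!
# Piece ARCB: selection
-/

set_option autoImplicit false

open Complex MeasureTheory Metric Filter
open scoped Topology

namespace Pool.Agent.DimDropH

/-- `∑ (√p_l - √(1/N))^2 = 2 - 2 ∑ √(p_l/N) ≤ 2 ε`, `|p - q| = |√p - √q| (√p + √q) ≤ 2 |√p - √q|` -/
theorem affinity (N : ℕ) (hN : 0 < N) (p : ℕ → ℝ) (h0 : ∀ l, 0 ≤ p l) (h1 : ∑ l ∈ Finset.range N, p l = 1) (ε : ℝ) (hε : 0 ≤ ε)
    (h : 1 - ε ≤ ∑ l ∈ Finset.range N, √(p l * (1 / N))) (l : ℕ) (hl : l < N) : |p l - 1 / N| ≤ 2 * √(2 * ε) := by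
  have hN' : (0:ℝ) < N := by exact_mod_cast hN
  have hN1 : (1:ℝ) ≤ N := by exact_mod_cast hN
  set q : ℝ := √(1 / N) with hq
  have q0 : 0 ≤ q := Real.sqrt_nonneg _
  have q2 : q ^ 2 = 1 / N := Real.sq_sqrt (by positivity)
  have q1 : q ≤ 1 := by
    refine Real.sqrt_le_one.2 ?_
    rw [div_le_one hN']
    exact hN1
  have hs : ∀ l, √(p l * (1 / N)) = √(p l) * q := fun l => Real.sqrt_mul (h0 l) _
  have sum1 : ∑ l ∈ Finset.range N, (√(p l) - q) ^ 2 = 2 - 2 * ∑ l ∈ Finset.range N, √(p l * (1 / N)) := by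
    have e : ∀ l, (√(p l) - q) ^ 2 = p l - 2 * √(p l * (1 / N)) + 1 / N := by
      intro l
      rw [hs l, sub_sq, Real.sq_sqrt (h0 l), q2]
      ring
    simp only [e]
    rw [Finset.sum_add_distrib, Finset.sum_sub_distrib, h1, ← Finset.mul_sum, Finset.sum_const, Finset.card_range, nsmul_eq_mul]
    have : (N:ℝ) * (1 / N) = 1 := by field_simp
    rw [this]
    ring
  have one : (√(p l) - q) ^ 2 ≤ 2 * ε := by
    have : (√(p l) - q) ^ 2 ≤ ∑ l ∈ Finset.range N, (√(p l) - q) ^ 2 :=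
      Finset.single_le_sum (f := fun l => (√(p l) - q) ^ 2) (fun i _ => sq_nonneg _) (Finset.mem_range.2 hl)
    rw [sum1] at this
    linarith
  have abs1 : |√(p l) - q| ≤ √(2 * ε) := by
    rw [← Real.sqrt_sq_eq_abs]
    exact Real.sqrt_le_sqrt one
  have pl1 : p l ≤ 1 := by
    rw [← h1]
    exact Finset.single_le_sum (f := fun l => p l) (fun i _ => h0 i) (Finset.mem_range.2 hl)
  have r1 : √(p l) ≤ 1 := Real.sqrt_le_one.2 pl1
  have r0 : 0 ≤ √(p l) := Real.sqrt_nonneg _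
  have e : p l - 1 / N = (√(p l) - q) * (√(p l) + q) := by
    rw [← q2]
    have := Real.sq_sqrt (h0 l)
    nlinarith
  rw [e, abs_mul, abs_of_nonneg (add_nonneg r0 q0)]
  calc |√(p l) - q| * (√(p l) + q) ≤ √(2 * ε) * 2 := by
        apply mul_le_mul abs1 (by linarith) (by linarith) (Real.sqrt_nonneg _)
    _ = 2 * √(2 * ε) := by ring

/-- the uniform gap for the measure `ν` with parameters `L`, `ε` -/
def Gap (ν : Measure ℂ) (L : ℕ) (ε : ℝ) : Prop := ∀ m j : ℕ, j < 2 ^ m →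
  ∑ l ∈ Finset.range (2 ^ L), √((ν (Ar (m + L) (2 ^ L * j + l))).toReal * (1 / 2 ^ L)) ≤ (1 - ε) * √((ν (Ar m j)).toReal)

/-- take `ε` with `2 √(2ε) ≤ (1/8)^L` and apply `affinity` to `p l = ν(cell)/ν(arc)`; `ν (Ar m j) > 0` because otherwise both sides of the gap inequality are 0 -/
theorem select (ν : Measure ℂ) [IsFiniteMeasure ν] (hno : ∀ L : ℕ, 1 ≤ L → ∀ ε : ℝ, 0 < ε → ε < 1 → ¬ Gap ν L ε) (L : ℕ) (hL : 1 ≤ L) :
    ∃ m j : ℕ, j < 2 ^ m ∧ 0 < (ν (Ar m j)).toReal ∧ ∀ l < 2 ^ L,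
      |(ν (Ar (m + L) (2 ^ L * j + l))).toReal - (ν (Ar m j)).toReal / 2 ^ L| ≤ (ν (Ar m j)).toReal * (1 / 8) ^ L := by
  set t : ℝ := (1 / 8) ^ L with ht
  have t0 : 0 < t := by positivity
  have t1 : t ≤ 1 := pow_le_one₀ (by norm_num) (by norm_num)
  set ε : ℝ := t ^ 2 / 8 with hε
  have ε0 : 0 < ε := by positivity
  have ε1 : ε < 1 := by
    rw [hε]
    nlinarith
  have eps : 2 * √(2 * ε) = t := by
    have : 2 * ε = (t / 2) ^ 2 := by rw [hε]; ring
    rw [this, Real.sqrt_sq (by positivity)]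
    ring
  have h := hno L hL ε ε0 ε1
  unfold Gap at h
  push Not at h
  obtain ⟨m, j, hj, hg⟩ := h
  have s := Ar_sum ν m L j hj
  set I : ℝ := (ν (Ar m j)).toReal with hI
  set c : ℕ → ℝ := fun l => (ν (Ar (m + L) (2 ^ L * j + l))).toReal with hc
  have c0 : ∀ l, 0 ≤ c l := fun l => ENNReal.toReal_nonneg
  have s' : I = ∑ l ∈ Finset.range (2 ^ L), c l := s
  have hg' : (1 - ε) * √I < ∑ l ∈ Finset.range (2 ^ L), √(c l * (1 / 2 ^ L)) := hg
  have I0 : 0 < I := by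
    rcases (ENNReal.toReal_nonneg : 0 ≤ (ν (Ar m j)).toReal).lt_or_eq with h | h
    · exact h
    · exfalso
      have hI' : I = 0 := h.symm
      have z : ∀ l ∈ Finset.range (2 ^ L), c l = 0 := by
        rw [← Finset.sum_eq_zero_iff_of_nonneg (fun i _ => c0 i), ← s', hI']
      have : ∑ l ∈ Finset.range (2 ^ L), √(c l * (1 / 2 ^ L)) = 0 := by
        apply Finset.sum_eq_zero
        intro l hl
        rw [z l hl]
        simp
      rw [this, hI'] at hg'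
      simp at hg'
  refine ⟨m, j, hj, I0, ?_⟩
  intro l hl
  have N0 : (0:ℝ) < 2 ^ L := by positivity
  have hs : ∀ l, √(c l / I * (1 / ((2 ^ L : ℕ) : ℝ))) = √(c l * (1 / 2 ^ L)) / √I := by
    intro l
    rw [← Real.sqrt_div (mul_nonneg (c0 l) (by positivity))]
    congr 1
    push_cast
    ring
  have aff := affinity (2 ^ L) (by positivity) (fun l => c l / I) (fun l => div_nonneg (c0 l) I0.le)
    (by rw [← Finset.sum_div, ← s', div_self I0.ne']) ε ε0.le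
    (by
      simp only [hs]
      rw [← Finset.sum_div, le_div_iff₀ (Real.sqrt_pos.2 I0)]
      exact hg'.le) l hl
  rw [eps] at aff
  push_cast at aff
  have e : c l - I / 2 ^ L = I * (c l / I - 1 / 2 ^ L) := by
    field_simp
  change |c l - I / 2 ^ L| ≤ I * t
  rw [e, abs_mul, abs_of_pos I0]
  exact mul_le_mul_of_nonneg_left aff I0.le

end Pool.Agent.DimDropH
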