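import Pool.Agent.Lib_MP_644907_h.ARC

/-!
# Piece ARCC: comparison of integrals
-/

set_option autoImplicit false

open Complex MeasureTheory Metric Filter
open scoped Topology

namespace Pool.Agent.DimDropH

private theorem arcc_cell {X : Type} [MeasurableSpace X] (μ : Measure X) (s : Set X) (hs : μ s < ⊤) (f : X → ℝ) (hf : IntegrableOn f s μ)
    (η c : ℝ) (h : ∀ x ∈ s, |f x - c| ≤ η) : |∫ x in s, f x ∂μ - c * μ.real s| ≤ η * μ.real s := by
  have hc : IntegrableOn (fun _ : X => c) s μ := integrableOn_const hs.ne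
  have h1 : ∫ x in s, f x ∂μ - c * μ.real s = ∫ x in s, (f x - c) ∂μ := by
    rw [integral_sub hf hc, setIntegral_const, smul_eq_mul]
    ring
  rw [h1, ← Real.norm_eq_abs]
  refine norm_setIntegral_le_of_norm_le_const hs ?_
  intro x hx
  rw [Real.norm_eq_abs]
  exact h x hx

private theorem arcc_Ico (M k k' : ℕ) (h : k ≠ k') :
    Disjoint (Set.Ico (2 * Real.pi * k / 2 ^ M) (2 * Real.pi * (k + 1) / 2 ^ M))
      (Set.Ico (2 * Real.pi * k' / 2 ^ M) (2 * Real.pi * (k' + 1) / 2 ^ M)) := by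
  have hpi := Real.pi_pos
  have key : ∀ a b : ℕ, a < b → 2 * Real.pi * ((a : ℝ) + 1) / 2 ^ M ≤ 2 * Real.pi * (b : ℝ) / 2 ^ M := by
    intro a b hab
    apply div_le_div_of_nonneg_right _ (by positivity)
    apply mul_le_mul_of_nonneg_left _ (by positivity)
    exact_mod_cast hab
  rw [Set.Ico_disjoint_Ico]
  rcases lt_or_gt_of_ne h with h1 | h1
  · exact (min_le_left _ _).trans ((key k k' h1).trans (le_max_right _ _))
  · exact (min_le_right _ _).trans ((key k' k h1).trans (le_max_left _ _))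

private theorem arcc_sub (M k : ℕ) (hk : k < 2 ^ M) :
    Set.Ico (2 * Real.pi * k / 2 ^ M) (2 * Real.pi * (k + 1) / 2 ^ M) ⊆ Set.Ico 0 (2 * Real.pi) := by
  have hpi := Real.pi_pos
  apply Set.Ico_subset_Ico
  · positivity
  · rw [div_le_iff₀ (by positivity)]
    apply mul_le_mul_of_nonneg_left _ (by positivity)
    exact_mod_cast hk

/-- comparison of the integrals of a function over an arc which is almost uniform at the scale of its cells of generation `L`: `T` = set of the cells on which `H` can be nonzero, `η` = oscillation of `H` on these cells, `B` = bound of `|H|`.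
On a cell: `|∫_cell H dν - H(ζ_l) ν(cell)| ≤ η ν(cell)`, `|∫_cell H dθ - H(ζ_l) |cell|| ≤ η |cell|`, `ν(cell) ≤ 2 ν(arc)/2^L`, `|cell| = |arc|/2^L`. -/
theorem approx (ν : Measure ℂ) [IsFiniteMeasure ν] (hν : ν (sphere (0:ℂ) 1)ᶜ = 0) (m j L : ℕ) (hj : j < 2 ^ m)
    (hcell : ∀ l < 2 ^ L, |(ν (Ar (m + L) (2 ^ L * j + l))).toReal - (ν (Ar m j)).toReal / 2 ^ L| ≤ (ν (Ar m j)).toReal * (1 / 8) ^ L)
    (H : ℂ → ℝ) (hH : ContinuousOn H (sphere 0 1)) (B η : ℝ) (hB : ∀ ζ : ℂ, ‖ζ‖ = 1 → |H ζ| ≤ B) (hη : 0 ≤ η)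
    (T : Finset ℕ) (hT : T ⊆ Finset.range (2 ^ L))
    (h0 : ∀ ζ : ℂ, ‖ζ‖ = 1 → (∀ l ∈ T, ζ ∉ Ar (m + L) (2 ^ L * j + l)) → H ζ = 0)
    (hosc : ∀ l ∈ T, ∀ ζ ∈ Ar (m + L) (2 ^ L * j + l), ∀ ω ∈ Ar (m + L) (2 ^ L * j + l), |H ζ - H ω| ≤ η) :
    |∫ ζ, H ζ ∂ν - (ν (Ar m j)).toReal / (2 * Real.pi / 2 ^ m) * ∫ θ in (0:ℝ)..(2 * Real.pi), H (circleMap 0 1 θ)| ≤
      T.card * (ν (Ar m j)).toReal * (3 * η / 2 ^ L + B * (1 / 8) ^ L) := by
  have hpi := Real.pi_pos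
  set a : ℝ := (ν (Ar m j)).toReal with ha
  have ha0 : 0 ≤ a := ENNReal.toReal_nonneg
  have hk : ∀ l ∈ T, 2 ^ L * j + l < 2 ^ (m + L) := by
    intro l hl
    have h1 := Finset.mem_range.1 (hT hl)
    have h2 : 2 ^ L * j + 2 ^ L ≤ 2 ^ (m + L) := by
      calc 2 ^ L * j + 2 ^ L = 2 ^ L * (j + 1) := by ring
        _ ≤ 2 ^ L * 2 ^ m := Nat.mul_le_mul_left _ hj
        _ = 2 ^ (m + L) := by rw [pow_add]; ring
    omega
  -- the cells
  set I : ℕ → Set ℝ := fun l => Set.Ico (2 * Real.pi * ((2 ^ L * j + l : ℕ) : ℝ) / 2 ^ (m + L))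
    (2 * Real.pi * (((2 ^ L * j + l : ℕ) : ℝ) + 1) / 2 ^ (m + L)) with hI
  have hCI : ∀ l, Ar (m + L) (2 ^ L * j + l) = circleMap 0 1 '' I l := fun l => rfl
  have hsph : ∀ l, Ar (m + L) (2 ^ L * j + l) ⊆ sphere (0:ℂ) 1 := by
    intro l ζ hζ
    rw [hCI] at hζ
    obtain ⟨θ, _, rfl⟩ := hζ
    exact circleMap_mem_sphere 0 zero_le_one θ
  have hIsub : ∀ l ∈ T, I l ⊆ Set.Ico 0 (2 * Real.pi) := fun l hl => arcc_sub (m + L) _ (hk l hl)
  have hinjc := injOn_circleMap_of_abs_sub_le' (a := 0) (b := 2 * Real.pi) (c := (0:ℂ)) (one_ne_zero (α := ℝ)) (by rw [sub_zero])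
  -- the integral with respect to `ν`
  have hae : ∀ᵐ x ∂ν, x ∈ sphere (0:ℂ) 1 := hν
  have hint : IntegrableOn H (sphere (0:ℂ) 1) ν := ContinuousOn.integrableOn_compact (isCompact_sphere 0 1) hH
  have hA : ∫ ζ, H ζ ∂ν = ∑ l ∈ T, ∫ ζ in Ar (m + L) (2 ^ L * j + l), H ζ ∂ν := by
    have e1 : ∫ ζ, H ζ ∂ν = ∫ ζ in sphere (0:ℂ) 1, H ζ ∂ν := by
      rw [Measure.restrict_eq_self_of_ae_mem hae]
    rw [e1, setIntegral_eq_of_subset_of_forall_sdiff_eq_zero (s := ⋃ l ∈ T, Ar (m + L) (2 ^ L * j + l)) isClosed_sphere.measurableSet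
      (Set.iUnion₂_subset fun l _ => hsph l) ?_]
    · refine integral_biUnion_finset T (fun l _ => Ar_meas _ _) ?_ (fun l _ => hint.mono_set (hsph l))
      intro l hl l' hl' hn
      exact Ar_disj (m + L) _ _ (hk l hl) (hk l' hl') (fun h => hn (by omega))
    · intro ζ hζ
      refine h0 ζ (mem_sphere_zero_iff_norm.1 hζ.1) fun l hl hc => hζ.2 ?_
      exact Set.mem_iUnion₂.2 ⟨l, hl, hc⟩
  -- the integral with respect to the angle
  have hcont : Continuous fun θ : ℝ => H (circleMap 0 1 θ) :=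
    hH.comp_continuous (continuous_circleMap 0 1) (fun θ => circleMap_mem_sphere 0 zero_le_one θ)
  have hint2 : IntegrableOn (fun θ : ℝ => H (circleMap 0 1 θ)) (Set.Ico 0 (2 * Real.pi)) volume :=
    (hcont.integrableOn_Icc (a := 0) (b := 2 * Real.pi)).mono_set Set.Ico_subset_Icc_self
  have hBint : ∫ θ in (0:ℝ)..(2 * Real.pi), H (circleMap 0 1 θ) = ∑ l ∈ T, ∫ θ in I l, H (circleMap 0 1 θ) := by
    rw [intervalIntegral.integral_of_le (by positivity), ← integral_Ico_eq_integral_Ioc,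
      setIntegral_eq_of_subset_of_forall_sdiff_eq_zero (s := ⋃ l ∈ T, I l) measurableSet_Ico
      (Set.iUnion₂_subset hIsub) ?_]
    · refine integral_biUnion_finset T (fun l _ => measurableSet_Ico) ?_ (fun l hl => hint2.mono_set (hIsub l hl))
      intro l hl l' hl' hn
      exact arcc_Ico (m + L) _ _ (fun h => hn (by omega))
    · intro θ hθ
      refine h0 _ (mem_sphere_zero_iff_norm.1 (circleMap_mem_sphere 0 zero_le_one θ)) fun l hl hc => hθ.2 ?_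
      rw [hCI] at hc
      obtain ⟨θ', hθ', he⟩ := hc
      have : θ' = θ := hinjc (hIsub l hl hθ') hθ.1 he
      rw [← this]
      exact Set.mem_iUnion₂.2 ⟨l, hl, hθ'⟩
  rw [hA, hBint, Finset.mul_sum, ← Finset.sum_sub_distrib]
  refine (Finset.abs_sum_le_sum_abs _ _).trans ?_
  have hterm : ∀ l ∈ T, |∫ ζ in Ar (m + L) (2 ^ L * j + l), H ζ ∂ν - a / (2 * Real.pi / 2 ^ m) * ∫ θ in I l, H (circleMap 0 1 θ)| ≤
      a * (3 * η / 2 ^ L + B * (1 / 8) ^ L) := by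
    intro l hl
    have hl2 := Finset.mem_range.1 (hT hl)
    set θ0 : ℝ := 2 * Real.pi * ((2 ^ L * j + l : ℕ) : ℝ) / 2 ^ (m + L) with hθ0
    have hle : θ0 ≤ 2 * Real.pi * (((2 ^ L * j + l : ℕ) : ℝ) + 1) / 2 ^ (m + L) := by
      rw [hθ0]
      apply div_le_div_of_nonneg_right _ (by positivity)
      apply mul_le_mul_of_nonneg_left _ (by positivity)
      linarith
    have hlt : θ0 < 2 * Real.pi * (((2 ^ L * j + l : ℕ) : ℝ) + 1) / 2 ^ (m + L) := by
      rw [hθ0]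
      apply div_lt_div_of_pos_right _ (by positivity)
      apply mul_lt_mul_of_pos_left _ (by positivity)
      linarith
    have hθI : θ0 ∈ I l := ⟨le_rfl, hlt⟩
    set ω : ℂ := circleMap 0 1 θ0 with hω
    have hωC : ω ∈ Ar (m + L) (2 ^ L * j + l) := by
      rw [hCI]
      exact ⟨θ0, hθI, rfl⟩
    have hωn : ‖ω‖ = 1 := mem_sphere_zero_iff_norm.1 (hsph l hωC)
    have hB' := hB ω hωn
    set v : ℝ := (ν (Ar (m + L) (2 ^ L * j + l))).toReal with hv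
    have hv0 : 0 ≤ v := ENNReal.toReal_nonneg
    have h1 : |∫ ζ in Ar (m + L) (2 ^ L * j + l), H ζ ∂ν - H ω * v| ≤ η * v :=
      arcc_cell ν _ (measure_lt_top ν _) H (hint.mono_set (hsph l)) η (H ω) (fun ζ hζ => hosc l hl ζ hζ ω hωC)
    have hvol : volume.real (I l) = 2 * Real.pi / 2 ^ (m + L) := by
      rw [hI]
      simp only
      rw [Real.volume_real_Ico_of_le hle]
      ring
    have hvt : volume (I l) < ⊤ := by
      rw [hI]
      exact measure_Ico_lt_top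
    have h2 : |(∫ θ in I l, H (circleMap 0 1 θ)) - H ω * (2 * Real.pi / 2 ^ (m + L))| ≤ η * (2 * Real.pi / 2 ^ (m + L)) := by
      rw [← hvol]
      refine arcc_cell volume _ hvt _ (hint2.mono_set (hIsub l hl)) η (H ω) (fun θ hθ => hosc l hl _ ?_ ω hωC)
      rw [hCI]
      exact ⟨θ, hθ, rfl⟩
    have h3 := hcell l hl2
    have hpow : ((1:ℝ) / 8) ^ L ≤ 1 / 2 ^ L := by
      rw [← one_div_pow]
      exact pow_le_pow_left₀ (by norm_num) (by norm_num) L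
    have e1 : a / (2 * Real.pi / 2 ^ m) * (2 * Real.pi / 2 ^ (m + L)) = a / 2 ^ L := by
      rw [pow_add]
      field_simp
    have hcoef : 0 ≤ a / (2 * Real.pi / 2 ^ m) := by positivity
    have h4 : |a / (2 * Real.pi / 2 ^ m) * (∫ θ in I l, H (circleMap 0 1 θ)) - H ω * (a / 2 ^ L)| ≤ η * (a / 2 ^ L) := by
      have e2 : a / (2 * Real.pi / 2 ^ m) * (∫ θ in I l, H (circleMap 0 1 θ)) - H ω * (a / 2 ^ L) =
          a / (2 * Real.pi / 2 ^ m) * ((∫ θ in I l, H (circleMap 0 1 θ)) - H ω * (2 * Real.pi / 2 ^ (m + L))) := by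
        rw [← e1]
        ring
      rw [e2, abs_mul, abs_of_nonneg hcoef]
      calc a / (2 * Real.pi / 2 ^ m) * |(∫ θ in I l, H (circleMap 0 1 θ)) - H ω * (2 * Real.pi / 2 ^ (m + L))| ≤
          a / (2 * Real.pi / 2 ^ m) * (η * (2 * Real.pi / 2 ^ (m + L))) := mul_le_mul_of_nonneg_left h2 hcoef
        _ = η * (a / (2 * Real.pi / 2 ^ m) * (2 * Real.pi / 2 ^ (m + L))) := by ring
        _ = η * (a / 2 ^ L) := by rw [e1]
    have hB0 : 0 ≤ B := (abs_nonneg _).trans hB'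
    have h5 : |H ω * (v - a / 2 ^ L)| ≤ B * (a * (1 / 8) ^ L) := by
      rw [abs_mul]
      exact mul_le_mul hB' h3 (abs_nonneg _) hB0
    have h6 : v ≤ a / 2 ^ L + a * (1 / 8) ^ L := by
      have := (abs_le.1 h3).2
      linarith
    have h7 : a * (1 / 8) ^ L ≤ a / 2 ^ L := by
      calc a * (1 / 8) ^ L ≤ a * (1 / 2 ^ L) := mul_le_mul_of_nonneg_left hpow ha0
        _ = a / 2 ^ L := by ring
    have h8 : η * v ≤ η * (2 * (a / 2 ^ L)) := mul_le_mul_of_nonneg_left (by linarith) hη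
    have e3 : ∫ ζ in Ar (m + L) (2 ^ L * j + l), H ζ ∂ν - a / (2 * Real.pi / 2 ^ m) * ∫ θ in I l, H (circleMap 0 1 θ) =
        (∫ ζ in Ar (m + L) (2 ^ L * j + l), H ζ ∂ν - H ω * v) + H ω * (v - a / 2 ^ L) -
          (a / (2 * Real.pi / 2 ^ m) * (∫ θ in I l, H (circleMap 0 1 θ)) - H ω * (a / 2 ^ L)) := by
      ring
    rw [e3]
    have h9 := abs_sub (∫ ζ in Ar (m + L) (2 ^ L * j + l), H ζ ∂ν - H ω * v + H ω * (v - a / 2 ^ L))
      (a / (2 * Real.pi / 2 ^ m) * (∫ θ in I l, H (circleMap 0 1 θ)) - H ω * (a / 2 ^ L))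
    have h10 := abs_add_le (∫ ζ in Ar (m + L) (2 ^ L * j + l), H ζ ∂ν - H ω * v) (H ω * (v - a / 2 ^ L))
    calc _ ≤ η * v + B * (a * (1 / 8) ^ L) + η * (a / 2 ^ L) := by linarith
      _ ≤ η * (2 * (a / 2 ^ L)) + B * (a * (1 / 8) ^ L) + η * (a / 2 ^ L) := by linarith
      _ = a * (3 * η / 2 ^ L + B * (1 / 8) ^ L) := by ring
  calc ∑ l ∈ T, |∫ ζ in Ar (m + L) (2 ^ L * j + l), H ζ ∂ν - a / (2 * Real.pi / 2 ^ m) * ∫ θ in I l, H (circleMap 0 1 θ)| ≤
      ∑ l ∈ T, a * (3 * η / 2 ^ L + B * (1 / 8) ^ L) := Finset.sum_le_sum hterm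
    _ = T.card * a * (3 * η / 2 ^ L + B * (1 / 8) ^ L) := by
      rw [Finset.sum_const, nsmul_eq_mul]
      ring

end Pool.Agent.DimDropH
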