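import Pool.Agent.Lib_MP_644907_h.NF

/-!
# Piece ATOM: no atoms
-/

set_option autoImplicit false

open Complex MeasureTheory Metric Filter
open scoped Topology

namespace Pool.Agent.DimDropH

open Pool.Agent.DimDrop (IsoD)
open Pool.Agent.DimDropF (IG mb dmb)

variable {Γ : Type} [Group Γ]

private theorem atom_fin (ν : Measure ℂ) (hν : IsProbabilityMeasure ν) (a : ENNReal) (ha : 0 < a) : {ξ : ℂ | a ≤ ν {ξ}}.Finite := by
  refine Measure.finite_const_le_meas_of_disjoint_iUnion ν ha (As := fun ξ : ℂ => {ξ}) (fun ξ => measurableSet_singleton ξ) ?_ (measure_ne_top ν _)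
  intro x y hxy
  exact Set.disjoint_singleton.2 hxy

/-- Otherwise let `a > 0` be the maximal mass of a point and `Z` the finite nonempty set of the points of mass `a` (on the circle). `ν {ζ} = ∑ p i ν (f (e i)⁻¹' {ζ})`, and on the circle `f (e i)⁻¹' {ζ}` is the point `f (e i)⁻¹ ζ`: so `ζ ∈ Z` implies
`f (e i)⁻¹ ζ ∈ Z` for all `i`; the finite set `Z` is mapped injectively into itself by the `f (e i)⁻¹`, so it is invariant under the `f (e i)` and by `gen` under all `f γ`: `no_finite`. -/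
theorem no_atoms {n : ℕ} (A : IG Γ) (R : RW Γ n) (ν : Measure ℂ) (hν : IsProbabilityMeasure ν) (hs : ν (sphere (0:ℂ) 1)ᶜ = 0)
    (stat : ∀ E : Set ℂ, MeasurableSet E → ν E = ∑ i, ENNReal.ofReal (R.p i) * ν (A.f (R.e i) ⁻¹' E)) (ζ : ℂ) : ν {ζ} = 0 := by
  classical
  by_contra hne
  have hcirc : ∀ ξ : ℂ, ν {ξ} ≠ 0 → ‖ξ‖ = 1 := by
    intro ξ h
    by_contra h1
    apply h
    refine measure_mono_null ?_ hs
    intro w hw
    rw [Set.mem_singleton_iff.1 hw, Set.mem_compl_iff, mem_sphere_zero_iff_norm]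
    exact h1
  obtain ⟨ζm, hζm, hmax⟩ := Set.exists_max_image {ξ : ℂ | ν {ζ} ≤ ν {ξ}} (fun ξ => ν {ξ}) (atom_fin ν hν _ (pos_iff_ne_zero.2 hne))
    ⟨ζ, le_refl (ν {ζ})⟩
  have hζm' : ν {ζ} ≤ ν {ζm} := hζm
  have hle : ∀ ξ : ℂ, ν {ξ} ≤ ν {ζm} := by
    intro ξ
    by_cases h : ν {ζ} ≤ ν {ξ}
    · exact hmax ξ h
    · exact (not_le.1 h).le.trans hζm'
  have hm0 : ν {ζm} ≠ 0 := fun h => hne (nonpos_iff_eq_zero.1 (h ▸ hζm'))
  have hZf : {ξ : ℂ | ν {ξ} = ν {ζm}}.Finite := by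
    refine (atom_fin ν hν _ (pos_iff_ne_zero.2 hm0)).subset ?_
    intro ξ hξ
    exact (show ν {ξ} = ν {ζm} from hξ).ge
  have hZ1 : ∀ ξ ∈ {ξ : ℂ | ν {ξ} = ν {ζm}}, ‖ξ‖ = 1 := by
    intro ξ hξ
    apply hcirc
    rw [show ν {ξ} = ν {ζm} from hξ]
    exact hm0
  -- one step backwards
  have hback : ∀ ξ ∈ {ξ : ℂ | ν {ξ} = ν {ζm}}, ∀ i, A.f (R.e i)⁻¹ ξ ∈ {ξ : ℂ | ν {ξ} = ν {ζm}} := by
    intro ξ hξ
    have hξ' : ν {ξ} = ν {ζm} := hξ
    have hb : ∀ i, ν (A.f (R.e i) ⁻¹' {ξ}) ≤ ν {A.f (R.e i)⁻¹ ξ} := by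
      intro i
      have h1 : A.f (R.e i) ⁻¹' {ξ} ⊆ {A.f (R.e i)⁻¹ ξ} ∪ (sphere (0:ℂ) 1)ᶜ := by
        intro w hw
        have hw' : A.f (R.e i) w = ξ := hw
        by_cases h : w ∈ sphere (0:ℂ) 1
        · left
          rw [Set.mem_singleton_iff, ← hw']
          exact (f_inv A (R.e i) w (le_of_eq (mem_sphere_zero_iff_norm.1 h))).symm
        · right
          exact h
      calc ν (A.f (R.e i) ⁻¹' {ξ}) ≤ ν ({A.f (R.e i)⁻¹ ξ} ∪ (sphere (0:ℂ) 1)ᶜ) := measure_mono h1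
        _ ≤ ν {A.f (R.e i)⁻¹ ξ} + ν (sphere (0:ℂ) 1)ᶜ := measure_union_le _ _
        _ = ν {A.f (R.e i)⁻¹ ξ} := by rw [hs, add_zero]
    have hst := stat {ξ} (measurableSet_singleton ξ)
    -- real numbers
    have htr : ν.real {ζm} = ∑ i, R.p i * ν.real (A.f (R.e i) ⁻¹' {ξ}) := by
      have h := congrArg ENNReal.toReal hst
      rw [hξ', ENNReal.toReal_sum (fun i _ => ENNReal.mul_ne_top ENNReal.ofReal_ne_top (measure_ne_top ν _))] at h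
      rw [show ν.real {ζm} = (ν {ζm}).toReal from rfl, h]
      refine Finset.sum_congr rfl fun i _ => ?_
      rw [ENNReal.toReal_mul, ENNReal.toReal_ofReal (R.hp i).le]
      rfl
    have hbr : ∀ i, ν.real (A.f (R.e i) ⁻¹' {ξ}) ≤ ν.real {A.f (R.e i)⁻¹ ξ} := fun i =>
      ENNReal.toReal_mono (measure_ne_top ν _) (hb i)
    have hbr2 : ∀ i, ν.real {A.f (R.e i)⁻¹ ξ} ≤ ν.real {ζm} := fun i =>
      ENNReal.toReal_mono (measure_ne_top ν _) (hle _)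
    have hsum0 : ∑ i, R.p i * (ν.real {ζm} - ν.real (A.f (R.e i) ⁻¹' {ξ})) = 0 := by
      have e : ∑ i, R.p i * (ν.real {ζm} - ν.real (A.f (R.e i) ⁻¹' {ξ})) =
          (∑ i, R.p i) * ν.real {ζm} - ∑ i, R.p i * ν.real (A.f (R.e i) ⁻¹' {ξ}) := by
        rw [Finset.sum_mul, ← Finset.sum_sub_distrib]
        exact Finset.sum_congr rfl fun i _ => by ring
      rw [e, R.hp1, ← htr]
      ring
    have hz := (Finset.sum_eq_zero_iff_of_nonneg (fun i _ => mul_nonneg (R.hp i).le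
      (sub_nonneg.2 ((hbr i).trans (hbr2 i))))).1 hsum0
    intro i
    have hi := hz i (Finset.mem_univ i)
    have hi2 : ν.real {ζm} - ν.real (A.f (R.e i) ⁻¹' {ξ}) = 0 := by
      rcases mul_eq_zero.1 hi with h | h
      · exact absurd h (R.hp i).ne'
      · exact h
    have hi3 : ν.real {A.f (R.e i)⁻¹ ξ} = ν.real {ζm} := le_antisymm (hbr2 i) (by linarith [hbr i])
    change ν {A.f (R.e i)⁻¹ ξ} = ν {ζm}
    exact (ENNReal.toReal_eq_toReal_iff' (measure_ne_top ν _) (measure_ne_top ν _)).1 hi3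
  -- the maps are injective, hence surjective
  have hforw : ∀ ξ ∈ {ξ : ℂ | ν {ξ} = ν {ζm}}, ∀ i, A.f (R.e i) ξ ∈ {ξ : ℂ | ν {ξ} = ν {ζm}} := by
    intro ξ hξ i
    have hmaps : Set.MapsTo (A.f (R.e i)⁻¹) (hZf.toFinset : Set ℂ) (hZf.toFinset : Set ℂ) := by
      intro w hw
      rw [Set.Finite.coe_toFinset] at hw ⊢
      exact hback w hw i
    have hinj : Set.InjOn (A.f (R.e i)⁻¹) (hZf.toFinset : Set ℂ) := by
      intro w hw w' hw' h
      rw [Set.Finite.coe_toFinset] at hw hw'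
      rw [← f_inv' A (R.e i) w (hZ1 w hw).le, ← f_inv' A (R.e i) w' (hZ1 w' hw').le, h]
    have hsurj := Finset.surjOn_of_injOn_of_card_le _ hmaps hinj le_rfl
    obtain ⟨w, hw, hwξ⟩ := hsurj (show ξ ∈ (hZf.toFinset : Set ℂ) by rw [Set.Finite.coe_toFinset]; exact hξ)
    rw [Set.Finite.coe_toFinset] at hw
    rw [← hwξ, f_inv' A (R.e i) w (hZ1 w hw).le]
    exact hw
  refine no_finite A {ξ : ℂ | ν {ξ} = ν {ζm}} hZf ⟨ζm, rfl⟩ hZ1 ?_
  intro γ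
  refine R.gen {γ | ∀ ξ ∈ {ξ : ℂ | ν {ξ} = ν {ζm}}, A.f γ ξ ∈ {ξ : ℂ | ν {ξ} = ν {ζm}}} ?_ ?_ γ
  · intro i ξ hξ
    exact hforw ξ hξ i
  · intro x hx y hy ξ hξ
    rw [A.mul' x y ξ (hZ1 ξ hξ).le]
    exact hx _ (hy ξ hξ)

end Pool.Agent.DimDropH
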