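import Pool.Agent.Lib_MP_644907_h.BDDA

/-!
# Piece BDD: bounded density, upper bound of the Green function
-/

set_option autoImplicit false

open Complex MeasureTheory Metric Filter
open scoped Topology

namespace Pool.Agent.DimDropH

open Pool.Agent.DimDrop (IsoD)
open Pool.Agent.DimDropF (IG mb dmb)

private theorem bdd_ind_meas (E : Set ℂ) (hE : MeasurableSet E) : Measurable (ind E) := by
  unfold ind
  exact measurable_const.indicator hE

private theorem bdd_ind_abs (E : Set ℂ) (ζ : ℂ) : |ind E ζ| ≤ 1 := by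
  unfold ind
  by_cases h : ζ ∈ E
  · rw [Set.indicator_of_mem h]; norm_num
  · rw [Set.indicator_of_notMem h]; norm_num

private theorem bdd_ind_nonneg (E : Set ℂ) (ζ : ℂ) : 0 ≤ ind E ζ := by
  unfold ind
  by_cases h : ζ ∈ E
  · rw [Set.indicator_of_mem h]; norm_num
  · rw [Set.indicator_of_notMem h]

/-- integral of a bump function over the circle -/
private theorem bdd_int (q : ℂ) (r : ℝ) (hr : 0 < r) (hr1 : r ≤ 1 / 4) (F : ℂ → ℝ) (hF : Continuous F) (hF0 : ∀ ζ, 0 ≤ F ζ)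
    (hF1 : ∀ ζ, F ζ ≤ 1) (hz : ∀ ζ : ℂ, 2 * r < ‖ζ - q‖ → F ζ = 0) :
    ∫ θ in (0:ℝ)..(2 * Real.pi), F (circleMap 0 1 θ) ≤ 128 * r := by
  by_cases hex : ∃ η : ℂ, ‖η‖ = 1 ∧ ‖η - q‖ ≤ 2 * r
  · obtain ⟨η, hη, hηq⟩ := hex
    have hp : ‖-η‖ = 1 := by rw [norm_neg, hη]
    have h2 : ‖η - -η‖ = 2 := by
      have h : η - -η = (2:ℂ) * η := by ring
      rw [h, norm_mul, hη]
      norm_num
    have hz' : ∀ ζ : ℂ, 4 * r < ‖ζ - η‖ → F ζ = 0 := by
      intro ζ hζ
      apply hz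
      have h3 : ‖ζ - η‖ ≤ ‖ζ - q‖ + ‖η - q‖ := by
        have h4 : ζ - η = (ζ - q) - (η - q) := by ring
        rw [h4]
        exact norm_sub_le _ _
      linarith
    have hlam := lam_le (-η) η hp hη 2 0 (4 * r) two_pos (by positivity) (by linarith) (by linarith) h2.ge F hF hF0 hF1
      (fun ζ hζ => by
        rcases hζ with hζ | hζ
        · exact absurd hζ (not_lt.mpr (norm_nonneg _))
        · exact hz' ζ hζ)
    have hzp : ∀ ζ : ℂ, ‖ζ - -η‖ < 1 → F ζ = 0 := by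
      intro ζ hζ
      apply hz'
      have h3 : ‖η - -η‖ ≤ ‖ζ - -η‖ + ‖ζ - η‖ := by
        have h4 : η - -η = (ζ - -η) - (ζ - η) := by ring
        rw [h4]
        exact norm_sub_le _ _
      linarith
    have hFint : IntervalIntegrable (fun θ : ℝ => F (circleMap 0 1 θ)) volume 0 (2 * Real.pi) :=
      (hF.comp (continuous_circleMap 0 1)).intervalIntegrable _ _
    have hint1 : IntervalIntegrable (fun θ : ℝ => F (circleMap 0 1 θ) / ‖circleMap 0 1 θ - -η‖ ^ 2) volume 0 (2 * Real.pi) := by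
      apply hFint.mono_fun'
      · apply Measurable.aestronglyMeasurable
        exact (hF.comp (continuous_circleMap 0 1)).measurable.div
          ((((continuous_circleMap 0 1).sub continuous_const).norm.pow 2).measurable)
      · refine Filter.Eventually.of_forall fun θ => ?_
        show ‖F (circleMap 0 1 θ) / ‖circleMap 0 1 θ - -η‖ ^ 2‖ ≤ F (circleMap 0 1 θ)
        rw [Real.norm_of_nonneg (div_nonneg (hF0 _) (by positivity))]
        by_cases h : ‖circleMap 0 1 θ - -η‖ < 1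
        · rw [hzp _ h, zero_div]
        · push Not at h
          exact div_le_self (hF0 _) (one_le_pow₀ h)
    have hle : ∫ θ in (0:ℝ)..(2 * Real.pi), F (circleMap 0 1 θ) ≤
        ∫ θ in (0:ℝ)..(2 * Real.pi), 4 * (F (circleMap 0 1 θ) / ‖circleMap 0 1 θ - -η‖ ^ 2) := by
      apply intervalIntegral.integral_mono_on (by positivity) hFint (hint1.const_mul 4)
      intro θ _
      by_cases h : ‖circleMap 0 1 θ - -η‖ < 1
      · rw [hzp _ h, zero_div, mul_zero]
      · push Not at h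
        have h5 : ‖circleMap 0 1 θ - -η‖ ≤ 2 := by
          have h6 : ‖circleMap 0 1 θ‖ = 1 := by simp [circleMap]
          have h7 := norm_sub_le (circleMap 0 1 θ) (-η)
          rw [h6, hp] at h7
          linarith
        have h8 : ‖circleMap 0 1 θ - -η‖ ^ 2 ≤ 4 := by nlinarith [norm_nonneg (circleMap 0 1 θ - -η)]
        have h9 : 0 < ‖circleMap 0 1 θ - -η‖ ^ 2 := by positivity
        rw [mul_div_assoc', le_div_iff₀ h9]
        nlinarith [hF0 (circleMap 0 1 θ)]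
    rw [intervalIntegral.integral_const_mul] at hle
    unfold lam at hlam
    linarith
  · push Not at hex
    have h0 : ∫ θ in (0:ℝ)..(2 * Real.pi), F (circleMap 0 1 θ) = 0 := by
      have : ∀ θ : ℝ, F (circleMap 0 1 θ) = 0 := fun θ => hz _ (hex _ (by simp [circleMap]))
      simp only [this]
      simp
    rw [h0]
    positivity

namespace WD

variable {Γ : Type} [Group Γ] {n : ℕ} (W : WD Γ n)

/-- small balls (an arc in a ball of radius `r` has angle measure at most `4 r`; use a continuous function between the ball of radius `r` and the ball of radius `2 r`) -/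
theorem bdd_ball (p : ℂ) (x : ℕ → Γ) (c : ℕ → ℝ) (hT : W.Tangent p x c) (γ : Γ) (hγ : W.A.f γ p ≠ p) :
    ∃ C : ℝ, 0 < C ∧ ∀ (q : ℂ) (r : ℝ), 0 < r → W.nu 1 (ind (closedBall q r)) ≤ C * r := by
  obtain ⟨C₀, hC0, h0⟩ := W.bdd p x c hT γ hγ
  refine ⟨128 * C₀ + 4, by positivity, ?_⟩
  intro q r hr
  have hm : Measurable (ind (closedBall q r)) := bdd_ind_meas _ measurableSet_closedBall
  by_cases hr1 : r ≤ 1 / 4
  · set F : ℂ → ℝ := fun ζ => min 1 (max 0 (2 - ‖ζ - q‖ / r)) with hF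
    have hFc : Continuous F := by
      rw [hF]
      fun_prop
    have hF0 : ∀ ζ, 0 ≤ F ζ := fun ζ => le_min zero_le_one (le_max_left _ _)
    have hF1 : ∀ ζ, F ζ ≤ 1 := fun ζ => min_le_left _ _
    have hz : ∀ ζ : ℂ, 2 * r < ‖ζ - q‖ → F ζ = 0 := by
      intro ζ hζ
      have h1 : 2 - ‖ζ - q‖ / r ≤ 0 := by
        rw [sub_nonpos, le_div_iff₀ hr]
        exact hζ.le
      simp only [hF]
      rw [max_eq_left h1]
      exact min_eq_right zero_le_one
    have hle : ∀ ζ : ℂ, ind (closedBall q r) ζ ≤ F ζ := by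
      intro ζ
      unfold ind
      by_cases h : ζ ∈ closedBall q r
      · rw [Set.indicator_of_mem h]
        have h1 : ‖ζ - q‖ ≤ r := mem_closedBall_iff_norm.mp h
        have h2 : ‖ζ - q‖ / r ≤ 1 := by rw [div_le_one hr]; exact h1
        have h3 : (1:ℝ) ≤ 2 - ‖ζ - q‖ / r := by linarith
        exact le_min le_rfl (h3.trans (le_max_right _ _))
      · rw [Set.indicator_of_notMem h]
        exact hF0 ζ
    have h1 := W.nu_mono 1 (ind (closedBall q r)) F hm hFc.measurable 1 (bdd_ind_abs _)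
      (fun ζ => by rw [abs_of_nonneg (hF0 ζ)]; exact hF1 ζ) (fun ζ _ => hle ζ)
    have h2 := h0 F hFc hF0
    have h3 := bdd_int q r hr hr1 F hFc hF0 hF1 hz
    have h4 := mul_le_mul_of_nonneg_left h3 hC0.le
    calc W.nu 1 (ind (closedBall q r)) ≤ W.nu 1 F := h1
      _ ≤ C₀ * ∫ θ in (0:ℝ)..(2 * Real.pi), F (circleMap 0 1 θ) := h2
      _ ≤ C₀ * (128 * r) := h4
      _ ≤ (128 * C₀ + 4) * r := by nlinarith
  · push Not at hr1
    have h1 := W.nu_le 1 (ind (closedBall q r)) hm 1 (bdd_ind_abs _)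
    have h2 := (le_abs_self _).trans h1
    have h3 : 0 < C₀ * r := mul_pos hC0 hr
    nlinarith

/-- from an upper bound of `ν` on balls: `G(1, w) ν_w(E) ≤ g(1) ν_1(E)`, `E = {‖ζ - z_w‖ ≤ K δ_w}`, `ν_w(E) ≥ 1/2` -/
theorem green_up (C : ℝ) (hC : 0 < C) (hb : ∀ (q : ℂ) (r : ℝ), 0 < r → W.nu 1 (ind (closedBall q r)) ≤ C * r) :
    ∃ C' : ℝ, 0 < C' ∧ ∀ w, W.R.green w ≤ C' * del W.A w := by
  have ht := W.trans
  obtain ⟨K, hK, hK2⟩ := W.conc' (1 / 2) (by norm_num)
  have hg1 : 0 < W.R.green 1 := W.R.green_pos ht 1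
  refine ⟨2 * W.R.green 1 * C * K, by positivity, ?_⟩
  intro w
  have hdel := del_pos W.A w
  set E : Set ℂ := {ζ | ‖ζ - zz W.A w‖ ≤ K * del W.A w} with hE
  have hEb : E = closedBall (zz W.A w) (K * del W.A w) := by
    ext ζ
    exact mem_closedBall_iff_norm.symm
  have hEm : MeasurableSet E := by rw [hEb]; exact measurableSet_closedBall
  have hm := bdd_ind_meas E hEm
  have hle := W.R.green_le ht (fun y => W.nu y (ind E)) (fun y => W.nu_nonneg y _ (fun ζ _ => bdd_ind_nonneg E ζ))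
    (fun y => (W.nu_harm (ind E) hm 1 (bdd_ind_abs E) y).le) 1 w
  simp only [inv_one, one_mul] at hle
  have h1 := hK2 w
  have h2 := hb (zz W.A w) (K * del W.A w) (by positivity)
  rw [← hEb] at h2
  have h3 : (1:ℝ) / 2 ≤ W.nu w (ind E) := by linarith
  have hgw : 0 < W.R.green w := W.R.green_pos ht w
  have h4 : W.R.green w * (1 / 2) ≤ W.R.green w * W.nu w (ind E) := mul_le_mul_of_nonneg_left h3 hgw.le
  have h5 : W.R.green 1 * W.nu 1 (ind E) ≤ W.R.green 1 * (C * (K * del W.A w)) := mul_le_mul_of_nonneg_left h2 hg1.le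
  nlinarith

/-- `ν_x(‖ζ - ξ‖ ≤ d ρ) = ν(‖f_x ζ - ξ‖ ≤ d ρ) ≤ ν(closedBall (f_x⁻¹ ξ) (4 d))` by `pull_ball` -/
theorem nux_ball (C : ℝ) (hC : 0 < C) (hb : ∀ (q : ℂ) (r : ℝ), 0 < r → W.nu 1 (ind (closedBall q r)) ≤ C * r)
    (x : Γ) (ξ : ℂ) (hξ : ‖ξ‖ = 1) (ρ d : ℝ) (hρ : 0 < ρ) (hd : 0 < d) (hd2 : d ≤ 1 / 2) (hx : ρ ≤ ‖zz W.A x - ξ‖) :
    W.nu x (ind {ζ | ‖ζ - ξ‖ ≤ d * ρ}) ≤ C * (4 * d) := by
  have h1 := hb (W.A.f x⁻¹ ξ) (4 * d) (by positivity)
  refine le_trans ?_ h1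
  have hEb : {ζ : ℂ | ‖ζ - ξ‖ ≤ d * ρ} = closedBall ξ (d * ρ) := by
    ext ζ
    exact mem_closedBall_iff_norm.symm
  have hm1 : Measurable (ind {ζ : ℂ | ‖ζ - ξ‖ ≤ d * ρ}) := by
    apply bdd_ind_meas
    rw [hEb]
    exact measurableSet_closedBall
  have hm2 : Measurable (ind (closedBall (W.A.f x⁻¹ ξ) (4 * d))) := bdd_ind_meas _ measurableSet_closedBall
  unfold nu
  apply integral_mono_ae (W.integrable x _ hm1 1 (bdd_ind_abs _)) (W.integrable 1 _ hm2 1 (bdd_ind_abs _))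
  filter_upwards [W.ae_circle] with ζ hζ
  rw [W.A.one' ζ hζ.le]
  unfold ind
  by_cases h : W.A.f x ζ ∈ {ζ : ℂ | ‖ζ - ξ‖ ≤ d * ρ}
  · rw [Set.indicator_of_mem h]
    have h2 := pull_ball W.A x ξ hξ ρ d hρ hd hd2 hx ζ hζ h
    have h3 : ζ ∈ closedBall (W.A.f x⁻¹ ξ) (4 * d) := by
      rw [mem_closedBall_iff_norm]
      exact h2
    rw [Set.indicator_of_mem h3]
  · rw [Set.indicator_of_notMem h]
    exact Set.indicator_nonneg (fun _ _ => zero_le_one) _

end WD

end Pool.Agent.DimDropH
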