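import Pool.Agent.Lib_MP_644907_h.CHVA

/-!
# Piece CHV: change of variables on the circle, and the images of a tangent situation
-/

set_option autoImplicit false

open Complex MeasureTheory Metric Filter
open scoped Topology

namespace Pool.Agent.DimDropH

open Pool.Agent.DimDrop (IsoD)
open Pool.Agent.DimDropF (IG mb dmb)

variable {Γ : Type} [Group Γ] (A : IG Γ)

/-- the measure `|ζ - p|^(-2) dθ` is conformally covariant: `|f ζ - f p|` and `|ζ - p|` are related by `bd2` (`ξ = p`), so with `ω = f ζ`, `p' = f p`: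
`F(f ζ) / |ζ - p|^2 = F ω |ω - z|^2 |p' - z|^2 / (|ω - p'|^2 δ^2)`, and `push_angle` with `H ω = F ω |ω - z|^2 |p' - z|^2 / (|ω - p'|^2 δ^2)` (continuous because `F` vanishes near `p'`). The factor is
`s = |p' - z|^2 / δ`. -/
theorem push_lam (γ : Γ) (p : ℂ) (hp : ‖p‖ = 1) (F : ℂ → ℝ) (hF : Continuous F) (κ : ℝ) (hκ : 0 < κ) (h0 : ∀ ζ : ℂ, ‖ζ - A.f γ p‖ < κ → F ζ = 0) :
    ∫ θ in (0:ℝ)..(2 * Real.pi), F (A.f γ (circleMap 0 1 θ)) / ‖circleMap 0 1 θ - p‖ ^ 2 =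
      (‖A.f γ p - zz A γ‖ ^ 2 / del A γ) *
        ∫ θ in (0:ℝ)..(2 * Real.pi), F (circleMap 0 1 θ) / ‖circleMap 0 1 θ - A.f γ p‖ ^ 2 := by
  have hδ := del_pos A γ
  have hz := zz_lt A γ
  obtain ⟨p', hp'⟩ : ∃ p', p' = A.f γ p := ⟨_, rfl⟩
  rw [← hp'] at h0 ⊢
  have hFp : F p' = 0 := h0 p' (by simpa using hκ)
  have hne : ∀ ω : ℂ, ‖ω‖ = 1 → 0 < ‖ω - zz A γ‖ := by
    intro ω hω
    rw [norm_pos_iff, sub_ne_zero]
    rintro rfl
    linarith
  have hcirc : ∀ θ : ℝ, ‖circleMap 0 1 θ‖ = 1 := by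
    intro θ
    simp [norm_circleMap_zero]
  have hH : Continuous (fun ω : ℂ => F ω * (‖ω - zz A γ‖ ^ 2 * ‖p' - zz A γ‖ ^ 2) / (‖ω - p'‖ ^ 2 * del A γ ^ 2)) := by
    rw [continuous_iff_continuousAt]
    intro ω
    by_cases hω : ω = p'
    · have h1 : (fun ω : ℂ => F ω * (‖ω - zz A γ‖ ^ 2 * ‖p' - zz A γ‖ ^ 2) / (‖ω - p'‖ ^ 2 * del A γ ^ 2)) =ᶠ[𝓝 ω]
          fun _ => 0 := by
        rw [hω]
        filter_upwards [Metric.ball_mem_nhds p' hκ] with ζ hζ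
        rw [mem_ball, dist_eq_norm] at hζ
        rw [h0 ζ hζ]
        simp
      exact continuousAt_const.congr h1.symm
    · have h2 : ‖ω - p'‖ ^ 2 * del A γ ^ 2 ≠ 0 := by
        have : ‖ω - p'‖ ≠ 0 := norm_ne_zero_iff.2 (sub_ne_zero.2 hω)
        positivity
      have c1 : ContinuousAt (fun ω : ℂ => F ω * (‖ω - zz A γ‖ ^ 2 * ‖p' - zz A γ‖ ^ 2)) ω := by
        fun_prop
      have c2 : ContinuousAt (fun ω : ℂ => ‖ω - p'‖ ^ 2 * del A γ ^ 2) ω := by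
        fun_prop
      exact c1.div c2 h2
  have h1 := push_angle A γ _ hH
  have h2 : ∀ θ : ℝ, F (A.f γ (circleMap 0 1 θ)) / ‖circleMap 0 1 θ - p‖ ^ 2 =
      F (A.f γ (circleMap 0 1 θ)) * (‖A.f γ (circleMap 0 1 θ) - zz A γ‖ ^ 2 * ‖p' - zz A γ‖ ^ 2) /
        (‖A.f γ (circleMap 0 1 θ) - p'‖ ^ 2 * del A γ ^ 2) := by
    intro θ
    have hb := bd2 A γ (circleMap 0 1 θ) p (hcirc θ) hp
    rw [← hp'] at hb
    have n1 := hne _ (norm_f_eq A γ _ (hcirc θ))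
    have n2 : 0 < ‖p' - zz A γ‖ := by
      rw [hp']
      exact hne _ (norm_f_eq A γ _ hp)
    by_cases hω : A.f γ (circleMap 0 1 θ) = p'
    · rw [hω, hFp]
      simp
    · have n3 : 0 < ‖A.f γ (circleMap 0 1 θ) - p'‖ := norm_pos_iff.2 (sub_ne_zero.2 hω)
      have n4 : 0 < ‖circleMap 0 1 θ - p‖ := by
        by_contra hcon
        have h5 : ‖circleMap 0 1 θ - p‖ = 0 := le_antisymm (not_lt.1 hcon) (norm_nonneg _)
        rw [h5, zero_mul] at hb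
        have : 0 < ‖A.f γ (circleMap 0 1 θ) - p'‖ * del A γ := by positivity
        linarith
      rw [div_eq_div_iff (by positivity) (by positivity)]
      have h6 : ‖A.f γ (circleMap 0 1 θ) - p'‖ ^ 2 * del A γ ^ 2 =
          (‖A.f γ (circleMap 0 1 θ) - zz A γ‖ ^ 2 * ‖p' - zz A γ‖ ^ 2) * ‖circleMap 0 1 θ - p‖ ^ 2 := by
        rw [← mul_pow, ← hb]
        ring
      rw [h6]
      ring
  simp only [h2]
  rw [h1, ← intervalIntegral.integral_const_mul]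
  congr 1
  funext θ
  have n1 := hne _ (hcirc θ)
  by_cases hω : circleMap 0 1 θ = p'
  · rw [hω, hFp]
    simp
  · have n3 : 0 < ‖circleMap 0 1 θ - p'‖ := norm_pos_iff.2 (sub_ne_zero.2 hω)
    field_simp

/-- the image of a tangent situation: `ν_{γ x}(F) = ν_x(F ∘ f γ)`. `F ∘ f γ` is only continuous on the circle: extend it (e.g. Tietze, or `ζ ↦ ‖ζ‖ * F (f γ (ζ/‖ζ‖))` near the circle with a cutoff); it vanishes near `p`
on the circle and the extension can be chosen to vanish near `p`. -/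
theorem tangent_move {n : ℕ} (W : WD Γ n) (p : ℂ) (x : ℕ → Γ) (c : ℕ → ℝ) (hT : W.Tangent p x c) (γ : Γ) :
    W.Tangent (W.A.f γ p) (fun k => γ * x k) (fun k => c k * (‖W.A.f γ p - zz W.A γ‖ ^ 2 / del W.A γ)⁻¹) := by
  have hp := hT.hp
  have hp' := norm_f_eq W.A γ p hp
  have hδ := del_pos W.A γ
  have hz := zz_lt W.A γ
  have hne : 0 < ‖W.A.f γ p - zz W.A γ‖ := by
    rw [norm_pos_iff, sub_ne_zero]
    intro h
    rw [h] at hp'
    linarith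
  have hfac : 0 < ‖W.A.f γ p - zz W.A γ‖ ^ 2 / del W.A γ := by positivity
  have hcont := contOn_f W.A γ
  have hpc : p ∈ closedBall (0:ℂ) 1 := by
    rw [mem_closedBall, dist_zero_right, hp]
  -- the retraction to the closed disc
  have hr : Continuous (fun ζ : ℂ => (((max 1 ‖ζ‖)⁻¹ : ℝ) : ℂ) * ζ) := by
    have h1 : Continuous (fun ζ : ℂ => (max 1 ‖ζ‖)⁻¹) := by
      apply Continuous.inv₀ (by fun_prop)
      intro ζ
      have : (1:ℝ) ≤ max 1 ‖ζ‖ := le_max_left _ _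
      linarith
    exact (continuous_ofReal.comp h1).mul continuous_id
  have hrm : ∀ ζ : ℂ, (((max 1 ‖ζ‖)⁻¹ : ℝ) : ℂ) * ζ ∈ closedBall (0:ℂ) 1 := by
    intro ζ
    have h1 : (1:ℝ) ≤ max 1 ‖ζ‖ := le_max_left _ _
    rw [mem_closedBall, dist_zero_right, norm_mul, Complex.norm_real, Real.norm_eq_abs,
      abs_of_nonneg (by positivity), inv_mul_le_iff₀ (by linarith), mul_one]
    exact le_max_right _ _
  have hr1 : ∀ ζ : ℂ, ‖ζ‖ = 1 → (((max 1 ‖ζ‖)⁻¹ : ℝ) : ℂ) * ζ = ζ := by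
    intro ζ hζ
    rw [hζ]
    simp
  have hg : Continuous (fun ζ : ℂ => W.A.f γ ((((max 1 ‖ζ‖)⁻¹ : ℝ) : ℂ) * ζ)) :=
    hcont.comp_continuous hr hrm
  refine ⟨hp', fun k => mul_pos (hT.hc k) (inv_pos.2 hfac), ?_, ?_⟩
  · have h1 : ∀ k, zz W.A (γ * x k) = W.A.f γ (zz W.A (x k)) := by
      intro k
      unfold zz
      exact W.A.mul' γ (x k) 0 (by simp)
    simp only [h1]
    refine (hcont p hpc).tendsto.comp (tendsto_nhdsWithin_iff.2 ⟨hT.hx, Eventually.of_forall fun k => ?_⟩)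
    rw [mem_closedBall, dist_zero_right]
    exact (zz_lt W.A (x k)).le
  · rintro F hF ⟨κ, hκ, h0⟩
    obtain ⟨F', hF'⟩ : ∃ F' : ℂ → ℝ, F' = fun ζ : ℂ => F (W.A.f γ ((((max 1 ‖ζ‖)⁻¹ : ℝ) : ℂ) * ζ)) := ⟨_, rfl⟩
    have hF'c : Continuous F' := by
      rw [hF']
      exact hF.comp hg
    have hF'0 : ∃ κ' : ℝ, 0 < κ' ∧ ∀ ζ : ℂ, ‖ζ - p‖ < κ' → F' ζ = 0 := by
      obtain ⟨κ', hκ', h⟩ := Metric.continuousAt_iff.1 (hg.continuousAt (x := p)) κ hκ
      refine ⟨κ', hκ', fun ζ hζ => ?_⟩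
      have h2 := h (x := ζ) (by rwa [dist_eq_norm])
      simp only [hr1 p hp] at h2
      rw [dist_eq_norm] at h2
      rw [hF']
      exact h0 _ h2
    have h1 := hT.lim F' hF'c hF'0
    have hae : ∀ᵐ ζ ∂W.ν, ζ ∈ sphere (0:ℂ) 1 := mem_ae_iff.2 W.supp
    have h2 : ∀ k, W.nu (x k) F' = W.nu (γ * x k) F := by
      intro k
      unfold WD.nu
      apply integral_congr_ae
      filter_upwards [hae] with ζ hζ
      rw [mem_sphere, dist_zero_right] at hζ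
      rw [hF']
      dsimp only
      rw [hr1 _ (norm_f_eq W.A (x k) ζ hζ), W.A.mul' γ (x k) ζ hζ.le]
    have h3 : ∫ θ in (0:ℝ)..(2 * Real.pi), F' (circleMap 0 1 θ) / ‖circleMap 0 1 θ - p‖ ^ 2 =
        (‖W.A.f γ p - zz W.A γ‖ ^ 2 / del W.A γ) *
        ∫ θ in (0:ℝ)..(2 * Real.pi), F (circleMap 0 1 θ) / ‖circleMap 0 1 θ - W.A.f γ p‖ ^ 2 := by
      rw [← push_lam W.A γ p hp F hF κ hκ h0]
      congr 1
      funext θ
      rw [hF']
      dsimp only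
      rw [hr1 _ (by simp [norm_circleMap_zero])]
    rw [h3] at h1
    have h4 := h1.const_mul ((‖W.A.f γ p - zz W.A γ‖ ^ 2 / del W.A γ)⁻¹)
    rw [inv_mul_cancel_left₀ hfac.ne'] at h4
    refine h4.congr fun k => ?_
    rw [h2 k]
    ring

end Pool.Agent.DimDropH
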