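import Pool.Agent.Lib_MP_644907_h.STAN
import Pool.Agent.Lib_MP_644907_h.CHV

/-!
# Piece BDDA: bounded density
-/

set_option autoImplicit false

open Complex MeasureTheory Metric Filter
open scoped Topology

namespace Pool.Agent.DimDropH

open Pool.Agent.DimDrop (IsoD)
open Pool.Agent.DimDropF (IG mb dmb)

namespace WD

variable {Γ : Type} [Group Γ] {n : ℕ} (W : WD Γ n)

/-- truncation of a nonnegative continuous function outside of the circle -/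
private theorem bdda_trunc (F : ℂ → ℝ) (hF : Continuous F) (hF0 : ∀ ζ, 0 ≤ F ζ) :
    ∃ (B : ℝ) (F' : ℂ → ℝ), Continuous F' ∧ (∀ ζ, 0 ≤ F' ζ) ∧ (∀ ζ, |F' ζ| ≤ B) ∧ (∀ ζ, F' ζ ≤ F ζ) ∧
      (∀ ζ : ℂ, ‖ζ‖ = 1 → F' ζ = F ζ) := by
  have hc : IsCompact (sphere (0:ℂ) 1) := isCompact_sphere 0 1
  obtain ⟨M, hM⟩ := hc.bddAbove_image hF.continuousOn
  have hM' : ∀ ζ : ℂ, ‖ζ‖ = 1 → F ζ ≤ M := fun ζ hζ => hM ⟨ζ, by simpa using hζ, rfl⟩
  refine ⟨max M 0, fun ζ => min (F ζ) (max M 0), hF.min continuous_const, fun ζ => le_min (hF0 ζ) (le_max_right _ _),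
    fun ζ => ?_, fun ζ => min_le_left _ _, fun ζ hζ => min_eq_left ((hM' ζ hζ).trans (le_max_left _ _))⟩
  rw [abs_of_nonneg (le_min (hF0 ζ) (le_max_right _ _))]
  exact min_le_right _ _

private theorem bdda_nu_congr (y : Γ) (F F' : ℂ → ℝ) (h : ∀ ζ : ℂ, ‖ζ‖ = 1 → F' ζ = F ζ) : W.nu y F' = W.nu y F := by
  unfold nu
  apply integral_congr_ae
  filter_upwards [W.ae_circle] with ζ hζ
  exact h _ (norm_f_eq W.A y ζ hζ)

/-- Fix `v` as in `S2` (`exists_pos`, e.g. `η = -p`): `G(x k, v) ν_v(F) ≤ g(1) ν_{x k}(F)` (`green_le`); multiply by `c k`, `k → ∞`: `c₁ ρ ν_v(F) ≤ g(1) lam p F`; and `G(v, 1) ν_1(F) ≤ g(1) ν_v(F)`. -/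
theorem bdd_away (p : ℂ) (x : ℕ → Γ) (c : ℕ → ℝ) (hT : W.Tangent p x c) :
    ∃ C : ℝ, 0 < C ∧ ∀ F : ℂ → ℝ, Continuous F → (∀ ζ, 0 ≤ F ζ) → (∃ κ : ℝ, 0 < κ ∧ ∀ ζ : ℂ, ‖ζ - p‖ < κ → F ζ = 0) →
      W.nu 1 F ≤ C * lam p F := by
  have hp := hT.hp
  have ht := W.trans
  obtain ⟨M, hM, hpos⟩ := exists_pos W.A
  obtain ⟨c₁, ρ₁, hc1, hρ0, hρ1, hS⟩ := W.S2 p x c hT M hM 1 one_pos
  have hη : ‖-p‖ = 1 := by rw [norm_neg, hp]
  have hηp : (1:ℝ) ≤ ‖-p - p‖ := by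
    have h : -p - p = -((2:ℂ) * p) := by ring
    rw [h, norm_neg, norm_mul, hp]
    norm_num
  obtain ⟨v, hv⟩ := hpos (-p) ρ₁ hη hρ0 hρ1
  have hev := hS (-p) ρ₁ hη hηp hρ0 le_rfl v hv
  have hg1 : 0 < W.R.green 1 := W.R.green_pos ht 1
  have hgv : 0 < W.R.green (v⁻¹ * 1) := W.R.green_pos ht _
  refine ⟨W.R.green 1 ^ 2 / (W.R.green (v⁻¹ * 1) * (c₁ * ρ₁)), by positivity, ?_⟩
  intro F hF hF0 hFp
  obtain ⟨B, F', hF', hF'0, hF'B, -, hF'e⟩ := bdda_trunc F hF hF0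
  have hnu : ∀ y, W.nu y F' = W.nu y F := fun y => W.bdda_nu_congr y F F' hF'e
  have hharm : ∀ y, W.R.P (fun y => W.nu y F') y ≤ W.nu y F' := fun y => (W.nu_harm F' hF'.measurable B hF'B y).le
  have hnn : ∀ y, 0 ≤ W.nu y F' := fun y => W.nu_nonneg y F' (fun ζ _ => hF'0 ζ)
  have hle := fun a b => W.R.green_le ht (fun y => W.nu y F') hnn hharm a b
  have hlim := hT.lim F hF hFp
  have h1 : c₁ * ρ₁ * W.nu v F ≤ W.R.green 1 * lam p F := by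
    have hlim2 : Tendsto (fun k => W.R.green 1 * (c k * W.nu (x k) F)) atTop (𝓝 (W.R.green 1 * lam p F)) :=
      hlim.const_mul _
    refine ge_of_tendsto hlim2 ?_
    filter_upwards [hev] with k hk
    have h2 := hle (x k) v
    simp only [hnu] at h2
    have h3 : (c k * W.G (x k) v) * W.nu v F ≤ W.R.green 1 * (c k * W.nu (x k) F) := by
      have h4 := mul_le_mul_of_nonneg_left h2 (hT.hc k).le
      unfold G
      calc c k * W.R.green ((x k)⁻¹ * v) * W.nu v F = c k * (W.R.green ((x k)⁻¹ * v) * W.nu v F) := by ring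
        _ ≤ c k * (W.R.green 1 * W.nu (x k) F) := h4
        _ = W.R.green 1 * (c k * W.nu (x k) F) := by ring
    have h5 : 0 ≤ W.nu v F := by rw [← hnu]; exact hnn v
    exact (mul_le_mul_of_nonneg_right hk h5).trans h3
  have h6 := hle v 1
  simp only [hnu] at h6
  have h7 : W.nu 1 F ≤ W.R.green 1 / W.R.green (v⁻¹ * 1) * W.nu v F := by
    rw [div_mul_eq_mul_div, le_div_iff₀ hgv]
    linarith
  have h8 : W.nu v F ≤ W.R.green 1 * lam p F / (c₁ * ρ₁) := by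
    rw [le_div_iff₀ (by positivity)]
    linarith
  calc W.nu 1 F ≤ W.R.green 1 / W.R.green (v⁻¹ * 1) * W.nu v F := h7
    _ ≤ W.R.green 1 / W.R.green (v⁻¹ * 1) * (W.R.green 1 * lam p F / (c₁ * ρ₁)) := by
        apply mul_le_mul_of_nonneg_left h8
        positivity
    _ = W.R.green 1 ^ 2 / (W.R.green (v⁻¹ * 1) * (c₁ * ρ₁)) * lam p F := by
        field_simp

/-- a cutoff: vanishes near `q`, is 1 away from `q` -/
private noncomputable def bddaCut (q : ℂ) (κ : ℝ) (ζ : ℂ) : ℝ := min 1 (max 0 (‖ζ - q‖ / κ - 1))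

private theorem bddaCut_cont (q : ℂ) (κ : ℝ) : Continuous (bddaCut q κ) := by
  unfold bddaCut
  fun_prop

private theorem bddaCut_nonneg (q : ℂ) (κ : ℝ) (ζ : ℂ) : 0 ≤ bddaCut q κ ζ := le_min zero_le_one (le_max_left _ _)

private theorem bddaCut_le (q : ℂ) (κ : ℝ) (ζ : ℂ) : bddaCut q κ ζ ≤ 1 := min_le_left _ _

private theorem bddaCut_zero (q : ℂ) (κ : ℝ) (hκ : 0 < κ) (ζ : ℂ) (h : ‖ζ - q‖ ≤ κ) : bddaCut q κ ζ = 0 := by
  unfold bddaCut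
  have h1 : ‖ζ - q‖ / κ - 1 ≤ 0 := by
    rw [sub_nonpos, div_le_one hκ]
    exact h
  rw [max_eq_left h1]
  exact min_eq_right zero_le_one

private theorem bddaCut_one (q : ℂ) (κ : ℝ) (hκ : 0 < κ) (ζ : ℂ) (h : 2 * κ ≤ ‖ζ - q‖) : bddaCut q κ ζ = 1 := by
  unfold bddaCut
  have h1 : 1 ≤ ‖ζ - q‖ / κ - 1 := by
    rw [le_sub_iff_add_le, le_div_iff₀ hκ]
    linarith
  exact min_eq_left (h1.trans (le_max_right _ _))

private theorem bdda_lam (q : ℂ) (κ : ℝ) (hκ : 0 < κ) (F F₁ : ℂ → ℝ) (hF : Continuous F) (hF1 : Continuous F₁)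
    (h01 : ∀ ζ, 0 ≤ F₁ ζ) (h1 : ∀ ζ, F₁ ζ ≤ F ζ) (hz : ∀ ζ : ℂ, ‖ζ - q‖ < κ → F₁ ζ = 0) :
    lam q F₁ ≤ (1 / κ ^ 2) * ∫ θ in (0:ℝ)..(2 * Real.pi), F (circleMap 0 1 θ) := by
  unfold lam
  rw [← intervalIntegral.integral_const_mul]
  have hpt : ∀ θ : ℝ, F₁ (circleMap 0 1 θ) / ‖circleMap 0 1 θ - q‖ ^ 2 ≤ 1 / κ ^ 2 * F (circleMap 0 1 θ) := by
    intro θ
    by_cases h : ‖circleMap 0 1 θ - q‖ < κ
    · rw [hz _ h, zero_div]
      have h2 := (h01 (circleMap 0 1 θ)).trans (h1 _)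
      positivity
    · push Not at h
      have h3 : κ ^ 2 ≤ ‖circleMap 0 1 θ - q‖ ^ 2 := pow_le_pow_left₀ hκ.le h 2
      have h2 := (h01 (circleMap 0 1 θ)).trans (h1 _)
      calc F₁ (circleMap 0 1 θ) / ‖circleMap 0 1 θ - q‖ ^ 2 ≤ F (circleMap 0 1 θ) / ‖circleMap 0 1 θ - q‖ ^ 2 :=
            div_le_div_of_nonneg_right (h1 _) (by positivity)
        _ ≤ F (circleMap 0 1 θ) / κ ^ 2 := div_le_div_of_nonneg_left h2 (by positivity) h3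
        _ = 1 / κ ^ 2 * F (circleMap 0 1 θ) := by ring
  have hint : IntervalIntegrable (fun θ : ℝ => 1 / κ ^ 2 * F (circleMap 0 1 θ)) volume 0 (2 * Real.pi) := by
    apply Continuous.intervalIntegrable
    exact continuous_const.mul (hF.comp (continuous_circleMap 0 1))
  have hint1 : IntervalIntegrable (fun θ : ℝ => F₁ (circleMap 0 1 θ) / ‖circleMap 0 1 θ - q‖ ^ 2) volume 0 (2 * Real.pi) := by
    apply hint.mono_fun'
    · apply Measurable.aestronglyMeasurable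
      exact (hF1.comp (continuous_circleMap 0 1)).measurable.div
        ((((continuous_circleMap 0 1).sub continuous_const).norm.pow 2).measurable)
    · refine Filter.Eventually.of_forall fun θ => ?_
      show ‖F₁ (circleMap 0 1 θ) / ‖circleMap 0 1 θ - q‖ ^ 2‖ ≤ 1 / κ ^ 2 * F (circleMap 0 1 θ)
      rw [Real.norm_of_nonneg (div_nonneg (h01 _) (by positivity))]
      exact hpt θ
  exact intervalIntegral.integral_mono_on (by positivity) hint1 hint (fun θ _ => hpt θ)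

/-- partition of unity: `F = F χ₁ + F χ₂`, `χ₁` vanishes near `p`, `χ₂` vanishes near `p' = f γ p ≠ p`; `bdd_away` for the two tangent situations (`tangent_move`); `lam p (F χ₁) ≤ κ^(-2) ∫ F` -/
theorem bdd (p : ℂ) (x : ℕ → Γ) (c : ℕ → ℝ) (hT : W.Tangent p x c) (γ : Γ) (hγ : W.A.f γ p ≠ p) :
    ∃ C : ℝ, 0 < C ∧ ∀ F : ℂ → ℝ, Continuous F → (∀ ζ, 0 ≤ F ζ) →
      W.nu 1 F ≤ C * ∫ θ in (0:ℝ)..(2 * Real.pi), F (circleMap 0 1 θ) := by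
  obtain ⟨C₁, hC1, h1⟩ := W.bdd_away p x c hT
  obtain ⟨C₂, hC2, h2⟩ := W.bdd_away _ _ _ (tangent_move W p x c hT γ)
  set p' := W.A.f γ p with hp'
  set κ : ℝ := ‖p' - p‖ / 4 with hκd
  have hκ : 0 < κ := by
    have : 0 < ‖p' - p‖ := norm_pos_iff.mpr (sub_ne_zero.mpr hγ)
    positivity
  refine ⟨C₁ * (1 / κ ^ 2) + C₂ * (1 / κ ^ 2), by positivity, ?_⟩
  intro F hF hF0
  obtain ⟨B, F', hF', hF'0, hF'B, -, hF'e⟩ := bdda_trunc F hF hF0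
  have hnu : W.nu 1 F = W.nu 1 F' := (W.bdda_nu_congr 1 F F' hF'e).symm
  have hint : ∫ θ in (0:ℝ)..(2 * Real.pi), F (circleMap 0 1 θ) = ∫ θ in (0:ℝ)..(2 * Real.pi), F' (circleMap 0 1 θ) := by
    apply intervalIntegral.integral_congr
    intro θ _
    exact (hF'e _ (by simp [circleMap])).symm
  rw [hnu, hint]
  set χ := bddaCut p κ with hχ
  have hB0 : ∀ ζ, F' ζ ≤ B := fun ζ => (le_abs_self _).trans (hF'B ζ)
  set F₁ : ℂ → ℝ := fun ζ => F' ζ * χ ζ with hF1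
  set F₂ : ℂ → ℝ := fun ζ => F' ζ * (1 - χ ζ) with hF2
  have hF1c : Continuous F₁ := hF'.mul (bddaCut_cont p κ)
  have hF2c : Continuous F₂ := hF'.mul (continuous_const.sub (bddaCut_cont p κ))
  have hF10 : ∀ ζ, 0 ≤ F₁ ζ := fun ζ => mul_nonneg (hF'0 ζ) (bddaCut_nonneg _ _ _)
  have hF20 : ∀ ζ, 0 ≤ F₂ ζ := fun ζ => mul_nonneg (hF'0 ζ) (sub_nonneg.mpr (bddaCut_le _ _ _))
  have hF1le : ∀ ζ, F₁ ζ ≤ F' ζ := fun ζ => mul_le_of_le_one_right (hF'0 ζ) (bddaCut_le _ _ _)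
  have hF2le : ∀ ζ, F₂ ζ ≤ F' ζ := fun ζ => mul_le_of_le_one_right (hF'0 ζ) (by
    have := bddaCut_nonneg p κ ζ
    linarith)
  have hz1 : ∀ ζ : ℂ, ‖ζ - p‖ < κ → F₁ ζ = 0 := fun ζ hζ => by
    simp only [hF1, hχ]
    rw [bddaCut_zero p κ hκ ζ hζ.le, mul_zero]
  have hz2 : ∀ ζ : ℂ, ‖ζ - p'‖ < κ → F₂ ζ = 0 := fun ζ hζ => by
    have h3 : 2 * κ ≤ ‖ζ - p‖ := by
      have h4 : ‖p' - p‖ ≤ ‖ζ - p‖ + ‖ζ - p'‖ := by
        have h5 : p' - p = (ζ - p) - (ζ - p') := by ring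
        rw [h5]
        exact norm_sub_le _ _
      have h6 : ‖p' - p‖ = 4 * κ := by rw [hκd]; ring
      linarith
    simp only [hF2, hχ]
    rw [bddaCut_one p κ hκ ζ h3, sub_self, mul_zero]
  have hadd : W.nu 1 F' = W.nu 1 F₁ + W.nu 1 F₂ := by
    have h3 := W.nu_add 1 F₁ F₂ hF1c.measurable hF2c.measurable B
      (fun ζ => by rw [abs_of_nonneg (hF10 ζ)]; exact (hF1le ζ).trans (hB0 ζ))
      (fun ζ => by rw [abs_of_nonneg (hF20 ζ)]; exact (hF2le ζ).trans (hB0 ζ))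
    rw [← h3]
    have h4 : F' = fun ζ => F₁ ζ + F₂ ζ := by
      funext ζ
      simp only [hF1, hF2]
      ring
    rw [← h4]
  have ha := h1 F₁ hF1c hF10 ⟨κ, hκ, hz1⟩
  have hb := h2 F₂ hF2c hF20 ⟨κ, hκ, hz2⟩
  have hla := bdda_lam p κ hκ F' F₁ hF' hF1c hF10 hF1le hz1
  have hlb := bdda_lam p' κ hκ F' F₂ hF' hF2c hF20 hF2le hz2
  have hla' := mul_le_mul_of_nonneg_left hla hC1.le
  have hlb' := mul_le_mul_of_nonneg_left hlb hC2.le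
  rw [hadd]
  calc W.nu 1 F₁ + W.nu 1 F₂ ≤ C₁ * lam p F₁ + C₂ * lam p' F₂ := add_le_add ha hb
    _ ≤ C₁ * (1 / κ ^ 2 * ∫ θ in (0:ℝ)..(2 * Real.pi), F' (circleMap 0 1 θ)) +
        C₂ * (1 / κ ^ 2 * ∫ θ in (0:ℝ)..(2 * Real.pi), F' (circleMap 0 1 θ)) := add_le_add hla' hlb'
    _ = (C₁ * (1 / κ ^ 2) + C₂ * (1 / κ ^ 2)) * ∫ θ in (0:ℝ)..(2 * Real.pi), F' (circleMap 0 1 θ) := by ring

end WD

end Pool.Agent.DimDropH
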