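import Pool.Agent.Lib_MP_644907_h.GEOB

/-!
# Piece CHVA: change of variables on the circle
-/

set_option autoImplicit false

open Complex MeasureTheory Metric Filter
open scoped Topology

namespace Pool.Agent.DimDropH

open Pool.Agent.DimDrop (IsoD)
open Pool.Agent.DimDropF (IG mb dmb)

variable {Γ : Type} [Group Γ] (A : IG Γ)

private theorem chva_nrm (θ : ℝ) : ‖circleMap 0 1 θ‖ = 1 := by simp

/-- mean value property for the powers of `mb` -/
private theorem chva_mvp {α β : ℂ} (h : ‖α‖ ^ 2 - ‖β‖ ^ 2 = 1) (m : ℕ) :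
    ∫ θ in (0:ℝ)..(2 * Real.pi), (mb α β (circleMap 0 1 θ)) ^ m = 2 * Real.pi * (mb α β 0) ^ m := by
  have hd : DiffContOnCl ℂ (fun z => (mb α β z) ^ m) (ball 0 |1|) := by
    apply DifferentiableOn.diffContOnCl
    intro z hz
    rw [abs_one, closure_ball (0:ℂ) one_ne_zero, mem_closedBall_zero_iff] at hz
    have hne := Pool.Agent.DimDropF.den_ne h hz
    apply DifferentiableAt.differentiableWithinAt
    unfold mb
    apply DifferentiableAt.fun_pow
    apply DifferentiableAt.fun_div
    · fun_prop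
    · fun_prop
    · exact hne
  have h1 := hd.circleAverage
  rw [Real.circleAverage_def] at h1
  have hpi : (2 * Real.pi : ℝ) ≠ 0 := by positivity
  rw [inv_smul_eq_iff₀ hpi] at h1
  rw [h1]
  simp

/-- the same for isometries -/
private theorem chva_mom (x : Γ) (m : ℕ) :
    ∫ θ in (0:ℝ)..(2 * Real.pi), (A.f x (circleMap 0 1 θ)) ^ m = 2 * Real.pi * (zz A x) ^ m := by
  obtain ⟨α, β, hn, s, hs⟩ := (Pool.Agent.DimDropF.isoD_iff (A.f x)).1 (A.iso x)
  cases s with
  | false =>
    have e1 : ∀ θ : ℝ, A.f x (circleMap 0 1 θ) = mb α β (circleMap 0 1 θ) := fun θ => by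
      rw [hs _ (chva_nrm θ).le]; rfl
    have e2 : zz A x = mb α β 0 := by
      rw [zz, hs 0 (by simp)]; rfl
    simp only [e1, e2]
    exact chva_mvp hn m
  | true =>
    have hn' : ‖starRingEnd ℂ α‖ ^ 2 - ‖starRingEnd ℂ β‖ ^ 2 = 1 := by
      rw [Complex.norm_conj, Complex.norm_conj]; exact hn
    have cj : ∀ w : ℂ, mb α β (starRingEnd ℂ w) =
        starRingEnd ℂ (mb (starRingEnd ℂ α) (starRingEnd ℂ β) w) := by
      intro w
      unfold mb
      simp
    have e1 : ∀ θ : ℝ, A.f x (circleMap 0 1 θ) =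
        starRingEnd ℂ (mb (starRingEnd ℂ α) (starRingEnd ℂ β) (circleMap 0 1 θ)) := fun θ => by
      rw [hs _ (chva_nrm θ).le]; exact cj _
    have e2 : zz A x = starRingEnd ℂ (mb (starRingEnd ℂ α) (starRingEnd ℂ β) 0) := by
      rw [zz, hs 0 (by simp)]
      have := cj 0
      rwa [map_zero] at this ⊢
    simp only [e1, e2, ← map_pow]
    rw [intervalIntegral.intervalIntegral_conj, chva_mvp hn' m]
    rw [map_mul, map_mul, Complex.conj_ofReal, map_ofNat]

/-- Poisson formula for the monomials -/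
private theorem chva_poi (z : ℂ) (hz : ‖z‖ < 1) (m : ℕ) :
    ∫ θ in (0:ℝ)..(2 * Real.pi), (circleMap 0 1 θ) ^ m *
      (((1 - ‖z‖ ^ 2) / ‖circleMap 0 1 θ - z‖ ^ 2 : ℝ) : ℂ) = 2 * Real.pi * z ^ m := by
  have hd : DiffContOnCl ℂ (fun z : ℂ => z ^ m) (ball 0 1) := by
    apply Differentiable.diffContOnCl
    fun_prop
  have h1 := hd.circleAverage_poissonKernel_smul (w := z) (by simpa using hz)
  rw [Real.circleAverage_def] at h1
  have hpi : (2 * Real.pi : ℝ) ≠ 0 := by positivity
  rw [inv_smul_eq_iff₀ hpi] at h1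
  have e : ∀ θ : ℝ, (poissonKernel 0 z • fun z : ℂ => z ^ m) (circleMap 0 1 θ) =
      (circleMap 0 1 θ) ^ m * (((1 - ‖z‖ ^ 2) / ‖circleMap 0 1 θ - z‖ ^ 2 : ℝ) : ℂ) := by
    intro θ
    simp only [Pi.smul_apply', poissonKernel, sub_zero, chva_nrm, one_pow, Complex.real_smul]
    ring
  simp only [e] at h1
  rw [h1]
  simp

/-- The image of the measure `dθ` under `f = f x` has density `δ / |ω - z|^2` (Poisson kernel at `z = f 0`).
Proof for `H` = a monomial `ω^n`, `n ≥ 0` (`f^n` is holomorphic or antiholomorphic on the disc): the mean value property gives `2π f(0)^n = 2π z^n` for the left side, and the Poisson formula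
(`DiffContOnCl.circleAverage_poissonKernel_smul` in `Mathlib/Analysis/Complex/Poisson.lean`) for the right side; conjugates give the monomials `conj ω^n`; real parts and density of trigonometric polynomials
(`span_fourier_closure_eq_top`, or Stone-Weierstrass on the circle) give all continuous `H`. -/
theorem push_angle (x : Γ) (H : ℂ → ℝ) (hH : Continuous H) :
    ∫ θ in (0:ℝ)..(2 * Real.pi), H (A.f x (circleMap 0 1 θ)) =
      ∫ θ in (0:ℝ)..(2 * Real.pi), H (circleMap 0 1 θ) * (del A x / ‖circleMap 0 1 θ - zz A x‖ ^ 2) := by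
  have hz : ‖zz A x‖ < 1 := zz_lt A x
  obtain ⟨K, hK⟩ : ∃ K : ℝ → ℝ, K = fun θ => del A x / ‖circleMap 0 1 θ - zz A x‖ ^ 2 := ⟨_, rfl⟩
  have hKe : ∀ θ, K θ = (1 - ‖zz A x‖ ^ 2) / ‖circleMap 0 1 θ - zz A x‖ ^ 2 := by
    intro θ; rw [hK]; rfl
  have hKc : Continuous K := by
    rw [hK]
    refine Continuous.div continuous_const (by fun_prop) ?_
    intro θ h0
    rw [sq_eq_zero_iff, norm_eq_zero, sub_eq_zero] at h0
    have := chva_nrm θ
    rw [h0] at this
    linarith
  have : Fact (0 < 2 * Real.pi) := ⟨Real.two_pi_pos⟩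
  have hT : (2 * Real.pi : ℝ) ≠ 0 := Real.two_pi_pos.ne'
  -- the points of the circle
  have hF : ∀ θ : ℝ, ‖A.f x (circleMap 0 1 θ)‖ = 1 := fun θ => norm_f_eq A x _ (chva_nrm θ)
  have hFc : Continuous fun θ : ℝ => A.f x (circleMap 0 1 θ) := by
    refine (contOn_f A x).comp_continuous (continuous_circleMap 0 1) fun θ => ?_
    rw [mem_closedBall_zero_iff]
    exact (chva_nrm θ).le
  let c : ℝ → Circle := fun θ => ⟨A.f x (circleMap 0 1 θ), by
    exact mem_sphere_zero_iff_norm.2 (hF θ)⟩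
  have hc : Continuous c := by
    exact Continuous.subtype_mk hFc _
  let τ : ℝ → AddCircle (2 * Real.pi) := fun θ => (AddCircle.homeomorphCircle hT).symm (c θ)
  have hτ : Continuous τ := (AddCircle.homeomorphCircle hT).symm.continuous.comp hc
  have hτc : ∀ θ, (AddCircle.toCircle (τ θ) : ℂ) = A.f x (circleMap 0 1 θ) := by
    intro θ
    rw [← AddCircle.homeomorphCircle_apply hT, Homeomorph.apply_symm_apply]
  have hσc : ∀ θ : ℝ, (AddCircle.toCircle (θ : AddCircle (2 * Real.pi)) : ℂ) = circleMap 0 1 θ := by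
    intro θ
    rw [AddCircle.toCircle_apply_mk, div_self hT, one_mul, Circle.coe_exp]
    simp [circleMap]
  let L1 : C(AddCircle (2 * Real.pi), ℂ) → ℂ := fun g => ∫ θ in (0:ℝ)..(2 * Real.pi), g (τ θ)
  let L2 : C(AddCircle (2 * Real.pi), ℂ) → ℂ := fun g =>
    ∫ θ in (0:ℝ)..(2 * Real.pi), g (θ : AddCircle (2 * Real.pi)) * (K θ : ℂ)
  have hcoe : Continuous fun θ : ℝ => (θ : AddCircle (2 * Real.pi)) := AddCircle.continuous_mk' _
  have cL1 : Continuous L1 := by
    apply intervalIntegral.continuous_parametric_intervalIntegral_of_continuous'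
    exact continuous_fst.eval (hτ.comp continuous_snd)
  have cL2 : Continuous L2 := by
    apply intervalIntegral.continuous_parametric_intervalIntegral_of_continuous'
    exact (continuous_fst.eval (hcoe.comp continuous_snd)).mul
      (continuous_ofReal.comp (hKc.comp continuous_snd))
  -- monomials
  have hmono : ∀ n : ℤ, L1 (fourier n) = L2 (fourier n) := by
    intro n
    have f1 : ∀ θ : ℝ, (fourier n : C(AddCircle (2 * Real.pi), ℂ)) (τ θ) =
        (A.f x (circleMap 0 1 θ)) ^ n := by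
      intro θ
      rw [fourier_apply, AddCircle.toCircle_zsmul, Circle.coe_zpow, hτc]
    have f2 : ∀ θ : ℝ, (fourier n : C(AddCircle (2 * Real.pi), ℂ)) (θ : AddCircle (2 * Real.pi)) =
        (circleMap 0 1 θ) ^ n := by
      intro θ
      rw [fourier_apply, AddCircle.toCircle_zsmul, Circle.coe_zpow, hσc]
    simp only [L1, L2, f1, f2]
    have invc : ∀ w : ℂ, ‖w‖ = 1 → w⁻¹ = starRingEnd ℂ w := by
      intro w hw
      rw [Complex.inv_def, Complex.normSq_eq_norm_sq, hw]
      simp
    obtain ⟨m, rfl | rfl⟩ := n.eq_nat_or_neg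
    · simp only [zpow_natCast, hKe]
      rw [chva_mom, chva_poi _ hz]
    · simp only [zpow_neg, zpow_natCast, ← inv_pow, hKe]
      have g1 : ∀ θ : ℝ, (A.f x (circleMap 0 1 θ))⁻¹ ^ m =
          starRingEnd ℂ ((A.f x (circleMap 0 1 θ)) ^ m) := by
        intro θ; rw [invc _ (hF θ), map_pow]
      have g2 : ∀ θ : ℝ, (circleMap 0 1 θ)⁻¹ ^ m *
          (((1 - ‖zz A x‖ ^ 2) / ‖circleMap 0 1 θ - zz A x‖ ^ 2 : ℝ) : ℂ) =
          starRingEnd ℂ ((circleMap 0 1 θ) ^ m *
          (((1 - ‖zz A x‖ ^ 2) / ‖circleMap 0 1 θ - zz A x‖ ^ 2 : ℝ) : ℂ)) := by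
        intro θ; rw [invc _ (chva_nrm θ), map_mul, map_pow, Complex.conj_ofReal]
      simp only [g1, g2]
      rw [intervalIntegral.intervalIntegral_conj, intervalIntegral.intervalIntegral_conj, chva_mom,
        chva_poi _ hz]
  -- linearity
  have i1 : ∀ g : C(AddCircle (2 * Real.pi), ℂ),
      IntervalIntegrable (fun θ : ℝ => g (τ θ)) volume 0 (2 * Real.pi) := fun g =>
    (g.continuous.comp hτ).intervalIntegrable _ _
  have i2 : ∀ g : C(AddCircle (2 * Real.pi), ℂ),
      IntervalIntegrable (fun θ : ℝ => g (θ : AddCircle (2 * Real.pi)) * (K θ : ℂ)) volume 0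
        (2 * Real.pi) := fun g =>
    ((g.continuous.comp hcoe).mul (continuous_ofReal.comp hKc)).intervalIntegrable _ _
  have hspan : ∀ g ∈ Submodule.span ℂ (Set.range (@fourier (2 * Real.pi))), L1 g = L2 g := by
    intro g hg
    induction hg using Submodule.span_induction with
    | mem g hg =>
      obtain ⟨n, rfl⟩ := hg
      exact hmono n
    | zero => simp [L1, L2]
    | add f g _ _ hf hg =>
      simp only [L1, L2, ContinuousMap.add_apply, add_mul] at hf hg ⊢
      rw [intervalIntegral.integral_add (i1 f) (i1 g), intervalIntegral.integral_add (i2 f) (i2 g),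
        hf, hg]
    | smul a g _ hg =>
      simp only [L1, L2, ContinuousMap.smul_apply, smul_eq_mul, mul_assoc] at hg ⊢
      rw [intervalIntegral.integral_const_mul, intervalIntegral.integral_const_mul, hg]
  have hall : ∀ g : C(AddCircle (2 * Real.pi), ℂ), L1 g = L2 g := by
    intro g
    have hg : g ∈ (Submodule.span ℂ (Set.range (@fourier (2 * Real.pi)))).topologicalClosure := by
      rw [span_fourier_closure_eq_top]; trivial
    have hcl : IsClosed {g | L1 g = L2 g} := isClosed_eq cL1 cL2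
    exact closure_minimal (fun g hg => hspan g hg) hcl hg
  -- the function `H`
  let g : C(AddCircle (2 * Real.pi), ℂ) :=
    ⟨fun t => ((H (AddCircle.toCircle t : ℂ) : ℝ) : ℂ), by
      exact continuous_ofReal.comp (hH.comp (continuous_subtype_val.comp
        AddCircle.continuous_toCircle))⟩
  have hg := hall g
  have r1 : ∀ θ, g (τ θ) = ((H (A.f x (circleMap 0 1 θ)) : ℝ) : ℂ) := fun θ => by
    show ((H (AddCircle.toCircle (τ θ) : ℂ) : ℝ) : ℂ) = _
    rw [hτc]
  have r2 : ∀ θ : ℝ, g (θ : AddCircle (2 * Real.pi)) * (K θ : ℂ) =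
      ((H (circleMap 0 1 θ) * K θ : ℝ) : ℂ) := fun θ => by
    show ((H (AddCircle.toCircle (θ : AddCircle (2 * Real.pi)) : ℂ) : ℝ) : ℂ) * _ = _
    rw [hσc]
    push_cast
    rfl
  simp only [L1, L2, r1, r2] at hg
  rw [intervalIntegral.integral_ofReal, intervalIntegral.integral_ofReal] at hg
  have := Complex.ofReal_injective hg
  rw [this, hK]

end Pool.Agent.DimDropH
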