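import Pool.Agent.Lib_MP_644907_h.PTDef

/-!
# Piece MINP: the minimum principle
-/

set_option autoImplicit false

open scoped Topology
open Filter

namespace Pool.Agent.DimDropH

namespace RW

variable {Γ : Type} [Group Γ] {n : ℕ} (R : RW Γ n)

/-- If `D x < 0` for some `x ∈ U` then, the sublevel sets in `U` being finite, `D` attains on `U` its minimum `-m < 0` at some `x₀`; `D (x₀ e i) ≥ -m` for all `i`
(in `U`, or `≥ 0`), and `-m = D x₀ ≥ P D x₀` gives `D (x₀ e i) = -m`, so `x₀ e i ∈ U`. By `gen` (`T = {g | ∀ x ∈ U, D x = -m → x g ∈ U ∧ D (x g) = -m}`), `D = -m` on the whole infinite group,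
contradiction with the finiteness. -/
theorem minP [Infinite Γ] (U : Set Γ) (D : Γ → ℝ) (h1 : ∀ x ∈ U, R.P D x ≤ D x) (h2 : ∀ x ∈ U, ∀ i, x * R.e i ∉ U → 0 ≤ D (x * R.e i))
    (h3 : ∀ ε : ℝ, 0 < ε → {x | x ∈ U ∧ D x < -ε}.Finite) : ∀ x ∈ U, 0 ≤ D x := by
  intro x hx
  by_contra hneg
  push Not at hneg
  -- the minimum
  have hfin : {y | y ∈ U ∧ D y ≤ D x}.Finite := by
    refine (h3 (-(D x) / 2) (by linarith)).subset ?_
    rintro y ⟨hy, hyx⟩
    exact ⟨hy, by linarith⟩
  obtain ⟨x₀, ⟨hx₀, hx₀'⟩, hmin⟩ := hfin.exists_minimalFor D _ ⟨x, hx, le_rfl⟩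
  have hmin' : ∀ y ∈ U, D x₀ ≤ D y := by
    intro y hy
    by_cases hyx : D y ≤ D x
    · rcases le_total (D x₀) (D y) with h | h
      · exact h
      · exact hmin ⟨hy, hyx⟩ h
    · push Not at hyx
      linarith
  obtain ⟨m, hm⟩ : ∃ m, m = D x₀ := ⟨_, rfl⟩
  rw [← hm] at hmin' hx₀'
  have hm0 : m < 0 := by linarith
  have step : ∀ y ∈ U, D y = m → ∀ i, y * R.e i ∈ U ∧ D (y * R.e i) = m := by
    intro y hy hym
    have hge : ∀ i, m ≤ D (y * R.e i) := by
      intro i
      by_cases hi : y * R.e i ∈ U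
      · exact hmin' _ hi
      · exact hm0.le.trans (h2 y hy i hi)
    have hsum : ∑ i, R.p i * (D (y * R.e i) - m) ≤ 0 := by
      have h4 : ∑ i, R.p i * (D (y * R.e i) - m) = R.P D y - m := by
        simp only [RW.P, mul_sub, Finset.sum_sub_distrib, ← Finset.sum_mul, R.hp1, one_mul]
      rw [h4]
      have := h1 y hy
      linarith
    have hzero : ∀ i, R.p i * (D (y * R.e i) - m) = 0 := by
      have hnn : ∀ i ∈ Finset.univ, 0 ≤ R.p i * (D (y * R.e i) - m) := fun i _ =>
        mul_nonneg (R.hp i).le (sub_nonneg.2 (hge i))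
      have := (Finset.sum_eq_zero_iff_of_nonneg hnn).1 (le_antisymm hsum (Finset.sum_nonneg hnn))
      exact fun i => this i (Finset.mem_univ i)
    intro i
    have he : D (y * R.e i) = m := by
      rcases mul_eq_zero.1 (hzero i) with h | h
      · exact absurd h (R.hp i).ne'
      · linarith
    refine ⟨?_, he⟩
    by_contra hi
    have := h2 y hy i hi
    linarith
  have all := R.gen {g | ∀ y ∈ U, D y = m → y * g ∈ U ∧ D (y * g) = m}
    (fun i y hy hym => step y hy hym i)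
    (fun g hg g' hg' y hy hym => by
      obtain ⟨a, b⟩ := hg y hy hym
      have := hg' _ a b
      rwa [mul_assoc] at this)
  have hinf : (Set.univ : Set Γ) ⊆ {y | y ∈ U ∧ D y < -(-m / 2)} := by
    intro g _
    have := all (x₀⁻¹ * g) x₀ hx₀ hm.symm
    rw [mul_inv_cancel_left] at this
    exact ⟨this.1, by rw [this.2]; linarith⟩
  exact Set.infinite_univ ((h3 (-m / 2) (by linarith)).subset hinf)

/-- the same for the reversed walk (the inverses of the `e i` also generate the group as a semigroup) -/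
theorem minQ [Infinite Γ] (U : Set Γ) (D : Γ → ℝ) (h1 : ∀ x ∈ U, R.Q D x ≤ D x) (h2 : ∀ x ∈ U, ∀ i, x * (R.e i)⁻¹ ∉ U → 0 ≤ D (x * (R.e i)⁻¹))
    (h3 : ∀ ε : ℝ, 0 < ε → {x | x ∈ U ∧ D x < -ε}.Finite) : ∀ x ∈ U, 0 ≤ D x := by
  let R' : RW Γ n :=
    { p := R.p
      hp := R.hp
      hp1 := R.hp1
      e := fun i => (R.e i)⁻¹
      gen := by
        intro T hT hmul γ
        have := R.gen {g | g⁻¹ ∈ T} hT (fun x hx y hy => by
          show (x * y)⁻¹ ∈ T
          rw [mul_inv_rev]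
          exact hmul _ hy _ hx) γ⁻¹
        simpa using this }
  exact R'.minP U D h1 h2 h3

end RW

end Pool.Agent.DimDropH
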