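import Pool.Agent.Lib_MP_644907_h.NUA
import Pool.Agent.Lib_MP_644907_h.MINP

/-!
# Piece CLA: claim A, first entrance estimate
-/

set_option autoImplicit false

open Complex MeasureTheory Metric Filter
open scoped Topology

namespace Pool.Agent.DimDropH

open Pool.Agent.DimDrop (IsoD)
open Pool.Agent.DimDropF (IG mb dmb)

namespace WD

variable {Γ : Type} [Group Γ] {n : ℕ} (W : WD Γ n)

private theorem cla_meas {E : Set ℂ} (hE : MeasurableSet E) : Measurable (ind E) :=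
  measurable_const.indicator hE

private theorem cla_abs (E : Set ℂ) (ζ : ℂ) : |ind E ζ| ≤ 1 := by
  classical
  unfold ind
  rw [Set.indicator_apply]
  split_ifs <;> simp

private theorem cla_nonneg (E : Set ℂ) (ζ : ℂ) : 0 ≤ ind E ζ := by
  classical
  unfold ind
  rw [Set.indicator_apply]
  split_ifs <;> norm_num

private theorem cla_mono {E F : Set ℂ} (h : E ⊆ F) (ζ : ℂ) : ind E ζ ≤ ind F ζ :=
  Set.indicator_le_indicator_of_subset h (fun _ => zero_le_one) ζ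

/-- one constant for all jumps -/
theorem jumps : ∃ C : ℝ, 1 ≤ C ∧ ∀ i x, ‖zz W.A (x * W.R.e i) - zz W.A x‖ ≤ C * del W.A x ∧ del W.A x ≤ C * del W.A (x * W.R.e i) ∧
    del W.A (x * W.R.e i) ≤ C * del W.A x ∧ ‖zz W.A (x * (W.R.e i)⁻¹) - zz W.A x‖ ≤ C * del W.A x ∧
    del W.A x ≤ C * del W.A (x * (W.R.e i)⁻¹) ∧ del W.A (x * (W.R.e i)⁻¹) ≤ C * del W.A x := by
  classical
  choose C1 hC1 hC1' using fun i => jump W.A (W.R.e i)
  choose C2 hC2 hC2' using fun i => jump W.A (W.R.e i)⁻¹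
  have hnn : ∀ j ∈ (Finset.univ : Finset (Fin n)), 0 ≤ C1 j + C2 j := fun j _ => by
    linarith [hC1 j, hC2 j]
  refine ⟨1 + ∑ i, (C1 i + C2 i), by linarith [Finset.sum_nonneg hnn], ?_⟩
  intro i x
  have hs : C1 i + C2 i ≤ ∑ i, (C1 i + C2 i) :=
    Finset.single_le_sum (f := fun i => C1 i + C2 i) hnn (Finset.mem_univ i)
  have a1 : C1 i ≤ 1 + ∑ i, (C1 i + C2 i) := by linarith [hC2 i]
  have a2 : C2 i ≤ 1 + ∑ i, (C1 i + C2 i) := by linarith [hC1 i]
  obtain ⟨p1, p2, p3⟩ := hC1' i x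
  obtain ⟨q1, q2, q3⟩ := hC2' i x
  exact ⟨p1.trans (mul_le_mul_of_nonneg_right a1 (del_pos W.A _).le),
    p2.trans (mul_le_mul_of_nonneg_right a1 (del_pos W.A _).le),
    p3.trans (mul_le_mul_of_nonneg_right a1 (del_pos W.A _).le),
    q1.trans (mul_le_mul_of_nonneg_right a2 (del_pos W.A _).le),
    q2.trans (mul_le_mul_of_nonneg_right a2 (del_pos W.A _).le),
    q3.trans (mul_le_mul_of_nonneg_right a2 (del_pos W.A _).le)⟩

/-- the Green function is bounded below at bounded distance: finite set `{w | t ≤ del w}` -/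
theorem green_low (t : ℝ) (ht : 0 < t) : ∃ c : ℝ, 0 < c ∧ ∀ w, t ≤ del W.A w → c ≤ W.R.green w := by
  classical
  by_cases hne : (finite_del W.A t ht).toFinset.Nonempty
  · obtain ⟨w₀, _, hmin⟩ := (finite_del W.A t ht).toFinset.exists_min_image W.R.green hne
    refine ⟨W.R.green w₀, W.R.green_pos W.trans w₀, fun w hw => hmin w ?_⟩
    rw [Set.Finite.mem_toFinset]
    exact hw
  · refine ⟨1, one_pos, fun w hw => ?_⟩
    exact absurd ⟨w, (Set.Finite.mem_toFinset _).mpr hw⟩ hne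

/-- Let `K` be as in `conc' (1/2)`, `C` as in `jumps`, `C₅ = K + C^2`. `minP` on `U = {x | ρ ≤ ‖z_x - η‖}` for `D x = 2 ν_x(N) + Cτ G(x, v) - ν_x(J)` (`nu_harm`, `green_super`).
Boundary: `b = x e_i`, `‖z_b - η‖ < ρ ≤ ‖z_x - η‖`, `|‖z_b - η‖ - ρ| ≤ ‖z_b - z_x‖ ≤ C δ_x ≤ C^2 δ_b`. If `δ_b ≥ τ ρ`: `1/δ(b⁻¹ v) = 1 + ‖z_b - z_v‖^2/(δ_b δ_v) ≤ 1 + (1+M)^2 M / τ` so `G(b,v) ≥ c_τ` (`green_low`), `Cτ = 1/c_τ`.
If `δ_b < τ ρ`: the ball `‖ζ - z_b‖ ≤ K δ_b` is contained in `N`, so `2 ν_b(N) ≥ 1`. Finiteness of `{x ∈ U | D x < -ε}`: there `ν_x(J) > ε`; with `K'` from `conc ε`, `K' δ_x < ρ/2` would give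
`J ⊆ {K' δ_x < ‖ζ - z_x‖}`; so `δ_x ≥ ρ/(2K')`, `finite_del`. -/
theorem claimA : ∃ C₅ : ℝ, 1 ≤ C₅ ∧ ∀ M : ℝ, 1 ≤ M → ∀ τ : ℝ, 0 < τ → τ ≤ 1 → ∃ Cτ : ℝ, 0 < Cτ ∧
    ∀ (η : ℂ) (ρ : ℝ), ‖η‖ = 1 → 0 < ρ → ρ ≤ 1 → ∀ v, Pos W.A M η ρ v → ∀ x, ρ ≤ ‖zz W.A x - η‖ →
      W.nu x (ind {ζ | ‖ζ - η‖ < ρ / 2}) ≤ 2 * W.nu x (ind {ζ | |‖ζ - η‖ - ρ| ≤ C₅ * τ * ρ}) + Cτ * W.G x v := by
  classical
  obtain ⟨K, hK2, hK⟩ := W.conc' (1 / 2) (by norm_num)
  obtain ⟨C, hC1, hC⟩ := W.jumps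
  refine ⟨K + C ^ 2, by nlinarith, ?_⟩
  intro M hM τ hτ _
  have hM0 : 0 < M := by linarith
  have hB : 0 < 1 + (1 + M) ^ 2 * M / τ := by positivity
  obtain ⟨c, hc, hgl⟩ := W.green_low (1 / (1 + (1 + M) ^ 2 * M / τ)) (by positivity)
  refine ⟨1 / c, by positivity, ?_⟩
  intro η ρ _ hρ _ v hv
  have := infinite_of W.A
  obtain ⟨N, hN⟩ : ∃ N : Set ℂ, N = {ζ | |‖ζ - η‖ - ρ| ≤ (K + C ^ 2) * τ * ρ} := ⟨_, rfl⟩
  obtain ⟨J, hJ⟩ : ∃ J : Set ℂ, J = {ζ | ‖ζ - η‖ < ρ / 2} := ⟨_, rfl⟩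
  have mN : MeasurableSet N := by
    rw [hN]
    exact measurableSet_le (by fun_prop) (by fun_prop)
  have mJ : MeasurableSet J := by
    rw [hJ]
    exact measurableSet_lt (by fun_prop) (by fun_prop)
  rw [← hN, ← hJ]
  have hG0 : ∀ x, 0 ≤ W.G x v := fun x => (W.R.green_pos W.trans _).le
  have hnuN : ∀ x, 0 ≤ W.nu x (ind N) := fun x => W.nu_nonneg x _ fun ζ _ => cla_nonneg N ζ
  have hnuJ : ∀ x, W.nu x (ind J) ≤ 1 := fun x =>
    (le_abs_self _).trans (W.nu_le x (ind J) (cla_meas mJ) 1 (cla_abs J))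
  have hc' : 0 < 1 / c := by positivity
  have key := W.R.minP {x | ρ ≤ ‖zz W.A x - η‖}
    (fun x => 2 * W.nu x (ind N) + 1 / c * W.G x v - W.nu x (ind J)) ?_ ?_ ?_
  · intro x hx
    have := key x hx
    linarith
  · -- superharmonic
    intro x _
    have e1 := W.nu_harm (ind N) (cla_meas mN) 1 (cla_abs N) x
    have e2 := W.nu_harm (ind J) (cla_meas mJ) 1 (cla_abs J) x
    have e3 : W.R.P (fun x => W.G x v) x ≤ W.G x v := W.R.green_super W.trans v x
    have e4 : W.R.P (fun x => 2 * W.nu x (ind N) + 1 / c * W.G x v - W.nu x (ind J)) x =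
        2 * W.R.P (fun x => W.nu x (ind N)) x + 1 / c * W.R.P (fun x => W.G x v) x -
          W.R.P (fun x => W.nu x (ind J)) x := by
      unfold RW.P
      rw [Finset.mul_sum, Finset.mul_sum, ← Finset.sum_add_distrib, ← Finset.sum_sub_distrib]
      refine Finset.sum_congr rfl fun i _ => ?_
      ring
    rw [e4, e1, e2]
    have e5 := mul_le_mul_of_nonneg_left e3 hc'.le
    show _ ≤ 2 * W.nu x (ind N) + 1 / c * W.G x v - W.nu x (ind J)
    linarith
  · -- the boundary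
    intro x hx i hb
    have hx' : ρ ≤ ‖zz W.A x - η‖ := hx
    have hb' : ‖zz W.A (x * W.R.e i) - η‖ < ρ := not_le.mp hb
    obtain ⟨j1, j2, _⟩ := hC i x
    obtain ⟨b, hbe⟩ : ∃ b, b = x * W.R.e i := ⟨_, rfl⟩
    rw [← hbe] at hb' j1 j2 ⊢
    have dx := del_pos W.A x
    have db := del_pos W.A b
    have dv := del_pos W.A v
    show 0 ≤ 2 * W.nu b (ind N) + 1 / c * W.G b v - W.nu b (ind J)
    have k1 := hnuJ b
    have k2 := hG0 b
    have k3 := hnuN b
    have k4 : 0 ≤ 1 / c * W.G b v := mul_nonneg hc'.le k2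
    rcases le_or_gt (τ * ρ) (del W.A b) with h | h
    · -- deep boundary point
      have f1 := del_formula W.A b v
      have n1 : ‖zz W.A b - zz W.A v‖ ≤ (1 + M) * ρ := by
        have t1 : zz W.A b - zz W.A v = (zz W.A b - η) - (zz W.A v - η) := by ring
        have t2 := norm_sub_le (zz W.A b - η) (zz W.A v - η)
        rw [t1]
        have t3 := hv.near
        linarith
      have n2 : ‖zz W.A b - zz W.A v‖ ^ 2 ≤ ((1 + M) * ρ) ^ 2 :=
        pow_le_pow_left₀ (norm_nonneg _) n1 2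
      have n3 : τ * ρ * (ρ / M) ≤ del W.A b * del W.A v := by
        refine mul_le_mul h ?_ (by positivity) db.le
        rw [div_le_iff₀ hM0]
        have := hv.lo
        linarith
      have n4 : ‖zz W.A b - zz W.A v‖ ^ 2 / (del W.A b * del W.A v) ≤ (1 + M) ^ 2 * M / τ := by
        rw [div_le_div_iff₀ (mul_pos db dv) hτ]
        have n5 : (1 + M) ^ 2 * M * (τ * ρ * (ρ / M)) = ((1 + M) * ρ) ^ 2 * τ := by
          field_simp
        have n6 := mul_le_mul_of_nonneg_left n3 (by positivity : 0 ≤ (1 + M) ^ 2 * M)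
        have n7 := mul_le_mul_of_nonneg_right n2 hτ.le
        linarith
      have n5 : 1 / del W.A (b⁻¹ * v) ≤ 1 + (1 + M) ^ 2 * M / τ := by
        rw [f1]
        linarith
      have n6 : 1 / (1 + (1 + M) ^ 2 * M / τ) ≤ del W.A (b⁻¹ * v) := by
        rw [div_le_iff₀ (del_pos W.A _)] at n5
        rw [div_le_iff₀ hB]
        linarith
      have n7 : c ≤ W.G b v := hgl _ n6
      have n8 : 1 ≤ 1 / c * W.G b v := by
        rw [one_div, inv_mul_eq_div, le_div_iff₀ hc]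
        linarith
      linarith
    · -- shallow boundary point
      have hsub : {ζ : ℂ | ‖ζ - zz W.A b‖ ≤ K * del W.A b} ⊆ N := by
        intro ζ hζ
        have hζ' : ‖ζ - zz W.A b‖ ≤ K * del W.A b := hζ
        rw [hN]
        show |‖ζ - η‖ - ρ| ≤ (K + C ^ 2) * τ * ρ
        have t1 : |‖ζ - η‖ - ‖zz W.A b - η‖| ≤ ‖ζ - zz W.A b‖ := by
          have := abs_norm_sub_norm_le (ζ - η) (zz W.A b - η)
          rwa [sub_sub_sub_cancel_right] at this
        have t2 : ‖zz W.A x - η‖ ≤ ‖zz W.A b - η‖ + ‖zz W.A b - zz W.A x‖ := by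
          have e : zz W.A x - η = (zz W.A b - η) - (zz W.A b - zz W.A x) := by ring
          rw [e]
          exact norm_sub_le _ _
        have t3 : |‖zz W.A b - η‖ - ρ| ≤ C ^ 2 * del W.A b := by
          rw [abs_le]
          have t4 : C * del W.A x ≤ C * (C * del W.A b) :=
            mul_le_mul_of_nonneg_left j2 (by linarith)
          have t5 : 0 ≤ C ^ 2 * del W.A b := by positivity
          constructor
          · nlinarith
          · linarith
        have t6 : |‖ζ - η‖ - ρ| ≤ |‖ζ - η‖ - ‖zz W.A b - η‖| + |‖zz W.A b - η‖ - ρ| :=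
          abs_sub_le _ _ _
        have t7 : (K + C ^ 2) * del W.A b ≤ (K + C ^ 2) * (τ * ρ) :=
          mul_le_mul_of_nonneg_left h.le (by positivity)
        calc |‖ζ - η‖ - ρ| ≤ K * del W.A b + C ^ 2 * del W.A b := by linarith
          _ = (K + C ^ 2) * del W.A b := by ring
          _ ≤ (K + C ^ 2) * (τ * ρ) := t7
          _ = (K + C ^ 2) * τ * ρ := by ring
      have mB : MeasurableSet {ζ : ℂ | ‖ζ - zz W.A b‖ ≤ K * del W.A b} :=
        measurableSet_le (by fun_prop) (by fun_prop)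
      have u1 := hK b
      have u2 := W.nu_mono b _ _ (cla_meas mB) (cla_meas mN) 1 (cla_abs _) (cla_abs _)
        (fun ζ _ => cla_mono hsub ζ)
      linarith
  · -- finiteness
    intro ε hε
    obtain ⟨K', hK'2, hK'⟩ := W.conc ε hε
    refine (finite_del W.A (ρ / (2 * K')) (by positivity)).subset ?_
    rintro x ⟨hx, hD⟩
    have hx' : ρ ≤ ‖zz W.A x - η‖ := hx
    have hD' : 2 * W.nu x (ind N) + 1 / c * W.G x v - W.nu x (ind J) < -ε := hD
    show ρ / (2 * K') ≤ del W.A x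
    by_contra hcon
    have hcon' : del W.A x < ρ / (2 * K') := not_le.mp hcon
    have hK0 : 0 < K' := by linarith
    rw [lt_div_iff₀ (by positivity)] at hcon'
    have hsub : J ⊆ {ζ : ℂ | K' * del W.A x < ‖ζ - zz W.A x‖} := by
      intro ζ hζ
      rw [hJ] at hζ
      have hζ' : ‖ζ - η‖ < ρ / 2 := hζ
      show K' * del W.A x < ‖ζ - zz W.A x‖
      have t1 : ‖zz W.A x - η‖ ≤ ‖ζ - η‖ + ‖ζ - zz W.A x‖ := by
        have e : zz W.A x - η = (ζ - η) - (ζ - zz W.A x) := by ring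
        rw [e]
        exact norm_sub_le _ _
      linarith
    have mB : MeasurableSet {ζ : ℂ | K' * del W.A x < ‖ζ - zz W.A x‖} :=
      measurableSet_lt (by fun_prop) (by fun_prop)
    have u1 := hK' x
    have u2 := W.nu_mono x _ _ (cla_meas mJ) (cla_meas mB) 1 (cla_abs _) (cla_abs _)
      (fun ζ _ => cla_mono hsub ζ)
    have u3 := hnuN x
    have u4 : 0 ≤ 1 / c * W.G x v := mul_nonneg hc'.le (hG0 x)
    linarith

end WD

end Pool.Agent.DimDropH
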