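import Pool.Agent.Lib_MP_644907_h.CLA

/-!
# Piece CLC: claim C
-/

set_option autoImplicit false

open Complex MeasureTheory Metric Filter
open scoped Topology

namespace Pool.Agent.DimDropH

open Pool.Agent.DimDrop (IsoD)
open Pool.Agent.DimDropF (IG mb dmb)

namespace WD

variable {Γ : Type} [Group Γ] {n : ℕ} (W : WD Γ n)

private theorem clc_meas {E : Set ℂ} (hE : MeasurableSet E) : Measurable (ind E) :=
  measurable_const.indicator hE

private theorem clc_abs (E : Set ℂ) (ζ : ℂ) : |ind E ζ| ≤ 1 := by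
  classical
  unfold ind
  rw [Set.indicator_apply]
  split_ifs <;> simp

private theorem clc_nonneg (E : Set ℂ) (ζ : ℂ) : 0 ≤ ind E ζ := by
  classical
  unfold ind
  rw [Set.indicator_apply]
  split_ifs <;> norm_num

private theorem clc_mono {E F : Set ℂ} (h : E ⊆ F) (ζ : ℂ) : ind E ζ ≤ ind F ζ :=
  Set.indicator_le_indicator_of_subset h (fun _ => zero_le_one) ζ

private theorem clc_measN (η : ℂ) (ρ r : ℝ) : MeasurableSet {ζ : ℂ | |‖ζ - η‖ - ρ| ≤ r} :=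
  measurableSet_le (by fun_prop) (by fun_prop)

/-- the boundary points are close to the circle of radius `ρ` -/
private theorem clc_near {C : ℝ} (hC1 : 1 ≤ C) {η : ℂ} {ρ : ℝ} {x b : Γ}
    (j1 : ‖zz W.A b - zz W.A x‖ ≤ C * del W.A x) (j2 : del W.A x ≤ C * del W.A b)
    (hx : ρ ≤ ‖zz W.A x - η‖) (hb : ‖zz W.A b - η‖ < ρ) :
    |‖zz W.A b - η‖ - ρ| ≤ C ^ 2 * del W.A b := by
  have db := del_pos W.A b
  have t2 : ‖zz W.A x - η‖ ≤ ‖zz W.A b - η‖ + ‖zz W.A b - zz W.A x‖ := by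
    have e : zz W.A x - η = (zz W.A b - η) - (zz W.A b - zz W.A x) := by ring
    rw [e]
    exact norm_sub_le _ _
  have t4 : C * del W.A x ≤ C * (C * del W.A b) := mul_le_mul_of_nonneg_left j2 (by linarith)
  have t5 : 0 ≤ C ^ 2 * del W.A b := by positivity
  rw [abs_le]
  constructor
  · linarith only [t2, t4, j1, hx]
  · linarith only [hb, t5]

/-- shallow boundary points have mass at least `1/2` on the annulus -/
private theorem clc_half {K C : ℝ} (hK2 : 2 ≤ K)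
    (hK : ∀ x, 1 - 1 / 2 ≤ W.nu x (ind {ζ | ‖ζ - zz W.A x‖ ≤ K * del W.A x}))
    {η : ℂ} {ρ τ : ℝ} {b : Γ} (hn : |‖zz W.A b - η‖ - ρ| ≤ C ^ 2 * del W.A b)
    (h : del W.A b < τ * ρ) :
    1 / 2 ≤ W.nu b (ind {ζ | |‖ζ - η‖ - ρ| ≤ (K + C ^ 2) * τ * ρ}) := by
  have hsub : {ζ : ℂ | ‖ζ - zz W.A b‖ ≤ K * del W.A b} ⊆
      {ζ | |‖ζ - η‖ - ρ| ≤ (K + C ^ 2) * τ * ρ} := by
    intro ζ hζ
    have hζ' : ‖ζ - zz W.A b‖ ≤ K * del W.A b := hζ
    show |‖ζ - η‖ - ρ| ≤ (K + C ^ 2) * τ * ρ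
    have t1 : |‖ζ - η‖ - ‖zz W.A b - η‖| ≤ ‖ζ - zz W.A b‖ := by
      have := abs_norm_sub_norm_le (ζ - η) (zz W.A b - η)
      rwa [sub_sub_sub_cancel_right] at this
    have t6 : |‖ζ - η‖ - ρ| ≤ |‖ζ - η‖ - ‖zz W.A b - η‖| + |‖zz W.A b - η‖ - ρ| :=
      abs_sub_le _ _ _
    have hpos : 0 ≤ K + C ^ 2 := by
      have := sq_nonneg C
      linarith
    have t7 : (K + C ^ 2) * del W.A b ≤ (K + C ^ 2) * (τ * ρ) :=
      mul_le_mul_of_nonneg_left h.le hpos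
    calc |‖ζ - η‖ - ρ| ≤ K * del W.A b + C ^ 2 * del W.A b := by linarith only [t6, t1, hζ', hn]
      _ = (K + C ^ 2) * del W.A b := by ring
      _ ≤ (K + C ^ 2) * (τ * ρ) := t7
      _ = (K + C ^ 2) * τ * ρ := by ring
  have mB : MeasurableSet {ζ : ℂ | ‖ζ - zz W.A b‖ ≤ K * del W.A b} :=
    measurableSet_le (by fun_prop) (by fun_prop)
  have u1 := hK b
  have u2 := W.nu_mono b _ _ (clc_meas mB) (clc_meas (clc_measN η ρ ((K + C ^ 2) * τ * ρ))) 1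
    (clc_abs _) (clc_abs _) (fun ζ _ => clc_mono hsub ζ)
  linarith

/-- deep boundary points are at bounded distance from `v` -/
private theorem clc_deep {M τ ρ : ℝ} {η : ℂ} {b v : Γ} (hM : 1 ≤ M) (hτ : 0 < τ) (hρ : 0 < ρ)
    (hv : Pos W.A M η ρ v) (hb : ‖zz W.A b - η‖ < ρ) (h : τ * ρ ≤ del W.A b) :
    1 / (1 + (1 + M) ^ 2 * M / τ) ≤ del W.A (b⁻¹ * v) ∧
      1 / (1 + (1 + M) ^ 2 * M / τ) ≤ del W.A (v⁻¹ * b) := by
  have hM0 : 0 < M := by linarith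
  have hB : 0 < 1 + (1 + M) ^ 2 * M / τ := by positivity
  have db := del_pos W.A b
  have dv := del_pos W.A v
  have f1 := del_formula W.A b v
  have f2 := del_formula W.A v b
  have n1 : ‖zz W.A b - zz W.A v‖ ≤ (1 + M) * ρ := by
    have t1 : zz W.A b - zz W.A v = (zz W.A b - η) - (zz W.A v - η) := by ring
    have t2 := norm_sub_le (zz W.A b - η) (zz W.A v - η)
    rw [t1]
    have t3 := hv.near
    linarith
  have n2 : ‖zz W.A b - zz W.A v‖ ^ 2 ≤ ((1 + M) * ρ) ^ 2 :=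
    pow_le_pow_left₀ (norm_nonneg _) n1 2
  have n3 : τ * ρ * (ρ / M) ≤ del W.A b * del W.A v := by
    refine mul_le_mul h ?_ (by positivity) db.le
    rw [div_le_iff₀ hM0]
    have := hv.lo
    linarith
  have n4 : ‖zz W.A b - zz W.A v‖ ^ 2 / (del W.A b * del W.A v) ≤ (1 + M) ^ 2 * M / τ := by
    rw [div_le_div_iff₀ (mul_pos db dv) hτ]
    have n5 : (1 + M) ^ 2 * M * (τ * ρ * (ρ / M)) = ((1 + M) * ρ) ^ 2 * τ := by
      field_simp
    have n6 := mul_le_mul_of_nonneg_left n3 (by positivity : 0 ≤ (1 + M) ^ 2 * M)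
    have n7 := mul_le_mul_of_nonneg_right n2 hτ.le
    linarith
  constructor
  · have n5 : 1 / del W.A (b⁻¹ * v) ≤ 1 + (1 + M) ^ 2 * M / τ := by
      rw [f1]
      linarith
    rw [div_le_iff₀ (del_pos W.A _)] at n5
    rw [div_le_iff₀ hB]
    linarith
  · have n5 : 1 / del W.A (v⁻¹ * b) ≤ 1 + (1 + M) ^ 2 * M / τ := by
      rw [f2, norm_sub_rev, mul_comm (del W.A v)]
      linarith
    rw [div_le_iff₀ (del_pos W.A _)] at n5
    rw [div_le_iff₀ hB]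
    linarith

/-- the Green function at shallow boundary points -/
private theorem clc_shallow {Cu C τ ρ : ℝ} {η : ℂ} {b v : Γ} (hCu : 0 < Cu)
    (hu : ∀ w, W.R.green w ≤ Cu * del W.A w) (hτ : 0 < τ) (hρ : 0 < ρ) (hCτ : C ^ 2 * τ ≤ 1 / 8)
    (hv : ‖zz W.A v - η‖ ≤ ρ / 2) (hn : |‖zz W.A b - η‖ - ρ| ≤ C ^ 2 * del W.A b)
    (h : del W.A b < τ * ρ) : W.G b v ≤ 16 * Cu * τ * (del W.A v / ρ) := by
  have db := del_pos W.A b
  have dv := del_pos W.A v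
  have dbv := del_pos W.A (b⁻¹ * v)
  have f1 := del_formula W.A b v
  have t1 : ‖zz W.A b - η‖ ≤ ‖zz W.A b - zz W.A v‖ + ‖zz W.A v - η‖ := by
    have e : zz W.A b - η = (zz W.A b - zz W.A v) + (zz W.A v - η) := by ring
    rw [e]
    exact norm_add_le _ _
  have t2 := (abs_le.1 hn).1
  have t3 : C ^ 2 * del W.A b ≤ ρ / 8 := by
    have a1 : C ^ 2 * del W.A b ≤ C ^ 2 * (τ * ρ) := mul_le_mul_of_nonneg_left h.le (sq_nonneg C)
    have a2 := mul_le_mul_of_nonneg_right hCτ hρ.le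
    linarith only [a1, a2]
  have t4 : ρ / 4 ≤ ‖zz W.A b - zz W.A v‖ := by linarith only [t1, t2, t3, hv, hρ]
  have t5 : (ρ / 4) ^ 2 ≤ ‖zz W.A b - zz W.A v‖ ^ 2 := pow_le_pow_left₀ (by positivity) t4 2
  have t6 : (ρ / 4) ^ 2 / (del W.A b * del W.A v) ≤ 1 / del W.A (b⁻¹ * v) := by
    rw [f1]
    have := div_le_div_of_nonneg_right t5 (mul_pos db dv).le
    linarith only [this]
  rw [div_le_div_iff₀ (mul_pos db dv) dbv, one_mul] at t6
  have t7 : del W.A b * del W.A v ≤ τ * ρ * del W.A v := mul_le_mul_of_nonneg_right h.le dv.le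
  have t8 : del W.A (b⁻¹ * v) ≤ 16 * τ * (del W.A v / ρ) := by
    rw [← mul_div_assoc, le_div_iff₀ hρ]
    have t9 : del W.A (b⁻¹ * v) * ρ * ρ ≤ 16 * τ * del W.A v * ρ := by
      linarith only [t6, t7]
    exact le_of_mul_le_mul_right t9 hρ
  have t10 := mul_le_mul_of_nonneg_left t8 hCu.le
  have t11 := hu (b⁻¹ * v)
  have t12 : W.G b v = W.R.green (b⁻¹ * v) := rfl
  rw [t12]
  linarith only [t10, t11]

/-- `C₅ = K + C^2` as in `claimA`. `minP` on `U = {x | ρ ≤ ‖z_x - η‖}` for `D x = C₆ τ (δ_v/ρ) ν_x(N) + Cτ G(v', v) G(x, v') - G(x, v)` (harmonic at `x ≠ v`, and `v ∉ U`; `green_super`). Boundary `b = x e_i`,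
`‖z_b - η‖ < ρ`, `|‖z_b - η‖ - ρ| ≤ C^2 δ_b`. If `δ_b < τ ρ`: `‖z_b - z_v‖ ≥ ρ - C^2 τ ρ - ρ/2 ≥ ρ/4`, `1/δ(b⁻¹ v) ≥ ρ^2/(16 δ_b δ_v)`, `G(b, v) ≤ Cu 16 δ_b δ_v / ρ^2 ≤ 16 Cu τ δ_v / ρ` and
`ν_b(N) ≥ 1/2` (`conc'`): `C₆ = 32 Cu`. If `δ_b ≥ τ ρ`: as in `claimA` `G(b, v') ≥ c_τ`, `G(v', b) ≥ c_τ` and `G(v', b) G(b, v) ≤ g(1) G(v', v)` (`green_mul_le`): `Cτ = g(1)/c_τ^2`.
Finiteness: `D x < -ε` implies `G(x, v) > ε`, `G(x,v) ≤ Cu δ(x⁻¹ v)`, finite set. -/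
theorem claimC (Cu : ℝ) (hCu : 0 < Cu) (hu : ∀ w, W.R.green w ≤ Cu * del W.A w) :
    ∃ C₅ C₆ : ℝ, 1 ≤ C₅ ∧ 0 < C₆ ∧ ∀ M : ℝ, 1 ≤ M → ∀ τ : ℝ, 0 < τ → C₅ * τ ≤ 1 / 8 → ∃ Cτ : ℝ, 0 < Cτ ∧
    ∀ (η : ℂ) (ρ : ℝ), ‖η‖ = 1 → 0 < ρ → ρ ≤ 1 → ∀ v', Pos W.A M η ρ v' → ∀ v, ‖zz W.A v - η‖ ≤ ρ / 2 → ∀ x, ρ ≤ ‖zz W.A x - η‖ →
      W.G x v ≤ C₆ * τ * (del W.A v / ρ) * W.nu x (ind {ζ | |‖ζ - η‖ - ρ| ≤ C₅ * τ * ρ}) + Cτ * W.G v' v * W.G x v' := by
  classical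
  obtain ⟨K, hK2, hK⟩ := W.conc' (1 / 2) (by norm_num)
  obtain ⟨C, hC1, hC⟩ := W.jumps
  refine ⟨K + C ^ 2, 32 * Cu, by nlinarith, by positivity, ?_⟩
  intro M hM τ hτ hC5
  have hM0 : 0 < M := by linarith
  have hB : 0 < 1 + (1 + M) ^ 2 * M / τ := by positivity
  obtain ⟨c, hc, hgl⟩ := W.green_low (1 / (1 + (1 + M) ^ 2 * M / τ)) (by positivity)
  have hg1 : 0 < W.R.green 1 := W.R.green_pos W.trans 1
  refine ⟨W.R.green 1 / c ^ 2, by positivity, ?_⟩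
  intro η ρ _ hρ _ v' hv' v hv
  have := infinite_of W.A
  have hCτ : C ^ 2 * τ ≤ 1 / 8 := by
    have : 0 ≤ K * τ := by
      have : 0 ≤ K := by linarith
      positivity
    linarith only [hC5, this]
  obtain ⟨N, hN⟩ : ∃ N : Set ℂ, N = {ζ | |‖ζ - η‖ - ρ| ≤ (K + C ^ 2) * τ * ρ} := ⟨_, rfl⟩
  have mN : MeasurableSet N := by
    rw [hN]
    exact clc_measN _ _ _
  rw [← hN]
  have dv := del_pos W.A v
  obtain ⟨k, hk⟩ : ∃ k : ℝ, k = 32 * Cu * τ * (del W.A v / ρ) := ⟨_, rfl⟩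
  obtain ⟨q, hq⟩ : ∃ q : ℝ, q = W.R.green 1 / c ^ 2 * W.G v' v := ⟨_, rfl⟩
  rw [← hk, ← hq]
  have hk0 : 0 ≤ k := by
    rw [hk]
    positivity
  have hG0 : ∀ x y, 0 ≤ W.G x y := fun x y => (W.R.green_pos W.trans _).le
  have hq0 : 0 ≤ q := by
    rw [hq]
    exact mul_nonneg (by positivity) (hG0 _ _)
  have hnuN : ∀ x, 0 ≤ W.nu x (ind N) := fun x => W.nu_nonneg x _ fun ζ _ => clc_nonneg N ζ
  have key := W.R.minP {x | ρ ≤ ‖zz W.A x - η‖}
    (fun x => k * W.nu x (ind N) + q * W.G x v' - W.G x v) ?_ ?_ ?_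
  · intro x hx
    have := key x hx
    linarith
  · -- superharmonic
    intro x hx
    have hx' : ρ ≤ ‖zz W.A x - η‖ := hx
    have hxv : x ≠ v := by
      rintro rfl
      linarith
    have e1 := W.nu_harm (ind N) (clc_meas mN) 1 (clc_abs N) x
    have e3 : W.R.P (fun x => W.G x v') x ≤ W.G x v' := W.R.green_super W.trans v' x
    have e2 : W.R.P (fun x => W.G x v) x = W.G x v := W.R.green_harm W.trans v x hxv
    have e4 : W.R.P (fun x => k * W.nu x (ind N) + q * W.G x v' - W.G x v) x =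
        k * W.R.P (fun x => W.nu x (ind N)) x + q * W.R.P (fun x => W.G x v') x -
          W.R.P (fun x => W.G x v) x := by
      unfold RW.P
      rw [Finset.mul_sum, Finset.mul_sum, ← Finset.sum_add_distrib, ← Finset.sum_sub_distrib]
      refine Finset.sum_congr rfl fun i _ => ?_
      ring
    rw [e4, e1, e2]
    have e5 := mul_le_mul_of_nonneg_left e3 hq0
    show _ ≤ k * W.nu x (ind N) + q * W.G x v' - W.G x v
    linarith
  · -- the boundary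
    intro x hx i hb
    have hx' : ρ ≤ ‖zz W.A x - η‖ := hx
    have hb' : ‖zz W.A (x * W.R.e i) - η‖ < ρ := not_le.mp hb
    obtain ⟨j1, j2, _⟩ := hC i x
    obtain ⟨b, hbe⟩ : ∃ b, b = x * W.R.e i := ⟨_, rfl⟩
    rw [← hbe] at hb' j1 j2 ⊢
    show 0 ≤ k * W.nu b (ind N) + q * W.G b v' - W.G b v
    have hn := W.clc_near hC1 j1 j2 hx' hb'
    have k1 : 0 ≤ k * W.nu b (ind N) := mul_nonneg hk0 (hnuN b)
    have k2 : 0 ≤ q * W.G b v' := mul_nonneg hq0 (hG0 _ _)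
    rcases le_or_gt (τ * ρ) (del W.A b) with h | h
    · -- deep boundary point
      obtain ⟨d1, d2⟩ := W.clc_deep hM hτ hρ hv' hb' h
      have g1 : c ≤ W.G b v' := hgl _ d1
      have g2 : c ≤ W.G v' b := hgl _ d2
      have g3 : W.G v' b * W.G b v ≤ W.R.green 1 * W.G v' v := W.R.green_mul_le W.trans v' b v
      have g4 : c * W.G b v ≤ W.R.green 1 * W.G v' v :=
        (mul_le_mul_of_nonneg_right g2 (hG0 _ _)).trans g3
      have g5 : c * (W.R.green 1 * W.G v' v) ≤ W.G b v' * (W.R.green 1 * W.G v' v) :=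
        mul_le_mul_of_nonneg_right g1 (mul_nonneg hg1.le (hG0 _ _))
      have g6 : W.G b v ≤ q * W.G b v' := by
        have e : q * W.G b v' = W.G b v' * (W.R.green 1 * W.G v' v) / c ^ 2 := by
          rw [hq]
          ring
        rw [e, le_div_iff₀ (by positivity)]
        have g7 := mul_le_mul_of_nonneg_left g4 hc.le
        linarith only [g7, g5]
      linarith only [g6, k1]
    · -- shallow boundary point
      have h1 := W.clc_half hK2 hK hn h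
      have h2 := W.clc_shallow hCu hu hτ hρ hCτ hv hn h
      rw [← hN] at h1
      have h3 := mul_le_mul_of_nonneg_left h1 hk0
      have h4 : k * (1 / 2) = 16 * Cu * τ * (del W.A v / ρ) := by
        rw [hk]
        ring
      linarith only [h2, h3, h4, k2]
  · -- finiteness
    intro ε hε
    have hfin := (finite_del W.A (ε / Cu) (by positivity)).preimage
      (f := fun x : Γ => x⁻¹ * v) (fun a _ b _ hab => by
        have : a⁻¹ = b⁻¹ := mul_right_cancel hab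
        exact inv_injective this)
    refine hfin.subset ?_
    rintro x ⟨_, hD⟩
    have hD' : k * W.nu x (ind N) + q * W.G x v' - W.G x v < -ε := hD
    show ε / Cu ≤ del W.A (x⁻¹ * v)
    have k1 : 0 ≤ k * W.nu x (ind N) := mul_nonneg hk0 (hnuN x)
    have k2 : 0 ≤ q * W.G x v' := mul_nonneg hq0 (hG0 _ _)
    have k3 : W.G x v ≤ Cu * del W.A (x⁻¹ * v) := hu _
    rw [div_le_iff₀ hCu]
    linarith only [hD', k1, k2, k3]

end WD

end Pool.Agent.DimDropH
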