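import Pool.Agent.Lib_MP_644907_h.HDef

/-!
# Piece STANA: the limit measure
-/

set_option autoImplicit false

open Complex MeasureTheory Metric Filter
open scoped Topology

namespace Pool.Agent.DimDropH

open Pool.Agent.DimDrop (IsoD)
open Pool.Agent.DimDropF (IG mb dmb)

/-- the limit measure `|ζ - p|^(-2) dθ` -/
noncomputable def lam (p : ℂ) (F : ℂ → ℝ) : ℝ := ∫ θ in (0:ℝ)..(2 * Real.pi), F (circleMap 0 1 θ) / ‖circleMap 0 1 θ - p‖ ^ 2

private theorem stana_norm (θ : ℝ) : ‖circleMap 0 1 θ‖ = 1 := by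
  rw [norm_circleMap_zero, abs_one]

private theorem stana_chord (φ θ : ℝ) :
    ‖circleMap 0 1 θ - circleMap 0 1 φ‖ = 2 * |Real.sin ((θ - φ) / 2)| := by
  have h1 : circleMap 0 1 θ - circleMap 0 1 φ =
      circleMap 0 1 φ * (Complex.exp (I * ((θ - φ : ℝ) : ℂ)) - 1) := by
    unfold circleMap
    simp only [zero_add, Complex.ofReal_one, one_mul]
    rw [mul_sub, mul_one, ← Complex.exp_add]
    congr 2
    push_cast
    ring
  rw [h1, norm_mul, stana_norm, one_mul, Complex.norm_exp_I_mul_ofReal_sub_one, norm_mul,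
    Real.norm_ofNat, Real.norm_eq_abs]

private theorem stana_exists (η : ℂ) (hη : ‖η‖ = 1) : ∃ φ : ℝ, η = circleMap 0 1 φ := by
  refine ⟨Complex.arg η, ?_⟩
  have h := Complex.norm_mul_exp_arg_mul_I η
  rw [hη, Complex.ofReal_one, one_mul] at h
  unfold circleMap
  rw [zero_add, Complex.ofReal_one, one_mul, h]

private theorem stana_cont (p : ℂ) (F : ℂ → ℝ) (hF : Continuous F) (κ : ℝ) (hκ : 0 < κ)
    (h0 : ∀ ζ : ℂ, ‖ζ - p‖ < κ → F ζ = 0) :
    Continuous (fun θ : ℝ => F (circleMap 0 1 θ) / ‖circleMap 0 1 θ - p‖ ^ 2) := by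
  have hc : Continuous (circleMap (0 : ℂ) 1) := continuous_circleMap 0 1
  rw [continuous_iff_continuousAt]
  intro θ
  by_cases h : circleMap 0 1 θ = p
  · have h1 : (fun θ : ℝ => F (circleMap 0 1 θ) / ‖circleMap 0 1 θ - p‖ ^ 2) =ᶠ[𝓝 θ] fun _ => 0 := by
      have h2 : ∀ᶠ θ' in 𝓝 θ, ‖circleMap 0 1 θ' - p‖ < κ := by
        have h3 : ContinuousAt (fun θ' : ℝ => ‖circleMap 0 1 θ' - p‖) θ := by fun_prop
        refine h3.eventually_lt_const ?_
        show ‖circleMap 0 1 θ - p‖ < κ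
        rw [h, sub_self, norm_zero]
        exact hκ
      filter_upwards [h2] with θ' h4
      rw [h0 _ h4, zero_div]
    exact (continuousAt_const).congr h1.symm
  · have h1 : ‖circleMap 0 1 θ - p‖ ^ 2 ≠ 0 := by
      have : ‖circleMap 0 1 θ - p‖ ≠ 0 := norm_ne_zero_iff.2 (sub_ne_zero.2 h)
      positivity
    exact ContinuousAt.div (by fun_prop) (by fun_prop) h1

private theorem stana_shift (p : ℂ) (F : ℂ → ℝ) (φ : ℝ) :
    lam p F = ∫ θ in (φ - Real.pi)..(φ + Real.pi), F (circleMap 0 1 θ) / ‖circleMap 0 1 θ - p‖ ^ 2 := by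
  have hper : Function.Periodic (fun θ : ℝ => F (circleMap 0 1 θ) / ‖circleMap 0 1 θ - p‖ ^ 2) (2 * Real.pi) := by
    intro θ
    simp only
    rw [periodic_circleMap 0 1 θ]
  have h1 := hper.intervalIntegral_add_eq 0 (φ - Real.pi)
  rw [zero_add] at h1
  have h2 : φ - Real.pi + 2 * Real.pi = φ + Real.pi := by ring
  rw [h2] at h1
  exact h1

/-- `|ζ - p| ≤ 2`; the chord is at most the angle: `∫ F ≥ length ≥ r` -/
theorem lam_ge (p η : ℂ) (hp : ‖p‖ = 1) (hη : ‖η‖ = 1) (r : ℝ) (hr : 0 < r) (hr1 : r ≤ 1) (F : ℂ → ℝ) (hF : Continuous F) (hF0 : ∀ ζ, 0 ≤ F ζ)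
    (κ : ℝ) (hκ : 0 < κ) (h0 : ∀ ζ : ℂ, ‖ζ - p‖ < κ → F ζ = 0)
    (h1 : ∀ ζ : ℂ, ‖ζ - η‖ ≤ r → 1 ≤ F ζ) : r / 4 ≤ lam p F := by
  obtain ⟨φ, rfl⟩ := stana_exists η hη
  have hpi := Real.pi_gt_three
  set g : ℝ → ℝ := fun θ => F (circleMap 0 1 θ) / ‖circleMap 0 1 θ - p‖ ^ 2 with hg
  have hgc : Continuous g := stana_cont p F hF κ hκ h0
  have hg0 : ∀ θ, 0 ≤ g θ := fun θ => div_nonneg (hF0 _) (by positivity)
  rw [stana_shift p F φ]
  have e1 : ∫ θ in φ..(φ + r), g θ ≤ ∫ θ in (φ - Real.pi)..(φ + Real.pi), g θ := by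
    refine intervalIntegral.integral_mono_interval (by linarith) (by linarith) (by linarith) ?_
      (hgc.intervalIntegrable _ _)
    exact Filter.Eventually.of_forall hg0
  refine le_trans ?_ e1
  have e2 : ∫ _θ in φ..(φ + r), (1 / 4 : ℝ) = r / 4 := by
    rw [intervalIntegral.integral_const, smul_eq_mul]
    ring
  rw [← e2]
  refine intervalIntegral.integral_mono_on (by linarith) (by simp) (hgc.intervalIntegrable _ _) ?_
  intro θ hθ
  have hch : ‖circleMap 0 1 θ - circleMap 0 1 φ‖ ≤ r := by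
    rw [stana_chord]
    have h2 : 0 ≤ (θ - φ) / 2 := by linarith [hθ.1]
    have h3 : |Real.sin ((θ - φ) / 2)| ≤ (θ - φ) / 2 := by
      rw [abs_le]
      constructor
      · have h4 : 0 ≤ Real.sin ((θ - φ) / 2) :=
          Real.sin_nonneg_of_nonneg_of_le_pi h2 (by linarith [hθ.2])
        linarith
      · exact Real.sin_le h2
    linarith [hθ.2]
  have hF1 := h1 _ hch
  have hne : circleMap 0 1 θ ≠ p := by
    intro h
    have := h0 (circleMap 0 1 θ) (by rw [h, sub_self, norm_zero]; exact hκ)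
    linarith
  have hpos : 0 < ‖circleMap 0 1 θ - p‖ := norm_pos_iff.2 (sub_ne_zero.2 hne)
  have hle : ‖circleMap 0 1 θ - p‖ ≤ 2 := by
    refine (norm_sub_le _ _).trans ?_
    rw [stana_norm, hp]
    norm_num
  show 1 / 4 ≤ F (circleMap 0 1 θ) / ‖circleMap 0 1 θ - p‖ ^ 2
  rw [div_le_div_iff₀ (by norm_num) (by positivity)]
  nlinarith

/-- the gap of the arcs: `sin B - sin A ≥ (B - A) / 4` -/
private theorem stana_gap {A B : ℝ} (h0 : 0 ≤ A) (hAB : A ≤ B) (hB : B ≤ Real.pi / 6) :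
    (B - A) / 4 ≤ Real.sin B - Real.sin A := by
  have hpi := Real.pi_pos
  have hpi4 := Real.pi_le_four
  rw [Real.sin_sub_sin]
  have h1 : 2 / Real.pi * ((B - A) / 2) ≤ Real.sin ((B - A) / 2) :=
    Real.mul_le_sin (by linarith) (by linarith)
  have h2 : 1 / 2 ≤ Real.cos ((B + A) / 2) := by
    rw [← Real.cos_pi_div_three]
    exact Real.cos_le_cos_of_nonneg_of_le_pi (by linarith) (by linarith) (by linarith)
  have h3 : (B - A) / 4 ≤ 2 / Real.pi * ((B - A) / 2) := by
    have : 2 / Real.pi * ((B - A) / 2) = (B - A) / Real.pi := by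
      field_simp
    rw [this]
    exact div_le_div_of_nonneg_left (by linarith) hpi hpi4
  have h4 : 0 ≤ Real.sin ((B - A) / 2) := by
    have : 0 ≤ (B - A) / 4 := by linarith
    linarith
  nlinarith

private theorem stana_ind (x y a b : ℝ) (hab : a ≤ b) (hxy : x ≤ y) :
    ∫ θ in x..y, (Set.Icc a b).indicator (fun _ => (1 : ℝ)) θ ≤ b - a := by
  rw [intervalIntegral.integral_of_le hxy, MeasureTheory.setIntegral_indicator measurableSet_Icc,
    MeasureTheory.setIntegral_const, smul_eq_mul, mul_one]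
  calc volume.real (Set.Ioc x y ∩ Set.Icc a b) ≤ volume.real (Set.Icc a b) :=
        measureReal_mono Set.inter_subset_right (by rw [Real.volume_Icc]; exact ENNReal.ofReal_ne_top)
    _ = b - a := by
        rw [Real.volume_real_Icc_of_le hab]

private theorem stana_ind_ii (x y a b : ℝ) :
    IntervalIntegrable ((Set.Icc a b).indicator (fun _ => (1 : ℝ))) volume x y := by
  have h : Integrable ((Set.Icc a b).indicator (fun _ => (1 : ℝ))) volume := by
    rw [integrable_indicator_iff measurableSet_Icc]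
    exact integrableOn_const (by rw [Real.volume_Icc]; exact ENNReal.ofReal_ne_top)
  exact h.intervalIntegrable

/-- if `F ≤ 1` vanishes outside of the annulus `s ≤ |ζ - η| ≤ t`, `t ≤ κ/2`, `κ ≤ |η - p|`, then `|ζ - p| ≥ κ/2` there and the angle measure of the annulus is at most `4 (t - s)` (`|ζ - η| = 2 sin(angle/2)`; for `t ≤ 1`
the derivative of the chord is at least `1/2`) -/
theorem lam_le (p η : ℂ) (hp : ‖p‖ = 1) (hη : ‖η‖ = 1) (κ s t : ℝ) (hκ : 0 < κ) (hst : s ≤ t) (ht : t ≤ κ / 2) (ht1 : t ≤ 1) (hpη : κ ≤ ‖η - p‖)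
    (F : ℂ → ℝ) (hF : Continuous F) (hF0 : ∀ ζ, 0 ≤ F ζ) (hF1 : ∀ ζ, F ζ ≤ 1)
    (h0 : ∀ ζ : ℂ, ‖ζ - η‖ < s ∨ t < ‖ζ - η‖ → F ζ = 0) : lam p F ≤ 32 / κ ^ 2 * (t - s) := by
  obtain ⟨φ, rfl⟩ := stana_exists η hη
  have hpi := Real.pi_gt_three
  set g : ℝ → ℝ := fun θ => F (circleMap 0 1 θ) / ‖circleMap 0 1 θ - p‖ ^ 2 with hg
  have hR : 0 ≤ 32 / κ ^ 2 * (t - s) := mul_nonneg (by positivity) (by linarith)
  rcases lt_or_ge t 0 with htn | htn
  · have h2 : lam p F = 0 := by
      unfold lam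
      have : ∀ θ : ℝ, F (circleMap 0 1 θ) / ‖circleMap 0 1 θ - p‖ ^ 2 = 0 := by
        intro θ
        rw [h0 _ (Or.inr (htn.trans_le (norm_nonneg _))), zero_div]
      simp only [this]
      simp
    rw [h2]
    exact hR
  have hgc : Continuous g := by
    refine stana_cont p F hF (κ / 2) (by linarith) (fun ζ hζ => h0 ζ (Or.inr ?_))
    have h2 : ‖circleMap 0 1 φ - p‖ ≤ ‖ζ - circleMap 0 1 φ‖ + ‖ζ - p‖ := by
      have : circleMap 0 1 φ - p = -(ζ - circleMap 0 1 φ) + (ζ - p) := by ring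
      rw [this]
      refine (norm_add_le _ _).trans ?_
      rw [norm_neg]
    linarith
  set s' := max s 0 with hs'
  have hs0 : 0 ≤ s' := le_max_right _ _
  have hss : s ≤ s' := le_max_left _ _
  have hst' : s' ≤ t := max_le hst htn
  set A := Real.arcsin (s' / 2) with hA
  set B := Real.arcsin (t / 2) with hB
  have hA0 : 0 ≤ A := Real.arcsin_nonneg.2 (by linarith)
  have hAB : A ≤ B := Real.monotone_arcsin (by linarith)
  have hB6 : B ≤ Real.pi / 6 := by
    have h2 : Real.arcsin (1 / 2) = Real.pi / 6 := by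
      rw [← Real.sin_pi_div_six]
      exact Real.arcsin_sin (by linarith) (by linarith)
    rw [← h2]
    exact Real.monotone_arcsin (by linarith)
  have hsA : Real.sin A = s' / 2 := Real.sin_arcsin (by linarith) (by linarith)
  have hsB : Real.sin B = t / 2 := Real.sin_arcsin (by linarith) (by linarith)
  have hgap := stana_gap hA0 hAB hB6
  rw [hsA, hsB] at hgap
  -- pointwise bound
  have key : ∀ θ ∈ Set.Icc (φ - Real.pi) (φ + Real.pi), g θ ≤
      4 / κ ^ 2 * ((Set.Icc (φ + 2 * A) (φ + 2 * B)).indicator (fun _ => (1 : ℝ)) θ +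
        (Set.Icc (φ - 2 * B) (φ - 2 * A)).indicator (fun _ => (1 : ℝ)) θ) := by
    intro θ hθ
    have hi1 : 0 ≤ (Set.Icc (φ + 2 * A) (φ + 2 * B)).indicator (fun _ => (1 : ℝ)) θ :=
      Set.indicator_nonneg (fun _ _ => zero_le_one) _
    have hi2 : 0 ≤ (Set.Icc (φ - 2 * B) (φ - 2 * A)).indicator (fun _ => (1 : ℝ)) θ :=
      Set.indicator_nonneg (fun _ _ => zero_le_one) _
    by_cases hz : F (circleMap 0 1 θ) = 0
    · have : g θ = 0 := by
        rw [hg]
        simp only
        rw [hz, zero_div]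
      rw [this]
      positivity
    · have h2 : ¬ (‖circleMap 0 1 θ - circleMap 0 1 φ‖ < s ∨ t < ‖circleMap 0 1 θ - circleMap 0 1 φ‖) :=
        fun h => hz (h0 _ h)
      push Not at h2
      have h3 : κ / 2 ≤ ‖circleMap 0 1 θ - p‖ := by
        have h4 : ‖circleMap 0 1 φ - p‖ ≤ ‖circleMap 0 1 θ - circleMap 0 1 φ‖ + ‖circleMap 0 1 θ - p‖ := by
          have : circleMap 0 1 φ - p = -(circleMap 0 1 θ - circleMap 0 1 φ) + (circleMap 0 1 θ - p) := by ring
          rw [this]
          refine (norm_add_le _ _).trans ?_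
          rw [norm_neg]
        linarith [h2.2]
      have h5 : g θ ≤ 4 / κ ^ 2 := by
        show F (circleMap 0 1 θ) / ‖circleMap 0 1 θ - p‖ ^ 2 ≤ 4 / κ ^ 2
        have h6 : (κ / 2) ^ 2 ≤ ‖circleMap 0 1 θ - p‖ ^ 2 := pow_le_pow_left₀ (by positivity) h3 2
        calc F (circleMap 0 1 θ) / ‖circleMap 0 1 θ - p‖ ^ 2 ≤ 1 / (κ / 2) ^ 2 :=
              div_le_div₀ zero_le_one (hF1 _) (by positivity) h6
          _ = 4 / κ ^ 2 := by
              field_simp
              norm_num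
      have h7 : θ ∈ Set.Icc (φ + 2 * A) (φ + 2 * B) ∨ θ ∈ Set.Icc (φ - 2 * B) (φ - 2 * A) := by
        rw [stana_chord] at h2
        set u := |(θ - φ) / 2| with hu
        have hu0 : 0 ≤ u := abs_nonneg _
        have hu1 : u ≤ Real.pi / 2 := by
          rw [hu, abs_le]
          constructor
          · linarith [hθ.1]
          · linarith [hθ.2]
        have hsu : |Real.sin ((θ - φ) / 2)| = Real.sin u := by
          rcases abs_cases ((θ - φ) / 2) with ⟨h8, h9⟩ | ⟨h8, h9⟩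
          · rw [hu, h8, abs_of_nonneg]
            exact Real.sin_nonneg_of_nonneg_of_le_pi h9 (by linarith [hθ.2])
          · rw [hu, h8, Real.sin_neg, abs_of_nonpos]
            exact Real.sin_nonpos_of_nonpos_of_neg_pi_le h9.le (by linarith [hθ.1])
        rw [hsu] at h2
        have hsin0 : 0 ≤ Real.sin u := Real.sin_nonneg_of_nonneg_of_le_pi hu0 (by linarith)
        have harc : Real.arcsin (Real.sin u) = u := Real.arcsin_sin (by linarith) hu1
        have hAu : A ≤ u := by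
          rw [← harc]
          refine Real.monotone_arcsin ?_
          have : s' ≤ 2 * Real.sin u := max_le h2.1 (by linarith)
          linarith
        have huB : u ≤ B := by
          rw [← harc]
          exact Real.monotone_arcsin (by linarith [h2.2])
        rcases abs_cases ((θ - φ) / 2) with ⟨h8, h9⟩ | ⟨h8, h9⟩
        · left
          rw [← hu] at h8
          constructor <;> linarith
        · right
          rw [← hu] at h8
          constructor <;> linarith
      have h10 : 1 ≤ (Set.Icc (φ + 2 * A) (φ + 2 * B)).indicator (fun _ => (1 : ℝ)) θ +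
          (Set.Icc (φ - 2 * B) (φ - 2 * A)).indicator (fun _ => (1 : ℝ)) θ := by
        rcases h7 with h7 | h7
        · rw [Set.indicator_of_mem h7]
          linarith
        · rw [Set.indicator_of_mem h7 (fun _ => (1 : ℝ))]
          linarith
      have h11 : 0 < 4 / κ ^ 2 := by positivity
      nlinarith
  rw [stana_shift p F φ]
  have ii1 := stana_ind_ii (φ - Real.pi) (φ + Real.pi) (φ + 2 * A) (φ + 2 * B)
  have ii2 := stana_ind_ii (φ - Real.pi) (φ + Real.pi) (φ - 2 * B) (φ - 2 * A)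
  have e1 : ∫ θ in (φ - Real.pi)..(φ + Real.pi), g θ ≤ ∫ θ in (φ - Real.pi)..(φ + Real.pi),
      4 / κ ^ 2 * ((Set.Icc (φ + 2 * A) (φ + 2 * B)).indicator (fun _ => (1 : ℝ)) θ +
        (Set.Icc (φ - 2 * B) (φ - 2 * A)).indicator (fun _ => (1 : ℝ)) θ) :=
    intervalIntegral.integral_mono_on (by linarith) (hgc.intervalIntegrable _ _)
      ((ii1.add ii2).const_mul _) key
  refine e1.trans ?_
  rw [intervalIntegral.integral_const_mul, intervalIntegral.integral_add ii1 ii2]
  have e2 := stana_ind (φ - Real.pi) (φ + Real.pi) (φ + 2 * A) (φ + 2 * B) (by linarith) (by linarith)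
  have e3 := stana_ind (φ - Real.pi) (φ + Real.pi) (φ - 2 * B) (φ - 2 * A) (by linarith) (by linarith)
  have e4 : 32 / κ ^ 2 * (t - s) = 4 / κ ^ 2 * (8 * (t - s)) := by ring
  rw [e4]
  refine mul_le_mul_of_nonneg_left ?_ (by positivity)
  linarith

end Pool.Agent.DimDropH
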