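import Pool.Agent.Lib_MP_644907_h.CLA
import Pool.Agent.Lib_MP_644907_h.STANA

/-!
# Piece STAN: estimates in a tangent situation
-/

set_option autoImplicit false

open Complex MeasureTheory Metric Filter
open scoped Topology

namespace Pool.Agent.DimDropH

open Pool.Agent.DimDrop (IsoD)
open Pool.Agent.DimDropF (IG mb dmb)

/-- a continuous bump on the annulus of radius `ρ` and width `w` around `η` -/
private noncomputable def annB (η : ℂ) (ρ w : ℝ) (ζ : ℂ) : ℝ :=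
  min 1 (max 0 (2 - |‖ζ - η‖ - ρ| / w))

private theorem annB_cont (η : ℂ) (ρ w : ℝ) : Continuous (annB η ρ w) := by
  unfold annB
  fun_prop

private theorem annB_nonneg (η : ℂ) (ρ w : ℝ) (ζ : ℂ) : 0 ≤ annB η ρ w ζ :=
  le_min zero_le_one (le_max_left _ _)

private theorem annB_le_one (η : ℂ) (ρ w : ℝ) (ζ : ℂ) : annB η ρ w ζ ≤ 1 :=
  min_le_left _ _

private theorem annB_abs (η : ℂ) (ρ w : ℝ) (ζ : ℂ) : |annB η ρ w ζ| ≤ 1 := by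
  rw [abs_of_nonneg (annB_nonneg η ρ w ζ)]
  exact annB_le_one η ρ w ζ

private theorem annB_one (η : ℂ) (ρ w : ℝ) (hw : 0 < w) (ζ : ℂ) (h : |‖ζ - η‖ - ρ| ≤ w) :
    annB η ρ w ζ = 1 := by
  unfold annB
  have h1 : |‖ζ - η‖ - ρ| / w ≤ 1 := by
    rw [div_le_one hw]
    exact h
  rw [min_eq_left]
  refine le_trans ?_ (le_max_right _ _)
  linarith

private theorem annB_zero (η : ℂ) (ρ w : ℝ) (hw : 0 < w) (ζ : ℂ) (h : 2 * w ≤ |‖ζ - η‖ - ρ|) :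
    annB η ρ w ζ = 0 := by
  unfold annB
  have h1 : 2 ≤ |‖ζ - η‖ - ρ| / w := by
    rw [le_div_iff₀ hw]
    exact h
  rw [max_eq_left (by linarith), min_eq_right zero_le_one]

private theorem ind_meas (E : Set ℂ) (hE : MeasurableSet E) : Measurable (ind E) := by
  unfold ind
  exact measurable_const.indicator hE

private theorem ind_abs (E : Set ℂ) (ζ : ℂ) : |ind E ζ| ≤ 1 := by
  classical
  unfold ind
  by_cases h : ζ ∈ E
  · rw [Set.indicator_of_mem h]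
    simp
  · rw [Set.indicator_of_notMem h]
    simp

private theorem ind_nonneg (E : Set ℂ) (ζ : ℂ) : 0 ≤ ind E ζ := by
  classical
  unfold ind
  exact Set.indicator_nonneg (fun _ _ => zero_le_one) ζ

private theorem ind_le_annB (E : Set ℂ) (η : ℂ) (ρ w : ℝ) (hw : 0 < w)
    (hE : ∀ ζ ∈ E, |‖ζ - η‖ - ρ| ≤ w) (ζ : ℂ) : ind E ζ ≤ annB η ρ w ζ := by
  classical
  by_cases h : ζ ∈ E
  · rw [annB_one η ρ w hw ζ (hE ζ h)]
    exact (le_abs_self _).trans (ind_abs E ζ)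
  · unfold ind
    rw [Set.indicator_of_notMem h]
    exact annB_nonneg η ρ w ζ

namespace WD

variable {Γ : Type} [Group Γ] {n : ℕ} (W : WD Γ n)

/-- the bump vanishes near `p` -/
private theorem annB_near (p η : ℂ) (κ ρ w : ℝ) (hw : 0 < w) (hpη : κ ≤ ‖η - p‖)
    (h1 : ρ + 2 * w ≤ κ / 2) (ζ : ℂ) (hζ : ‖ζ - p‖ < κ / 2) : annB η ρ w ζ = 0 := by
  refine annB_zero η ρ w hw ζ ?_
  have h2 : ‖η - p‖ ≤ ‖ζ - η‖ + ‖ζ - p‖ := by
    have h3 : η - p = -(ζ - η) + (ζ - p) := by ring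
    rw [h3]
    exact (norm_add_le _ _).trans (by rw [norm_neg])
  refine le_trans ?_ (le_abs_self _)
  linarith

private theorem tendsto_ann (p : ℂ) (x : ℕ → Γ) (c : ℕ → ℝ) (hT : W.Tangent p x c) (η : ℂ)
    (κ ρ w : ℝ) (hκ : 0 < κ) (hw : 0 < w) (hpη : κ ≤ ‖η - p‖) (h1 : ρ + 2 * w ≤ κ / 2) :
    Tendsto (fun k => c k * W.nu (x k) (annB η ρ w)) atTop (𝓝 (lam p (annB η ρ w))) :=
  hT.lim (annB η ρ w) (annB_cont η ρ w)
    ⟨κ / 2, by positivity, fun ζ hζ => annB_near p η κ ρ w hw hpη h1 ζ hζ⟩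

private theorem ev_le (p : ℂ) (x : ℕ → Γ) (c : ℕ → ℝ) (hT : W.Tangent p x c) (η : ℂ)
    (κ ρ w : ℝ) (hη : ‖η‖ = 1) (hκ : 0 < κ) (hw : 0 < w) (hpη : κ ≤ ‖η - p‖)
    (h1 : ρ + 2 * w ≤ κ / 2) (h2 : ρ + 2 * w ≤ 1) (ε : ℝ) (hε : 0 < ε) :
    ∀ᶠ k in atTop, c k * W.nu (x k) (annB η ρ w) ≤ 128 / κ ^ 2 * w + ε := by
  have h3 := W.tendsto_ann p x c hT η κ ρ w hκ hw hpη h1
  have h4 : lam p (annB η ρ w) ≤ 32 / κ ^ 2 * ((ρ + 2 * w) - (ρ - 2 * w)) := by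
    refine lam_le p η hT.hp hη κ (ρ - 2 * w) (ρ + 2 * w) hκ (by linarith) h1 h2 hpη
      (annB η ρ w) (annB_cont η ρ w) (annB_nonneg η ρ w) (annB_le_one η ρ w) ?_
    intro ζ hζ
    refine annB_zero η ρ w hw ζ ?_
    rcases hζ with hζ | hζ
    · rw [abs_of_nonpos (by linarith)]
      linarith
    · rw [abs_of_nonneg (by linarith)]
      linarith
  have h5 : lam p (annB η ρ w) ≤ 128 / κ ^ 2 * w := by
    refine h4.trans (le_of_eq ?_)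
    ring
  have h6 : lam p (annB η ρ w) < 128 / κ ^ 2 * w + ε := by linarith
  exact (h3.eventually_lt_const h6).mono fun k hk => hk.le

private theorem S4' (p : ℂ) (x : ℕ → Γ) (c : ℕ → ℝ) (hT : W.Tangent p x c) (κ : ℝ) (hκ : 0 < κ)
    (η : ℂ) (ρ t : ℝ) (hη : ‖η‖ = 1) (hpη : κ ≤ ‖η - p‖) (hρ : 0 < ρ) (hρ1 : ρ ≤ 1 / 4)
    (hρκ : ρ ≤ κ / 8) (ht : 0 < t) (ht2 : t ≤ 1 / 2) :
    ∀ᶠ k in atTop, c k * W.nu (x k) (ind {ζ | |‖ζ - η‖ - ρ| ≤ t * ρ}) ≤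
      (128 / κ ^ 2 + 1) * t * ρ := by
  have hw : 0 < t * ρ := mul_pos ht hρ
  have h1 : t * ρ ≤ 1 / 2 * ρ := mul_le_mul_of_nonneg_right ht2 hρ.le
  have h2 := W.ev_le p x c hT η κ ρ (t * ρ) hη hκ hw hpη (by linarith) (by linarith) (t * ρ) hw
  refine h2.mono fun k hk => ?_
  have hm : MeasurableSet {ζ : ℂ | |‖ζ - η‖ - ρ| ≤ t * ρ} := by
    refine (isClosed_le ?_ continuous_const).measurableSet
    fun_prop
  have h3 : W.nu (x k) (ind {ζ | |‖ζ - η‖ - ρ| ≤ t * ρ}) ≤ W.nu (x k) (annB η ρ (t * ρ)) := by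
    refine W.nu_mono (x k) _ _ (ind_meas _ hm) (annB_cont _ _ _).measurable 1 (ind_abs _)
      (annB_abs _ _ _) ?_
    intro ζ _
    exact ind_le_annB _ η ρ (t * ρ) hw (fun ξ hξ => hξ) ζ
  have h4 := mul_le_mul_of_nonneg_left h3 (hT.hc k).le
  refine (h4.trans hk).trans (le_of_eq ?_)
  ring

/-- `claimA` at `x = x k` (eventually `‖z_{x k} - η‖ ≥ κ/2 ≥ ρ`), multiplied by `c k`; `J ⊇` the support of a continuous `F₁ ≤ 1` with `F₁ = 1` on `ball η (ρ/4)`, `N ⊆` the set where a continuous `F₂ ≤ 1` is 1, `F₂ = 0` off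
`|‖ζ-η‖ - ρ| ≤ 2 C₅ τ ρ`; `lam F₁ ≥ ρ/16`, `2 lam F₂ ≤ 2 * 32/κ^2 * 4 C₅ τ ρ ≤ ρ/64` for `τ` small. -/
theorem S2 (p : ℂ) (x : ℕ → Γ) (c : ℕ → ℝ) (hT : W.Tangent p x c) (M : ℝ) (hM : 1 ≤ M) (κ : ℝ) (hκ : 0 < κ) :
    ∃ c₁ ρ₁ : ℝ, 0 < c₁ ∧ 0 < ρ₁ ∧ ρ₁ ≤ 1 ∧ ∀ (η : ℂ) (ρ : ℝ), ‖η‖ = 1 → κ ≤ ‖η - p‖ → 0 < ρ → ρ ≤ ρ₁ → ∀ v, Pos W.A M η ρ v →
      ∀ᶠ k in atTop, c₁ * ρ ≤ c k * W.G (x k) v := by
  obtain ⟨C₅, hC5, hA⟩ := W.claimA
  have hC50 : 0 < C₅ := by linarith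
  have hc4 : 0 < 128 / κ ^ 2 + 1 := by positivity
  -- the choice of τ
  obtain ⟨τ, hτ0, hτ1, hτ2, hτ3⟩ : ∃ τ : ℝ, 0 < τ ∧ τ ≤ 1 ∧ C₅ * τ ≤ 1 / 2 ∧
      (128 / κ ^ 2 + 1) * (C₅ * τ) ≤ 1 / 128 := by
    refine ⟨1 / (C₅ * (128 * (128 / κ ^ 2 + 1))), by positivity, ?_, ?_, ?_⟩
    · rw [div_le_one (by positivity)]
      have h1 : 1 ≤ 128 / κ ^ 2 + 1 := by
        have : 0 < 128 / κ ^ 2 := by positivity
        linarith
      nlinarith [mul_le_mul hC5 h1 zero_le_one hC50.le]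
    · have h1 : C₅ * (1 / (C₅ * (128 * (128 / κ ^ 2 + 1)))) = 1 / (128 * (128 / κ ^ 2 + 1)) := by
        field_simp
      rw [h1]
      have h2 : 1 ≤ 128 / κ ^ 2 + 1 := by
        have : 0 < 128 / κ ^ 2 := by positivity
        linarith
      rw [div_le_div_iff₀ (by positivity) (by norm_num)]
      linarith
    · have h1 : (128 / κ ^ 2 + 1) * (C₅ * (1 / (C₅ * (128 * (128 / κ ^ 2 + 1))))) = 1 / 128 := by
        field_simp
      rw [h1]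
  obtain ⟨Cτ, hCτ, hB⟩ := hA M hM τ hτ0 hτ1
  refine ⟨1 / (64 * Cτ), min (1 / 4) (κ / 8), by positivity, by positivity,
    (min_le_left _ _).trans (by norm_num), ?_⟩
  intro η ρ hη hpη hρ hρ1 v hv
  have hρ4 : ρ ≤ 1 / 4 := hρ1.trans (min_le_left _ _)
  have hρκ : ρ ≤ κ / 8 := hρ1.trans (min_le_right _ _)
  have hC5τ : 0 < C₅ * τ := mul_pos hC50 hτ0
  -- the annulus
  have e1 := W.S4' p x c hT κ hκ η ρ (C₅ * τ) hη hpη hρ hρ4 hρκ hC5τ hτ2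
  -- the ball
  have hw : 0 < ρ / 4 := by positivity
  have e2 := W.tendsto_ann p x c hT η κ 0 (ρ / 4) hκ hw hpη (by linarith)
  have e3 : ρ / 4 / 4 ≤ lam p (annB η 0 (ρ / 4)) := by
    refine lam_ge p η hT.hp hη (ρ / 4) hw (by linarith) _ (annB_cont _ _ _) (annB_nonneg _ _ _)
      (κ / 2) (by positivity) ?_ ?_
    · intro ζ hζ
      exact annB_near p η κ 0 (ρ / 4) hw hpη (by linarith) ζ hζ
    · intro ζ hζ
      rw [annB_one η 0 (ρ / 4) hw ζ]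
      rw [sub_zero, abs_of_nonneg (norm_nonneg _)]
      exact hζ
  have e4 : ∀ᶠ k in atTop, 3 * ρ / 64 < c k * W.nu (x k) (annB η 0 (ρ / 4)) :=
    e2.eventually_const_lt (by linarith)
  -- the position of `x k`
  have e5 : ∀ᶠ k in atTop, ρ ≤ ‖zz W.A (x k) - η‖ := by
    have h1 : Tendsto (fun k => ‖zz W.A (x k) - η‖) atTop (𝓝 ‖p - η‖) :=
      ((hT.hx.sub_const η).norm)
    have h2 : ρ < ‖p - η‖ := by
      rw [norm_sub_rev]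
      linarith
    exact (h1.eventually_const_lt h2).mono fun k hk => hk.le
  filter_upwards [e1, e4, e5] with k h1 h4 h5
  have h6 := hB η ρ hη hρ (by linarith) v hv (x k) h5
  have hmJ : MeasurableSet {ζ : ℂ | ‖ζ - η‖ < ρ / 2} := by
    refine (isOpen_lt ?_ continuous_const).measurableSet
    fun_prop
  have h7 : W.nu (x k) (annB η 0 (ρ / 4)) ≤ W.nu (x k) (ind {ζ | ‖ζ - η‖ < ρ / 2}) := by
    refine W.nu_mono (x k) _ _ (annB_cont _ _ _).measurable (ind_meas _ hmJ) 1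
      (annB_abs _ _ _) (ind_abs _) ?_
    intro ζ _
    by_cases h : ‖ζ - η‖ < ρ / 2
    · have h8 : ind {ζ : ℂ | ‖ζ - η‖ < ρ / 2} ζ = 1 := by
        unfold ind
        exact Set.indicator_of_mem (s := {ζ : ℂ | ‖ζ - η‖ < ρ / 2}) h _
      rw [h8]
      exact annB_le_one _ _ _ _
    · rw [annB_zero η 0 (ρ / 4) hw ζ]
      · exact ind_nonneg _ _
      · rw [sub_zero, abs_of_nonneg (norm_nonneg _)]
        linarith [not_lt.mp h]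
  have hck := hT.hc k
  have h9 : c k * W.nu (x k) (annB η 0 (ρ / 4)) ≤ c k * (2 * W.nu (x k) (ind {ζ | |‖ζ - η‖ - ρ| ≤ C₅ * τ * ρ}) + Cτ * W.G (x k) v) :=
    mul_le_mul_of_nonneg_left (h7.trans h6) hck.le
  have h10 : (128 / κ ^ 2 + 1) * (C₅ * τ) * ρ ≤ 1 / 128 * ρ := mul_le_mul_of_nonneg_right hτ3 hρ.le
  have h11 : ρ / 64 ≤ Cτ * (c k * W.G (x k) v) := by
    have h12 : c k * (2 * W.nu (x k) (ind {ζ | |‖ζ - η‖ - ρ| ≤ C₅ * τ * ρ}) + Cτ * W.G (x k) v) =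
        2 * (c k * W.nu (x k) (ind {ζ | |‖ζ - η‖ - ρ| ≤ C₅ * τ * ρ})) + Cτ * (c k * W.G (x k) v) := by
      ring
    rw [h12] at h9
    linarith
  have h13 : 1 / (64 * Cτ) * ρ = (ρ / 64) / Cτ := by
    field_simp
  rw [h13, div_le_iff₀ hCτ, mul_comm]
  exact h11

/-- `G(x, v) ν_v(E) ≤ g(1) ν_x(E)` (`green_le` for the harmonic function `ν_·(E)`), `E = {‖ζ - z_v‖ ≤ K δ_v}`, `ν_v(E) ≥ 1/2` (`conc'`), `E ⊆ {‖ζ - η‖ ≤ (M + K M) ρ}`; `lam_le` with `s = 0` -/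
theorem S3 (p : ℂ) (x : ℕ → Γ) (c : ℕ → ℝ) (hT : W.Tangent p x c) (M : ℝ) (hM : 1 ≤ M) (κ : ℝ) (hκ : 0 < κ) :
    ∃ c₃ ρ₁ : ℝ, 0 < c₃ ∧ 0 < ρ₁ ∧ ρ₁ ≤ 1 ∧ ∀ (η : ℂ) (ρ : ℝ), ‖η‖ = 1 → κ ≤ ‖η - p‖ → 0 < ρ → ρ ≤ ρ₁ → ∀ v, Pos W.A M η ρ v →
      ∀ᶠ k in atTop, c k * W.G (x k) v ≤ c₃ * ρ := by
  obtain ⟨K, hK, hE⟩ := W.conc' (1 / 2) (by norm_num)
  have hg : 0 < W.R.green 1 := W.R.green_pos W.trans 1
  obtain ⟨L, hL⟩ : ∃ L : ℝ, L = M + K * M := ⟨_, rfl⟩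
  have hM0 : 0 < M := by linarith
  have hK0 : 0 < K := by linarith
  have hL1 : 1 ≤ L := by
    rw [hL]
    have : 0 < K * M := mul_pos hK0 hM0
    linarith
  have hL0 : 0 < L := by linarith
  refine ⟨2 * W.R.green 1 * (128 / κ ^ 2 * L + 1), min (1 / (2 * L)) (κ / (4 * L)), by positivity,
    by positivity, (min_le_left _ _).trans ?_, ?_⟩
  · rw [div_le_one (by positivity)]
    linarith
  intro η ρ hη hpη hρ hρ1 v hv
  have hρa : L * ρ ≤ 1 / 2 := by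
    have h1 := hρ1.trans (min_le_left _ _)
    rw [le_div_iff₀ (by positivity)] at h1
    linarith
  have hρb : L * ρ ≤ κ / 4 := by
    have h1 := hρ1.trans (min_le_right _ _)
    rw [le_div_iff₀ (by positivity)] at h1
    linarith
  have hw : 0 < L * ρ := mul_pos hL0 hρ
  have e1 := W.ev_le p x c hT η κ 0 (L * ρ) hη hκ hw hpη (by linarith) (by linarith) ρ hρ
  refine e1.mono fun k hk => ?_
  -- the set `E`
  have hmE : MeasurableSet {ζ : ℂ | ‖ζ - zz W.A v‖ ≤ K * del W.A v} := by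
    refine (isClosed_le ?_ continuous_const).measurableSet
    fun_prop
  have h1 : W.R.green ((x k)⁻¹ * v) * W.nu v (ind {ζ | ‖ζ - zz W.A v‖ ≤ K * del W.A v}) ≤
      W.R.green 1 * W.nu (x k) (ind {ζ | ‖ζ - zz W.A v‖ ≤ K * del W.A v}) := by
    refine W.R.green_le W.trans (fun y => W.nu y (ind {ζ | ‖ζ - zz W.A v‖ ≤ K * del W.A v})) ?_ ?_
      (x k) v
    · intro y
      exact W.nu_nonneg y _ fun ζ _ => ind_nonneg _ _
    · intro y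
      exact (W.nu_harm _ (ind_meas _ hmE) 1 (ind_abs _) y).le
  have h2 := hE v
  have hG0 : 0 < W.G (x k) v := W.R.green_pos W.trans _
  have h3 : W.G (x k) v * (1 / 2) ≤ W.R.green 1 * W.nu (x k) (ind {ζ | ‖ζ - zz W.A v‖ ≤ K * del W.A v}) := by
    refine le_trans ?_ h1
    refine mul_le_mul_of_nonneg_left ?_ hG0.le
    linarith
  have h4 : W.nu (x k) (ind {ζ | ‖ζ - zz W.A v‖ ≤ K * del W.A v}) ≤ W.nu (x k) (annB η 0 (L * ρ)) := by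
    refine W.nu_mono (x k) _ _ (ind_meas _ hmE) (annB_cont _ _ _).measurable 1 (ind_abs _)
      (annB_abs _ _ _) ?_
    intro ζ _
    refine ind_le_annB _ η 0 (L * ρ) hw (fun ξ hξ => ?_) ζ
    have h5 : ‖ξ - zz W.A v‖ ≤ K * del W.A v := hξ
    rw [sub_zero, abs_of_nonneg (norm_nonneg _)]
    have h6 : ‖ξ - η‖ ≤ ‖ξ - zz W.A v‖ + ‖zz W.A v - η‖ := by
      have h7 : ξ - η = (ξ - zz W.A v) + (zz W.A v - η) := by ring
      rw [h7]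
      exact norm_add_le _ _
    have h8 : K * del W.A v ≤ K * (M * ρ) := mul_le_mul_of_nonneg_left hv.hi hK0.le
    have h9 := hv.near
    rw [hL]
    nlinarith
  have hck := hT.hc k
  have h5 : c k * (W.G (x k) v * (1 / 2)) ≤ W.R.green 1 * (128 / κ ^ 2 * (L * ρ) + ρ) := by
    calc c k * (W.G (x k) v * (1 / 2)) ≤ c k * (W.R.green 1 * W.nu (x k) (annB η 0 (L * ρ))) := by
          refine mul_le_mul_of_nonneg_left ?_ hck.le
          exact h3.trans (mul_le_mul_of_nonneg_left h4 hg.le)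
      _ = W.R.green 1 * (c k * W.nu (x k) (annB η 0 (L * ρ))) := by ring
      _ ≤ _ := mul_le_mul_of_nonneg_left hk hg.le
  calc c k * W.G (x k) v = 2 * (c k * (W.G (x k) v * (1 / 2))) := by ring
    _ ≤ 2 * (W.R.green 1 * (128 / κ ^ 2 * (L * ρ) + ρ)) := by linarith
    _ = _ := by ring

/-- the mass of the annulus `N` along the tangent sequence, for `claimC`: `lam_le` with a continuous function `≥ ind N` supported in the double annulus -/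
theorem S4 (p : ℂ) (x : ℕ → Γ) (c : ℕ → ℝ) (hT : W.Tangent p x c) (κ : ℝ) (hκ : 0 < κ) :
    ∃ c₄ : ℝ, 0 < c₄ ∧ ∀ (η : ℂ) (ρ t : ℝ), ‖η‖ = 1 → κ ≤ ‖η - p‖ → 0 < ρ → ρ ≤ 1 / 4 → ρ ≤ κ / 8 → 0 < t → t ≤ 1 / 2 →
      ∀ᶠ k in atTop, c k * W.nu (x k) (ind {ζ | |‖ζ - η‖ - ρ| ≤ t * ρ}) ≤ c₄ * t * ρ :=
  ⟨128 / κ ^ 2 + 1, by positivity, fun η ρ t hη hpη hρ hρ1 hρκ ht ht2 =>
    W.S4' p x c hT κ hκ η ρ t hη hpη hρ hρ1 hρκ ht ht2⟩

end WD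

end Pool.Agent.DimDropH
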