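import Pool.Agent.Lib_MP_644907_h.CLC
import Pool.Agent.Lib_MP_644907_h.STAN

/-!
# Piece CLCB: lower bound of the Green function
-/

set_option autoImplicit false

open Complex MeasureTheory Metric Filter
open scoped Topology

namespace Pool.Agent.DimDropH

open Pool.Agent.DimDrop (IsoD)
open Pool.Agent.DimDropF (IG mb dmb)

namespace WD

variable {Γ : Type} [Group Γ] {n : ℕ} (W : WD Γ n)

/-- Let `κ` be given, `ρ₀` small (smaller than the radii of `S2`, `S3`, `S4` for `κ/2` and the constant `M` of `exists_pos`, `S2` also for the constant `M = 2`). If `δ_v ≥ ρ₀/4` use `green_low`. Otherwise `η = z_v/‖z_v‖`, `‖z_v - η‖ ≤ δ_v`,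
`‖η - p‖ ≥ κ/2`, `Pos 2 η δ_v v`; choose `v'` with `Pos M η ρ₀ v'`. `claimC` with `x = x k`, times `c k`, `k` large:
`c₁ δ_v ≤ C₆ τ (δ_v/ρ₀) c₄ C₅ τ ρ₀ + Cτ G(v', v) c₃ ρ₀`; for `τ` small `G(v', v) ≥ c δ_v`; and `G(1, v') G(v', v) ≤ g(1) G(1, v)`, `G(1, v') ≥ c` (`green_low`, `δ_v' ≥ ρ₀/M`). -/
theorem green_lo_away (p : ℂ) (x : ℕ → Γ) (c : ℕ → ℝ) (hT : W.Tangent p x c) (Cu : ℝ) (hCu : 0 < Cu) (hu : ∀ w, W.R.green w ≤ Cu * del W.A w)
    (κ : ℝ) (hκ : 0 < κ) : ∃ c' : ℝ, 0 < c' ∧ ∀ v, κ ≤ ‖zz W.A v - p‖ → c' * del W.A v ≤ W.R.green v := by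
  have hκ2 : 0 < κ / 2 := by positivity
  obtain ⟨M, hM1, hMpos⟩ := exists_pos W.A
  obtain ⟨c₁, ρ₁, hc₁, hρ₁, hρ₁1, h2⟩ := W.S2 p x c hT 2 (by norm_num) (κ / 2) hκ2
  obtain ⟨c₃, ρ₃, hc₃, hρ₃, hρ₃1, h3⟩ := W.S3 p x c hT M hM1 (κ / 2) hκ2
  obtain ⟨c₄, hc₄, h4⟩ := W.S4 p x c hT (κ / 2) hκ2
  obtain ⟨C₅, C₆, hC₅, hC₆, hC⟩ := W.claimC Cu hCu hu
  have hg1 : 0 < W.R.green 1 := W.R.green_pos W.trans 1
  set E : ℝ := C₆ * c₄ * C₅ with hE
  have hE0 : 0 < E := by positivity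
  set τ : ℝ := min (1 / (8 * C₅)) (c₁ / (2 * E)) with hτ
  have hτ0 : 0 < τ := by positivity
  have hC₅τ : C₅ * τ ≤ 1 / 8 := by
    have h5 : τ ≤ 1 / (8 * C₅) := min_le_left _ _
    calc C₅ * τ ≤ C₅ * (1 / (8 * C₅)) := mul_le_mul_of_nonneg_left h5 (by positivity)
      _ = 1 / 8 := by field_simp
  have hτ1 : τ ≤ 1 := by
    have h5 : 1 * τ ≤ C₅ * τ := mul_le_mul_of_nonneg_right hC₅ hτ0.le
    linarith
  have hEτ : E * τ * τ ≤ c₁ / 2 := by
    have h5 : τ ≤ c₁ / (2 * E) := min_le_right _ _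
    calc E * τ * τ ≤ E * (c₁ / (2 * E)) * 1 := by gcongr
      _ = c₁ / 2 := by field_simp
  obtain ⟨Cτ, hCτ, hcl⟩ := hC M hM1 τ hτ0 hC₅τ
  set ρ₀ : ℝ := min (min ρ₁ ρ₃) (min (1 / 4) (κ / 16)) with hρ₀
  have hρ0 : 0 < ρ₀ := by positivity
  have r1 : ρ₀ ≤ ρ₁ := (min_le_left _ _).trans (min_le_left _ _)
  have r3 : ρ₀ ≤ ρ₃ := (min_le_left _ _).trans (min_le_right _ _)
  have r4 : ρ₀ ≤ 1 / 4 := (min_le_right _ _).trans (min_le_left _ _)
  have r5 : ρ₀ ≤ κ / 16 := (min_le_right _ _).trans (min_le_right _ _)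
  obtain ⟨g₁, hg₁, hgl1⟩ := W.green_low (ρ₀ / 4) (by positivity)
  obtain ⟨g₂, hg₂, hgl2⟩ := W.green_low (ρ₀ / M) (by positivity)
  refine ⟨min g₁ (g₂ * c₁ / (2 * Cτ * c₃ * ρ₀ * W.R.green 1)), by positivity, fun v hv => ?_⟩
  have hdv := del_pos W.A v
  rcases le_or_gt (ρ₀ / 4) (del W.A v) with hd | hd
  · calc min g₁ (g₂ * c₁ / (2 * Cτ * c₃ * ρ₀ * W.R.green 1)) * del W.A v ≤ g₁ * 1 :=
          mul_le_mul (min_le_left _ _) (del_le_one W.A v) hdv.le hg₁.le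
      _ = g₁ := mul_one _
      _ ≤ W.R.green v := hgl1 v hd
  · -- the boundary point
    have hz1 : 1 - ‖zz W.A v‖ ≤ del W.A v := one_sub_le_del W.A v
    have hzlt : ‖zz W.A v‖ < 1 := zz_lt W.A v
    have hz0 : 0 < ‖zz W.A v‖ := by linarith
    set η : ℂ := zz W.A v / (‖zz W.A v‖ : ℂ) with hη
    have hη1 : ‖η‖ = 1 := by
      rw [hη, norm_div, Complex.norm_real, norm_norm, div_self hz0.ne']
    have hzη : ‖zz W.A v - η‖ ≤ del W.A v := by
      have e1 : zz W.A v = (‖zz W.A v‖ : ℂ) * η := by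
        rw [hη]
        have : (‖zz W.A v‖ : ℂ) ≠ 0 := by exact_mod_cast hz0.ne'
        field_simp
      have e2 : zz W.A v - η = ((‖zz W.A v‖ - 1 : ℝ) : ℂ) * η := by
        calc zz W.A v - η = (‖zz W.A v‖ : ℂ) * η - η := by rw [← e1]
          _ = _ := by push_cast; ring
      rw [e2, norm_mul, hη1, mul_one, Complex.norm_real, Real.norm_eq_abs, abs_of_neg (by linarith)]
      linarith
    have hηp : κ / 2 ≤ ‖η - p‖ := by
      have h5 : ‖zz W.A v - p‖ ≤ ‖zz W.A v - η‖ + ‖η - p‖ := by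
        have := norm_add_le (zz W.A v - η) (η - p)
        simpa using this
      linarith
    obtain ⟨v', hv'⟩ := hMpos η ρ₀ hη1 hρ0 (by linarith)
    have hPv : Pos W.A 2 η (del W.A v) v := ⟨by linarith, by linarith, by linarith⟩
    have ev1 := h2 η (del W.A v) hη1 hηp hdv (by linarith) v hPv
    have ev2 := h3 η ρ₀ hη1 hηp hρ0 r3 v' hv'
    have ev3 := h4 η ρ₀ (C₅ * τ) hη1 hηp hρ0 r4 (by linarith) (by positivity) (by linarith)
    have ev4 : ∀ᶠ k in atTop, ‖zz W.A (x k) - p‖ < κ / 4 := by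
      have h5 := (Metric.tendsto_nhds.mp hT.hx) (κ / 4) (by positivity)
      simpa only [dist_eq_norm] using h5
    obtain ⟨k, hk1, hk2, hk3, hk4⟩ := (ev1.and (ev2.and (ev3.and ev4))).exists
    have hck := hT.hc k
    have hxk : ρ₀ ≤ ‖zz W.A (x k) - η‖ := by
      have h5 : ‖η - p‖ ≤ ‖zz W.A (x k) - η‖ + ‖zz W.A (x k) - p‖ := by
        have := norm_sub_le (zz W.A (x k) - p) (zz W.A (x k) - η)
        rw [sub_sub_sub_cancel_left] at this
        linarith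
      linarith
    have h6 := hcl η ρ₀ hη1 hρ0 (by linarith) v' hv' v (by linarith) (x k) hxk
    have hGpos : ∀ a b, 0 < W.G a b := fun a b => W.R.green_pos W.trans _
    have h7 : c k * W.G (x k) v ≤ C₆ * τ * (del W.A v / ρ₀) * (c k * W.nu (x k) (ind {ζ | |‖ζ - η‖ - ρ₀| ≤ C₅ * τ * ρ₀})) +
        Cτ * W.G v' v * (c k * W.G (x k) v') := by
      calc c k * W.G (x k) v ≤ c k * (C₆ * τ * (del W.A v / ρ₀) * W.nu (x k) (ind {ζ | |‖ζ - η‖ - ρ₀| ≤ C₅ * τ * ρ₀}) +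
            Cτ * W.G v' v * W.G (x k) v') := mul_le_mul_of_nonneg_left h6 hck.le
        _ = _ := by ring
    have h8 : C₆ * τ * (del W.A v / ρ₀) * (c k * W.nu (x k) (ind {ζ | |‖ζ - η‖ - ρ₀| ≤ C₅ * τ * ρ₀})) ≤
        C₆ * τ * (del W.A v / ρ₀) * (c₄ * (C₅ * τ) * ρ₀) :=
      mul_le_mul_of_nonneg_left hk3 (by positivity)
    have h9 : Cτ * W.G v' v * (c k * W.G (x k) v') ≤ Cτ * W.G v' v * (c₃ * ρ₀) :=
      mul_le_mul_of_nonneg_left hk2 (mul_pos hCτ (hGpos _ _)).le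
    have h10 : C₆ * τ * (del W.A v / ρ₀) * (c₄ * (C₅ * τ) * ρ₀) = E * τ * τ * del W.A v := by
      rw [hE]
      field_simp
    have h11 : E * τ * τ * del W.A v ≤ c₁ / 2 * del W.A v := mul_le_mul_of_nonneg_right hEτ hdv.le
    have h12 : c₁ / 2 * del W.A v ≤ Cτ * W.G v' v * (c₃ * ρ₀) := by linarith
    have h13 := W.R.green_mul_le W.trans 1 v' v
    rw [inv_one, one_mul, one_mul] at h13
    have h14 : g₂ ≤ W.R.green v' := by
      refine hgl2 v' ?_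
      rw [div_le_iff₀ (by linarith)]
      have := hv'.lo
      linarith
    have h15 : g₂ * W.G v' v ≤ W.R.green 1 * W.R.green v :=
      (mul_le_mul_of_nonneg_right h14 (hGpos v' v).le).trans h13
    calc min g₁ (g₂ * c₁ / (2 * Cτ * c₃ * ρ₀ * W.R.green 1)) * del W.A v
        ≤ g₂ * c₁ / (2 * Cτ * c₃ * ρ₀ * W.R.green 1) * del W.A v :=
          mul_le_mul_of_nonneg_right (min_le_right _ _) hdv.le
      _ = g₂ / (Cτ * c₃ * ρ₀ * W.R.green 1) * (c₁ / 2 * del W.A v) := by field_simp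
      _ ≤ g₂ / (Cτ * c₃ * ρ₀ * W.R.green 1) * (Cτ * W.G v' v * (c₃ * ρ₀)) :=
          mul_le_mul_of_nonneg_left h12 (by positivity)
      _ = g₂ * W.G v' v / W.R.green 1 := by field_simp
      _ ≤ W.R.green 1 * W.R.green v / W.R.green 1 := by gcongr
      _ = W.R.green v := by field_simp


/-- If `‖z_w - p‖ < κ` then `f_γ z_w = z_{γ w}` is close to `f γ p ≠ p` (continuity), so `‖z_{γ w} - p‖ ≥ κ` for small `κ`; `G(1, γ w) ≤` const `G(γ, γ w) = G(1, w)` (`green_mul_le` with `G(γ, 1)`), `del_left` -/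
theorem green_lo (p : ℂ) (x : ℕ → Γ) (c : ℕ → ℝ) (hT : W.Tangent p x c) (γ : Γ) (hγ : W.A.f γ p ≠ p)
    (Cu : ℝ) (hCu : 0 < Cu) (hu : ∀ w, W.R.green w ≤ Cu * del W.A w) : ∃ c' : ℝ, 0 < c' ∧ ∀ w, c' * del W.A w ≤ W.R.green w := by
  set a : ℝ := ‖W.A.f γ p - p‖ with ha
  have ha0 : 0 < a := by
    rw [ha, norm_pos_iff, sub_ne_zero]
    exact hγ
  have hpc : p ∈ closedBall (0:ℂ) 1 := by
    rw [mem_closedBall_zero_iff, hT.hp]
  obtain ⟨κ₀, hκ₀, hcont⟩ := (Metric.continuousOn_iff.mp (contOn_f W.A γ)) p hpc (a / 2) (by positivity)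
  obtain ⟨c', hc', hlo⟩ := W.green_lo_away p x c hT Cu hCu hu (min κ₀ (a / 2)) (by positivity)
  obtain ⟨C, hC, hCd⟩ := del_left W.A γ
  have hg1 : 0 < W.R.green 1 := W.R.green_pos W.trans 1
  have hgγ : 0 < W.R.green γ⁻¹ := W.R.green_pos W.trans _
  refine ⟨min c' (W.R.green γ⁻¹ / W.R.green 1 * (c' / C)), by positivity, fun w => ?_⟩
  have hdw := del_pos W.A w
  rcases le_or_gt (min κ₀ (a / 2)) ‖zz W.A w - p‖ with hw | hw
  · exact (mul_le_mul_of_nonneg_right (min_le_left _ _) hdw.le).trans (hlo w hw)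
  · have hwc : zz W.A w ∈ closedBall (0:ℂ) 1 := by
      rw [mem_closedBall_zero_iff]
      exact (zz_lt W.A w).le
    have h1 := hcont (zz W.A w) hwc (by
      rw [dist_eq_norm]
      exact lt_of_lt_of_le hw (min_le_left _ _))
    have h2 : zz W.A (γ * w) = W.A.f γ (zz W.A w) := W.A.mul' γ w 0 (by simp)
    rw [← h2, dist_eq_norm] at h1
    have h3 : min κ₀ (a / 2) ≤ ‖zz W.A (γ * w) - p‖ := by
      have h4 : a ≤ ‖zz W.A (γ * w) - W.A.f γ p‖ + ‖zz W.A (γ * w) - p‖ := by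
        have := norm_sub_le (zz W.A (γ * w) - p) (zz W.A (γ * w) - W.A.f γ p)
        rw [sub_sub_sub_cancel_left] at this
        linarith
      have h5 : min κ₀ (a / 2) ≤ a / 2 := min_le_right _ _
      linarith
    have h6 := hlo (γ * w) h3
    have h7 := W.R.green_mul_le W.trans γ 1 (γ * w)
    rw [mul_one, inv_one, one_mul, inv_mul_cancel_left] at h7
    have h8 := (hCd w).1
    have hC0 : 0 < C := by linarith
    calc min c' (W.R.green γ⁻¹ / W.R.green 1 * (c' / C)) * del W.A w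
        ≤ W.R.green γ⁻¹ / W.R.green 1 * (c' / C) * del W.A w := mul_le_mul_of_nonneg_right (min_le_right _ _) hdw.le
      _ ≤ W.R.green γ⁻¹ / W.R.green 1 * (c' / C) * (C * del W.A (γ * w)) := by gcongr
      _ = W.R.green γ⁻¹ / W.R.green 1 * (c' * del W.A (γ * w)) := by field_simp
      _ ≤ W.R.green γ⁻¹ / W.R.green 1 * W.R.green (γ * w) := by gcongr
      _ = W.R.green γ⁻¹ * W.R.green (γ * w) / W.R.green 1 := by ring
      _ ≤ W.R.green 1 * W.R.green w / W.R.green 1 := by gcongr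
      _ = W.R.green w := by field_simp

end WD

end Pool.Agent.DimDropH
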