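import Mathlib

/-!
# Piece DIMC: dimension of the circle
-/

set_option autoImplicit false

open Complex MeasureTheory Metric Filter
open scoped Topology

namespace Pool.Agent.DimDropH

private theorem dimc_lip : LipschitzWith 1 Complex.im := by
  refine LipschitzWith.of_dist_le_mul fun z w => ?_
  rw [NNReal.coe_one, one_mul, Real.dist_eq, dist_eq_norm, ← Complex.sub_im]
  exact Complex.abs_im_le_norm (z - w)

/-- the circle has dimension at least 1: `Complex.im` maps the circle onto `[-1, 1]` and is Lipschitz (`LipschitzWith.dimH_image_le`), `dimH` of an interval is 1 (`Real.dimH_of_nonempty_interior`) -/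
theorem dim_circle : 1 ≤ dimH (sphere (0:ℂ) 1) := by
  have h1 : Set.Icc (-1 : ℝ) 1 ⊆ Complex.im '' sphere (0:ℂ) 1 := by
    intro y hy
    refine ⟨⟨Real.sqrt (1 - y ^ 2), y⟩, ?_, rfl⟩
    have h2 : 0 ≤ 1 - y ^ 2 := by nlinarith [hy.1, hy.2]
    rw [mem_sphere_zero_iff_norm, ← sq_eq_sq₀ (norm_nonneg _) zero_le_one, ← Complex.normSq_eq_norm_sq, Complex.normSq_mk, ← sq, ← sq,
      Real.sq_sqrt h2]
    ring
  have h3 : dimH (Set.Icc (-1 : ℝ) 1) = 1 := by
    have h4 : (interior (Set.Icc (-1 : ℝ) 1)).Nonempty := by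
      rw [interior_Icc]
      exact ⟨0, by norm_num, by norm_num⟩
    rw [Real.dimH_of_nonempty_interior h4, Module.finrank_self, Nat.cast_one]
  calc (1 : ENNReal) = dimH (Set.Icc (-1 : ℝ) 1) := h3.symm
    _ ≤ dimH (Complex.im '' sphere (0:ℂ) 1) := dimH_mono h1
    _ ≤ dimH (sphere (0:ℂ) 1) := dimc_lip.dimH_image_le _

end Pool.Agent.DimDropH
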