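import Pool.Agent.Lib_MP_644907_h.ARCB

/-!
# Piece DIMU: a uniform gap implies that the dimension of `ν` is less than 1
-/

set_option autoImplicit false

open Complex MeasureTheory Metric Filter
open scoped Topology

namespace Pool.Agent.DimDropH

theorem dimu_sum_mul (f : ℕ → ℝ) (a b : ℕ) :
    ∑ i ∈ Finset.range (a * b), f i = ∑ j ∈ Finset.range a, ∑ l ∈ Finset.range b, f (b * j + l) := by
  induction a with
  | zero => simp
  | succ a ih =>
    rw [Nat.succ_mul, Finset.sum_range_add, ih, Finset.sum_range_succ]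
    congr 1
    refine Finset.sum_congr rfl fun l _ => ?_
    rw [mul_comm a b]

/-- iterate the gap: `∑_{j < 2^(kL)} √(ν(Ar (kL) j) / 2^(kL)) ≤ (1 - ε)^k` -/
theorem gap_iter (ν : Measure ℂ) [IsProbabilityMeasure ν] (hν : ν (sphere (0:ℂ) 1)ᶜ = 0) (L : ℕ) (hL : 1 ≤ L) (ε : ℝ) (hε : 0 < ε) (hε1 : ε < 1) (hg : Gap ν L ε) (k : ℕ) :
    ∑ j ∈ Finset.range (2 ^ (k * L)), √((ν (Ar (k * L) j)).toReal * (1 / 2 ^ (k * L))) ≤ (1 - ε) ^ k := by
  induction k with
  | zero =>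
    have h1 : (ν (Ar (0 * L) 0)).toReal ≤ 1 := by
      have := ENNReal.toReal_mono ENNReal.one_ne_top (prob_le_one (μ := ν) (s := Ar (0 * L) 0))
      simpa using this
    simp only [zero_mul, pow_zero, Finset.range_one, Finset.sum_singleton] at h1 ⊢
    rw [show (1 : ℝ) / 1 = 1 by norm_num, mul_one]
    exact Real.sqrt_le_one.2 h1
  | succ k ih =>
    have e1 : (k + 1) * L = k * L + L := by ring
    have e2 : (2 : ℝ) ^ (k * L + L) = 2 ^ (k * L) * 2 ^ L := pow_add _ _ _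
    rw [e1, e2, show (2 : ℕ) ^ (k * L + L) = 2 ^ (k * L) * 2 ^ L from pow_add _ _ _, dimu_sum_mul]
    have h2 : ∀ j ∈ Finset.range (2 ^ (k * L)),
        ∑ l ∈ Finset.range (2 ^ L), √((ν (Ar (k * L + L) (2 ^ L * j + l))).toReal * (1 / (2 ^ (k * L) * 2 ^ L))) ≤
        (1 - ε) * √((ν (Ar (k * L) j)).toReal * (1 / 2 ^ (k * L))) := by
      intro j hj
      have h3 := hg (k * L) j (Finset.mem_range.1 hj)
      have h4 : ∀ l ∈ Finset.range (2 ^ L),
          √((ν (Ar (k * L + L) (2 ^ L * j + l))).toReal * (1 / (2 ^ (k * L) * 2 ^ L))) =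
          √((1 : ℝ) / 2 ^ (k * L)) * √((ν (Ar (k * L + L) (2 ^ L * j + l))).toReal * (1 / 2 ^ L)) := by
        intro l _
        rw [← Real.sqrt_mul (by positivity)]
        congr 1
        rw [one_div, one_div, one_div, mul_inv]
        ring
      rw [Finset.sum_congr rfl h4, ← Finset.mul_sum]
      have h5 : √((ν (Ar (k * L) j)).toReal * (1 / 2 ^ (k * L))) =
          √((1 : ℝ) / 2 ^ (k * L)) * √((ν (Ar (k * L) j)).toReal) := by
        rw [← Real.sqrt_mul (by positivity), mul_comm]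
      rw [h5]
      calc √((1 : ℝ) / 2 ^ (k * L)) * ∑ l ∈ Finset.range (2 ^ L), √((ν (Ar (k * L + L) (2 ^ L * j + l))).toReal * (1 / 2 ^ L))
          ≤ √((1 : ℝ) / 2 ^ (k * L)) * ((1 - ε) * √((ν (Ar (k * L) j)).toReal)) :=
            mul_le_mul_of_nonneg_left h3 (Real.sqrt_nonneg _)
        _ = (1 - ε) * (√((1 : ℝ) / 2 ^ (k * L)) * √((ν (Ar (k * L) j)).toReal)) := by ring
    calc ∑ j ∈ Finset.range (2 ^ (k * L)), ∑ l ∈ Finset.range (2 ^ L),
          √((ν (Ar (k * L + L) (2 ^ L * j + l))).toReal * (1 / (2 ^ (k * L) * 2 ^ L)))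
        ≤ ∑ j ∈ Finset.range (2 ^ (k * L)), (1 - ε) * √((ν (Ar (k * L) j)).toReal * (1 / 2 ^ (k * L))) :=
          Finset.sum_le_sum h2
      _ = (1 - ε) * ∑ j ∈ Finset.range (2 ^ (k * L)), √((ν (Ar (k * L) j)).toReal * (1 / 2 ^ (k * L))) := by
          rw [Finset.mul_sum]
      _ ≤ (1 - ε) * (1 - ε) ^ k := mul_le_mul_of_nonneg_left ih (by linarith)
      _ = (1 - ε) ^ (k + 1) := by ring

open Classical in
/-- the arcs of large mass -/
noncomputable def dimuGood (ν : Measure ℂ) (L : ℕ) (lam : ℝ) (k : ℕ) : Finset ℕ :=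
  (Finset.range (2 ^ (k * L))).filter (fun j => lam ^ k / 2 ^ (k * L) ≤ (ν (Ar (k * L) j)).toReal)

theorem dimu_mass (ν : Measure ℂ) [IsProbabilityMeasure ν] (m : ℕ) :
    ∑ j ∈ Finset.range (2 ^ m), (ν (Ar m j)).toReal ≤ 1 := by
  have h := Ar_sum ν 0 m 0 (by norm_num)
  simp only [zero_add, mul_zero] at h
  rw [← h]
  have := ENNReal.toReal_mono ENNReal.one_ne_top (prob_le_one (μ := ν) (s := Ar 0 0))
  simpa using this

theorem dimu_card (ν : Measure ℂ) [IsProbabilityMeasure ν] (L : ℕ) (lam : ℝ) (hlam : 0 < lam) (k : ℕ) :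
    ((dimuGood ν L lam k).card : ℝ) ≤ 2 ^ (k * L) / lam ^ k := by
  classical
  have h1 : ((dimuGood ν L lam k).card : ℝ) * (lam ^ k / 2 ^ (k * L)) ≤ 1 := by
    calc ((dimuGood ν L lam k).card : ℝ) * (lam ^ k / 2 ^ (k * L))
        = ∑ _j ∈ dimuGood ν L lam k, lam ^ k / 2 ^ (k * L) := by rw [Finset.sum_const, nsmul_eq_mul]
      _ ≤ ∑ j ∈ dimuGood ν L lam k, (ν (Ar (k * L) j)).toReal :=
          Finset.sum_le_sum fun j hj => (Finset.mem_filter.1 hj).2
      _ ≤ ∑ j ∈ Finset.range (2 ^ (k * L)), (ν (Ar (k * L) j)).toReal :=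
          Finset.sum_le_sum_of_subset_of_nonneg (Finset.filter_subset _ _) fun _ _ _ => ENNReal.toReal_nonneg
      _ ≤ 1 := dimu_mass ν _
  have h2 : (0 : ℝ) < lam ^ k := pow_pos hlam k
  have h3 : (0 : ℝ) < 2 ^ (k * L) := by positivity
  rw [le_div_iff₀ h2]
  have h4 : ((dimuGood ν L lam k).card : ℝ) * (lam ^ k / 2 ^ (k * L)) =
      (((dimuGood ν L lam k).card : ℝ) * lam ^ k) / 2 ^ (k * L) := by ring
  rw [h4, div_le_iff₀ h3, one_mul] at h1
  exact h1

theorem dimu_bad (ν : Measure ℂ) [IsProbabilityMeasure ν] (hν : ν (sphere (0:ℂ) 1)ᶜ = 0) (L : ℕ) (hL : 1 ≤ L)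
    (ε : ℝ) (hε : 0 < ε) (hε1 : ε < 1) (hg : Gap ν L ε) (k : ℕ) :
    ν (⋃ j ∈ dimuGood ν L (1 / (1 - ε)) k, Ar (k * L) j)ᶜ ≤ ENNReal.ofReal (√(1 - ε) ^ k) := by
  classical
  set lam : ℝ := 1 / (1 - ε) with hlam
  have h1ε : (0 : ℝ) < 1 - ε := by linarith
  have hlam0 : 0 < lam := by rw [hlam]; positivity
  set B : Finset ℕ := (Finset.range (2 ^ (k * L))).filter (fun j => ¬ lam ^ k / 2 ^ (k * L) ≤ (ν (Ar (k * L) j)).toReal)
    with hB
  have hsub : (⋃ j ∈ dimuGood ν L lam k, Ar (k * L) j)ᶜ ⊆ (sphere (0:ℂ) 1)ᶜ ∪ ⋃ j ∈ B, Ar (k * L) j := by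
    intro z hz
    by_cases hs : z ∈ sphere (0:ℂ) 1
    · right
      rw [← Ar_cover (k * L)] at hs
      simp only [Set.mem_iUnion] at hs ⊢
      obtain ⟨j, hj, hzj⟩ := hs
      refine ⟨j, ?_, hzj⟩
      rw [hB, Finset.mem_filter]
      refine ⟨hj, fun hle => hz ?_⟩
      simp only [Set.mem_iUnion]
      exact ⟨j, by rw [dimuGood, Finset.mem_filter]; exact ⟨hj, hle⟩, hzj⟩
    · left; exact hs
  have h2 : ∀ j ∈ B, (ν (Ar (k * L) j)).toReal ≤
      √(lam ^ k) * √((ν (Ar (k * L) j)).toReal * (1 / 2 ^ (k * L))) := by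
    intro j hj
    have h3 := not_le.1 (Finset.mem_filter.1 hj).2
    have h4 : (0 : ℝ) ≤ (ν (Ar (k * L) j)).toReal := ENNReal.toReal_nonneg
    rw [← Real.sqrt_mul (by positivity)]
    apply Real.le_sqrt_of_sq_le
    have h5 : (ν (Ar (k * L) j)).toReal ^ 2 ≤ (ν (Ar (k * L) j)).toReal * (lam ^ k / 2 ^ (k * L)) := by
      rw [sq]; exact mul_le_mul_of_nonneg_left h3.le h4
    calc (ν (Ar (k * L) j)).toReal ^ 2 ≤ (ν (Ar (k * L) j)).toReal * (lam ^ k / 2 ^ (k * L)) := h5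
      _ = lam ^ k * ((ν (Ar (k * L) j)).toReal * (1 / 2 ^ (k * L))) := by ring
  have h6 : ∑ j ∈ B, (ν (Ar (k * L) j)).toReal ≤ √(1 - ε) ^ k := by
    calc ∑ j ∈ B, (ν (Ar (k * L) j)).toReal
        ≤ ∑ j ∈ B, √(lam ^ k) * √((ν (Ar (k * L) j)).toReal * (1 / 2 ^ (k * L))) := Finset.sum_le_sum h2
      _ ≤ ∑ j ∈ Finset.range (2 ^ (k * L)), √(lam ^ k) * √((ν (Ar (k * L) j)).toReal * (1 / 2 ^ (k * L))) :=
          Finset.sum_le_sum_of_subset_of_nonneg (Finset.filter_subset _ _) fun _ _ _ =>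
            mul_nonneg (Real.sqrt_nonneg _) (Real.sqrt_nonneg _)
      _ = √(lam ^ k) * ∑ j ∈ Finset.range (2 ^ (k * L)), √((ν (Ar (k * L) j)).toReal * (1 / 2 ^ (k * L))) := by
          rw [Finset.mul_sum]
      _ ≤ √(lam ^ k) * (1 - ε) ^ k := mul_le_mul_of_nonneg_left (gap_iter ν hν L hL ε hε hε1 hg k) (Real.sqrt_nonneg _)
      _ = √(1 - ε) ^ k := by
          have e1 : √(lam ^ k) = √lam ^ k := by
            rw [Real.sqrt_eq_iff_mul_self_eq (by positivity) (by positivity), ← mul_pow, Real.mul_self_sqrt hlam0.le]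
          rw [e1, ← mul_pow]
          congr 1
          rw [hlam, one_div, Real.sqrt_inv]
          have e2 : √(1 - ε) * √(1 - ε) = 1 - ε := Real.mul_self_sqrt h1ε.le
          have e3 : √(1 - ε) ≠ 0 := (Real.sqrt_pos.2 h1ε).ne'
          field_simp
          rw [sq]
          exact e2.symm
  calc ν (⋃ j ∈ dimuGood ν L lam k, Ar (k * L) j)ᶜ
      ≤ ν ((sphere (0:ℂ) 1)ᶜ ∪ ⋃ j ∈ B, Ar (k * L) j) := measure_mono hsub
    _ ≤ ν (sphere (0:ℂ) 1)ᶜ + ν (⋃ j ∈ B, Ar (k * L) j) := measure_union_le _ _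
    _ = ν (⋃ j ∈ B, Ar (k * L) j) := by rw [hν, zero_add]
    _ ≤ ∑ j ∈ B, ν (Ar (k * L) j) := measure_biUnion_finset_le _ _
    _ = ENNReal.ofReal (∑ j ∈ B, (ν (Ar (k * L) j)).toReal) := by
        rw [ENNReal.ofReal_sum_of_nonneg fun _ _ => ENNReal.toReal_nonneg]
        refine Finset.sum_congr rfl fun j _ => ?_
        rw [ENNReal.ofReal_toReal (measure_ne_top ν _)]
    _ ≤ ENNReal.ofReal (√(1 - ε) ^ k) := ENNReal.ofReal_le_ofReal h6

/-- the exponent -/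
theorem dimu_expo (L : ℕ) (hL : 1 ≤ L) (lam : ℝ) (hlam : 1 < lam) :
    ∃ s : NNReal, (s : ℝ) < 1 ∧ (2 : ℝ) ^ ((L : ℝ) * (1 - s)) ≤ lam := by
  have hlog : 0 < Real.log lam := Real.log_pos hlam
  have hlog2 : 0 < Real.log 2 := Real.log_pos (by norm_num)
  have hL' : (0 : ℝ) < L := by exact_mod_cast hL
  obtain ⟨δ, hδ⟩ : ∃ δ : ℝ, δ = min (1 / 2) (Real.log lam / (L * Real.log 2)) := ⟨_, rfl⟩
  have h1 : 0 < δ := by rw [hδ]; exact lt_min (by norm_num) (by positivity)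
  have h2 : δ ≤ 1 / 2 := by rw [hδ]; exact min_le_left _ _
  have h3 : δ ≤ Real.log lam / (L * Real.log 2) := by rw [hδ]; exact min_le_right _ _
  refine ⟨⟨1 - δ, by linarith⟩, ?_, ?_⟩
  · show (1 - δ : ℝ) < 1
    linarith
  · show (2 : ℝ) ^ ((L : ℝ) * (1 - (1 - δ))) ≤ lam
    rw [show (L : ℝ) * (1 - (1 - δ)) = L * δ by ring, Real.rpow_def_of_pos (by norm_num)]
    rw [← Real.le_log_iff_exp_le (by linarith : 0 < lam)]
    rw [le_div_iff₀ (by positivity)] at h3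
    calc Real.log 2 * (L * δ) = δ * (L * Real.log 2) := by ring
      _ ≤ Real.log lam := h3

/-- Let `lam = 1/(1-ε) > 1`. `Good k = {j < 2^(kL) | ν(Ar (kL) j) ≥ lam^k / 2^(kL)}`: `#Good k ≤ 2^(kL) / lam^k`, and the mass of the other arcs is at most `∑ √(ν) √(lam^k/2^(kL)) ≤ lam^(k/2) (1-ε)^k = (1-ε)^(k/2)`, summable: Borel - Cantelli.
`E = ⋃ N, ⋂ k ≥ N, ⋃ j ∈ Good k, Ar (kL) j` has full measure, and the `s`-dimensional Hausdorff measure of each `⋂ k ≥ N, ..` is at most `liminf 2^(kL) lam^(-k) (2π/2^(kL))^s < ∞` for `s < 1` with `2^(L(1-s)) ≤ lam`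
(`MeasureTheory.Measure.hausdorffMeasure_le_liminf_sum`, `dimH_le_of_hausdorffMeasure_ne_top`, `dimH_iUnion`). -/
theorem dim_of_gap (ν : Measure ℂ) [IsProbabilityMeasure ν] (hν : ν (sphere (0:ℂ) 1)ᶜ = 0) (L : ℕ) (hL : 1 ≤ L) (ε : ℝ) (hε : 0 < ε) (hε1 : ε < 1) (hg : Gap ν L ε) :
    ∃ E : Set ℂ, MeasurableSet E ∧ ν Eᶜ = 0 ∧ dimH E < 1 := by
  classical
  have h1ε : (0 : ℝ) < 1 - ε := by linarith
  set lam : ℝ := 1 / (1 - ε) with hlam
  have hlam1 : 1 < lam := by rw [hlam, lt_div_iff₀ h1ε]; linarith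
  obtain ⟨s, hs1, hs2⟩ := dimu_expo L hL lam hlam1
  set G : ℕ → Set ℂ := fun k => ⋃ j ∈ dimuGood ν L lam k, Ar (k * L) j with hG
  have hGm : ∀ k, MeasurableSet (G k) := fun k =>
    Finset.measurableSet_biUnion _ fun j _ => Ar_meas (k * L) j
  refine ⟨⋃ N : ℕ, ⋂ k : ℕ, ⋂ _ : N ≤ k, G k, ?_, ?_, ?_⟩
  · exact MeasurableSet.iUnion fun N => MeasurableSet.iInter fun k => MeasurableSet.iInter fun _ => hGm k
  · have hsum : ∑' k, ν (G k)ᶜ ≠ ⊤ := by
      have h3 : ∑' k, ν (G k)ᶜ ≤ ∑' k, ENNReal.ofReal (√(1 - ε) ^ k) :=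
        ENNReal.tsum_le_tsum fun k => dimu_bad ν hν L hL ε hε hε1 hg k
      have hr : √(1 - ε) < 1 := by
        rw [Real.sqrt_lt' one_pos]; linarith
      have h4 : Summable fun k : ℕ => √(1 - ε) ^ k := summable_geometric_of_lt_one (Real.sqrt_nonneg _) hr
      have h5 : ∑' k, ENNReal.ofReal (√(1 - ε) ^ k) ≠ ⊤ := by
        rw [← ENNReal.ofReal_tsum_of_nonneg (fun k => pow_nonneg (Real.sqrt_nonneg _) k) h4]
        exact ENNReal.ofReal_ne_top
      exact ne_top_of_le_ne_top h5 h3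
    have h6 := measure_limsup_atTop_eq_zero hsum
    refine measure_mono_null ?_ h6
    intro z hz
    rw [Filter.mem_limsup_iff_frequently_mem, Filter.frequently_atTop]
    intro N
    by_contra hcon
    push Not at hcon
    apply hz
    simp only [Set.mem_iUnion, Set.mem_iInter]
    exact ⟨N, fun k hk => not_not.1 (hcon k hk)⟩
  · rw [dimH_iUnion]
    refine lt_of_le_of_lt (iSup_le fun N => ?_) (show (s : ENNReal) < 1 by exact_mod_cast hs1)
    apply dimH_le_of_hausdorffMeasure_ne_top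
    have hr : Tendsto (fun k : ℕ => ENNReal.ofReal (2 * Real.pi / 2 ^ (k * L))) atTop (𝓝 0) := by
      rw [← ENNReal.ofReal_zero]
      apply ENNReal.tendsto_ofReal
      have h7 : Tendsto (fun k : ℕ => 2 * Real.pi * ((1 / 2 : ℝ) ^ L) ^ k) atTop (𝓝 (2 * Real.pi * 0)) := by
        apply Tendsto.const_mul
        apply tendsto_pow_atTop_nhds_zero_of_lt_one (by positivity)
        exact pow_lt_one₀ (by norm_num) (by norm_num) (by omega)
      rw [mul_zero] at h7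
      refine h7.congr fun k => ?_
      rw [← pow_mul, mul_comm L k, one_div, inv_pow]
      rfl
    have key := Measure.hausdorffMeasure_le_liminf_sum (ι := fun k : ℕ => {j // j ∈ dimuGood ν L lam k}) (s : ℝ)
      (⋂ k : ℕ, ⋂ _ : N ≤ k, G k) (l := atTop) (fun k : ℕ => ENNReal.ofReal (2 * Real.pi / 2 ^ (k * L))) hr
      (fun k j => Ar (k * L) j.1) (Eventually.of_forall fun k j => by
        apply Metric.ediam_le
        intro x hx y hy
        rw [edist_dist, dist_eq_norm]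
        exact ENNReal.ofReal_le_ofReal (Ar_diam _ _ x y hx hy))
      ((eventually_ge_atTop N).mono fun k hk => by
        intro z hz
        simp only [Set.mem_iInter] at hz
        have h8 := hz k hk
        simp only [hG, Set.mem_iUnion] at h8 ⊢
        obtain ⟨j, hj, hzj⟩ := h8
        exact ⟨⟨j, hj⟩, hzj⟩)
    have hbound : ∀ k : ℕ, ∑ i : {j // j ∈ dimuGood ν L lam k}, Metric.ediam (Ar (k * L) i.1) ^ (s : ℝ) ≤
        ENNReal.ofReal ((2 * Real.pi) ^ (s : ℝ)) := by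
      intro k
      have h9 : ∀ i : {j // j ∈ dimuGood ν L lam k}, Metric.ediam (Ar (k * L) i.1) ^ (s : ℝ) ≤
          ENNReal.ofReal ((2 * Real.pi / 2 ^ (k * L)) ^ (s : ℝ)) := by
        intro i
        rw [← ENNReal.ofReal_rpow_of_nonneg (by positivity) (NNReal.coe_nonneg s)]
        apply ENNReal.rpow_le_rpow _ (NNReal.coe_nonneg s)
        apply Metric.ediam_le
        intro x hx y hy
        rw [edist_dist, dist_eq_norm]
        exact ENNReal.ofReal_le_ofReal (Ar_diam _ _ x y hx hy)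
      calc ∑ i : {j // j ∈ dimuGood ν L lam k}, Metric.ediam (Ar (k * L) i.1) ^ (s : ℝ)
          ≤ ∑ _i : {j // j ∈ dimuGood ν L lam k}, ENNReal.ofReal ((2 * Real.pi / 2 ^ (k * L)) ^ (s : ℝ)) :=
            Finset.sum_le_sum fun i _ => h9 i
        _ = ((dimuGood ν L lam k).card : ENNReal) * ENNReal.ofReal ((2 * Real.pi / 2 ^ (k * L)) ^ (s : ℝ)) := by
            rw [Finset.sum_const, Finset.card_univ, Fintype.card_coe, nsmul_eq_mul]
        _ = ENNReal.ofReal (((dimuGood ν L lam k).card : ℝ) * (2 * Real.pi / 2 ^ (k * L)) ^ (s : ℝ)) := by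
            rw [ENNReal.ofReal_mul (Nat.cast_nonneg _), ENNReal.ofReal_natCast]
        _ ≤ ENNReal.ofReal ((2 * Real.pi) ^ (s : ℝ)) := by
            apply ENNReal.ofReal_le_ofReal
            have hc := dimu_card ν L lam (by linarith) k
            have h10 : (0 : ℝ) < (2 * Real.pi) ^ (s : ℝ) := Real.rpow_pos_of_pos (by positivity) _
            have h11 : (0 : ℝ) < ((2 : ℝ) ^ (k * L)) ^ (s : ℝ) := Real.rpow_pos_of_pos (by positivity) _
            have h12 : (0 : ℝ) < lam ^ k := pow_pos (by linarith) k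
            rw [Real.div_rpow (by positivity) (by positivity)]
            have h13 : ((2 : ℝ) ^ (k * L)) / lam ^ k ≤ ((2 : ℝ) ^ (k * L)) ^ (s : ℝ) := by
              rw [div_le_iff₀ h12]
              have h14 : ((2 : ℝ) ^ (k * L)) = ((2 : ℝ) ^ (k * L)) ^ (s : ℝ) * ((2 : ℝ) ^ ((L : ℝ) * (1 - s))) ^ k := by
                rw [← Real.rpow_natCast 2 (k * L), ← Real.rpow_mul (by norm_num), ← Real.rpow_natCast _ k,
                  ← Real.rpow_mul (by norm_num), ← Real.rpow_add (by norm_num)]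
                congr 1
                push_cast
                ring
              calc ((2 : ℝ) ^ (k * L)) = ((2 : ℝ) ^ (k * L)) ^ (s : ℝ) * ((2 : ℝ) ^ ((L : ℝ) * (1 - s))) ^ k := h14
                _ ≤ ((2 : ℝ) ^ (k * L)) ^ (s : ℝ) * lam ^ k :=
                  mul_le_mul_of_nonneg_left (pow_le_pow_left₀ (by positivity) hs2 k) h11.le
            calc ((dimuGood ν L lam k).card : ℝ) * ((2 * Real.pi) ^ (s : ℝ) / ((2 : ℝ) ^ (k * L)) ^ (s : ℝ))
                ≤ ((2 : ℝ) ^ (k * L)) ^ (s : ℝ) * ((2 * Real.pi) ^ (s : ℝ) / ((2 : ℝ) ^ (k * L)) ^ (s : ℝ)) :=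
                  mul_le_mul_of_nonneg_right (hc.trans h13) (by positivity)
              _ = (2 * Real.pi) ^ (s : ℝ) := by field_simp
    have hfin : Measure.hausdorffMeasure (s : ℝ) (⋂ k : ℕ, ⋂ _ : N ≤ k, G k) ≤ ENNReal.ofReal ((2 * Real.pi) ^ (s : ℝ)) :=
      key.trans ((liminf_le_liminf (Eventually.of_forall hbound)).trans_eq (liminf_const _))
    exact ne_top_of_le_ne_top ENNReal.ofReal_ne_top hfin

end Pool.Agent.DimDropH
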