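import Pool.Agent.Lib_MP_644907_h.GEOA

/-!
# Piece LIMS: the limit set
-/

set_option autoImplicit false

open Complex MeasureTheory Metric Filter
open scoped Topology

namespace Pool.Agent.DimDropH

open Pool.Agent.DimDropF (IG mb dmb)

/-- the limit set of a cocompact group is the circle: `exists_pos`; the functions of `S` are related to the group by `hS'` -/
theorem limit_set {Γ : Type} [Group Γ] (A : IG Γ) (S : Set (ℂ → ℂ)) (hS : ∀ γ, ∃ f ∈ S, f 0 = zz A γ) :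
    sphere (0:ℂ) 1 ⊆ closure ((fun f : ℂ → ℂ => f 0) '' S) ∩ sphere (0:ℂ) 1 := by
  intro η hη
  refine ⟨?_, hη⟩
  have hη1 : ‖η‖ = 1 := by simpa using hη
  obtain ⟨M, hM, hpos⟩ := exists_pos A
  rw [Metric.mem_closure_iff]
  intro ε hε
  have hM0 : 0 < M := by linarith
  set ρ : ℝ := min 1 (ε / (2 * M)) with hρdef
  have hρ0 : 0 < ρ := lt_min one_pos (by positivity)
  have hρ1 : ρ ≤ 1 := min_le_left _ _
  obtain ⟨v, hv⟩ := hpos η ρ hη1 hρ0 hρ1
  obtain ⟨f, hf, hf0⟩ := hS v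
  refine ⟨f 0, ⟨f, hf, rfl⟩, ?_⟩
  rw [dist_comm, dist_eq_norm, hf0]
  have h1 : M * ρ ≤ ε / 2 := by
    have h2 : ρ ≤ ε / (2 * M) := min_le_right _ _
    calc M * ρ ≤ M * (ε / (2 * M)) := mul_le_mul_of_nonneg_left h2 hM0.le
      _ = ε / 2 := by field_simp
  have h3 := hv.near
  linarith

end Pool.Agent.DimDropH
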