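import Pool.Agent.Lib_MP_644907_h.NUA
import Pool.Agent.Lib_MP_644907_h.CHV
import Pool.Agent.Lib_MP_644907_h.ARCB
import Pool.Agent.Lib_MP_644907_h.ARCC

/-!
# Piece SEL: if there is no uniform gap then there is a tangent situation
-/

set_option autoImplicit false

open Complex MeasureTheory Metric Filter
open scoped Topology

namespace Pool.Agent.DimDropH

open Pool.Agent.DimDrop (IsoD)
open Pool.Agent.DimDropF (IG mb dmb)

/-- `f_x` with `x = v⁻¹` is Lipschitz on the circle with constant `4/δ_v`: from `bd2` for `x` and `bd3`: `‖f ζ - f ω‖ δ_x = ‖ζ - ω‖ ‖f ζ - z_x‖ ‖f ω - z_x‖`, `‖f ζ - z_x‖ = δ_x / ‖ζ - z_v‖ ≤ 2 δ_x/δ_v = 2` because `‖ζ - z_v‖ ≥ 1 - ‖z_v‖ ≥ δ_v/2` -/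
theorem lip_inv {Γ : Type} [Group Γ] (A : IG Γ) (v : Γ) (ζ ω : ℂ) (hζ : ‖ζ‖ = 1) (hω : ‖ω‖ = 1) :
    ‖A.f v⁻¹ ζ - A.f v⁻¹ ω‖ ≤ 4 / del A v * ‖ζ - ω‖ := by
  have hd := del_pos A v
  have key : ∀ ζ : ℂ, ‖ζ‖ = 1 → ‖A.f v⁻¹ ζ - zz A v⁻¹‖ ≤ 2 := by
    intro ζ hζ
    have h3 := bd3 A v⁻¹ ζ hζ
    rw [inv_inv, del_inv] at h3
    have h4 : del A v / 2 ≤ ‖ζ - zz A v‖ := by
      have h5 := del_le A v
      have h6 := norm_sub_norm_le ζ (zz A v)
      rw [hζ] at h6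
      linarith
    have h5 : ‖A.f v⁻¹ ζ - zz A v⁻¹‖ * (del A v / 2) ≤ 2 * (del A v / 2) := by
      have := mul_le_mul_of_nonneg_left h4 (norm_nonneg (A.f v⁻¹ ζ - zz A v⁻¹))
      linarith
    exact le_of_mul_le_mul_right h5 (by linarith)
  have h2 := bd2 A v⁻¹ ζ ω hζ hω
  rw [del_inv] at h2
  have h3 : ‖A.f v⁻¹ ζ - zz A v⁻¹‖ * ‖A.f v⁻¹ ω - zz A v⁻¹‖ ≤ 4 := by
    have := mul_le_mul (key ζ hζ) (key ω hω) (norm_nonneg _) (by norm_num)
    linarith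
  have h4 := mul_le_mul_of_nonneg_left h3 (norm_nonneg (ζ - ω))
  rw [h2] at h4
  rw [div_mul_eq_mul_div, le_div_iff₀ hd]
  linarith

/-- localization: if `‖f_{v⁻¹} ζ - z_{v⁻¹}‖ ≥ κ` then `‖ζ - z_v‖ ≤ δ_v/κ` (`bd3` for `x = v⁻¹`) -/
theorem loc_inv {Γ : Type} [Group Γ] (A : IG Γ) (v : Γ) (ζ : ℂ) (hζ : ‖ζ‖ = 1) (κ : ℝ) (hκ : 0 < κ) (h : κ ≤ ‖A.f v⁻¹ ζ - zz A v⁻¹‖) :
    ‖ζ - zz A v‖ ≤ del A v / κ := by
  have h3 := bd3 A v⁻¹ ζ hζ
  rw [inv_inv, del_inv] at h3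
  rw [le_div_iff₀ hκ, ← h3, mul_comm]
  exact mul_le_mul_of_nonneg_right h (norm_nonneg _)

/-- a point of the circle has an angle close to a given one -/
theorem SEL_angle (ζ : ℂ) (hζ : ‖ζ‖ = 1) (θ₀ : ℝ) :
    ∃ θ : ℝ, circleMap 0 1 θ = ζ ∧ |θ - θ₀| ≤ Real.pi / 2 * ‖ζ - circleMap 0 1 θ₀‖ := by
  have hpi := Real.pi_pos
  have h1 : ∃ θ : ℝ, circleMap 0 1 θ = ζ := by
    have : ζ ∈ Set.range (circleMap 0 1) := by
      rw [range_circleMap]
      simpa using hζ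
    exact this
  obtain ⟨θ₁, hθ₁⟩ := h1
  obtain ⟨θ, ⟨hy0, hy1⟩, hy⟩ := (periodic_circleMap 0 1).exists_mem_Ico Real.two_pi_pos θ₁ (θ₀ - Real.pi)
  refine ⟨θ, by rw [← hy, hθ₁], ?_⟩
  have e : ‖ζ - circleMap 0 1 θ₀‖ = 2 * |Real.sin ((θ - θ₀) / 2)| := by
    have e1 : ζ - circleMap 0 1 θ₀ = circleMap 0 1 θ₀ * (exp (I * ((θ - θ₀ : ℝ) : ℂ)) - 1) := by
      rw [← hθ₁, hy, mul_sub, mul_one]
      congr 1
      rw [circleMap_zero, circleMap_zero, mul_assoc, ← Complex.exp_add]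
      congr 2
      push_cast
      ring
    rw [e1, norm_mul, norm_circleMap_zero, abs_one, one_mul, Complex.norm_exp_I_mul_ofReal_sub_one,
      norm_mul, Real.norm_eq_abs, Real.norm_eq_abs, abs_two]
  have j : 2 / Real.pi * |(θ - θ₀) / 2| ≤ |Real.sin ((θ - θ₀) / 2)| := by
    have hle : |(θ - θ₀) / 2| ≤ Real.pi / 2 := by
      rw [abs_le]
      constructor <;> linarith
    rcases le_total 0 ((θ - θ₀) / 2) with h | h
    · rw [abs_of_nonneg h] at hle ⊢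
      exact (Real.mul_le_sin h hle).trans (le_abs_self _)
    · rw [abs_of_nonpos h] at hle ⊢
      have := Real.mul_le_sin (neg_nonneg.2 h) hle
      rw [Real.sin_neg] at this
      exact this.trans (neg_le_abs _)
  rw [abs_div, abs_two] at j
  rw [e]
  have j2 := mul_le_mul_of_nonneg_left j hpi.le
  have j3 : Real.pi * (2 / Real.pi * (|θ - θ₀| / 2)) = |θ - θ₀| := by
    field_simp
  rw [j3] at j2
  linarith

/-- points near the middle of an arc lie in the middle cells -/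
theorem SEL_cells (m j L N : ℕ) (hL : 1 ≤ L) (hN : N ≤ 2 ^ (L - 1)) (θ : ℝ)
    (h : |θ - 2 * Real.pi * ((j:ℝ) + 1 / 2) / 2 ^ m| < N * (2 * Real.pi / 2 ^ (m + L))) :
    ∃ l ∈ Finset.Ico (2 ^ (L - 1) - N) (2 ^ (L - 1) + N), circleMap 0 1 θ ∈ Ar (m + L) (2 ^ L * j + l) := by
  obtain ⟨L, rfl⟩ : ∃ L', L = L' + 1 := ⟨L - 1, by omega⟩
  simp only [Nat.add_sub_cancel] at hN ⊢
  have hpi : (0:ℝ) < 2 * Real.pi := Real.two_pi_pos
  have hm : (0:ℝ) < 2 ^ m := by positivity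
  have hL : (0:ℝ) < 2 ^ L := by positivity
  set t : ℝ := θ * 2 ^ (m + (L + 1)) / (2 * Real.pi) - 2 ^ (L + 1) * j with ht
  have e : t - 2 ^ L = (θ - 2 * Real.pi * ((j:ℝ) + 1 / 2) / 2 ^ m) * (2 ^ (m + (L + 1)) / (2 * Real.pi)) := by
    rw [ht, pow_add, pow_succ]
    field_simp
    ring
  have a : |t - 2 ^ L| < N := by
    have h0 : (0:ℝ) < 2 ^ (m + (L + 1)) / (2 * Real.pi) := by positivity
    rw [e, abs_mul, abs_of_pos h0]
    have := mul_lt_mul_of_pos_right h h0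
    have e2 : (N:ℝ) * (2 * Real.pi / 2 ^ (m + (L + 1))) * (2 ^ (m + (L + 1)) / (2 * Real.pi)) = N := by
      field_simp
    rw [e2] at this
    exact this
  rw [abs_lt] at a
  have hN' : (N:ℝ) ≤ 2 ^ L := by exact_mod_cast hN
  have t0 : 0 ≤ t := by linarith
  refine ⟨⌊t⌋₊, ?_, ?_⟩
  · rw [Finset.mem_Ico]
    constructor
    · apply Nat.le_floor
      rw [Nat.cast_sub hN]
      push_cast
      linarith
    · rw [Nat.floor_lt t0]
      push_cast
      linarith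
  · rw [ARC_mem]
    refine ⟨θ, ?_, rfl⟩
    have f1 := Nat.floor_le t0
    have f2 := Nat.lt_floor_add_one t
    push_cast
    constructor
    · linarith
    · linarith

/-- the image of `|ζ - p|^{-2} dθ` depends continuously on `p` -/
theorem SEL_lim (p : ℂ) (z : ℕ → ℂ) (hz : Tendsto z atTop (𝓝 p)) (F : ℂ → ℝ) (hF : Continuous F) (κ : ℝ) (hκ : 0 < κ)
    (h0 : ∀ ζ : ℂ, ‖ζ - p‖ < κ → F ζ = 0) (B : ℝ) (hB : ∀ ζ : ℂ, ‖ζ‖ = 1 → |F ζ| ≤ B) :
    Tendsto (fun k => ∫ θ in (0:ℝ)..(2 * Real.pi), F (circleMap 0 1 θ) / ‖circleMap 0 1 θ - z k‖ ^ 2) atTop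
      (𝓝 (∫ θ in (0:ℝ)..(2 * Real.pi), F (circleMap 0 1 θ) / ‖circleMap 0 1 θ - p‖ ^ 2)) := by
  have hn : ∀ θ : ℝ, ‖circleMap 0 1 θ‖ = 1 := by
    intro θ
    rw [norm_circleMap_zero, abs_one]
  have B0 : 0 ≤ B := (abs_nonneg _).trans (hB _ (hn 0))
  refine intervalIntegral.tendsto_integral_filter_of_dominated_convergence (fun _ => B / (κ / 2) ^ 2) ?_ ?_ ?_ ?_
  · refine Eventually.of_forall fun k => ?_
    apply Measurable.aestronglyMeasurable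
    have m1 : Measurable fun θ : ℝ => F (circleMap 0 1 θ) := (hF.comp (continuous_circleMap 0 1)).measurable
    have m2 : Measurable fun θ : ℝ => ‖circleMap 0 1 θ - z k‖ ^ 2 :=
      (((continuous_circleMap 0 1).sub continuous_const).norm.pow 2).measurable
    exact m1.div m2
  · have : ∀ᶠ k in atTop, ‖z k - p‖ < κ / 2 := by
      have := (Metric.tendsto_nhds.1 hz) (κ / 2) (by linarith)
      simpa only [dist_eq_norm] using this
    filter_upwards [this] with k hk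
    refine Eventually.of_forall fun θ _ => ?_
    by_cases hc : ‖circleMap 0 1 θ - p‖ < κ
    · rw [h0 _ hc, zero_div, norm_zero]
      positivity
    · push Not at hc
      have : κ / 2 ≤ ‖circleMap 0 1 θ - z k‖ := by
        have h1 : ‖circleMap 0 1 θ - p‖ ≤ ‖circleMap 0 1 θ - z k‖ + ‖z k - p‖ := norm_sub_le_norm_sub_add_norm_sub _ _ _
        linarith
      rw [norm_div, Real.norm_eq_abs, norm_pow, norm_norm]
      exact div_le_div₀ B0 (hB _ (hn θ)) (by positivity) (pow_le_pow_left₀ (by linarith) this 2)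
  · exact intervalIntegrable_const
  · refine Eventually.of_forall fun θ _ => ?_
    by_cases hc : ‖circleMap 0 1 θ - p‖ < κ
    · simp only [h0 _ hc, zero_div]
      exact tendsto_const_nhds
    · push Not at hc
      have hc' : 0 < ‖circleMap 0 1 θ - p‖ := lt_of_lt_of_le hκ hc
      exact Tendsto.div tendsto_const_nhds ((tendsto_const_nhds.sub hz).norm.pow 2) (pow_pos hc' 2).ne'

namespace WD

variable {Γ : Type} [Group Γ] {n : ℕ} (W : WD Γ n)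

/-- the estimate at one scale -/
theorem SEL_est (M : ℝ) (hM : 1 ≤ M) (m j K : ℕ) (hK : 1 ≤ K) (hj : j < 2 ^ m) (hI : 0 < (W.ν (Ar m j)).toReal)
    (hcell : ∀ l < 2 ^ (2 * K),
      |(W.ν (Ar (m + 2 * K) (2 ^ (2 * K) * j + l))).toReal - (W.ν (Ar m j)).toReal / 2 ^ (2 * K)| ≤ (W.ν (Ar m j)).toReal * (1 / 8) ^ (2 * K))
    (v : Γ) (hv : Pos W.A M (circleMap 0 1 (2 * Real.pi * ((j:ℝ) + 1 / 2) / 2 ^ m)) (2 * Real.pi / 2 ^ (m + K)) v)
    (F : ℂ → ℝ) (hF : Continuous F) (B : ℝ) (hB : ∀ ζ : ℂ, ‖ζ‖ = 1 → |F ζ| ≤ B) (κ : ℝ) (hκ : 0 < κ)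
    (h0 : ∀ ζ : ℂ, ‖ζ - zz W.A v⁻¹‖ < κ → F ζ = 0) (ε : ℝ) (hε : 0 ≤ ε)
    (hosc : ∀ a b : ℂ, ‖a‖ = 1 → ‖b‖ = 1 → ‖a - b‖ ≤ 4 * M / 2 ^ K → |F a - F b| ≤ ε)
    (N : ℕ) (hN : Real.pi / 2 * (M * (1 + 1 / κ)) * 2 ^ K < N) (hN2 : N ≤ 2 ^ (2 * K - 1)) :
    |(2 * Real.pi / 2 ^ m) / ((W.ν (Ar m j)).toReal * del W.A v⁻¹) * W.nu v⁻¹ F -
      ∫ θ in (0:ℝ)..(2 * Real.pi), F (circleMap 0 1 θ) / ‖circleMap 0 1 θ - zz W.A v⁻¹‖ ^ 2| ≤
      2 * N * (M * 2 ^ K) * (3 * ε / 2 ^ (2 * K) + B * (1 / 8) ^ (2 * K)) := by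
  have := W.prob
  have hpi := Real.pi_pos
  have hd : 0 < del W.A v := del_pos W.A v
  have hdi : del W.A v⁻¹ = del W.A v := del_inv W.A v
  have hn : ∀ θ : ℝ, ‖circleMap 0 1 θ‖ = 1 := by
    intro θ
    rw [norm_circleMap_zero, abs_one]
  have B0 : 0 ≤ B := (abs_nonneg _).trans (hB _ (hn 0))
  set θ₀ : ℝ := 2 * Real.pi * ((j:ℝ) + 1 / 2) / 2 ^ m with hθ₀
  set s : ℝ := 2 * Real.pi / 2 ^ (m + K) with hs
  have s0 : 0 < s := by positivity
  set T : Finset ℕ := Finset.Ico (2 ^ (2 * K - 1) - N) (2 ^ (2 * K - 1) + N) with hT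
  have hTcard : T.card = 2 * N := by
    rw [hT, Nat.card_Ico]
    omega
  have hTsub : T ⊆ Finset.range (2 ^ (2 * K)) := by
    intro l hl
    rw [hT, Finset.mem_Ico] at hl
    rw [Finset.mem_range]
    have : 2 ^ (2 * K) = 2 * 2 ^ (2 * K - 1) := by
      rw [← pow_succ']
      congr 1
      omega
    omega
  have hT0 : ∀ ζ : ℂ, ‖ζ‖ = 1 → (∀ l ∈ T, ζ ∉ Ar (m + 2 * K) (2 ^ (2 * K) * j + l)) → F (W.A.f v⁻¹ ζ) = 0 := by
    intro ζ hζ hno
    by_contra hne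
    have h1 : κ ≤ ‖W.A.f v⁻¹ ζ - zz W.A v⁻¹‖ := by
      by_contra h
      push Not at h
      exact hne (h0 _ h)
    have h2 := loc_inv W.A v ζ hζ κ hκ h1
    have h3 : ‖ζ - circleMap 0 1 θ₀‖ ≤ M * (1 + 1 / κ) * s := by
      have h4 : ‖ζ - circleMap 0 1 θ₀‖ ≤ ‖ζ - zz W.A v‖ + ‖zz W.A v - circleMap 0 1 θ₀‖ := norm_sub_le_norm_sub_add_norm_sub _ _ _
      have h5 := hv.near
      have h6 : del W.A v / κ ≤ M * s / κ := div_le_div_of_nonneg_right hv.hi hκ.le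
      have h7 : M * (1 + 1 / κ) * s = M * s / κ + M * s := by ring
      linarith
    obtain ⟨θ, hθ, hθ'⟩ := SEL_angle ζ hζ θ₀
    have h4 : |θ - θ₀| < N * (2 * Real.pi / 2 ^ (m + 2 * K)) := by
      have h5 : Real.pi / 2 * ‖ζ - circleMap 0 1 θ₀‖ ≤ Real.pi / 2 * (M * (1 + 1 / κ) * s) :=
        mul_le_mul_of_nonneg_left h3 (by positivity)
      have h6 : s = 2 ^ K * (2 * Real.pi / 2 ^ (m + 2 * K)) := by
        rw [hs, two_mul K, ← add_assoc, pow_add _ (m + K) K]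
        field_simp
      have h7 : Real.pi / 2 * (M * (1 + 1 / κ) * s) = (Real.pi / 2 * (M * (1 + 1 / κ)) * 2 ^ K) * (2 * Real.pi / 2 ^ (m + 2 * K)) := by
        rw [h6]
        ring
      have h8 := mul_lt_mul_of_pos_right hN (show (0:ℝ) < 2 * Real.pi / 2 ^ (m + 2 * K) by positivity)
      linarith
    obtain ⟨l, hl, hl'⟩ := SEL_cells m j (2 * K) N (by omega) hN2 θ h4
    rw [hθ] at hl'
    exact hno l hl hl'
  have hosc' : ∀ l ∈ T, ∀ ζ ∈ Ar (m + 2 * K) (2 ^ (2 * K) * j + l), ∀ ω ∈ Ar (m + 2 * K) (2 ^ (2 * K) * j + l),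
      |F (W.A.f v⁻¹ ζ) - F (W.A.f v⁻¹ ω)| ≤ ε := by
    intro l _ ζ hζ ω hω
    have n1 : ‖ζ‖ = 1 := by
      obtain ⟨θ, _, rfl⟩ := hζ
      exact hn θ
    have n2 : ‖ω‖ = 1 := by
      obtain ⟨θ, _, rfl⟩ := hω
      exact hn θ
    refine hosc _ _ (norm_f_eq W.A _ _ n1) (norm_f_eq W.A _ _ n2) ?_
    refine (lip_inv W.A v ζ ω n1 n2).trans ?_
    have d := Ar_diam _ _ ζ ω hζ hω
    have h5 : 4 / del W.A v ≤ 4 * M / s := by
      rw [div_le_div_iff₀ hd s0]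
      have := hv.lo
      nlinarith
    have h6 : 2 * Real.pi / 2 ^ (m + 2 * K) = s / 2 ^ K := by
      rw [hs, two_mul K, ← add_assoc, pow_add _ (m + K) K]
      field_simp
    rw [h6] at d
    calc 4 / del W.A v * ‖ζ - ω‖ ≤ 4 * M / s * (s / 2 ^ K) :=
          mul_le_mul h5 d (norm_nonneg _) (by positivity)
      _ = 4 * M / 2 ^ K := by
          field_simp
  have hHc : ContinuousOn (fun ζ => F (W.A.f v⁻¹ ζ)) (sphere 0 1) :=
    hF.comp_continuousOn ((contOn_f W.A v⁻¹).mono sphere_subset_closedBall)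
  have ap := approx W.ν W.supp m j (2 * K) hj hcell (fun ζ => F (W.A.f v⁻¹ ζ)) hHc B ε
    (fun ζ hζ => hB _ (norm_f_eq W.A _ _ hζ)) hε T hTsub hT0 hosc'
  have pa := push_angle W.A v⁻¹ F hF
  set Iν : ℝ := (W.ν (Ar m j)).toReal with hIν
  set X : ℝ := ∫ ζ, F (W.A.f v⁻¹ ζ) ∂W.ν with hX
  set Z : ℝ := ∫ θ in (0:ℝ)..(2 * Real.pi), F (circleMap 0 1 θ) / ‖circleMap 0 1 θ - zz W.A v⁻¹‖ ^ 2 with hZ
  have eY : ∫ θ in (0:ℝ)..(2 * Real.pi), F (W.A.f v⁻¹ (circleMap 0 1 θ)) = del W.A v * Z := by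
    rw [pa, hdi, hZ, ← intervalIntegral.integral_const_mul]
    congr 1
    ext θ
    ring
  change |(2 * Real.pi / 2 ^ m) / (Iν * del W.A v⁻¹) * X - Z| ≤ _
  have ap' : |X - Iν / (2 * Real.pi / 2 ^ m) * (del W.A v * Z)| ≤ T.card * Iν * (3 * ε / 2 ^ (2 * K) + B * (1 / 8) ^ (2 * K)) := by
    rw [← eY]
    exact ap
  rw [hTcard] at ap'
  push_cast at ap'
  rw [hdi]
  have a0 : 0 < 2 * Real.pi / 2 ^ m := by positivity
  set a : ℝ := 2 * Real.pi / 2 ^ m with ha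
  have e1 : a / (Iν * del W.A v) * X - Z = a / (Iν * del W.A v) * (X - Iν / a * (del W.A v * Z)) := by
    field_simp
  have c0 : 0 < a / (Iν * del W.A v) := by positivity
  rw [e1, abs_mul, abs_of_pos c0]
  refine (mul_le_mul_of_nonneg_left ap' c0.le).trans ?_
  have E0 : 0 ≤ 3 * ε / 2 ^ (2 * K) + B * (1 / 8) ^ (2 * K) := by positivity
  have e2 : a / (Iν * del W.A v) * (2 * N * Iν * (3 * ε / 2 ^ (2 * K) + B * (1 / 8) ^ (2 * K))) =
      2 * N * (a / del W.A v) * (3 * ε / 2 ^ (2 * K) + B * (1 / 8) ^ (2 * K)) := by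
    field_simp
  rw [e2]
  refine mul_le_mul_of_nonneg_right ?_ E0
  refine mul_le_mul_of_nonneg_left ?_ (by positivity)
  rw [div_le_iff₀ hd]
  have h6 : a = s * 2 ^ K := by
    rw [hs, ha, pow_add]
    field_simp
  rw [h6]
  have := mul_le_mul_of_nonneg_right hv.lo (show (0:ℝ) ≤ 2 ^ K by positivity)
  linarith

/-- For `k ≥ 3` apply `select` with `L = 2k`: `m_k, j_k`, `I_k = Ar m_k j_k`; `ω_k` = midpoint of `I_k`, `s_k = 2π / 2^(m_k + k) ≤ 1`, `v_k` with `Pos M ω_k s_k v_k`, `x_k = v_k⁻¹`, `c_k = (2π/2^{m_k}) / (ν(I_k) δ_{x_k})`. `δ_{x_k} = δ_{v_k} → 0` (`del_inv`), so along a subsequence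
`z_{x_k} → p`, `‖p‖ = 1`. Let `F` be continuous, zero for `‖ζ - p‖ < κ`, `H = F ∘ f_{x_k}`. For `k` large `H ζ ≠ 0` implies `‖f_{x_k} ζ - z_{x_k}‖ ≥ κ/2`, `‖ζ - z_{v_k}‖ ≤ 2 δ_{v_k}/κ`, so `‖ζ - ω_k‖ ≤ C s_k` (`loc_inv`) and `ζ` is in one of at most `C' 2^k` cells of generation
`2k` of `I_k` (cells have length `s_k 2^{-k}`; `I_k` has length `s_k 2^k`), whose oscillation is `≤ η_k` = modulus of continuity of `F` at `4/δ_v * 2π/2^(m+2k) ≤ C 2^{-k}` (`lip_inv`). `approx`: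
`|c_k ν_{x_k}(F) - (1/δ_{x_k}) ∫ F(f_{x_k} ζ) dθ| ≤ c_k C' 2^k ν(I_k) (3 η_k 2^{-2k} + B 8^{-2k}) ≤ C'' (η_k + 2^{-k}) → 0`, and `(1/δ_{x_k}) ∫ F(f_{x_k} ζ) dθ = ∫ F(ω)/‖ω - z_{x_k}‖^2 dθ` (`push_angle`) `→ ∫ F(ω)/‖ω - p‖^2 dθ` (uniform convergence). -/
theorem exists_tangent (hno : ∀ L : ℕ, 1 ≤ L → ∀ ε : ℝ, 0 < ε → ε < 1 → ¬ Gap W.ν L ε) :
    ∃ (p : ℂ) (x : ℕ → Γ) (c : ℕ → ℝ), W.Tangent p x c := by
  have := W.prob
  have hpi := Real.pi_pos
  obtain ⟨M, hM, hpos⟩ := exists_pos W.A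
  have hsel := fun k : ℕ => select W.ν hno (2 * (k + 3)) (by omega)
  choose m j hj hI hcell using hsel
  have hs1 : ∀ k, 2 * Real.pi / 2 ^ (m k + (k + 3)) ≤ 1 / 2 ^ k := by
    intro k
    rw [div_le_div_iff₀ (by positivity) (by positivity), one_mul]
    have h1 : (1:ℝ) ≤ 2 ^ (m k) := one_le_pow₀ (by norm_num)
    have h2 : (0:ℝ) < 2 ^ k := by positivity
    have h3 : (2:ℝ) ^ (m k + (k + 3)) = 2 ^ (m k) * 2 ^ k * 8 := by
      rw [pow_add, pow_add]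
      norm_num
      ring
    rw [h3]
    have h4 := Real.pi_le_four
    have h5 : (2:ℝ) ^ k ≤ 2 ^ (m k) * 2 ^ k := le_mul_of_one_le_left h2.le h1
    nlinarith
  have hs2 : ∀ k : ℕ, 2 * Real.pi / 2 ^ (m k + (k + 3)) ≤ 1 := fun k =>
    (hs1 k).trans (div_le_one_of_le₀ (one_le_pow₀ (by norm_num)) (by positivity))
  have hv := fun k : ℕ => hpos (circleMap 0 1 (2 * Real.pi * ((j k : ℝ) + 1 / 2) / 2 ^ (m k))) (2 * Real.pi / 2 ^ (m k + (k + 3)))
    (by rw [norm_circleMap_zero, abs_one]) (by positivity) (hs2 k)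
  choose v hv using hv
  obtain ⟨p, hp, φ, hφ, hlim⟩ := (isCompact_closedBall (0:ℂ) 1).tendsto_subseq (x := fun k => zz W.A (v k)⁻¹)
    (fun k => by
      rw [mem_closedBall, dist_zero_right]
      exact (zz_lt W.A _).le)
  have hdel : Tendsto (fun k => del W.A (v (φ k))⁻¹) atTop (𝓝 0) := by
    have h1 : Tendsto (fun k => M * (1 / 2 ^ (φ k) : ℝ)) atTop (𝓝 0) := by
      have h2 : Tendsto (fun k : ℕ => (1 / 2 : ℝ) ^ k) atTop (𝓝 0) :=
        tendsto_pow_atTop_nhds_zero_of_lt_one (by norm_num) (by norm_num)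
      have h3 := (h2.comp hφ.tendsto_atTop).const_mul M
      rw [mul_zero] at h3
      refine h3.congr fun k => ?_
      simp only [Function.comp, one_div, inv_pow]
    refine squeeze_zero (fun k => (del_pos W.A _).le) (fun k => ?_) h1
    rw [del_inv]
    exact (hv (φ k)).hi.trans (mul_le_mul_of_nonneg_left (hs1 _) (by linarith))
  have hp1 : ‖p‖ = 1 := by
    have h1 : Tendsto (fun k => 1 - ‖zz W.A (v (φ k))⁻¹‖ ^ 2) atTop (𝓝 (1 - ‖p‖ ^ 2)) :=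
      tendsto_const_nhds.sub (hlim.norm.pow 2)
    have h2 := tendsto_nhds_unique h1 hdel
    have h3 : ‖p‖ ^ 2 = 1 := by linarith
    exact (pow_eq_one_iff_of_nonneg (norm_nonneg p) two_ne_zero).1 h3
  refine ⟨p, fun k => (v (φ k))⁻¹,
    fun k => (2 * Real.pi / 2 ^ (m (φ k))) / ((W.ν (Ar (m (φ k)) (j (φ k)))).toReal * del W.A (v (φ k))⁻¹), ?_, ?_, ?_, ?_⟩
  · exact hp1
  · intro k
    have := del_pos W.A (v (φ k))⁻¹
    have := hI (φ k)
    positivity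
  · exact hlim
  · rintro F hF ⟨κ, hκ, h0⟩
    obtain ⟨B, hB⟩ : ∃ B : ℝ, ∀ ζ : ℂ, ‖ζ‖ = 1 → |F ζ| ≤ B := by
      obtain ⟨B, hB⟩ := (isCompact_closedBall (0:ℂ) 1).exists_bound_of_continuousOn hF.continuousOn
      refine ⟨B, fun ζ hζ => ?_⟩
      have := hB ζ (by rw [mem_closedBall, dist_zero_right, hζ])
      rwa [Real.norm_eq_abs] at this
    have B0 : 0 ≤ B := (abs_nonneg _).trans (hB 1 norm_one)
    have L1 := SEL_lim p (fun k => zz W.A (v (φ k))⁻¹) hlim F hF κ hκ h0 B hB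
    have L2 : Tendsto (fun k => (2 * Real.pi / 2 ^ (m (φ k))) / ((W.ν (Ar (m (φ k)) (j (φ k)))).toReal * del W.A (v (φ k))⁻¹) * W.nu (v (φ k))⁻¹ F -
        ∫ θ in (0:ℝ)..(2 * Real.pi), F (circleMap 0 1 θ) / ‖circleMap 0 1 θ - zz W.A (v (φ k))⁻¹‖ ^ 2) atTop (𝓝 0) := by
      set R : ℝ := Real.pi / 2 * (M * (1 + 1 / (κ / 2))) with hR
      have R0 : 0 < R := by positivity
      rw [Metric.tendsto_atTop]
      intro ε hε
      set ε' : ℝ := ε / (2 * (R + 2) * M * 7) with hε'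
      have ε'0 : 0 < ε' := by positivity
      -- uniform continuity
      have huc : ∃ δ' > 0, ∀ a b : ℂ, ‖a‖ = 1 → ‖b‖ = 1 → ‖a - b‖ < δ' → |F a - F b| ≤ ε' := by
        have := (isCompact_closedBall (0:ℂ) 1).uniformContinuousOn_of_continuous hF.continuousOn
        rw [Metric.uniformContinuousOn_iff] at this
        obtain ⟨δ', h1, h2⟩ := this ε' ε'0
        refine ⟨δ', h1, fun a b ha hb hab => ?_⟩
        have := h2 a (by rw [mem_closedBall, dist_zero_right, ha]) b (by rw [mem_closedBall, dist_zero_right, hb]) (by rwa [dist_eq_norm])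
        rw [Real.dist_eq] at this
        exact this.le
      obtain ⟨δ', hδ', huc⟩ := huc
      have t1 : Tendsto (fun k : ℕ => (1 / 2 : ℝ) ^ (φ k)) atTop (𝓝 0) :=
        (tendsto_pow_atTop_nhds_zero_of_lt_one (by norm_num) (by norm_num)).comp hφ.tendsto_atTop
      have ev1 : ∀ᶠ k in atTop, ‖zz W.A (v (φ k))⁻¹ - p‖ < κ / 2 := by
        have := (Metric.tendsto_nhds.1 hlim) (κ / 2) (by linarith)
        simpa only [dist_eq_norm, Function.comp] using this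
      have ev2 : ∀ᶠ k in atTop, 4 * M * (1 / 2 : ℝ) ^ (φ k) < δ' := by
        have := t1.const_mul (4 * M)
        rw [mul_zero] at this
        exact this.eventually_lt_const hδ'
      have ev3 : ∀ᶠ k in atTop, B * (1 / 2 : ℝ) ^ (φ k) < ε' := by
        have := t1.const_mul B
        rw [mul_zero] at this
        exact this.eventually_lt_const ε'0
      have ev4 : ∀ᶠ k in atTop, (R + 2) * (1 / 2 : ℝ) ^ (φ k) < 1 := by
        have := t1.const_mul (R + 2)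
        rw [mul_zero] at this
        exact this.eventually_lt_const one_pos
      obtain ⟨k₀, hk₀⟩ := eventually_atTop.1 (ev1.and (ev2.and (ev3.and ev4)))
      refine ⟨k₀, fun k hk => ?_⟩
      obtain ⟨g1, g2, g3, g4⟩ := hk₀ k hk
      set q := φ k with hq
      rw [dist_zero_right, Real.norm_eq_abs]
      have P0 : (0:ℝ) < 2 ^ q := by positivity
      have P3 : (2:ℝ) ^ (q + 3) = 8 * 2 ^ q := by rw [pow_add]; norm_num; ring
      have P1 : (1:ℝ) ≤ 2 ^ q := one_le_pow₀ (by norm_num)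
      have P2 : (1 / 2 : ℝ) ^ q = 1 / 2 ^ q := by rw [one_div_pow]
      rw [P2] at g2 g3 g4
      set N : ℕ := ⌊R * 2 ^ (q + 3)⌋₊ + 1 with hNd
      have N1 : R * 2 ^ (q + 3) < N := by
        rw [hNd]
        push_cast
        exact Nat.lt_floor_add_one _
      have N2 : (N:ℝ) ≤ (R + 1) * 2 ^ (q + 3) := by
        rw [hNd]
        push_cast
        have := Nat.floor_le (show (0:ℝ) ≤ R * 2 ^ (q + 3) by positivity)
        have : (1:ℝ) ≤ 2 ^ (q + 3) := one_le_pow₀ (by norm_num)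
        linarith
      have g4' : R + 2 < 2 ^ q := by
        rw [mul_one_div, div_lt_one P0] at g4
        exact g4
      have N3 : N ≤ 2 ^ (2 * (q + 3) - 1) := by
        have h1 : (N:ℝ) ≤ ((2 ^ (2 * (q + 3) - 1) : ℕ) : ℝ) := by
          refine N2.trans ?_
          push_cast
          have : 2 * (q + 3) - 1 = (q + 3) + (q + 2) := by omega
          rw [this, pow_add _ (q + 3) (q + 2), mul_comm]
          refine mul_le_mul_of_nonneg_left ?_ (by positivity)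
          have : (2:ℝ) ^ (q + 2) = 4 * 2 ^ q := by rw [pow_add]; norm_num; ring
          rw [this]
          linarith
        exact_mod_cast h1
      have main := W.SEL_est M hM (m q) (j q) (q + 3) (by omega) (hj q) (hI q) (hcell q) (v q) (hv q) F hF B hB (κ / 2) (by linarith)
        (fun ζ hζ => h0 ζ (by
          have : ‖ζ - p‖ ≤ ‖ζ - zz W.A (v q)⁻¹‖ + ‖zz W.A (v q)⁻¹ - p‖ := norm_sub_le_norm_sub_add_norm_sub _ _ _
          linarith)) ε' ε'0.le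
        (fun a b ha hb hab => huc a b ha hb (lt_of_le_of_lt (hab.trans (by
          rw [mul_one_div, P3]
          exact div_le_div_of_nonneg_left (by positivity) P0 (by linarith))) g2))
        N N1 N3
      refine lt_of_le_of_lt main ?_
      -- final estimate
      have Q0 : (0:ℝ) < 2 ^ (q + 3) := by positivity
      have e2 : (2:ℝ) ^ (2 * (q + 3)) = 2 ^ (q + 3) * 2 ^ (q + 3) := by rw [two_mul, pow_add]
      have e8 : (1 / 8 : ℝ) ^ (2 * (q + 3)) ≤ 1 / (2 ^ (q + 3) * 2 ^ (q + 3)) * (1 / 2 ^ q) := by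
        rw [← e2, one_div_pow, one_div_mul_one_div, ← pow_add]
        apply one_div_le_one_div_of_le (by positivity)
        have : (8:ℝ) = 2 ^ 3 := by norm_num
        rw [this, ← pow_mul]
        exact pow_le_pow_right₀ (by norm_num) (by omega)
      have E1 : 3 * ε' / 2 ^ (2 * (q + 3)) + B * (1 / 8) ^ (2 * (q + 3)) ≤ 4 * ε' / (2 ^ (q + 3) * 2 ^ (q + 3)) := by
        have h1 : B * (1 / 8) ^ (2 * (q + 3)) ≤ ε' / (2 ^ (q + 3) * 2 ^ (q + 3)) := by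
          refine (mul_le_mul_of_nonneg_left e8 B0).trans ?_
          have h2 : B * (1 / (2 ^ (q + 3) * 2 ^ (q + 3)) * (1 / 2 ^ q)) = (B * (1 / 2 ^ q)) / (2 ^ (q + 3) * 2 ^ (q + 3)) := by ring
          rw [h2]
          exact div_le_div_of_nonneg_right g3.le (by positivity)
        rw [e2]
        have h3 : 4 * ε' / (2 ^ (q + 3) * 2 ^ (q + 3)) = 3 * ε' / (2 ^ (q + 3) * 2 ^ (q + 3)) + ε' / (2 ^ (q + 3) * 2 ^ (q + 3)) := by ring
        rw [h3]
        linarith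
      calc 2 * (N:ℝ) * (M * 2 ^ (q + 3)) * (3 * ε' / 2 ^ (2 * (q + 3)) + B * (1 / 8) ^ (2 * (q + 3)))
          ≤ 2 * ((R + 1) * 2 ^ (q + 3)) * (M * 2 ^ (q + 3)) * (4 * ε' / (2 ^ (q + 3) * 2 ^ (q + 3))) := by
            apply mul_le_mul _ E1 (by positivity) (by positivity)
            apply mul_le_mul_of_nonneg_right _ (by positivity)
            linarith
        _ = 2 * (R + 1) * M * 4 * ε' := by
            field_simp
        _ < 2 * (R + 2) * M * 7 * ε' := by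
            apply mul_lt_mul_of_pos_right _ ε'0
            nlinarith
        _ = ε := by
            rw [hε']
            field_simp
    have := L2.add L1
    rw [zero_add] at this
    refine this.congr fun k => ?_
    ring

end WD

end Pool.Agent.DimDropH
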