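import Pool.Agent.Lib_MP_644907_h.GLU
import Pool.Agent.Lib_MP_644907_h.SEL
import Pool.Agent.Lib_MP_644907_h.DIMU
import Pool.Agent.Lib_MP_644907_h.ATOM
import Pool.Agent.Lib_MP_644907_h.DIMC
import Pool.Agent.Lib_MP_644907_h.LIMS

/-!
# COC: the cocompact case (proved from the pieces)
-/

set_option autoImplicit false

open Complex MeasureTheory Metric Filter
open scoped Topology

namespace Pool.Agent.DimDropH

open Pool.Agent.DimDrop (IsoD)
open Pool.Agent.DimDropF (IG mb dmb exists_IG)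

/-- cocompact case for the structure `WD` -/
theorem WD.drop {Γ : Type} [Group Γ] {n : ℕ} (W : WD Γ n) : ∃ E : Set ℂ, MeasurableSet E ∧ W.ν Eᶜ = 0 ∧ dimH E < 1 := by
  have := W.prob
  by_cases hg : ∃ L : ℕ, 1 ≤ L ∧ ∃ ε : ℝ, 0 < ε ∧ ε < 1 ∧ Gap W.ν L ε
  · obtain ⟨L, hL, ε, h0, h1, hg⟩ := hg
    exact dim_of_gap W.ν W.supp L hL ε h0 h1 hg
  · exfalso
    obtain ⟨p, x, c, hT⟩ := W.exists_tangent (fun L hL ε h0 h1 h => hg ⟨L, hL, ε, h0, h1, h⟩)
    obtain ⟨γ, hγ⟩ := exists_move W.A p hT.hp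
    exact W.no_tangent p x c hT γ hγ

end Pool.Agent.DimDropH
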