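import Pool.Agent.Lib_MP_644907_h.DENA

/-!
# Piece DEN: the Hoelder density away from the pole
-/

set_option autoImplicit false

open Complex MeasureTheory Metric Filter
open scoped Topology

namespace Pool.Agent.DimDropH

open Pool.Agent.DimDrop (IsoD)
open Pool.Agent.DimDropF (IG mb dmb)

namespace WD

variable {Γ : Type} [Group Γ] {n : ℕ} (W : WD Γ n)

private theorem den_ext (u : ℂ → ℝ) (hu : ContinuousOn u (sphere 0 1)) :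
    ∃ F : ℂ → ℝ, Continuous F ∧ ∀ ζ : ℂ, ‖ζ‖ = 1 → F ζ = u ζ := by
  have hcl : IsClosed (sphere (0:ℂ) 1) := isClosed_sphere
  let f : C(sphere (0:ℂ) 1, ℝ) := ⟨(sphere (0:ℂ) 1).domRestrict u, continuousOn_iff_continuous_domRestrict.mp hu⟩
  obtain ⟨g, hg⟩ := ContinuousMap.exists_restrict_eq hcl f
  refine ⟨g, g.continuous, fun ζ hζ => ?_⟩
  have h1 : ζ ∈ sphere (0:ℂ) 1 := by simpa using hζ
  have h2 : g ζ = u ζ := congrArg (fun k : C(sphere (0:ℂ) 1, ℝ) => k ⟨ζ, h1⟩) hg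
  exact h2

private theorem den_cont (p : ℂ) (κ : ℝ) (hκ : 0 < κ) (F g : ℂ → ℝ) (hF : Continuous F)
    (hF0 : ∀ ζ : ℂ, ‖ζ - p‖ ≤ 2 * κ → F ζ = 0)
    (hg : ContinuousOn g {ζ : ℂ | ‖ζ‖ = 1 ∧ κ ≤ ‖ζ - p‖}) :
    ContinuousOn (fun ζ => F ζ * g ζ) (sphere 0 1) := by
  intro ζ hζ
  have hζ1 : ‖ζ‖ = 1 := by simpa using hζ
  by_cases h : κ < ‖ζ - p‖
  · have h1 : ContinuousWithinAt g {ζ : ℂ | ‖ζ‖ = 1 ∧ κ ≤ ‖ζ - p‖} ζ := hg ζ ⟨hζ1, h.le⟩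
    have hop : {ζ : ℂ | κ < ‖ζ - p‖} ∈ 𝓝 ζ :=
      (isOpen_lt continuous_const (by fun_prop)).mem_nhds h
    have h2 : ContinuousWithinAt g (sphere 0 1) ζ := by
      refine h1.mono_of_mem_nhdsWithin ?_
      have := inter_mem_nhdsWithin (sphere (0:ℂ) 1) hop
      refine mem_of_superset this ?_
      rintro w ⟨hw1, hw2⟩
      exact ⟨by simpa using hw1, le_of_lt hw2⟩
    exact hF.continuousWithinAt.mul h2
  · push Not at h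
    have hop : {ζ : ℂ | ‖ζ - p‖ < 2 * κ} ∈ 𝓝 ζ :=
      (isOpen_lt (by fun_prop) continuous_const).mem_nhds (show ‖ζ - p‖ < 2 * κ by linarith)
    refine ContinuousWithinAt.congr_of_eventuallyEq (f := fun _ => (0:ℝ)) continuousWithinAt_const ?_ ?_
    · refine mem_nhdsWithin_of_mem_nhds ?_
      filter_upwards [hop] with w hw
      simp [hF0 w (le_of_lt hw)]
    · simp [hF0 ζ (by linarith)]

private theorem den_hol (S : Set ℂ) (N : ℂ → ℝ) (al C : ℝ) (hal : 0 < al)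
    (hN : ∀ ξ ∈ S, ∀ ω ∈ S, |N ξ - N ω| ≤ C * ‖ξ - ω‖ ^ al) : ContinuousOn N S := by
  intro ξ hξ
  have h1 : Tendsto (fun ω => C * ‖ω - ξ‖ ^ al) (𝓝[S] ξ) (𝓝 0) := by
    have h0 : Tendsto (fun ω : ℂ => C * ‖ω - ξ‖ ^ al) (𝓝 ξ) (𝓝 (C * ‖ξ - ξ‖ ^ al)) := by
      refine Continuous.tendsto ?_ ξ
      exact continuous_const.mul ((Real.continuous_rpow_const hal.le).comp (by fun_prop))
    rw [sub_self, norm_zero, Real.zero_rpow hal.ne', mul_zero] at h0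
    exact h0.mono_left nhdsWithin_le_nhds
  have h2 : Tendsto (fun ω => N ω - N ξ) (𝓝[S] ξ) (𝓝 0) := by
    refine squeeze_zero_norm' ?_ h1
    filter_upwards [self_mem_nhdsWithin] with ω hω
    rw [Real.norm_eq_abs]
    exact hN ω hω ξ hξ
  have h3 := h2.add_const (N ξ)
  show Tendsto N (𝓝[S] ξ) (𝓝 (N ξ))
  simpa using h3

private theorem den_inv (p : ℂ) (κ : ℝ) (hκ : 0 < κ) :
    ContinuousOn (fun ζ : ℂ => 1 / ‖ζ - p‖ ^ 2) {ζ : ℂ | ‖ζ‖ = 1 ∧ κ ≤ ‖ζ - p‖} := by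
  refine ContinuousOn.div continuousOn_const (by fun_prop) ?_
  rintro ζ ⟨-, h⟩
  have : 0 < ‖ζ - p‖ := lt_of_lt_of_le hκ h
  positivity

/-- integrability for `lam` -/
private theorem den_lamint (p : ℂ) (κ : ℝ) (hκ : 0 < κ) (F : ℂ → ℝ) (hF : Continuous F)
    (hF0 : ∀ ζ : ℂ, ‖ζ - p‖ ≤ 2 * κ → F ζ = 0) :
    IntervalIntegrable (fun θ : ℝ => F (circleMap 0 1 θ) / ‖circleMap 0 1 θ - p‖ ^ 2) volume 0 (2 * Real.pi) := by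
  have h1 := den_cont p κ hκ F (fun ζ => 1 / ‖ζ - p‖ ^ 2) hF hF0 (den_inv p κ hκ)
  have h2 : Continuous (fun θ : ℝ => F (circleMap 0 1 θ) * (1 / ‖circleMap 0 1 θ - p‖ ^ 2)) :=
    h1.comp_continuous (continuous_circleMap 0 1) (fun θ => by simp)
  have h3 : (fun θ : ℝ => F (circleMap 0 1 θ) / ‖circleMap 0 1 θ - p‖ ^ 2) =
      fun θ : ℝ => F (circleMap 0 1 θ) * (1 / ‖circleMap 0 1 θ - p‖ ^ 2) := by
    funext θ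
    rw [mul_one_div]
  rw [h3]
  exact h2.intervalIntegrable _ _

private theorem den_int (g : ℂ → ℝ) (hg : ContinuousOn g (sphere 0 1)) : Integrable g W.ν := by
  have := W.prob
  have h1 : IntegrableOn g (sphere 0 1) W.ν := hg.integrableOn_compact (isCompact_sphere 0 1)
  rw [IntegrableOn, Measure.restrict_eq_self_of_ae_mem] at h1
  · exact h1
  · filter_upwards [W.ae_circle] with ζ hζ
    simpa using hζ

private theorem den_nu (F : ℂ → ℝ) : W.nu 1 F = ∫ ζ, F ζ ∂W.ν := by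
  unfold WD.nu
  refine integral_congr_ae ?_
  filter_upwards [W.ae_circle] with ζ hζ
  rw [W.A.one' ζ hζ.le]

/-- partition of unity on the circle -/
private theorem den_pou (r : ℝ) (hr : 0 < r) : ∃ (t : Finset ℂ) (χ : ℂ → ℂ → ℝ), (∀ ξ ∈ t, ‖ξ‖ = 1) ∧
    (∀ ξ ∈ t, Continuous (χ ξ)) ∧ (∀ ξ ζ, 0 ≤ χ ξ ζ) ∧ (∀ ξ ∈ t, ∀ ζ, χ ξ ζ ≤ 1) ∧
    (∀ ξ ζ, r ≤ ‖ζ - ξ‖ → χ ξ ζ = 0) ∧ ∀ ζ : ℂ, ‖ζ‖ = 1 → ∑ ξ ∈ t, χ ξ ζ = 1 := by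
  obtain ⟨t, hts, htf, htc⟩ := (isCompact_sphere (0:ℂ) 1).finite_cover_balls (half_pos hr)
  let T := htf.toFinset
  let ψ : ℂ → ℂ → ℝ := fun ξ ζ => max 0 (r - ‖ζ - ξ‖)
  let D : ℂ → ℝ := fun ζ => max (r / 2) (∑ ξ ∈ T, ψ ξ ζ)
  have hD : ∀ ζ, 0 < D ζ := fun ζ => lt_of_lt_of_le (half_pos hr) (le_max_left _ _)
  have hψ0 : ∀ ξ ζ, 0 ≤ ψ ξ ζ := fun ξ ζ => le_max_left _ _
  have hψc : ∀ ξ, Continuous (ψ ξ) := fun ξ => by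
    show Continuous fun ζ : ℂ => max 0 (r - ‖ζ - ξ‖)
    fun_prop
  have hDc : Continuous D := continuous_const.max (continuous_finsetSum _ fun ξ _ => hψc ξ)
  refine ⟨T, fun ξ ζ => ψ ξ ζ / D ζ, ?_, ?_, ?_, ?_, ?_, ?_⟩
  · intro ξ hξ
    have := hts (htf.mem_toFinset.mp hξ)
    simpa using this
  · intro ξ _
    exact (hψc ξ).div hDc fun ζ => (hD ζ).ne'
  · intro ξ ζ
    exact div_nonneg (hψ0 ξ ζ) (hD ζ).le
  · intro ξ hξ ζ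
    rw [div_le_one (hD ζ)]
    exact (Finset.single_le_sum (f := fun ξ => ψ ξ ζ) (fun ξ _ => hψ0 ξ ζ) hξ).trans (le_max_right _ _)
  · intro ξ ζ h
    have h0 : ψ ξ ζ = 0 := max_eq_left (by linarith)
    show ψ ξ ζ / D ζ = 0
    rw [h0, zero_div]
  · intro ζ hζ
    have h1 : ζ ∈ sphere (0:ℂ) 1 := by simpa using hζ
    have h2 := htc h1
    simp only [Set.mem_iUnion, mem_ball, dist_eq_norm] at h2
    obtain ⟨ξ₀, hξ₀, h3⟩ := h2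
    have h4 : r / 2 ≤ ψ ξ₀ ζ := le_trans (by linarith) (le_max_right _ _)
    have h5 : ψ ξ₀ ζ ≤ ∑ ξ ∈ T, ψ ξ ζ :=
      Finset.single_le_sum (f := fun ξ => ψ ξ ζ) (fun ξ _ => hψ0 ξ ζ) (htf.mem_toFinset.mpr hξ₀)
    have h6 : D ζ = ∑ ξ ∈ T, ψ ξ ζ := max_eq_right (h4.trans h5)
    rw [← Finset.sum_div, ← h6, div_self (hD ζ).ne']

private theorem den_01 (p : ℂ) (κ : ℝ) (hκ : 0 < κ) (q θ d : ℝ) (hq : 0 < q) (hq1 : q < 1) (hθ : 0 < θ) (hθ1 : θ < 1) (hd : 0 < d)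
    (N : ℂ → ℝ) (al C : ℝ) (hal : 0 < al) (hC : 0 ≤ C)
    (hNh : ∀ ξ ω : ℂ, ‖ξ‖ = 1 → ‖ω‖ = 1 → κ ≤ ‖ξ - p‖ → κ ≤ ‖ω - p‖ → |N ξ - N ω| ≤ C * ‖ξ - ω‖ ^ al)
    (hNl : ∀ ξ : ℂ, ‖ξ‖ = 1 → κ ≤ ‖ξ - p‖ → ∀ j : ℕ, ∀ F : ℂ → ℝ, Continuous F → (∀ ζ, 0 ≤ F ζ) → (∀ ζ, F ζ ≤ 1) →
        (∀ ζ : ℂ, d * q ^ j ≤ ‖ζ - ξ‖ → F ζ = 0) → |lam p F - N ξ * W.nu 1 F| ≤ C * (1 - θ) ^ j * W.nu 1 F)
    (F : ℂ → ℝ) (hF : Continuous F) (hF0 : ∀ ζ : ℂ, ‖ζ - p‖ ≤ 2 * κ → F ζ = 0)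
    (hFp : ∀ ζ, 0 ≤ F ζ) (hF1 : ∀ ζ, F ζ ≤ 1) :
    lam p F = ∫ ζ, F ζ * N ζ ∂W.ν := by
  have := W.prob
  have hNc : ContinuousOn N {ζ : ℂ | ‖ζ‖ = 1 ∧ κ ≤ ‖ζ - p‖} :=
    den_hol _ N al C hal (fun ξ hξ ω hω => hNh ξ ω hξ.1 hω.1 hξ.2 hω.2)
  -- the estimate at scale `j`
  have key : ∀ j : ℕ, |lam p F - ∫ ζ, F ζ * N ζ ∂W.ν| ≤ C * (1 - θ) ^ j + C * (d * q ^ j) ^ al := by
    intro j
    have hdq : 0 < d * q ^ j := by positivity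
    set r : ℝ := min (d * q ^ j) κ with hr
    have hr0 : 0 < r := lt_min hdq hκ
    obtain ⟨t, χ, ht1, hχc, hχ0, hχ1, hχs, hχsum⟩ := den_pou r hr0
    have hFχc : ∀ ξ ∈ t, Continuous (fun ζ => F ζ * χ ξ ζ) := fun ξ hξ => hF.mul (hχc ξ hξ)
    have hFχ0 : ∀ ξ ∈ t, ∀ ζ : ℂ, ‖ζ - p‖ ≤ 2 * κ → F ζ * χ ξ ζ = 0 := fun ξ _ ζ h => by rw [hF0 ζ h, zero_mul]
    have hFχp : ∀ ξ ζ, 0 ≤ F ζ * χ ξ ζ := fun ξ ζ => mul_nonneg (hFp ζ) (hχ0 ξ ζ)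
    have hFχ1 : ∀ ξ ∈ t, ∀ ζ, F ζ * χ ξ ζ ≤ 1 := fun ξ hξ ζ => mul_le_one₀ (hF1 ζ) (hχ0 ξ ζ) (hχ1 ξ hξ ζ)
    have e1 : lam p F = ∑ ξ ∈ t, lam p (fun ζ => F ζ * χ ξ ζ) := by
      unfold lam
      rw [← intervalIntegral.integral_finsetSum (fun ξ hξ => den_lamint p κ hκ _ (hFχc ξ hξ) (hFχ0 ξ hξ))]
      refine intervalIntegral.integral_congr fun u _ => ?_
      show F (circleMap 0 1 u) / ‖circleMap 0 1 u - p‖ ^ 2 =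
        ∑ ξ ∈ t, F (circleMap 0 1 u) * χ ξ (circleMap 0 1 u) / ‖circleMap 0 1 u - p‖ ^ 2
      rw [← Finset.sum_div, ← Finset.mul_sum, hχsum _ (by simp), mul_one]
    have hi1 : ∀ ξ ∈ t, Integrable (fun ζ => F ζ * χ ξ ζ) W.ν := fun ξ hξ => W.den_int _ (hFχc ξ hξ).continuousOn
    have hi2 : ∀ ξ ∈ t, Integrable (fun ζ => F ζ * χ ξ ζ * N ζ) W.ν := fun ξ hξ =>
      W.den_int _ (den_cont p κ hκ _ N (hFχc ξ hξ) (hFχ0 ξ hξ) hNc)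
    have e2 : ∫ ζ, F ζ * N ζ ∂W.ν = ∑ ξ ∈ t, ∫ ζ, F ζ * χ ξ ζ * N ζ ∂W.ν := by
      rw [← integral_finsetSum _ hi2]
      refine integral_congr_ae ?_
      filter_upwards [W.ae_circle] with ζ hζ
      have : ∑ ξ ∈ t, F ζ * χ ξ ζ * N ζ = F ζ * N ζ * ∑ ξ ∈ t, χ ξ ζ := by
        rw [Finset.mul_sum]
        exact Finset.sum_congr rfl fun ξ _ => by ring
      rw [this, hχsum ζ hζ, mul_one]
    have e3 : ∫ ζ, F ζ ∂W.ν = ∑ ξ ∈ t, ∫ ζ, F ζ * χ ξ ζ ∂W.ν := by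
      rw [← integral_finsetSum _ hi1]
      refine integral_congr_ae ?_
      filter_upwards [W.ae_circle] with ζ hζ
      rw [← Finset.mul_sum, hχsum ζ hζ, mul_one]
    have e4 : ∫ ζ, F ζ ∂W.ν ≤ 1 := by
      have h1 : ∫ ζ, F ζ ∂W.ν ≤ ∫ _ζ, (1:ℝ) ∂W.ν :=
        integral_mono (W.den_int _ hF.continuousOn) (integrable_const _) (fun ζ => hF1 ζ)
      simpa using h1
    have hθj : 0 ≤ (1 - θ) ^ j := pow_nonneg (by linarith) j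
    have hK : 0 ≤ C * (1 - θ) ^ j + C * (d * q ^ j) ^ al :=
      add_nonneg (mul_nonneg hC hθj) (mul_nonneg hC (Real.rpow_nonneg hdq.le _))
    have hloc : ∀ ξ ∈ t, |lam p (fun ζ => F ζ * χ ξ ζ) - ∫ ζ, F ζ * χ ξ ζ * N ζ ∂W.ν| ≤
        (C * (1 - θ) ^ j + C * (d * q ^ j) ^ al) * ∫ ζ, F ζ * χ ξ ζ ∂W.ν := by
      intro ξ hξ
      have hint0 : 0 ≤ ∫ ζ, F ζ * χ ξ ζ ∂W.ν := integral_nonneg fun ζ => hFχp ξ ζ
      rcases lt_or_ge ‖ξ - p‖ κ with hlt | hge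
      · have hz : ∀ ζ, F ζ * χ ξ ζ = 0 := by
          intro ζ
          rcases lt_or_ge ‖ζ - ξ‖ r with h1 | h1
          · have h2 : ‖ζ - p‖ ≤ 2 * κ := by
              have h3 : ‖ζ - p‖ ≤ ‖ζ - ξ‖ + ‖ξ - p‖ := by
                have := norm_add_le (ζ - ξ) (ξ - p)
                simpa using this
              have h4 : r ≤ κ := min_le_right _ _
              linarith
            rw [hF0 ζ h2, zero_mul]
          · rw [hχs ξ ζ h1, mul_zero]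
        have h5 : lam p (fun ζ => F ζ * χ ξ ζ) = 0 := by
          unfold lam
          simp [hz]
        have h6 : ∫ ζ, F ζ * χ ξ ζ * N ζ ∂W.ν = 0 := by simp [hz]
        rw [h5, h6, sub_zero, abs_zero]
        exact mul_nonneg hK hint0
      · have h1 := hNl ξ (ht1 ξ hξ) hge j (fun ζ => F ζ * χ ξ ζ) (hFχc ξ hξ) (hFχp ξ) (hFχ1 ξ hξ)
          (fun ζ h => by rw [hχs ξ ζ ((min_le_left _ _).trans h), mul_zero])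
        rw [W.den_nu] at h1
        have h2 : |(∫ ζ, F ζ * χ ξ ζ * N ζ ∂W.ν) - N ξ * ∫ ζ, F ζ * χ ξ ζ ∂W.ν| ≤
            C * (d * q ^ j) ^ al * ∫ ζ, F ζ * χ ξ ζ ∂W.ν := by
          rw [← integral_const_mul, ← integral_sub (hi2 ξ hξ) ((hi1 ξ hξ).const_mul _), ← integral_const_mul,
            ← Real.norm_eq_abs]
          refine norm_integral_le_of_norm_le ((hi1 ξ hξ).const_mul _) ?_
          filter_upwards [W.ae_circle] with ζ hζ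
          rw [Real.norm_eq_abs]
          have e5 : F ζ * χ ξ ζ * N ζ - N ξ * (F ζ * χ ξ ζ) = (N ζ - N ξ) * (F ζ * χ ξ ζ) := by ring
          rw [e5, abs_mul, abs_of_nonneg (hFχp ξ ζ)]
          rcases eq_or_ne (F ζ * χ ξ ζ) 0 with h0 | h0
          · rw [h0, mul_zero, mul_zero]
          · have h3 : κ ≤ ‖ζ - p‖ := by
              by_contra hcon
              push Not at hcon
              exact h0 (by rw [hF0 ζ (by linarith), zero_mul])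
            have h4 : ‖ζ - ξ‖ ≤ d * q ^ j := by
              by_contra hcon
              push Not at hcon
              exact h0 (by rw [hχs ξ ζ ((min_le_left _ _).trans hcon.le), mul_zero])
            have h5 := hNh ζ ξ hζ (ht1 ξ hξ) h3 hge
            have h6 : ‖ζ - ξ‖ ^ al ≤ (d * q ^ j) ^ al := Real.rpow_le_rpow (norm_nonneg _) h4 hal.le
            exact mul_le_mul_of_nonneg_right (h5.trans (mul_le_mul_of_nonneg_left h6 hC)) (hFχp ξ ζ)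
        calc |lam p (fun ζ => F ζ * χ ξ ζ) - ∫ ζ, F ζ * χ ξ ζ * N ζ ∂W.ν|
            = |(lam p (fun ζ => F ζ * χ ξ ζ) - N ξ * ∫ ζ, F ζ * χ ξ ζ ∂W.ν) -
                ((∫ ζ, F ζ * χ ξ ζ * N ζ ∂W.ν) - N ξ * ∫ ζ, F ζ * χ ξ ζ ∂W.ν)| := by congr 1; ring
          _ ≤ |lam p (fun ζ => F ζ * χ ξ ζ) - N ξ * ∫ ζ, F ζ * χ ξ ζ ∂W.ν| +
                |(∫ ζ, F ζ * χ ξ ζ * N ζ ∂W.ν) - N ξ * ∫ ζ, F ζ * χ ξ ζ ∂W.ν| := abs_sub _ _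
          _ ≤ C * (1 - θ) ^ j * (∫ ζ, F ζ * χ ξ ζ ∂W.ν) + C * (d * q ^ j) ^ al * (∫ ζ, F ζ * χ ξ ζ ∂W.ν) :=
              add_le_add h1 h2
          _ = _ := by ring
    rw [e1, e2, ← Finset.sum_sub_distrib]
    calc |∑ ξ ∈ t, (lam p (fun ζ => F ζ * χ ξ ζ) - ∫ ζ, F ζ * χ ξ ζ * N ζ ∂W.ν)|
        ≤ ∑ ξ ∈ t, |lam p (fun ζ => F ζ * χ ξ ζ) - ∫ ζ, F ζ * χ ξ ζ * N ζ ∂W.ν| := Finset.abs_sum_le_sum_abs _ _
      _ ≤ ∑ ξ ∈ t, (C * (1 - θ) ^ j + C * (d * q ^ j) ^ al) * ∫ ζ, F ζ * χ ξ ζ ∂W.ν := Finset.sum_le_sum hloc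
      _ = (C * (1 - θ) ^ j + C * (d * q ^ j) ^ al) * ∫ ζ, F ζ ∂W.ν := by rw [← Finset.mul_sum, e3]
      _ ≤ (C * (1 - θ) ^ j + C * (d * q ^ j) ^ al) * 1 := mul_le_mul_of_nonneg_left e4 hK
      _ = _ := mul_one _
  have hlim : Tendsto (fun j : ℕ => C * (1 - θ) ^ j + C * (d * q ^ j) ^ al) atTop (𝓝 0) := by
    have h1 : Tendsto (fun j : ℕ => (1 - θ) ^ j) atTop (𝓝 0) :=
      tendsto_pow_atTop_nhds_zero_of_lt_one (by linarith) (by linarith)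
    have h2 : Tendsto (fun j : ℕ => d * q ^ j) atTop (𝓝 (d * 0)) :=
      (tendsto_pow_atTop_nhds_zero_of_lt_one hq.le hq1).const_mul d
    have h3 : Tendsto (fun j : ℕ => (d * q ^ j) ^ al) atTop (𝓝 ((d * 0) ^ al)) :=
      ((Real.continuous_rpow_const hal.le).tendsto _).comp h2
    rw [mul_zero, Real.zero_rpow hal.ne'] at h3
    have h4 := (h1.const_mul C).add (h3.const_mul C)
    simpa using h4
  have h0 : |lam p F - ∫ ζ, F ζ * N ζ ∂W.ν| ≤ 0 := ge_of_tendsto' hlim key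
  have h1 := abs_nonpos_iff.mp h0
  linarith

/-- `lam p F = ν(F N)` for continuous `F` vanishing for `‖ζ - p‖ ≤ 2κ`: for `F ≥ 0` (else positive and negative parts), `F ≤ 1` (scale) split `F = ∑ F χ_i` with a finite partition of unity on the circle, `χ_i` continuous, supported in the ball of radius
`min (d q^j) κ` about `ξ_i`; keep the `i` with `κ ≤ ‖ξ_i - p‖`. `|lam p (F χ_i) - N ξ_i ν(F χ_i)| ≤ C (1-θ)^j ν(F χ_i)`, `|ν(F χ_i N) - N ξ_i ν(F χ_i)| ≤ C (d q^j)^al ν(F χ_i)`. Sum over `i`, `j → ∞`. -/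
theorem lam_eq (p : ℂ) (hp : ‖p‖ = 1) (κ : ℝ) (hκ : 0 < κ) (q θ d C₀ : ℝ) (hq : 0 < q) (hq1 : q < 1) (hθ : 0 < θ) (hθ1 : θ < 1) (hd : 0 < d) (hC₀ : 0 < C₀)
    (N : ℂ → ℝ) (al C : ℝ) (hal : 0 < al) (hal1 : al ≤ 1) (hC : 0 ≤ C) (hN : ∀ ξ : ℂ, ‖ξ‖ = 1 → κ ≤ ‖ξ - p‖ → 1 / C₀ ≤ N ξ ∧ N ξ ≤ C₀)
    (hNh : ∀ ξ ω : ℂ, ‖ξ‖ = 1 → ‖ω‖ = 1 → κ ≤ ‖ξ - p‖ → κ ≤ ‖ω - p‖ → |N ξ - N ω| ≤ C * ‖ξ - ω‖ ^ al)
    (hNl : ∀ ξ : ℂ, ‖ξ‖ = 1 → κ ≤ ‖ξ - p‖ → ∀ j : ℕ, ∀ F : ℂ → ℝ, Continuous F → (∀ ζ, 0 ≤ F ζ) → (∀ ζ, F ζ ≤ 1) →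
        (∀ ζ : ℂ, d * q ^ j ≤ ‖ζ - ξ‖ → F ζ = 0) → |lam p F - N ξ * W.nu 1 F| ≤ C * (1 - θ) ^ j * W.nu 1 F)
    (F : ℂ → ℝ) (hF : Continuous F) (hF0 : ∀ ζ : ℂ, ‖ζ - p‖ ≤ 2 * κ → F ζ = 0) :
    lam p F = ∫ ζ, F ζ * N ζ ∂W.ν := by
  have hNc : ContinuousOn N {ζ : ℂ | ‖ζ‖ = 1 ∧ κ ≤ ‖ζ - p‖} :=
    den_hol _ N al C hal (fun ξ hξ ω hω => hNh ξ ω hξ.1 hω.1 hξ.2 hω.2)
  obtain ⟨M, hM⟩ := (isCompact_sphere (0:ℂ) 1).exists_bound_of_continuousOn hF.continuousOn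
  set B : ℝ := |M| + 1 with hB
  have hB0 : 0 < B := by positivity
  have hFB : ∀ ζ : ℂ, ‖ζ‖ = 1 → |F ζ / B| ≤ 1 := by
    intro ζ hζ
    have h1 : |F ζ| ≤ M := hM ζ (by simpa using hζ)
    rw [abs_div, abs_of_pos hB0, div_le_one hB0]
    linarith [le_abs_self M]
  set G : ℂ → ℝ := fun ζ => max 0 (min 1 (F ζ / B)) with hG
  set H : ℂ → ℝ := fun ζ => max 0 (min 1 (-(F ζ / B))) with hH
  have hGc : Continuous G := by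
    rw [hG]
    fun_prop
  have hHc : Continuous H := by
    rw [hH]
    fun_prop
  have hG0 : ∀ ζ : ℂ, ‖ζ - p‖ ≤ 2 * κ → G ζ = 0 := fun ζ h => by simp [hG, hF0 ζ h]
  have hH0 : ∀ ζ : ℂ, ‖ζ - p‖ ≤ 2 * κ → H ζ = 0 := fun ζ h => by simp [hH, hF0 ζ h]
  have eG := W.den_01 p κ hκ q θ d hq hq1 hθ hθ1 hd N al C hal hC hNh hNl G hGc hG0
    (fun ζ => le_max_left _ _) (fun ζ => max_le zero_le_one (min_le_left _ _))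
  have eH := W.den_01 p κ hκ q θ d hq hq1 hθ hθ1 hd N al C hal hC hNh hNl H hHc hH0
    (fun ζ => le_max_left _ _) (fun ζ => max_le zero_le_one (min_le_left _ _))
  have hFGH : ∀ ζ : ℂ, ‖ζ‖ = 1 → F ζ = B * G ζ - B * H ζ := by
    intro ζ hζ
    have h1 := abs_le.mp (hFB ζ hζ)
    have h2 : G ζ - H ζ = F ζ / B := by
      simp only [hG, hH]
      rw [min_eq_right h1.2, min_eq_right (by linarith)]
      rcases le_total 0 (F ζ / B) with h3 | h3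
      · rw [max_eq_right h3, max_eq_left (by linarith), sub_zero]
      · rw [max_eq_left h3, max_eq_right (by linarith), zero_sub, neg_neg]
    rw [← mul_sub, h2]
    field_simp
  have e1 : lam p F = B * lam p G - B * lam p H := by
    unfold lam
    rw [← intervalIntegral.integral_const_mul, ← intervalIntegral.integral_const_mul,
      ← intervalIntegral.integral_sub ((den_lamint p κ hκ G hGc hG0).const_mul B)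
        ((den_lamint p κ hκ H hHc hH0).const_mul B)]
    refine intervalIntegral.integral_congr fun u _ => ?_
    show F (circleMap 0 1 u) / ‖circleMap 0 1 u - p‖ ^ 2 = B * (G (circleMap 0 1 u) / ‖circleMap 0 1 u - p‖ ^ 2) -
      B * (H (circleMap 0 1 u) / ‖circleMap 0 1 u - p‖ ^ 2)
    rw [hFGH _ (by simp)]
    ring
  have e2 : ∫ ζ, F ζ * N ζ ∂W.ν = B * (∫ ζ, G ζ * N ζ ∂W.ν) - B * ∫ ζ, H ζ * N ζ ∂W.ν := by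
    rw [← integral_const_mul, ← integral_const_mul,
      ← integral_sub ((W.den_int _ (den_cont p κ hκ G N hGc hG0 hNc)).const_mul B)
        ((W.den_int _ (den_cont p κ hκ H N hHc hH0 hNc)).const_mul B)]
    refine integral_congr_ae ?_
    filter_upwards [W.ae_circle] with ζ hζ
    rw [hFGH ζ hζ]
    ring
  rw [e1, e2, eG, eH]

private theorem den_rpow (x al : ℝ) (hx : 0 ≤ x) (hx2 : x ≤ 2) (hal : 0 < al) (hal1 : al ≤ 1) : x ≤ 2 * x ^ al := by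
  have h1 : (x / 2) ^ (1:ℝ) ≤ (x / 2) ^ al :=
    Real.rpow_le_rpow_of_exponent_ge' (by positivity) (by linarith) hal.le hal1
  rw [Real.rpow_one] at h1
  have h2 : (x / 2) ^ al ≤ x ^ al := Real.rpow_le_rpow (by positivity) (by linarith) hal.le
  linarith


/-- `exists_N`, `lam_eq` applied to `F / N` (extend `F / N`, which is continuous on the circle, to a continuous function on `ℂ` vanishing near `p`): `ν(F) = lam p (F/N) = ∫ F φ dθ`, `φ ζ = 1 / (N ζ ‖ζ - p‖^2)`; `W.nu 1 F = ∫ F dν` (`f 1 ζ = ζ` on the circle) -/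
theorem density_away (p : ℂ) (hp : ‖p‖ = 1) (κ : ℝ) (hκ : 0 < κ)
    (hpos : ∀ r : ℝ, 0 < r → ∃ m : ℝ, 0 < m ∧ ∀ ξ : ℂ, ‖ξ‖ = 1 → m ≤ W.nu 1 (ind (ball ξ r)))
    (q θ d C₀ : ℝ) (hq : 0 < q) (hq1 : q < 1) (hθ : 0 < θ) (hθ1 : θ < 1) (hd : 0 < d) (hC₀ : 0 < C₀)
    (hloc : ∀ ξ : ℂ, ‖ξ‖ = 1 → κ ≤ ‖ξ - p‖ → ∀ j : ℕ,
      ∃ a b : ℝ, 1 / C₀ ≤ a ∧ a ≤ b ∧ b ≤ C₀ ∧ b - a ≤ C₀ * (1 - θ) ^ j ∧
        ∀ F : ℂ → ℝ, Continuous F → (∀ ζ, 0 ≤ F ζ) → (∀ ζ, F ζ ≤ 1) → (∀ ζ : ℂ, d * q ^ j ≤ ‖ζ - ξ‖ → F ζ = 0) →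
          a * W.nu 1 F ≤ lam p F ∧ lam p F ≤ b * W.nu 1 F) :
    ∃ (φ : ℂ → ℝ) (al C : ℝ), 0 < al ∧ al ≤ 1 ∧ 0 ≤ C ∧ (∀ ζ : ℂ, ‖ζ‖ = 1 → κ ≤ ‖ζ - p‖ → |φ ζ| ≤ C) ∧
      (∀ ζ ω : ℂ, ‖ζ‖ = 1 → ‖ω‖ = 1 → κ ≤ ‖ζ - p‖ → κ ≤ ‖ω - p‖ → |φ ζ - φ ω| ≤ C * ‖ζ - ω‖ ^ al) ∧
      ∀ F : ℂ → ℝ, Continuous F → (∀ ζ : ℂ, ‖ζ - p‖ ≤ 2 * κ → F ζ = 0) →
        W.nu 1 F = ∫ θ in (0:ℝ)..(2 * Real.pi), F (circleMap 0 1 θ) * φ (circleMap 0 1 θ) := by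
  obtain ⟨N, al, C, hal, hal1, hC, hN, hNh, hNl⟩ := W.exists_N p hp κ hκ hpos q θ d C₀ hq hq1 hθ hθ1 hd hC₀ hloc
  have hNc : ContinuousOn N {ζ : ℂ | ‖ζ‖ = 1 ∧ κ ≤ ‖ζ - p‖} :=
    den_hol _ N al C hal (fun ξ hξ ω hω => hNh ξ ω hξ.1 hω.1 hξ.2 hω.2)
  have hNpos : ∀ ζ : ℂ, ‖ζ‖ = 1 → κ ≤ ‖ζ - p‖ → 0 < N ζ := fun ζ h1 h2 =>
    lt_of_lt_of_le (by positivity) (hN ζ h1 h2).1
  have hdist : ∀ ζ : ℂ, ‖ζ‖ = 1 → ‖ζ - p‖ ≤ 2 := by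
    intro ζ h1
    have := norm_sub_le ζ p
    rw [h1, hp] at this
    linarith
  refine ⟨fun ζ => 1 / (N ζ * ‖ζ - p‖ ^ 2), al, C₀ / κ ^ 2 + C₀ ^ 2 / κ ^ 4 * (4 * C + 8 * C₀), hal, hal1, by positivity, ?_, ?_, ?_⟩
  · intro ζ h1 h2
    have h3 := hNpos ζ h1 h2
    have h4 := (hN ζ h1 h2).1
    have h5 : 0 < ‖ζ - p‖ := lt_of_lt_of_le hκ h2
    have h6 : κ ^ 2 ≤ ‖ζ - p‖ ^ 2 := pow_le_pow_left₀ hκ.le h2 2
    have h7 : κ ^ 2 / C₀ ≤ N ζ * ‖ζ - p‖ ^ 2 := by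
      calc κ ^ 2 / C₀ = 1 / C₀ * κ ^ 2 := by ring
        _ ≤ N ζ * ‖ζ - p‖ ^ 2 := mul_le_mul h4 h6 (by positivity) h3.le
    have h8 : 0 ≤ C₀ ^ 2 / κ ^ 4 * (4 * C + 8 * C₀) := by positivity
    rw [abs_of_pos (by positivity)]
    calc 1 / (N ζ * ‖ζ - p‖ ^ 2) ≤ 1 / (κ ^ 2 / C₀) := one_div_le_one_div_of_le (by positivity) h7
      _ = C₀ / κ ^ 2 := by rw [one_div_div]
      _ ≤ _ := by linarith
  · intro ζ ω h1 h1' h2 h2'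
    have h3 := hNpos ζ h1 h2
    have h3' := hNpos ω h1' h2'
    have h4 := (hN ζ h1 h2)
    have h4' := (hN ω h1' h2')
    have h5 : 0 < ‖ζ - p‖ := lt_of_lt_of_le hκ h2
    have h5' : 0 < ‖ω - p‖ := lt_of_lt_of_le hκ h2'
    have h6 : κ ^ 2 ≤ ‖ζ - p‖ ^ 2 := pow_le_pow_left₀ hκ.le h2 2
    have h6' : κ ^ 2 ≤ ‖ω - p‖ ^ 2 := pow_le_pow_left₀ hκ.le h2' 2
    have h7 := hdist ζ h1
    have h7' := hdist ω h1'
    have hx2 : ‖ζ - ω‖ ≤ 2 := by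
      have := norm_sub_le ζ ω
      rw [h1, h1'] at this
      linarith
    have hx := den_rpow ‖ζ - ω‖ al (norm_nonneg _) hx2 hal hal1
    have hy : 0 ≤ ‖ζ - ω‖ ^ al := Real.rpow_nonneg (norm_nonneg _) _
    have hNd := hNh ζ ω h1 h1' h2 h2'
    have hnd : |‖ω - p‖ - ‖ζ - p‖| ≤ ‖ζ - ω‖ := by
      have := abs_norm_sub_norm_le (ω - p) (ζ - p)
      rw [sub_sub_sub_cancel_right, norm_sub_rev ω ζ] at this
      exact this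
    have hnum : |N ω * ‖ω - p‖ ^ 2 - N ζ * ‖ζ - p‖ ^ 2| ≤ (4 * C + 8 * C₀) * ‖ζ - ω‖ ^ al := by
      have e1 : N ω * ‖ω - p‖ ^ 2 - N ζ * ‖ζ - p‖ ^ 2 =
          -(N ζ - N ω) * ‖ω - p‖ ^ 2 + N ζ * ((‖ω - p‖ - ‖ζ - p‖) * (‖ω - p‖ + ‖ζ - p‖)) := by ring
      rw [e1]
      refine (abs_add_le _ _).trans ?_
      rw [abs_mul, abs_neg, abs_mul, abs_mul, abs_of_pos h3, abs_of_nonneg (by positivity : (0:ℝ) ≤ ‖ω - p‖ ^ 2),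
        abs_of_pos (by positivity : 0 < ‖ω - p‖ + ‖ζ - p‖)]
      have g1 : |N ζ - N ω| * ‖ω - p‖ ^ 2 ≤ C * ‖ζ - ω‖ ^ al * 4 := by
        refine mul_le_mul hNd (by nlinarith) (by positivity) (mul_nonneg hC hy)
      have g2 : |‖ω - p‖ - ‖ζ - p‖| * (‖ω - p‖ + ‖ζ - p‖) ≤ 2 * ‖ζ - ω‖ ^ al * 4 :=
        mul_le_mul (hnd.trans hx) (by linarith) (by positivity) (by positivity)
      have g3 : N ζ * (|‖ω - p‖ - ‖ζ - p‖| * (‖ω - p‖ + ‖ζ - p‖)) ≤ C₀ * (2 * ‖ζ - ω‖ ^ al * 4) :=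
        mul_le_mul h4.2 g2 (by positivity) hC₀.le
      linarith
    have hden : κ ^ 4 / C₀ ^ 2 ≤ (N ζ * ‖ζ - p‖ ^ 2) * (N ω * ‖ω - p‖ ^ 2) := by
      have g1 : 1 / C₀ * κ ^ 2 ≤ N ζ * ‖ζ - p‖ ^ 2 := mul_le_mul h4.1 h6 (by positivity) h3.le
      have g2 : 1 / C₀ * κ ^ 2 ≤ N ω * ‖ω - p‖ ^ 2 := mul_le_mul h4'.1 h6' (by positivity) h3'.le
      calc κ ^ 4 / C₀ ^ 2 = (1 / C₀ * κ ^ 2) * (1 / C₀ * κ ^ 2) := by ring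
        _ ≤ _ := mul_le_mul g1 g2 (by positivity) (by positivity)
    have e2 : 1 / (N ζ * ‖ζ - p‖ ^ 2) - 1 / (N ω * ‖ω - p‖ ^ 2) =
        (N ω * ‖ω - p‖ ^ 2 - N ζ * ‖ζ - p‖ ^ 2) / ((N ζ * ‖ζ - p‖ ^ 2) * (N ω * ‖ω - p‖ ^ 2)) := by
      field_simp
    show |1 / (N ζ * ‖ζ - p‖ ^ 2) - 1 / (N ω * ‖ω - p‖ ^ 2)| ≤ _
    rw [e2, abs_div, abs_of_pos (by positivity : 0 < (N ζ * ‖ζ - p‖ ^ 2) * (N ω * ‖ω - p‖ ^ 2))]
    have hd0 : 0 < κ ^ 4 / C₀ ^ 2 := by positivity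
    calc |N ω * ‖ω - p‖ ^ 2 - N ζ * ‖ζ - p‖ ^ 2| / ((N ζ * ‖ζ - p‖ ^ 2) * (N ω * ‖ω - p‖ ^ 2))
        ≤ ((4 * C + 8 * C₀) * ‖ζ - ω‖ ^ al) / (κ ^ 4 / C₀ ^ 2) := by
          gcongr
      _ = C₀ ^ 2 / κ ^ 4 * (4 * C + 8 * C₀) * ‖ζ - ω‖ ^ al := by
          field_simp
      _ ≤ (C₀ / κ ^ 2 + C₀ ^ 2 / κ ^ 4 * (4 * C + 8 * C₀)) * ‖ζ - ω‖ ^ al := by
          refine mul_le_mul_of_nonneg_right ?_ hy
          have : 0 ≤ C₀ / κ ^ 2 := by positivity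
          linarith
  · intro F hF hF0
    have hinvc : ContinuousOn (fun ζ => 1 / N ζ) {ζ : ℂ | ‖ζ‖ = 1 ∧ κ ≤ ‖ζ - p‖} := by
      refine continuousOn_const.div hNc ?_
      rintro ζ ⟨h1, h2⟩
      exact (hNpos ζ h1 h2).ne'
    obtain ⟨u, huc, hu⟩ := den_ext _ (den_cont p κ hκ F (fun ζ => 1 / N ζ) hF hF0 hinvc)
    set H : ℂ → ℝ := fun ζ => max (-(C₀ * |F ζ|)) (min (C₀ * |F ζ|) (u ζ)) with hH
    have hHc : Continuous H := by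
      rw [hH]
      fun_prop
    have hH0 : ∀ ζ : ℂ, ‖ζ - p‖ ≤ 2 * κ → H ζ = 0 := by
      intro ζ h
      simp only [hH, hF0 ζ h, abs_zero, mul_zero, neg_zero]
      exact max_eq_left (min_le_left _ _)
    have hHu : ∀ ζ : ℂ, ‖ζ‖ = 1 → H ζ = F ζ * (1 / N ζ) := by
      intro ζ hζ
      rcases le_or_gt ‖ζ - p‖ (2 * κ) with h | h
      · rw [hH0 ζ h, hF0 ζ h, zero_mul]
      · have h2 : κ ≤ ‖ζ - p‖ := by linarith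
        have h3 := hNpos ζ hζ h2
        have h4 : 1 / N ζ ≤ C₀ := by
          rw [div_le_iff₀ h3]
          have := (hN ζ hζ h2).1
          rw [div_le_iff₀ hC₀] at this
          linarith
        have h5 : |u ζ| ≤ C₀ * |F ζ| := by
          rw [hu ζ hζ, abs_mul, abs_of_pos (by positivity : 0 < 1 / N ζ), mul_comm]
          exact mul_le_mul_of_nonneg_right h4 (abs_nonneg _)
        rw [abs_le] at h5
        show max (-(C₀ * |F ζ|)) (min (C₀ * |F ζ|) (u ζ)) = _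
        rw [min_eq_right h5.2, max_eq_right h5.1, hu ζ hζ]
    have e1 := W.lam_eq p hp κ hκ q θ d C₀ hq hq1 hθ hθ1 hd hC₀ N al C hal hal1 hC hN hNh hNl H hHc hH0
    have e2 : ∫ ζ, H ζ * N ζ ∂W.ν = W.nu 1 F := by
      rw [W.den_nu]
      refine integral_congr_ae ?_
      filter_upwards [W.ae_circle] with ζ hζ
      rw [hHu ζ hζ]
      rcases le_or_gt ‖ζ - p‖ (2 * κ) with h | h
      · rw [hF0 ζ h, zero_mul, zero_mul]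
      · have h3 := hNpos ζ hζ (by linarith)
        field_simp
    rw [← e2, ← e1]
    unfold lam
    refine intervalIntegral.integral_congr fun v _ => ?_
    show H (circleMap 0 1 v) / ‖circleMap 0 1 v - p‖ ^ 2 = F (circleMap 0 1 v) * (1 / (N (circleMap 0 1 v) * ‖circleMap 0 1 v - p‖ ^ 2))
    rw [hHu _ (by simp), one_div, one_div, mul_inv]
    ring

end WD

end Pool.Agent.DimDropH
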