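import Pool.Agent.Lib_MP_644907_h.PTA

/-!
# Piece PTB: the Green function
-/

set_option autoImplicit false

open scoped Topology
open Filter

namespace Pool.Agent.DimDropH

namespace RW

variable {Γ : Type} [Group Γ] {n : ℕ} (R : RW Γ n)

theorem green_pos (ht : R.Trans) (w : Γ) : 0 < R.green w := by
  obtain ⟨k, hk⟩ := R.pk_pos w
  exact (ht w).tsum_pos (fun k => R.pk_nonneg k w) k hk

open Classical in
theorem green_eqL (ht : R.Trans) (w : Γ) : R.green w = (if w = 1 then 1 else 0) + ∑ i, R.p i * R.green ((R.e i)⁻¹ * w) := by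
  unfold green
  rw [(ht w).tsum_eq_zero_add]
  congr 1
  simp_rw [R.pk_succ']
  rw [Summable.tsum_finsetSum (fun i _ => ((ht _).mul_left _))]
  exact Finset.sum_congr rfl fun i _ => tsum_mul_left

open Classical in
theorem green_eqR (ht : R.Trans) (w : Γ) : R.green w = (if w = 1 then 1 else 0) + ∑ i, R.p i * R.green (w * (R.e i)⁻¹) := by
  unfold green
  rw [(ht w).tsum_eq_zero_add]
  congr 1
  have h : ∀ k, R.pk (k + 1) w = ∑ i, R.p i * R.pk k (w * (R.e i)⁻¹) := fun k => rfl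
  simp_rw [h]
  rw [Summable.tsum_finsetSum (fun i _ => ((ht _).mul_left _))]
  exact Finset.sum_congr rfl fun i _ => tsum_mul_left

lemma P_green (y x : Γ) : R.P (fun x => R.green (x⁻¹ * y)) x =
    ∑ i, R.p i * R.green ((R.e i)⁻¹ * (x⁻¹ * y)) := by
  unfold P
  refine Finset.sum_congr rfl fun i _ => ?_
  simp only [mul_inv_rev, mul_assoc]

/-- `x ↦ G(x, y)` is superharmonic, harmonic off `y` -/
theorem green_super (ht : R.Trans) (y x : Γ) : R.P (fun x => R.green (x⁻¹ * y)) x ≤ R.green (x⁻¹ * y) := by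
  rw [R.P_green, R.green_eqL ht (x⁻¹ * y)]
  split_ifs <;> linarith

theorem green_harm (ht : R.Trans) (y x : Γ) (h : x ≠ y) : R.P (fun x => R.green (x⁻¹ * y)) x = R.green (x⁻¹ * y) := by
  rw [R.P_green, R.green_eqL ht (x⁻¹ * y)]
  rw [if_neg (fun h2 => h (inv_mul_eq_one.1 h2)), zero_add]

lemma Q_green (y w : Γ) : R.Q (fun w => R.green (y⁻¹ * w)) w =
    ∑ i, R.p i * R.green (y⁻¹ * w * (R.e i)⁻¹) := by
  unfold Q
  refine Finset.sum_congr rfl fun i _ => ?_
  simp only [mul_assoc]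

/-- `w ↦ G(y, w)` is superharmonic for the reversed walk, harmonic off `y` -/
theorem green_superQ (ht : R.Trans) (y w : Γ) : R.Q (fun w => R.green (y⁻¹ * w)) w ≤ R.green (y⁻¹ * w) := by
  rw [R.Q_green, R.green_eqR ht (y⁻¹ * w)]
  split_ifs <;> linarith

theorem green_harmQ (ht : R.Trans) (y w : Γ) (h : w ≠ y) : R.Q (fun w => R.green (y⁻¹ * w)) w = R.green (y⁻¹ * w) := by
  rw [R.Q_green, R.green_eqR ht (y⁻¹ * w)]
  rw [if_neg (fun h2 => h (inv_mul_eq_one.1 h2).symm), zero_add]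

open Classical in
/-- truncated first passage probability -/
noncomputable def fp (y : Γ) : ℕ → Γ → ℝ
  | 0, x => if x = y then 1 else 0
  | N + 1, x => if x = y then 1 else R.P (fp y N) x

lemma fp_nonneg (y : Γ) (N : ℕ) (x : Γ) : 0 ≤ R.fp y N x := by
  induction N generalizing x with
  | zero => simp only [fp]; split_ifs <;> norm_num
  | succ N ih =>
    simp only [fp]
    split_ifs
    · norm_num
    · exact Finset.sum_nonneg fun i _ => mul_nonneg (R.hp i).le (ih _)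

lemma fp_mul_le (h : Γ → ℝ) (h0 : ∀ x, 0 ≤ h x) (hh : ∀ x, R.P h x ≤ h x) (y : Γ) (N : ℕ) (x : Γ) :
    R.fp y N x * h y ≤ h x := by
  induction N generalizing x with
  | zero =>
    simp only [fp]
    split_ifs with hxy
    · subst hxy; simp
    · simpa using h0 x
  | succ N ih =>
    simp only [fp]
    split_ifs with hxy
    · subst hxy; simp
    · refine le_trans ?_ (hh x)
      unfold P
      rw [Finset.sum_mul]
      refine Finset.sum_le_sum fun i _ => ?_
      rw [mul_assoc]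
      exact mul_le_mul_of_nonneg_left (ih _) (R.hp i).le

/-- truncated Green function -/
noncomputable def gN (N : ℕ) (w : Γ) : ℝ := ∑ k ∈ Finset.range (N + 1), R.pk k w

lemma gN_nonneg (N : ℕ) (w : Γ) : 0 ≤ R.gN N w := Finset.sum_nonneg fun k _ => R.pk_nonneg k w

lemma gN_mono (N : ℕ) (w : Γ) : R.gN N w ≤ R.gN (N + 1) w := by
  unfold gN
  rw [Finset.sum_range_succ _ (N + 1)]
  linarith [R.pk_nonneg (N + 1) w]

open Classical in
lemma gN_succ (N : ℕ) (w : Γ) : R.gN (N + 1) w = (if w = 1 then 1 else 0) +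
    ∑ i, R.p i * R.gN N ((R.e i)⁻¹ * w) := by
  unfold gN
  rw [Finset.sum_range_succ']
  rw [add_comm]
  congr 1
  simp_rw [R.pk_succ', Finset.mul_sum]
  rw [Finset.sum_comm]

lemma gN_le_fp (N : ℕ) (x y : Γ) : R.gN N (x⁻¹ * y) ≤ R.fp y N x * R.gN N 1 := by
  classical
  induction N generalizing x with
  | zero =>
    simp only [gN, fp, zero_add, Finset.range_one, Finset.sum_singleton, pk]
    by_cases hxy : x = y
    · subst hxy; simp
    · rw [if_neg (fun h2 => hxy (inv_mul_eq_one.1 h2)), if_neg hxy]; simp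
  | succ N ih =>
    by_cases hxy : x = y
    · subst hxy; simp [fp]
    · have h1 : R.gN (N + 1) (x⁻¹ * y) ≤ R.fp y (N + 1) x * R.gN N 1 := by
        rw [R.gN_succ, if_neg (fun h2 => hxy (inv_mul_eq_one.1 h2)), zero_add]
        simp only [fp, if_neg hxy]
        unfold P
        rw [Finset.sum_mul]
        refine Finset.sum_le_sum fun i _ => ?_
        rw [mul_assoc]
        refine mul_le_mul_of_nonneg_left ?_ (R.hp i).le
        have := ih (x * R.e i)
        simpa only [mul_inv_rev, mul_assoc] using this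
      exact h1.trans (mul_le_mul_of_nonneg_left (R.gN_mono N 1) (R.fp_nonneg y (N + 1) x))

lemma gN_tendsto (ht : R.Trans) (w : Γ) : Tendsto (fun N => R.gN N w) atTop (𝓝 (R.green w)) := by
  have h := (ht w).hasSum.tendsto_sum_nat
  exact (tendsto_add_atTop_iff_nat 1).2 h

/-- First passage: `F 0 x = 1` if `x = y` else 0; `F (N+1) x = 1` if `x = y` else `P (F N) x`. By induction `F N x * h y ≤ h x` for superharmonic `h ≥ 0`, and
`G_N(x, y) ≤ F N x * G_N(y, y)` with `G_N(x,y) = ∑_{k ≤ N} pk k (x⁻¹ y)` (first step: `pk_succ'`). Let `N → ∞` : `G(x,y) h y ≤ G(1,1) h x`. -/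
theorem green_le (ht : R.Trans) (h : Γ → ℝ) (h0 : ∀ x, 0 ≤ h x) (hh : ∀ x, R.P h x ≤ h x) (x y : Γ) :
    R.green (x⁻¹ * y) * h y ≤ R.green 1 * h x := by
  refine le_of_tendsto_of_tendsto' ((R.gN_tendsto ht (x⁻¹ * y)).mul_const (h y))
    ((R.gN_tendsto ht 1).mul_const (h x)) fun N => ?_
  calc R.gN N (x⁻¹ * y) * h y ≤ R.fp y N x * R.gN N 1 * h y :=
        mul_le_mul_of_nonneg_right (R.gN_le_fp N x y) (h0 y)
    _ = R.gN N 1 * (R.fp y N x * h y) := by ring
    _ ≤ R.gN N 1 * h x := mul_le_mul_of_nonneg_left (R.fp_mul_le h h0 hh y N x) (R.gN_nonneg N 1)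

/-- `green_le` with `h x = G(x, z)` -/
theorem green_mul_le (ht : R.Trans) (x y z : Γ) : R.green (x⁻¹ * y) * R.green (y⁻¹ * z) ≤ R.green 1 * R.green (x⁻¹ * z) :=
  R.green_le ht (fun x => R.green (x⁻¹ * z)) (fun x => (R.green_pos ht _).le)
    (fun x => R.green_super ht z x) x y

theorem green_le_one (ht : R.Trans) (w : Γ) : R.green w ≤ R.green 1 := by
  have h := R.green_le ht (fun _ => 1) (fun _ => zero_le_one)
    (fun x => by unfold P; simp [R.hp1]) 1 w
  simpa using h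

lemma P_sub (f g : Γ → ℝ) : R.P (fun w => f w - g w) = fun w => R.P f w - R.P g w := by
  funext x
  unfold P
  rw [← Finset.sum_sub_distrib]
  exact Finset.sum_congr rfl fun i _ => mul_sub _ _ _

lemma P_iter_sub (N : ℕ) (f g : Γ → ℝ) (x : Γ) :
    (R.P^[N]) (fun w => f w - g w) x = (R.P^[N]) f x - (R.P^[N]) g x := by
  induction N generalizing f g with
  | zero => rfl
  | succ N ih =>
    rw [Function.iterate_succ_apply, Function.iterate_succ_apply, Function.iterate_succ_apply,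
      R.P_sub, ih]

lemma P_iter_hasSum (k : ℕ) (h : Γ → ℝ) (x : Γ) :
    HasSum (fun w => R.pk k (x⁻¹ * w) * h w) ((R.P^[k]) h x) := by
  have hfin : (Function.support (fun w => R.pk k (x⁻¹ * w) * h w)).Finite := by
    have h1 := (R.pk_finite k).preimage (f := fun w => x⁻¹ * w)
      (fun a _ b _ hab => mul_left_cancel hab)
    refine h1.subset fun w hw => ?_
    simp only [Function.mem_support] at hw
    exact fun h2 => hw (by rw [h2, zero_mul])
  rw [R.P_iter]
  rw [finsum_eq_sum_of_support_subset _ (s := hfin.toFinset) (by simp)]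
  exact hasSum_sum_of_ne_finset_zero fun w hw => by
    by_contra h3
    exact hw (by simpa using h3)

lemma pk_hasSum (k : ℕ) : HasSum (fun w => R.pk k w) 1 := by
  rw [← R.pk_sum k, finsum_eq_sum_of_support_subset _ (s := (R.pk_finite k).toFinset) (by simp)]
  exact hasSum_sum_of_ne_finset_zero fun w hw => by
    by_contra h3
    exact hw (by simpa using h3)

lemma pk_hasSum' (k : ℕ) (x : Γ) : HasSum (fun w => R.pk k (x⁻¹ * w)) 1 :=
  (Equiv.mulLeft x⁻¹).hasSum_iff.2 (R.pk_hasSum k)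

lemma P_iter_tendsto (ht : R.Trans) (u : Γ → ℝ) (M : ℝ) (h0 : ∀ x, 0 ≤ u x) (hM : ∀ x, u x ≤ M)
    (hinf : ∀ ε : ℝ, 0 < ε → {x | ε < u x}.Finite) (x : Γ) :
    Tendsto (fun N => (R.P^[N]) u x) atTop (𝓝 0) := by
  classical
  have hM0 : 0 ≤ M := (h0 x).trans (hM x)
  rw [Metric.tendsto_atTop]
  intro ε hε
  set S := (hinf (ε / 2) (by positivity)).toFinset with hS
  have h1 : Tendsto (fun N => M * ∑ w ∈ S, R.pk N (x⁻¹ * w)) atTop (𝓝 0) := by
    have h2 : Tendsto (fun N => ∑ w ∈ S, R.pk N (x⁻¹ * w)) atTop (𝓝 (∑ w ∈ S, (0 : ℝ))) :=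
      tendsto_finsetSum _ fun w _ => (ht (x⁻¹ * w)).tendsto_atTop_zero
    simpa using h2.const_mul M
  obtain ⟨N₀, hN₀⟩ := (Metric.tendsto_atTop.1 h1) (ε / 2) (by positivity)
  refine ⟨N₀, fun N hN => ?_⟩
  have h3 := hN₀ N hN
  rw [Real.dist_eq, sub_zero] at h3
  have hnn : 0 ≤ (R.P^[N]) u x :=
    (R.P_iter_hasSum N u x).nonneg fun w => mul_nonneg (R.pk_nonneg _ _) (h0 w)
  rw [Real.dist_eq, sub_zero, abs_of_nonneg hnn]
  have h4 : HasSum (fun w => ε / 2 * R.pk N (x⁻¹ * w) + (if w ∈ S then M * R.pk N (x⁻¹ * w) else 0))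
      (ε / 2 * 1 + ∑ w ∈ S, M * R.pk N (x⁻¹ * w)) := by
    refine ((R.pk_hasSum' N x).mul_left _).add ?_
    have h7 : HasSum (fun w => if w ∈ S then M * R.pk N (x⁻¹ * w) else 0)
        (∑ w ∈ S, (if w ∈ S then M * R.pk N (x⁻¹ * w) else 0)) :=
      hasSum_sum_of_ne_finset_zero (fun w hw => if_neg hw)
    rwa [Finset.sum_congr rfl (g := fun w => M * R.pk N (x⁻¹ * w)) (fun w hw => if_pos hw)] at h7
  have h5 : (R.P^[N]) u x ≤ ε / 2 * 1 + ∑ w ∈ S, M * R.pk N (x⁻¹ * w) := by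
    refine hasSum_le (fun w => ?_) (R.P_iter_hasSum N u x) h4
    have hp := R.pk_nonneg N (x⁻¹ * w)
    by_cases hw : w ∈ S
    · rw [if_pos hw]
      nlinarith [hM w]
    · rw [if_neg hw]
      have : u w ≤ ε / 2 := by
        by_contra h6
        exact hw (by simpa [hS] using lt_of_not_ge h6)
      nlinarith
  rw [← Finset.mul_sum] at h5
  have h6 := (abs_lt.1 h3).2
  linarith

/-- Riesz: `∑_{k < N} P^k ψ = u - P^N u` with `ψ = u - P u ≥ 0`; `P^N u x = ∑ pk N (x⁻¹ w) u w ≤ ε + (sup u) ∑_{w ∈ finite} pk N (x⁻¹ w) → ε` -/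
theorem riesz (ht : R.Trans) (u : Γ → ℝ) (M : ℝ) (h0 : ∀ x, 0 ≤ u x) (hM : ∀ x, u x ≤ M) (hu : ∀ x, R.P u x ≤ u x)
    (hinf : ∀ ε : ℝ, 0 < ε → {x | ε < u x}.Finite) (x : Γ) :
    HasSum (fun w => R.green (x⁻¹ * w) * (u w - R.P u w)) (u x) := by
  set ψ : Γ → ℝ := fun w => u w - R.P u w with hψ
  have hψ0 : ∀ w, 0 ≤ ψ w := fun w => sub_nonneg.2 (hu w)
  -- telescoping
  have htel : ∀ N, ∑ k ∈ Finset.range N, (R.P^[k]) ψ x = u x - (R.P^[N]) u x := by
    intro N
    induction N with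
    | zero => simp
    | succ N ih =>
      rw [Finset.sum_range_succ, ih, hψ, R.P_iter_sub, Function.iterate_succ_apply]
      ring
  have hPnn : ∀ k, 0 ≤ (R.P^[k]) ψ x := fun k =>
    (R.P_iter_hasSum k ψ x).nonneg fun w => mul_nonneg (R.pk_nonneg _ _) (hψ0 w)
  have hout : HasSum (fun k => (R.P^[k]) ψ x) (u x) := by
    rw [hasSum_iff_tendsto_nat_of_nonneg hPnn]
    simp_rw [htel]
    simpa using (tendsto_const_nhds (x := u x)).sub (R.P_iter_tendsto ht u M h0 hM hinf x)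
  have hsum : Summable (fun q : ℕ × Γ => R.pk q.1 (x⁻¹ * q.2) * ψ q.2) := by
    rw [summable_prod_of_nonneg (fun q => mul_nonneg (R.pk_nonneg _ _) (hψ0 _))]
    refine ⟨fun k => (R.P_iter_hasSum k ψ x).summable, ?_⟩
    have : (fun k => ∑' w, R.pk k (x⁻¹ * w) * ψ w) = fun k => (R.P^[k]) ψ x :=
      funext fun k => (R.P_iter_hasSum k ψ x).tsum_eq
    rw [this]
    exact hout.summable
  have h1 : HasSum (fun q : ℕ × Γ => R.pk q.1 (x⁻¹ * q.2) * ψ q.2) (u x) := by
    have h2 := hsum.hasSum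
    have h3 := h2.prod_fiberwise (fun k => R.P_iter_hasSum k ψ x)
    rwa [h3.unique hout] at h2
  have h4 : HasSum (fun q : Γ × ℕ => R.pk q.2 (x⁻¹ * q.1) * ψ q.1) (u x) :=
    (Equiv.prodComm Γ ℕ).hasSum_iff.2 h1
  exact h4.prod_fiberwise fun w => (ht (x⁻¹ * w)).hasSum.mul_right (ψ w)

end RW

end Pool.Agent.DimDropH
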