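import Pool.Agent.Lib_MP_644907_h.GEOB
import Pool.Agent.Lib_MP_644907_h.PTB

/-!
# Piece NUA: the measures `ν_x`
-/

set_option autoImplicit false

open Complex MeasureTheory Metric Filter
open scoped Topology

namespace Pool.Agent.DimDropH

open Pool.Agent.DimDrop (IsoD)
open Pool.Agent.DimDropF (IG mb dmb)

namespace WD

variable {Γ : Type} [Group Γ] {n : ℕ} (W : WD Γ n)

theorem nua_circle : ∀ᵐ ζ ∂W.ν, ‖ζ‖ = 1 := by
  have h := W.supp
  rw [ae_iff]
  refine measure_mono_null ?_ h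
  intro ζ hζ
  simp only [Set.mem_setOf_eq] at hζ
  rw [Set.mem_compl_iff, mem_sphere_zero_iff_norm]
  exact hζ

/-- a measurable version of the action of `x` -/
theorem nua_meas (x : Γ) : ∃ g : ℂ → ℂ, Measurable g ∧ ∀ z : ℂ, ‖z‖ ≤ 1 → W.A.f x z = g z := by
  obtain ⟨α, β, h, s, hf⟩ := geob_rep W.A x
  exact ⟨fun z => mb α β (geobC s z), (Pool.Agent.DimDropF.measurable_mb α β).comp (geobC_cont s).measurable, hf⟩

/-- `f x` is continuous on the closed disc and `ν` lives on the circle -/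
theorem aemeas (x : Γ) : AEMeasurable (W.A.f x) W.ν := by
  obtain ⟨g, hg, hfg⟩ := W.nua_meas x
  refine ⟨g, hg, ?_⟩
  filter_upwards [W.nua_circle] with ζ hζ
  exact hfg ζ hζ.le

theorem ae_circle : ∀ᵐ ζ ∂W.ν, ‖ζ‖ = 1 := W.nua_circle

theorem integrable (x : Γ) (F : ℂ → ℝ) (hF : Measurable F) (M : ℝ) (hM : ∀ ζ, |F ζ| ≤ M) : Integrable (fun ζ => F (W.A.f x ζ)) W.ν := by
  haveI := W.prob
  have h1 : AEMeasurable (fun ζ => F (W.A.f x ζ)) W.ν := hF.comp_aemeasurable (W.aemeas x)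
  refine Integrable.of_bound h1.aestronglyMeasurable M ?_
  exact Filter.Eventually.of_forall fun ζ => by
    rw [Real.norm_eq_abs]
    exact hM _

theorem nu_mono (x : Γ) (F F' : ℂ → ℝ) (hF : Measurable F) (hF' : Measurable F') (M : ℝ) (hM : ∀ ζ, |F ζ| ≤ M) (hM' : ∀ ζ, |F' ζ| ≤ M)
    (h : ∀ ζ : ℂ, ‖ζ‖ = 1 → F ζ ≤ F' ζ) : W.nu x F ≤ W.nu x F' := by
  unfold nu
  refine integral_mono_ae (W.integrable x F hF M hM) (W.integrable x F' hF' M hM') ?_
  filter_upwards [W.ae_circle] with ζ hζ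
  exact h _ (norm_f_eq W.A x ζ hζ)

theorem nu_nonneg (x : Γ) (F : ℂ → ℝ) (h : ∀ ζ : ℂ, ‖ζ‖ = 1 → 0 ≤ F ζ) : 0 ≤ W.nu x F := by
  unfold nu
  refine integral_nonneg_of_ae ?_
  filter_upwards [W.ae_circle] with ζ hζ
  exact h _ (norm_f_eq W.A x ζ hζ)

theorem nu_add (x : Γ) (F F' : ℂ → ℝ) (hF : Measurable F) (hF' : Measurable F') (M : ℝ) (hM : ∀ ζ, |F ζ| ≤ M) (hM' : ∀ ζ, |F' ζ| ≤ M) :
    W.nu x (fun ζ => F ζ + F' ζ) = W.nu x F + W.nu x F' := by
  unfold nu
  exact integral_add (W.integrable x F hF M hM) (W.integrable x F' hF' M hM')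

theorem nu_smul (x : Γ) (c : ℝ) (F : ℂ → ℝ) : W.nu x (fun ζ => c * F ζ) = c * W.nu x F := by
  unfold nu
  exact integral_const_mul c _

theorem nu_one (x : Γ) : W.nu x (fun _ => 1) = 1 := by
  haveI := W.prob
  unfold nu
  simp

theorem nu_le (x : Γ) (F : ℂ → ℝ) (hF : Measurable F) (M : ℝ) (hM : ∀ ζ, |F ζ| ≤ M) : |W.nu x F| ≤ M := by
  haveI := W.prob
  unfold nu
  have h1 := norm_integral_le_of_norm_le_const (μ := W.ν) (f := fun ζ => F (W.A.f x ζ)) (C := M)
    (Filter.Eventually.of_forall fun ζ => by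
      rw [Real.norm_eq_abs]
      exact hM _)
  rw [Real.norm_eq_abs] at h1
  refine h1.trans (le_of_eq ?_)
  simp

/-- `stat` says `ν = ∑ p i • map (f (e i)) ν`; apply it to `F ∘ f x`; `f (x * e i) ζ = f x (f (e i) ζ)` on the circle -/
theorem nu_harm (F : ℂ → ℝ) (hF : Measurable F) (M : ℝ) (hM : ∀ ζ, |F ζ| ≤ M) (x : Γ) : W.R.P (fun x => W.nu x F) x = W.nu x F := by
  haveI := W.prob
  have hν : W.ν = ∑ i, ENNReal.ofReal (W.R.p i) • Measure.map (W.A.f (W.R.e i)) W.ν := by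
    refine Measure.ext fun E hE => ?_
    rw [W.stat E hE, Measure.coe_finset_sum, Finset.sum_apply]
    refine Finset.sum_congr rfl fun i _ => ?_
    rw [Measure.smul_apply, smul_eq_mul, Measure.map_apply_of_aemeasurable (W.aemeas _) hE]
  obtain ⟨g, hg, hfg⟩ := W.nua_meas x
  have hFg : Measurable (fun ζ => F (g ζ)) := hF.comp hg
  have h1 : W.nu x F = ∫ ζ, F (g ζ) ∂W.ν := by
    unfold nu
    refine integral_congr_ae ?_
    filter_upwards [W.ae_circle] with ζ hζ
    rw [hfg ζ hζ.le]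
  have h2 : ∀ i, W.nu (x * W.R.e i) F = ∫ ζ, F (g ζ) ∂(Measure.map (W.A.f (W.R.e i)) W.ν) := by
    intro i
    rw [integral_map (W.aemeas _) hFg.aestronglyMeasurable]
    unfold nu
    refine integral_congr_ae ?_
    filter_upwards [W.ae_circle] with ζ hζ
    rw [W.A.mul' x (W.R.e i) ζ hζ.le, hfg _ (norm_f_eq W.A _ ζ hζ).le]
  have hint : ∀ i, Integrable (fun ζ => F (g ζ)) (ENNReal.ofReal (W.R.p i) • Measure.map (W.A.f (W.R.e i)) W.ν) := by
    intro i
    haveI : IsProbabilityMeasure (Measure.map (W.A.f (W.R.e i)) W.ν) :=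
      Measure.isProbabilityMeasure_map (W.aemeas _)
    refine Integrable.smul_measure ?_ ENNReal.ofReal_ne_top
    refine Integrable.of_bound hFg.aestronglyMeasurable M ?_
    exact Filter.Eventually.of_forall fun ζ => by
      rw [Real.norm_eq_abs]
      exact hM _
  have h3 : ∫ ζ, F (g ζ) ∂W.ν = ∑ i, W.R.p i * W.nu (x * W.R.e i) F := by
    conv_lhs => rw [hν]
    rw [integral_finset_sum_measure fun i _ => hint i]
    refine Finset.sum_congr rfl fun i _ => ?_
    rw [integral_smul_measure, h2 i, ENNReal.toReal_ofReal (W.R.hp i).le, smul_eq_mul]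
  rw [h1, h3]
  rfl

/-- `ν` has no atoms, compactness of the circle: small balls have uniformly small mass -/
theorem small_ball (ε : ℝ) (hε : 0 < ε) : ∃ r : ℝ, 0 < r ∧ ∀ q : ℂ, W.ν (closedBall q r) ≤ ENNReal.ofReal ε := by
  haveI := W.prob
  have hε' : (0 : ENNReal) < ENNReal.ofReal ε := ENNReal.ofReal_pos.2 hε
  have h1 : ∀ q : ℂ, ∃ U : Set ℂ, q ∈ U ∧ IsOpen U ∧ W.ν U < ENNReal.ofReal ε := by
    intro q
    have h2 : W.ν {q} < ENNReal.ofReal ε := by
      rw [W.na q]
      exact hε'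
    obtain ⟨U, hU1, hU2, hU3⟩ := Set.exists_isOpen_lt_of_lt {q} (ENNReal.ofReal ε) h2
    exact ⟨U, hU1 rfl, hU2, hU3⟩
  choose U hU1 hU2 hU3 using h1
  obtain ⟨δ, hδ, hleb⟩ := lebesgue_number_lemma_of_metric (isCompact_sphere (0:ℂ) 1) hU2
    (fun z _ => Set.mem_iUnion.2 ⟨z, hU1 z⟩)
  refine ⟨δ / 4, by positivity, fun q => ?_⟩
  by_cases hq : ∃ s ∈ sphere (0:ℂ) 1, s ∈ closedBall q (δ / 4)
  · obtain ⟨s, hs1, hs2⟩ := hq
    obtain ⟨i, hi⟩ := hleb s hs1
    refine le_trans (measure_mono ?_) (hU3 i).le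
    refine Set.Subset.trans ?_ hi
    intro y hy
    rw [mem_closedBall] at hy hs2
    rw [mem_ball]
    have := dist_triangle_right y s q
    linarith
  · push Not at hq
    refine le_trans (le_of_eq ?_) (zero_le)
    refine measure_mono_null ?_ W.supp
    intro y hy hy'
    exact hq y hy' hy

/-- `conc_geo` and `small_ball`, `K = max 2 (4 / r)` -/
theorem conc (ε : ℝ) (hε : 0 < ε) : ∃ K : ℝ, 2 ≤ K ∧ ∀ x, W.nu x (ind {ζ | K * del W.A x < ‖ζ - zz W.A x‖}) ≤ ε := by
  haveI := W.prob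
  obtain ⟨r, hr, hball⟩ := W.small_ball ε hε
  refine ⟨max 2 (4 / r), le_max_left _ _, fun x => ?_⟩
  set K : ℝ := max 2 (4 / r) with hK
  have hK2 : 2 ≤ K := le_max_left _ _
  have hKr : 4 / K ≤ r := by
    have h1 : 4 / r ≤ K := le_max_right _ _
    rw [div_le_iff₀ hr] at h1
    rw [div_le_iff₀ (by linarith)]
    linarith
  obtain ⟨q, hq, hq2⟩ := conc_geo W.A x
  have h1 : W.nu x (ind {ζ | K * del W.A x < ‖ζ - zz W.A x‖}) ≤ ∫ ζ, ind (closedBall q r) ζ ∂W.ν := by
    unfold nu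
    refine integral_mono_of_nonneg ?_ ?_ ?_
    · exact Filter.Eventually.of_forall fun ζ => Set.indicator_nonneg (fun _ _ => zero_le_one) _
    · refine Integrable.of_bound (C := 1)
        ((measurable_const.indicator isClosed_closedBall.measurableSet).aestronglyMeasurable) ?_
      exact Filter.Eventually.of_forall fun ζ => by
        unfold ind
        by_cases h : ζ ∈ closedBall q r
        · rw [Set.indicator_of_mem h, norm_one]
        · rw [Set.indicator_of_notMem h, norm_zero]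
          exact zero_le_one
    · filter_upwards [W.ae_circle] with ζ hζ
      unfold ind
      by_cases h : W.A.f x ζ ∈ {ζ | K * del W.A x < ‖ζ - zz W.A x‖}
      · have h2 : ζ ∈ closedBall q r := by
          rw [mem_closedBall, dist_eq_norm]
          exact (hq2 ζ K hζ hK2 h).trans hKr
        rw [Set.indicator_of_mem h, Set.indicator_of_mem h2]
      · rw [Set.indicator_of_notMem h]
        exact Set.indicator_nonneg (fun _ _ => zero_le_one) _
  refine h1.trans ?_
  unfold ind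
  rw [integral_indicator isClosed_closedBall.measurableSet]
  simp only [integral_const, smul_eq_mul, mul_one, MeasurableSet.univ, measureReal_restrict_apply, Set.univ_inter]
  unfold Measure.real
  exact ENNReal.toReal_le_of_le_ofReal hε.le (hball q)

theorem nua_meas_set (x : Γ) (K : ℝ) : MeasurableSet {ζ | K * del W.A x < ‖ζ - zz W.A x‖} :=
  measurableSet_lt measurable_const ((measurable_id.sub_const _).norm)

theorem nua_meas_set' (x : Γ) (K : ℝ) : MeasurableSet {ζ | ‖ζ - zz W.A x‖ ≤ K * del W.A x} :=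
  measurableSet_le ((measurable_id.sub_const _).norm) measurable_const

theorem nua_ind_meas {E : Set ℂ} (hE : MeasurableSet E) : Measurable (ind E) :=
  measurable_const.indicator hE

theorem nua_ind_le (E : Set ℂ) (ζ : ℂ) : |ind E ζ| ≤ 1 := by
  unfold ind
  by_cases h : ζ ∈ E
  · rw [Set.indicator_of_mem h, abs_one]
  · rw [Set.indicator_of_notMem h, abs_zero]
    exact zero_le_one

/-- complement -/
theorem conc' (ε : ℝ) (hε : 0 < ε) : ∃ K : ℝ, 2 ≤ K ∧ ∀ x, 1 - ε ≤ W.nu x (ind {ζ | ‖ζ - zz W.A x‖ ≤ K * del W.A x}) := by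
  obtain ⟨K, hK, h⟩ := W.conc ε hε
  refine ⟨K, hK, fun x => ?_⟩
  have h1 := h x
  have h2 := W.nu_add x (ind {ζ | K * del W.A x < ‖ζ - zz W.A x‖}) (ind {ζ | ‖ζ - zz W.A x‖ ≤ K * del W.A x})
    (nua_ind_meas (W.nua_meas_set x K)) (nua_ind_meas (W.nua_meas_set' x K)) 1 (nua_ind_le _) (nua_ind_le _)
  have h3 : (fun ζ => ind {ζ | K * del W.A x < ‖ζ - zz W.A x‖} ζ + ind {ζ | ‖ζ - zz W.A x‖ ≤ K * del W.A x} ζ) =
      fun _ => 1 := by
    funext ζ
    unfold ind
    by_cases h4 : K * del W.A x < ‖ζ - zz W.A x‖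
    · rw [Set.indicator_of_mem (by exact h4), Set.indicator_of_notMem (by exact not_le.2 h4), add_zero]
    · rw [Set.indicator_of_notMem (by exact h4), Set.indicator_of_mem (by exact not_lt.1 h4), zero_add]
  rw [h3, W.nu_one] at h2
  linarith

/-- the harmonic function `x ↦ ν_x(ball 1 (1/2))` is not constant (`conc'`, `exists_pos` at `η = 1` and `η = -1`): `trans_of_harmonic` -/
theorem trans : W.R.Trans := by
  obtain ⟨K, hK, hconc⟩ := W.conc' (1 / 4) (by norm_num)
  obtain ⟨M, hM, hpos⟩ := exists_pos W.A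
  have hMK : 0 < 4 * M * (1 + K) := by positivity
  set ρ : ℝ := 1 / (4 * M * (1 + K)) with hρ
  have hρ0 : 0 < ρ := by positivity
  have hρ1 : ρ ≤ 1 := by
    rw [hρ, div_le_one hMK]
    nlinarith
  have hρ2 : M * ρ * (1 + K) = 1 / 4 := by
    rw [hρ]
    field_simp
  have hB : MeasurableSet (ball (1:ℂ) (1 / 2)) := isOpen_ball.measurableSet
  have hmf := nua_ind_meas hB
  refine W.R.trans_of_harmonic (fun x => W.nu x (ind (ball (1:ℂ) (1 / 2)))) 1
    (fun x => W.nu_le x _ hmf 1 (nua_ind_le _)) (fun x => W.nu_harm _ hmf 1 (nua_ind_le _) x) ?_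
  obtain ⟨v, hv⟩ := hpos 1 ρ norm_one hρ0 hρ1
  obtain ⟨v', hv'⟩ := hpos (-1) ρ (by rw [norm_neg, norm_one]) hρ0 hρ1
  refine ⟨v, v', ?_⟩
  have h1 : 1 - 1 / 4 ≤ W.nu v (ind (ball (1:ℂ) (1 / 2))) := by
    refine (hconc v).trans ?_
    refine W.nu_mono v _ _ (nua_ind_meas (W.nua_meas_set' v K)) hmf 1 (nua_ind_le _) (nua_ind_le _) ?_
    intro ζ _
    unfold ind
    by_cases h2 : ζ ∈ {ζ | ‖ζ - zz W.A v‖ ≤ K * del W.A v}
    · have h3 : ζ ∈ ball (1:ℂ) (1 / 2) := by
        rw [mem_ball, dist_eq_norm]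
        have h4 : ‖ζ - zz W.A v‖ ≤ K * del W.A v := h2
        have h5 : K * del W.A v ≤ K * (M * ρ) := mul_le_mul_of_nonneg_left hv.hi (by linarith)
        have h6 : ζ - 1 = (ζ - zz W.A v) + (zz W.A v - 1) := by ring
        have h7 := hv.near
        rw [h6]
        refine lt_of_le_of_lt (norm_add_le _ _) ?_
        nlinarith
      rw [Set.indicator_of_mem h2, Set.indicator_of_mem h3]
    · rw [Set.indicator_of_notMem h2]
      exact Set.indicator_nonneg (fun _ _ => zero_le_one) _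
  have h2 : W.nu v' (ind (ball (1:ℂ) (1 / 2))) ≤ 1 / 4 := by
    have h3 := hconc v'
    have h4 := W.nu_add v' (ind (ball (1:ℂ) (1 / 2))) (ind {ζ | ‖ζ - zz W.A v'‖ ≤ K * del W.A v'}) hmf
      (nua_ind_meas (W.nua_meas_set' v' K)) 1 (nua_ind_le _) (nua_ind_le _)
    have h5 : W.nu v' (fun ζ => ind (ball (1:ℂ) (1 / 2)) ζ + ind {ζ | ‖ζ - zz W.A v'‖ ≤ K * del W.A v'} ζ) ≤ 1 := by
      refine le_trans (W.nu_mono v' _ (fun _ => 1) (hmf.add (nua_ind_meas (W.nua_meas_set' v' K)))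
        measurable_const 2 ?_ ?_ ?_) (W.nu_one v').le
      · intro ζ
        refine (abs_add_le _ _).trans ?_
        have := nua_ind_le (ball (1:ℂ) (1 / 2)) ζ
        have := nua_ind_le {ζ | ‖ζ - zz W.A v'‖ ≤ K * del W.A v'} ζ
        linarith
      · intro ζ
        rw [abs_one]
        norm_num
      · intro ζ _
        unfold ind
        by_cases h6 : ζ ∈ ball (1:ℂ) (1 / 2)
        · have h7 : ζ ∉ {ζ | ‖ζ - zz W.A v'‖ ≤ K * del W.A v'} := by
            intro h8
            have h8' : ‖ζ - zz W.A v'‖ ≤ K * del W.A v' := h8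
            rw [mem_ball, dist_eq_norm] at h6
            have h9 : K * del W.A v' ≤ K * (M * ρ) := mul_le_mul_of_nonneg_left hv'.hi (by linarith)
            have h10 := hv'.near
            have h11 : ((2:ℝ):ℂ) = (ζ - zz W.A v') + (zz W.A v' - -1) - (ζ - 1) := by
              push_cast
              ring
            have h12 : ‖((2:ℝ):ℂ)‖ = 2 := by
              rw [Complex.norm_real]
              norm_num
            have h13 : ‖((2:ℝ):ℂ)‖ ≤ ‖ζ - zz W.A v'‖ + ‖zz W.A v' - -1‖ + ‖ζ - 1‖ := by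
              rw [h11]
              refine (norm_sub_le _ _).trans ?_
              have := norm_add_le (ζ - zz W.A v') (zz W.A v' - -1)
              linarith
            rw [h12] at h13
            nlinarith
          rw [Set.indicator_of_mem h6, Set.indicator_of_notMem h7, add_zero]
        · rw [Set.indicator_of_notMem h6, zero_add]
          exact Set.indicator_le_self' (fun _ _ => zero_le_one) _
    rw [h4] at h5
    linarith
  intro h3
  linarith

end WD

end Pool.Agent.DimDropH
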