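import Pool.Agent.Lib_MP_644907_h.STANA
import Pool.Agent.Lib_MP_644907_h.NUA

/-!
# Piece DENA: the local density
-/

set_option autoImplicit false

open Complex MeasureTheory Metric Filter
open scoped Topology

namespace Pool.Agent.DimDropH

open Pool.Agent.DimDrop (IsoD)
open Pool.Agent.DimDropF (IG mb dmb)

namespace WD

variable {Γ : Type} [Group Γ] {n : ℕ} (W : WD Γ n)

/-- bump functions supported in a given ball around a point of the circle have positive mass -/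
private theorem dena_bump
    (hpos : ∀ r : ℝ, 0 < r → ∃ m : ℝ, 0 < m ∧ ∀ ξ : ℂ, ‖ξ‖ = 1 → m ≤ W.nu 1 (ind (ball ξ r)))
    (ξ : ℂ) (hξ : ‖ξ‖ = 1) (r : ℝ) (hr : 0 < r) :
    ∃ F : ℂ → ℝ, Continuous F ∧ (∀ ζ, 0 ≤ F ζ) ∧ (∀ ζ, F ζ ≤ 1) ∧ (∀ ζ : ℂ, r ≤ ‖ζ - ξ‖ → F ζ = 0) ∧
      0 < W.nu 1 F := by
  classical
  obtain ⟨m, hm, hm'⟩ := hpos (r / 2) (by positivity)
  have hcont : Continuous (fun ζ : ℂ => max 0 (1 - ‖ζ - ξ‖ / r)) :=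
    continuous_const.max (continuous_const.sub ((continuous_id.sub continuous_const).norm.div_const r))
  have h0 : ∀ ζ : ℂ, 0 ≤ max 0 (1 - ‖ζ - ξ‖ / r) := fun ζ => le_max_left _ _
  have h1 : ∀ ζ : ℂ, max 0 (1 - ‖ζ - ξ‖ / r) ≤ 1 := by
    intro ζ
    apply max_le (by norm_num)
    have : 0 ≤ ‖ζ - ξ‖ / r := by positivity
    linarith
  have hmeas : Measurable (fun ζ : ℂ => (1 / 2 : ℝ) * ind (ball ξ (r / 2)) ζ) := by
    unfold ind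
    exact (measurable_const.indicator measurableSet_ball).const_mul _
  have hlow : W.nu 1 (fun ζ : ℂ => (1 / 2 : ℝ) * ind (ball ξ (r / 2)) ζ) ≤ W.nu 1 (fun ζ : ℂ => max 0 (1 - ‖ζ - ξ‖ / r)) := by
    apply W.nu_mono 1 _ _ hmeas hcont.measurable 1
    · intro ζ
      unfold ind
      by_cases h : ζ ∈ ball ξ (r / 2)
      · rw [Set.indicator_of_mem h]; norm_num
      · rw [Set.indicator_of_notMem h]; norm_num
    · intro ζ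
      rw [abs_of_nonneg (h0 ζ)]
      exact h1 ζ
    · intro ζ _
      unfold ind
      by_cases h : ζ ∈ ball ξ (r / 2)
      · rw [Set.indicator_of_mem h]
        rw [mem_ball, dist_eq_norm] at h
        have h2 : ‖ζ - ξ‖ / r ≤ 1 / 2 := by
          rw [div_le_iff₀ hr]; linarith
        exact le_trans (by linarith) (le_max_right _ _)
      · rw [Set.indicator_of_notMem h]
        simp
  rw [W.nu_smul] at hlow
  have h3 := hm' ξ hξ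
  refine ⟨fun ζ => max 0 (1 - ‖ζ - ξ‖ / r), hcont, h0, h1, ?_, by linarith⟩
  intro ζ hζ
  apply max_eq_left
  have : 1 ≤ ‖ζ - ξ‖ / r := by
    rw [le_div_iff₀ hr]; linarith
  linarith

/-- Choose `a j ξ, b j ξ` by `hloc`. For `ξ, ω` with `κ ≤ ‖ξ - p‖, κ ≤ ‖ω - p‖`, `‖ξ - ω‖ ≤ d q^j / 2`, `i ≥ j`: the intervals `[a j ξ, b j ξ]` and `[a i ω, b i ω]` intersect (test with a bump function supported in
both balls, of positive `ν` mass by `hpos`). So the `a j ξ` are a Cauchy sequence (differences `≤ C₀ (1-θ)^j + ..`), `N ξ = lim_j a j ξ`, and `|N ξ - t| ≤ 2 C₀ (1-θ)^j` for `t ∈ [a j ξ, b j ξ]`; `|N ξ - N ω| ≤ 4 C₀ (1-θ)^j` if `‖ξ - ω‖ ≤ d q^j/2`, which gives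
the Hoelder continuity with exponent `al = min 1 (log (1-θ) / log q)` (choose `j` with `d q^(j+1)/2 < ‖ξ - ω‖ ≤ d q^j/2`; for `‖ξ - ω‖ > d/2` use `N ≤ C₀`). -/
theorem exists_N (p : ℂ) (hp : ‖p‖ = 1) (κ : ℝ) (hκ : 0 < κ)
    (hpos : ∀ r : ℝ, 0 < r → ∃ m : ℝ, 0 < m ∧ ∀ ξ : ℂ, ‖ξ‖ = 1 → m ≤ W.nu 1 (ind (ball ξ r)))
    (q θ d C₀ : ℝ) (hq : 0 < q) (hq1 : q < 1) (hθ : 0 < θ) (hθ1 : θ < 1) (hd : 0 < d) (hC₀ : 0 < C₀)
    (hloc : ∀ ξ : ℂ, ‖ξ‖ = 1 → κ ≤ ‖ξ - p‖ → ∀ j : ℕ,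
      ∃ a b : ℝ, 1 / C₀ ≤ a ∧ a ≤ b ∧ b ≤ C₀ ∧ b - a ≤ C₀ * (1 - θ) ^ j ∧
        ∀ F : ℂ → ℝ, Continuous F → (∀ ζ, 0 ≤ F ζ) → (∀ ζ, F ζ ≤ 1) → (∀ ζ : ℂ, d * q ^ j ≤ ‖ζ - ξ‖ → F ζ = 0) →
          a * W.nu 1 F ≤ lam p F ∧ lam p F ≤ b * W.nu 1 F) :
    ∃ (N : ℂ → ℝ) (al C : ℝ), 0 < al ∧ al ≤ 1 ∧ 0 ≤ C ∧ (∀ ξ : ℂ, ‖ξ‖ = 1 → κ ≤ ‖ξ - p‖ → 1 / C₀ ≤ N ξ ∧ N ξ ≤ C₀) ∧
      (∀ ξ ω : ℂ, ‖ξ‖ = 1 → ‖ω‖ = 1 → κ ≤ ‖ξ - p‖ → κ ≤ ‖ω - p‖ → |N ξ - N ω| ≤ C * ‖ξ - ω‖ ^ al) ∧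
      ∀ ξ : ℂ, ‖ξ‖ = 1 → κ ≤ ‖ξ - p‖ → ∀ j : ℕ, ∀ F : ℂ → ℝ, Continuous F → (∀ ζ, 0 ≤ F ζ) → (∀ ζ, F ζ ≤ 1) →
        (∀ ζ : ℂ, d * q ^ j ≤ ‖ζ - ξ‖ → F ζ = 0) → |lam p F - N ξ * W.nu 1 F| ≤ C * (1 - θ) ^ j * W.nu 1 F := by
  choose! a b h1 h2 h3 h4 h5 using hloc
  have hq0 : ∀ j : ℕ, 0 < d * q ^ j := fun j => mul_pos hd (pow_pos hq j)
  -- intersecting intervals
  have key : ∀ ξ ω : ℂ, ‖ξ‖ = 1 → ‖ω‖ = 1 → κ ≤ ‖ξ - p‖ → κ ≤ ‖ω - p‖ → ∀ (i j : ℕ) (r : ℝ), 0 < r →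
      ‖ξ - ω‖ + r ≤ d * q ^ j → r ≤ d * q ^ i → a ξ i ≤ b ω j ∧ a ω j ≤ b ξ i := by
    intro ξ ω hξ hω hξp hωp i j r hr hrj hri
    obtain ⟨F, hFc, hF0, hF1, hFs, hFp⟩ := W.dena_bump hpos ξ hξ r hr
    have e1 := h5 ξ hξ hξp i F hFc hF0 hF1 (fun ζ hζ => hFs ζ (le_trans hri hζ))
    have e2 := h5 ω hω hωp j F hFc hF0 hF1 (fun ζ hζ => by
      apply hFs ζ
      have : ‖ζ - ω‖ ≤ ‖ζ - ξ‖ + ‖ξ - ω‖ := by
        have := norm_add_le (ζ - ξ) (ξ - ω)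
        simpa using this
      linarith)
    constructor
    · exact le_of_mul_le_mul_right (le_trans e1.1 e2.2) hFp
    · exact le_of_mul_le_mul_right (le_trans e2.1 e1.2) hFp
  have key1 : ∀ ξ : ℂ, ‖ξ‖ = 1 → κ ≤ ‖ξ - p‖ → ∀ i j : ℕ, a ξ i ≤ b ξ j := by
    intro ξ hξ hξp i j
    refine (key ξ ξ hξ hξ hξp hξp i j (min (d * q ^ i) (d * q ^ j)) (lt_min (hq0 i) (hq0 j)) ?_ (min_le_left _ _)).1
    rw [sub_self, norm_zero, zero_add]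
    exact min_le_right _ _
  -- the density
  set N : ℂ → ℝ := fun ξ => ⨆ i, a ξ i with hN
  have hbdd : ∀ ξ : ℂ, ‖ξ‖ = 1 → κ ≤ ‖ξ - p‖ → BddAbove (Set.range (a ξ)) := by
    intro ξ hξ hξp
    refine ⟨b ξ 0, ?_⟩
    rintro _ ⟨i, rfl⟩
    exact key1 ξ hξ hξp i 0
  have hNa : ∀ ξ : ℂ, ‖ξ‖ = 1 → κ ≤ ‖ξ - p‖ → ∀ j, a ξ j ≤ N ξ := by
    intro ξ hξ hξp j
    exact le_ciSup (hbdd ξ hξ hξp) j
  have hNb : ∀ ξ : ℂ, ‖ξ‖ = 1 → κ ≤ ‖ξ - p‖ → ∀ j, N ξ ≤ b ξ j := by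
    intro ξ hξ hξp j
    exact ciSup_le fun i => key1 ξ hξ hξp i j
  have hNlo : ∀ ξ : ℂ, ‖ξ‖ = 1 → κ ≤ ‖ξ - p‖ → 1 / C₀ ≤ N ξ := fun ξ hξ hξp =>
    le_trans (h1 ξ hξ hξp 0) (hNa ξ hξ hξp 0)
  have hNhi : ∀ ξ : ℂ, ‖ξ‖ = 1 → κ ≤ ‖ξ - p‖ → N ξ ≤ C₀ := fun ξ hξ hξp =>
    le_trans (hNb ξ hξ hξp 0) (h3 ξ hξ hξp 0)
  -- comparison at scale j
  have hcomp : ∀ ξ ω : ℂ, ‖ξ‖ = 1 → ‖ω‖ = 1 → κ ≤ ‖ξ - p‖ → κ ≤ ‖ω - p‖ → ∀ j : ℕ, ‖ξ - ω‖ ≤ d * q ^ j / 2 →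
      |N ξ - N ω| ≤ 2 * C₀ * (1 - θ) ^ j := by
    intro ξ ω hξ hω hξp hωp j hj
    have hk := key ξ ω hξ hω hξp hωp j j (d * q ^ j / 2) (half_pos (hq0 j)) (by linarith) (by linarith [hq0 j])
    have e1 := hNa ξ hξ hξp j
    have e2 := hNb ξ hξ hξp j
    have e3 := hNa ω hω hωp j
    have e4 := hNb ω hω hωp j
    have e5 := h4 ξ hξ hξp j
    have e6 := h4 ω hω hωp j
    rw [abs_le]
    constructor
    · linarith [hk.2]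
    · linarith [hk.1]
  have hθ' : 0 < 1 - θ := by linarith
  have hθ'' : 1 - θ < 1 := by linarith
  have hlq : Real.log q < 0 := Real.log_neg hq hq1
  have hlθ : Real.log (1 - θ) < 0 := Real.log_neg hθ' hθ''
  set be : ℝ := Real.log (1 - θ) / Real.log q with hbe
  have hbe0 : 0 < be := div_pos_of_neg_of_neg hlθ hlq
  have hqbe : q ^ be = 1 - θ := by
    rw [Real.rpow_def_of_pos hq, hbe, mul_div_cancel₀ _ hlq.ne, Real.exp_log hθ']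
  set al : ℝ := min 1 be with hal
  have hal0 : 0 < al := lt_min one_pos hbe0
  have hal1 : al ≤ 1 := min_le_left _ _
  have halbe : al ≤ be := min_le_right _ _
  have hCpos : 0 ≤ 2 * C₀ / (1 - θ) * (2 / d) ^ al + C₀ := by
    have : 0 ≤ (2 / d) ^ al := by positivity
    positivity
  refine ⟨N, al, 2 * C₀ / (1 - θ) * (2 / d) ^ al + C₀, hal0, hal1, hCpos, fun ξ hξ hξp => ⟨hNlo ξ hξ hξp, hNhi ξ hξ hξp⟩, ?_, ?_⟩
  · intro ξ ω hξ hω hξp hωp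
    have hs0 : 0 ≤ ‖ξ - ω‖ := norm_nonneg _
    rcases hs0.eq_or_lt with hs | hs
    · have hξω : ξ = ω := by
        rw [← sub_eq_zero, ← norm_eq_zero]; exact hs.symm
      rw [hξω, sub_self, abs_zero]
      positivity
    · -- the scaled distance
      have h2d : 0 < 2 / d := by positivity
      have hmul : (2 / d) ^ al * ‖ξ - ω‖ ^ al = (2 / d * ‖ξ - ω‖) ^ al := by
        rw [Real.mul_rpow h2d.le hs0]
      have ht0 : 0 < 2 / d * ‖ξ - ω‖ := by positivity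
      have hrest : 0 ≤ C₀ * ‖ξ - ω‖ ^ al := by positivity
      rcases le_or_gt (2 / d * ‖ξ - ω‖) 1 with ht1 | ht1
      · obtain ⟨j, hj1, hj2⟩ := exists_nat_pow_near_of_lt_one ht0 ht1 hq hq1
        have hdist : ‖ξ - ω‖ ≤ d * q ^ j / 2 := by
          have : 2 / d * ‖ξ - ω‖ * (d / 2) ≤ q ^ j * (d / 2) := mul_le_mul_of_nonneg_right hj2 (by positivity)
          have h' : 2 / d * ‖ξ - ω‖ * (d / 2) = ‖ξ - ω‖ := by field_simp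
          rw [h'] at this
          linarith
        have hc := hcomp ξ ω hξ hω hξp hωp j hdist
        have hpow : (1 - θ) ^ (j + 1) ≤ (2 / d * ‖ξ - ω‖) ^ al := by
          calc (1 - θ) ^ (j + 1) = (q ^ (j + 1)) ^ be := by
                rw [← hqbe, ← Real.rpow_natCast, ← Real.rpow_natCast, ← Real.rpow_mul hq.le, ← Real.rpow_mul hq.le, mul_comm]
            _ ≤ (2 / d * ‖ξ - ω‖) ^ be := Real.rpow_le_rpow (pow_pos hq _).le hj1.le hbe0.le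
            _ ≤ (2 / d * ‖ξ - ω‖) ^ al := Real.rpow_le_rpow_of_exponent_ge ht0 ht1 halbe
        have hpj : (1 - θ) ^ j = (1 - θ) ^ (j + 1) / (1 - θ) := by
          rw [pow_succ, mul_div_assoc, div_self hθ'.ne', mul_one]
        calc |N ξ - N ω| ≤ 2 * C₀ * (1 - θ) ^ j := hc
          _ = 2 * C₀ / (1 - θ) * (1 - θ) ^ (j + 1) := by rw [hpj]; ring
          _ ≤ 2 * C₀ / (1 - θ) * (2 / d * ‖ξ - ω‖) ^ al := mul_le_mul_of_nonneg_left hpow (by positivity)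
          _ ≤ (2 * C₀ / (1 - θ) * (2 / d) ^ al + C₀) * ‖ξ - ω‖ ^ al := by
              rw [add_mul, mul_assoc, hmul]
              linarith
      · have h1' : 1 ≤ (2 / d * ‖ξ - ω‖) ^ al := Real.one_le_rpow ht1.le hal0.le
        have hb1 : |N ξ - N ω| ≤ C₀ := by
          have e1 := hNlo ξ hξ hξp
          have e2 := hNhi ξ hξ hξp
          have e3 := hNlo ω hω hωp
          have e4 := hNhi ω hω hωp
          have e5 : 0 < 1 / C₀ := by positivity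
          rw [abs_le]; constructor <;> linarith
        have hle : C₀ ≤ 2 * C₀ / (1 - θ) := by
          rw [le_div_iff₀ hθ']
          nlinarith
        calc |N ξ - N ω| ≤ C₀ * 1 := by rw [mul_one]; exact hb1
          _ ≤ 2 * C₀ / (1 - θ) * (2 / d * ‖ξ - ω‖) ^ al := mul_le_mul hle h1' (by norm_num) (by positivity)
          _ ≤ (2 * C₀ / (1 - θ) * (2 / d) ^ al + C₀) * ‖ξ - ω‖ ^ al := by
              rw [add_mul, mul_assoc, hmul]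
              linarith
  · intro ξ hξ hξp j F hFc hF0 hF1 hFs
    have e := h5 ξ hξ hξp j F hFc hF0 hF1 hFs
    have hν : 0 ≤ W.nu 1 F := W.nu_nonneg 1 F (fun ζ _ => hF0 ζ)
    have e1 := hNa ξ hξ hξp j
    have e2 := hNb ξ hξ hξp j
    have e5 := h4 ξ hξ hξp j
    have hpj : 0 < (1 - θ) ^ j := pow_pos hθ' j
    have hC : C₀ * (1 - θ) ^ j ≤ (2 * C₀ / (1 - θ) * (2 / d) ^ al + C₀) * (1 - θ) ^ j := by
      apply mul_le_mul_of_nonneg_right _ hpj.le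
      have : 0 ≤ 2 * C₀ / (1 - θ) * (2 / d) ^ al := by positivity
      linarith
    have hmain : |lam p F - N ξ * W.nu 1 F| ≤ (b ξ j - a ξ j) * W.nu 1 F := by
      rw [abs_le]
      constructor
      · nlinarith [e.1, e.2, mul_le_mul_of_nonneg_right e1 hν, mul_le_mul_of_nonneg_right e2 hν]
      · nlinarith [e.1, e.2, mul_le_mul_of_nonneg_right e1 hν, mul_le_mul_of_nonneg_right e2 hν]
    calc |lam p F - N ξ * W.nu 1 F| ≤ (b ξ j - a ξ j) * W.nu 1 F := hmain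
      _ ≤ C₀ * (1 - θ) ^ j * W.nu 1 F := mul_le_mul_of_nonneg_right e5 hν
      _ ≤ (2 * C₀ / (1 - θ) * (2 / d) ^ al + C₀) * (1 - θ) ^ j * W.nu 1 F := mul_le_mul_of_nonneg_right hC hν

end WD

end Pool.Agent.DimDropH
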