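import Pool.Agent.Lib_MP_644907_h.HDef
import Pool.Agent.Lib_MP_644907_f.GRPA

/-!
# Piece GEOA: geometry of the orbit

`isoD_iff` (GRPA): every isometry is `z ↦ mb α β (z or conj z)`. Facts for `f = mb α β`: `|f'(w)| = 1 / |conj β w + conj α|^2`, `1 - |f w|^2 = (1 - |w|^2) |f' w|` (`one_sub_mb`),
`|f w - f w'|^2 = |w - w'|^2 |f' w| |f' w'|`, `|f' 0| = 1 / |α|^2 = 1 - |f 0|^2`.
-/

set_option autoImplicit false

open Complex MeasureTheory Metric Filter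
open scoped Topology

namespace Pool.Agent.DimDropH

open Pool.Agent.DimDrop (IsoD)
open Pool.Agent.DimDropF (IG mb dmb)

variable {Γ : Type} [Group Γ] (A : IG Γ)

private theorem geoa_sub {a b z w : ℂ} (h : ‖a‖ ^ 2 - ‖b‖ ^ 2 = 1) (hz : ‖z‖ ≤ 1) (hw : ‖w‖ ≤ 1) :
    ‖mb a b z - mb a b w‖ ^ 2 = ‖z - w‖ ^ 2 * (‖dmb a b z‖ * ‖dmb a b w‖) := by
  have hdz := Pool.Agent.DimDropF.den_ne h hz
  have hdw := Pool.Agent.DimDropF.den_ne h hw
  have hdet : a * starRingEnd ℂ a - b * starRingEnd ℂ b = 1 := by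
    rw [Complex.mul_conj, Complex.mul_conj, Complex.normSq_eq_norm_sq, Complex.normSq_eq_norm_sq]
    exact_mod_cast h
  have h1 : mb a b z - mb a b w = (z - w) / ((starRingEnd ℂ b * z + starRingEnd ℂ a) *
      (starRingEnd ℂ b * w + starRingEnd ℂ a)) := by
    unfold mb
    rw [div_sub_div _ _ hdz hdw]
    congr 1
    linear_combination (z - w) * hdet
  rw [h1]
  unfold dmb
  rw [norm_div, norm_mul, norm_div, norm_div, norm_one, norm_pow, norm_pow]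
  have p1 : ‖starRingEnd ℂ b * z + starRingEnd ℂ a‖ ≠ 0 := norm_ne_zero_iff.2 hdz
  have p2 : ‖starRingEnd ℂ b * w + starRingEnd ℂ a‖ ≠ 0 := norm_ne_zero_iff.2 hdw
  field_simp

/-- the derivative of an isometry -/
private theorem geoa_D {h : ℂ → ℂ} (hh : IsoD h) : ∃ D : ℂ → ℝ, (∀ z, ‖z‖ ≤ 1 → 0 < D z) ∧
    (∀ z, ‖z‖ ≤ 1 → 1 - ‖h z‖ ^ 2 = (1 - ‖z‖ ^ 2) * D z) ∧
    (∀ z w, ‖z‖ ≤ 1 → ‖w‖ ≤ 1 → ‖h z - h w‖ ^ 2 = ‖z - w‖ ^ 2 * (D z * D w)) ∧
    (∀ (R : ℝ) (z w : ℂ), R < 1 → ‖z‖ ≤ R → ‖w‖ ≤ 1 → D z ≤ 4 / (1 - R) ^ 2 * D w) := by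
  obtain ⟨α, β, hn, s, hs⟩ := (Pool.Agent.DimDropF.isoD_iff h).1 hh
  set cj : ℂ → ℂ := fun z => if s then starRingEnd ℂ z else z with hcj
  have hnc : ∀ z, ‖cj z‖ = ‖z‖ := by
    intro z
    rw [hcj]
    cases s with
    | false => simp
    | true => simp
  have hsub : ∀ z w, ‖cj z - cj w‖ = ‖z - w‖ := by
    intro z w
    rw [hcj]
    cases s with
    | false => simp
    | true =>
      simp only [if_true]
      rw [← map_sub, Complex.norm_conj]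
  have hs' : ∀ z : ℂ, ‖z‖ ≤ 1 → h z = mb α β (cj z) := hs
  refine ⟨fun z => ‖dmb α β (cj z)‖, ?_, ?_, ?_, ?_⟩
  · intro z hz
    exact norm_pos_iff.2 (Pool.Agent.DimDropF.dmb_ne hn (by rw [hnc]; exact hz))
  · intro z hz
    rw [hs' z hz, Pool.Agent.DimDropF.one_sub_mb hn (by rw [hnc]; exact hz), hnc]
  · intro z w hz hw
    rw [hs' z hz, hs' w hw, geoa_sub hn (by rw [hnc]; exact hz) (by rw [hnc]; exact hw), hsub]
  · intro R z w hR hz hw
    exact Pool.Agent.DimDropF.dmb_le hn hR (by rw [hnc]; exact hz) (by rw [hnc]; exact hw)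

private theorem geoa_n0 : ‖(0 : ℂ)‖ ≤ 1 := by simp

private theorem geoa_del0 (x : Γ) {D : ℂ → ℝ}
    (h2 : ∀ z, ‖z‖ ≤ 1 → 1 - ‖A.f x z‖ ^ 2 = (1 - ‖z‖ ^ 2) * D z) : del A x = D 0 := by
  have h := h2 0 geoa_n0
  rw [norm_zero] at h
  unfold del zz
  rw [h]
  ring

theorem zz_lt (x : Γ) : ‖zz A x‖ < 1 := by
  obtain ⟨D, h1, h2, _, _⟩ := geoa_D (A.iso x)
  have e := geoa_del0 A x h2
  have p := h1 0 geoa_n0
  rw [← e] at p
  unfold del at p
  have h3 : ‖zz A x‖ ^ 2 < 1 ^ 2 := by linarith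
  exact lt_of_pow_lt_pow_left₀ 2 zero_le_one h3

theorem del_pos (x : Γ) : 0 < del A x := by
  have h := zz_lt A x
  unfold del
  nlinarith [norm_nonneg (zz A x)]

theorem del_le_one (x : Γ) : del A x ≤ 1 := by
  unfold del
  nlinarith [sq_nonneg ‖zz A x‖]

theorem zz_one : zz A 1 = 0 := by
  unfold zz
  exact A.one' 0 geoa_n0

theorem del_one : del A 1 = 1 := by
  unfold del
  rw [zz_one, norm_zero]
  norm_num

theorem one_sub_le_del (x : Γ) : 1 - ‖zz A x‖ ≤ del A x := by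
  have h := zz_lt A x
  unfold del
  nlinarith [norm_nonneg (zz A x)]

theorem del_le (x : Γ) : del A x ≤ 2 * (1 - ‖zz A x‖) := by
  unfold del
  nlinarith [sq_nonneg (1 - ‖zz A x‖)]

theorem del_le' (x : Γ) (η : ℂ) (hη : ‖η‖ = 1) : del A x ≤ 2 * ‖zz A x - η‖ := by
  have h := del_le A x
  have h1 : ‖η‖ ≤ ‖zz A x‖ + ‖zz A x - η‖ := by
    have := norm_sub_le (zz A x) (zz A x - η)
    rwa [sub_sub_cancel] at this
  rw [hη] at h1
  linarith

/-- discreteness -/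
theorem finite_del (t : ℝ) (ht : 0 < t) : {x | t ≤ del A x}.Finite := by
  by_cases h1 : t ≤ 1
  · refine (A.fin' (Real.sqrt (1 - t)) ?_).subset ?_
    · rw [Real.sqrt_lt' one_pos]
      linarith
    · intro x hx
      have hx' : t ≤ del A x := hx
      unfold del zz at hx'
      exact Real.le_sqrt_of_sq_le (by linarith)
  · refine Set.finite_empty.subset ?_
    intro x hx
    have hx' : t ≤ del A x := hx
    exact absurd (hx'.trans (del_le_one A x)) h1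

/-- the orbit points of `x y` -/
private theorem geoa_mul (x y : Γ) : zz A (x * y) = A.f x (zz A y) := by
  unfold zz
  exact A.mul' x y 0 geoa_n0

private theorem geoa_exists_pos : ∃ M : ℝ, 1 ≤ M ∧ ∀ (η : ℂ) (ρ : ℝ), ‖η‖ = 1 → 0 < ρ → ρ ≤ 1 →
    ∃ v, Pos A M η ρ v := by
  have hr0 := A.r0
  have hr1 := A.r1
  have h1r : 0 < 1 - A.r := by linarith
  have h1r2 : 0 < 1 - A.r ^ 2 := by nlinarith
  set M : ℝ := 16 / (3 * (1 - A.r) ^ 2) + 4 / (1 - A.r ^ 2) + 1 with hM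
  have a1 : 0 < 16 / (3 * (1 - A.r) ^ 2) := by positivity
  have a2 : 0 < 4 / (1 - A.r ^ 2) := by positivity
  have a3 : 1 ≤ M := by rw [hM]; linarith
  refine ⟨M, a3, fun η ρ hη hρ hρ1 => ?_⟩
  set z : ℂ := ((1 - ρ / 2 : ℝ) : ℂ) * η with hz
  have hzn : ‖z‖ = 1 - ρ / 2 := by
    rw [hz, norm_mul, hη, mul_one, Complex.norm_real, Real.norm_eq_abs, abs_of_nonneg (by linarith)]
  have hz1 : ‖z‖ < 1 := by rw [hzn]; linarith
  obtain ⟨γ, hγ⟩ := A.coc' z hz1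
  set w := A.f γ z with hw
  have hwr : ‖w‖ ≤ A.r := hγ
  have hw1 : ‖w‖ ≤ 1 := hwr.trans hr1.le
  have hfz : A.f γ⁻¹ w = z := by
    rw [hw, ← A.mul' γ⁻¹ γ z hz1.le, inv_mul_cancel, A.one' z hz1.le]
  refine ⟨γ⁻¹, ?_⟩
  obtain ⟨D, d1, d2, d3, d4⟩ := geoa_D (A.iso γ⁻¹)
  have e0 := geoa_del0 A γ⁻¹ d2
  have e1 := d2 w hw1
  rw [hfz, hzn] at e1
  have p0 := d1 0 geoa_n0
  have pw := d1 w hw1
  have c1 := d4 0 0 w one_pos (by simp) hw1
  have c2 := d4 A.r w 0 hr1 hwr geoa_n0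
  have e3 := d3 0 w geoa_n0 hw1
  rw [hfz, zero_sub, norm_neg] at e3
  have hw2 : ‖w‖ ^ 2 ≤ A.r ^ 2 := pow_le_pow_left₀ (norm_nonneg _) hwr 2
  have q1 : 0 < 1 - ‖w‖ ^ 2 := by linarith
  -- bounds for `D w`
  have b1 : D w * (1 - A.r ^ 2) ≤ ρ := by
    have : D w * (1 - A.r ^ 2) ≤ D w * (1 - ‖w‖ ^ 2) := by
      apply mul_le_mul_of_nonneg_left _ pw.le
      linarith
    nlinarith
  have b1' : D w ≤ ρ / (1 - A.r ^ 2) := by
    rw [le_div_iff₀ h1r2]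
    exact b1
  have b2 : 3 / 4 * ρ ≤ D w := by
    have : D w * (1 - ‖w‖ ^ 2) ≤ D w := by nlinarith [sq_nonneg ‖w‖]
    nlinarith
  have b3 : D 0 ≤ 4 * D w := by
    have : (4 : ℝ) / (1 - 0) ^ 2 = 4 := by norm_num
    rw [this] at c1
    exact c1
  have b4 : D 0 ≤ 4 / (1 - A.r ^ 2) * ρ := by
    have : 4 / (1 - A.r ^ 2) * ρ = 4 * (ρ / (1 - A.r ^ 2)) := by ring
    rw [this]
    linarith
  have b5 : ρ ≤ 16 / (3 * (1 - A.r) ^ 2) * D 0 := by
    have : 16 / (3 * (1 - A.r) ^ 2) * D 0 = 4 / 3 * (4 / (1 - A.r) ^ 2 * D 0) := by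
      field_simp
      ring
    rw [this]
    linarith
  have b6 : ‖A.f γ⁻¹ 0 - z‖ ≤ 2 * (ρ / (1 - A.r ^ 2)) := by
    apply le_of_sq_le_sq _ (by positivity)
    rw [e3]
    have f1 : ‖w‖ ^ 2 ≤ 1 := by nlinarith [norm_nonneg w]
    have f2 : D 0 * D w ≤ (4 * (ρ / (1 - A.r ^ 2))) * (ρ / (1 - A.r ^ 2)) :=
      mul_le_mul (by linarith) b1' pw.le (by positivity)
    calc ‖w‖ ^ 2 * (D 0 * D w) ≤ 1 * ((4 * (ρ / (1 - A.r ^ 2))) * (ρ / (1 - A.r ^ 2))) :=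
          mul_le_mul f1 f2 (by positivity) zero_le_one
      _ = (2 * (ρ / (1 - A.r ^ 2))) ^ 2 := by ring
  have b7 : ‖z - η‖ = ρ / 2 := by
    have : z - η = ((-(ρ / 2) : ℝ) : ℂ) * η := by
      rw [hz]
      push_cast
      ring
    rw [this, norm_mul, hη, mul_one, Complex.norm_real, Real.norm_eq_abs, abs_neg, abs_of_pos (by linarith)]
  refine ⟨?_, ?_, ?_⟩
  · have g1 : zz A γ⁻¹ - η = (A.f γ⁻¹ 0 - z) + (z - η) := by
      unfold zz
      ring
    rw [g1]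
    refine (norm_add_le _ _).trans ?_
    rw [b7, hM]
    have g2 : 2 * (ρ / (1 - A.r ^ 2)) ≤ 4 / (1 - A.r ^ 2) * ρ := by
      have : 4 / (1 - A.r ^ 2) * ρ = 4 * (ρ / (1 - A.r ^ 2)) := by ring
      rw [this]
      have : 0 ≤ ρ / (1 - A.r ^ 2) := by positivity
      linarith
    have g3 : 0 ≤ 16 / (3 * (1 - A.r) ^ 2) * ρ := by positivity
    nlinarith
  · rw [e0, hM]
    have g3 : 0 ≤ 4 / (1 - A.r ^ 2) * D 0 := by positivity
    nlinarith
  · rw [e0, hM]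
    have g3 : 0 ≤ 16 / (3 * (1 - A.r) ^ 2) * ρ := by positivity
    nlinarith

omit A in
theorem infinite_of (A : IG Γ) : Infinite Γ := by
  by_contra h
  rw [not_infinite_iff_finite] at h
  obtain ⟨M, hM, hv⟩ := geoa_exists_pos A
  haveI : Fintype Γ := Fintype.ofFinite Γ
  obtain ⟨x0, _, hx0⟩ := Finset.exists_min_image (Finset.univ : Finset Γ) (del A) ⟨1, Finset.mem_univ 1⟩
  have hd := del_pos A x0
  have hd1 := del_le_one A x0
  have hM0 : 0 < M := by linarith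
  obtain ⟨v, hv1⟩ := hv 1 (del A x0 / (2 * M)) (by simp) (by positivity) (by
    rw [div_le_one (by positivity)]
    linarith)
  have h1 := hv1.hi
  have h2 := hx0 v (Finset.mem_univ v)
  have h3 : M * (del A x0 / (2 * M)) = del A x0 / 2 := by
    field_simp
  rw [h3] at h1
  linarith

/-- `1/δ(x⁻¹ y) = 1 + |z_x - z_y|^2 / (δ_x δ_y)`: with `w = z_{x⁻¹ y}`, `z_y = f_x w`, `δ_y = (1 - |w|^2) |f_x' w|`, `|z_y - z_x|^2 = |w|^2 |f_x' w| |f_x' 0|`, `δ_x = |f_x' 0|` -/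
theorem del_formula (x y : Γ) : 1 / del A (x⁻¹ * y) = 1 + ‖zz A x - zz A y‖ ^ 2 / (del A x * del A y) := by
  obtain ⟨D, d1, d2, d3, _⟩ := geoa_D (A.iso x)
  have e0 := geoa_del0 A x d2
  set w := zz A (x⁻¹ * y) with hw
  have hwlt : ‖w‖ < 1 := zz_lt A (x⁻¹ * y)
  have hy : zz A y = A.f x w := by
    rw [hw, ← geoa_mul, mul_inv_cancel_left]
  have ey : del A y = (1 - ‖w‖ ^ 2) * D w := by
    unfold del
    rw [hy]
    exact d2 w hwlt.le
  have exy : ‖zz A x - zz A y‖ ^ 2 = ‖w‖ ^ 2 * (D 0 * D w) := by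
    rw [hy]
    have := d3 0 w geoa_n0 hwlt.le
    rw [zero_sub, norm_neg] at this
    exact this
  have p0 := d1 0 geoa_n0
  have pw := d1 w hwlt.le
  have q : 0 < 1 - ‖w‖ ^ 2 := by nlinarith [norm_nonneg w]
  have ed : del A (x⁻¹ * y) = 1 - ‖w‖ ^ 2 := rfl
  rw [ed, e0, ey, exy]
  field_simp
  ring

theorem del_inv (x : Γ) : del A x⁻¹ = del A x := by
  have h := del_formula A x 1
  rw [mul_one, zz_one, sub_zero, del_one, mul_one] at h
  have p := del_pos A x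
  have p' := del_pos A x⁻¹
  have e : ‖zz A x‖ ^ 2 = 1 - del A x := by unfold del; ring
  rw [e] at h
  have h2 : 1 + (1 - del A x) / del A x = 1 / del A x := by
    field_simp
    ring
  rw [h2, one_div, one_div, inv_inj] at h
  exact h

/-- comparison of `x` and `x s` for `s` in a finite set, from `del_formula` (or from the distortion of `f_x`) -/
theorem jump (s : Γ) : ∃ C : ℝ, 1 ≤ C ∧ ∀ x, ‖zz A (x * s) - zz A x‖ ≤ C * del A x ∧ del A x ≤ C * del A (x * s) ∧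
    del A (x * s) ≤ C * del A x := by
  set w := zz A s with hw
  have hwlt : ‖w‖ < 1 := zz_lt A s
  have hds := del_pos A s
  have h1w : 0 < 1 - ‖w‖ := by linarith
  have eds : del A s = 1 - ‖w‖ ^ 2 := rfl
  have a1 : 0 < 4 / (1 - ‖w‖) ^ 2 := by positivity
  have a2 : 0 < 4 / del A s := by positivity
  refine ⟨4 / (1 - ‖w‖) ^ 2 + 4 / del A s + 1, by linarith, fun x => ?_⟩
  obtain ⟨D, d1, d2, d3, d4⟩ := geoa_D (A.iso x)
  have e0 := geoa_del0 A x d2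
  have hxs : zz A (x * s) = A.f x w := geoa_mul A x s
  have exs : del A (x * s) = del A s * D w := by
    have : del A (x * s) = 1 - ‖A.f x w‖ ^ 2 := by unfold del; rw [hxs]
    rw [this, d2 w hwlt.le, eds]
  have p0 := d1 0 geoa_n0
  have pw := d1 w hwlt.le
  have c1 := d4 0 0 w one_pos (by simp) hwlt.le
  have c2 := d4 ‖w‖ w 0 hwlt le_rfl geoa_n0
  have e4 : (4 : ℝ) / (1 - 0) ^ 2 = 4 := by norm_num
  rw [e4] at c1
  refine ⟨?_, ?_, ?_⟩
  · have b1 : ‖zz A (x * s) - zz A x‖ ≤ 2 / (1 - ‖w‖) * D 0 := by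
      apply le_of_sq_le_sq _ (by positivity)
      have e5 : ‖zz A (x * s) - zz A x‖ ^ 2 = ‖w‖ ^ 2 * (D w * D 0) := by
        rw [hxs]
        have := d3 w 0 hwlt.le geoa_n0
        rw [sub_zero] at this
        exact this
      rw [e5]
      have f1 : ‖w‖ ^ 2 ≤ 1 := by nlinarith [norm_nonneg w]
      calc ‖w‖ ^ 2 * (D w * D 0) ≤ 1 * ((4 / (1 - ‖w‖) ^ 2 * D 0) * D 0) := by
            refine mul_le_mul f1 ?_ (by positivity) zero_le_one
            exact mul_le_mul_of_nonneg_right c2 p0.le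
        _ = (2 / (1 - ‖w‖) * D 0) ^ 2 := by
            field_simp
            norm_num
    refine b1.trans ?_
    rw [e0]
    refine mul_le_mul_of_nonneg_right ?_ p0.le
    have f2 : 2 / (1 - ‖w‖) ≤ 4 / (1 - ‖w‖) ^ 2 := by
      rw [div_le_div_iff₀ h1w (by positivity)]
      nlinarith [norm_nonneg w]
    linarith
  · rw [e0, exs]
    have f3 : 4 * D w = 4 / del A s * (del A s * D w) := by
      field_simp
    have f4 : 0 ≤ (4 / (1 - ‖w‖) ^ 2 + 1) * (del A s * D w) := by positivity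
    nlinarith
  · rw [e0, exs]
    have f5 : del A s * D w ≤ D w := by
      have := del_le_one A s
      nlinarith
    have f6 : 0 ≤ (4 / del A s + 1) * D 0 := by positivity
    nlinarith

private theorem geoa_left (s x : Γ) : del A x * del A s ≤ 4 * del A (s * x) := by
  obtain ⟨D, d1, d2, _, d4⟩ := geoa_D (A.iso s)
  have e0 := geoa_del0 A s d2
  have hx := zz_lt A x
  have e1 : del A (s * x) = del A x * D (zz A x) := by
    have h1 : del A (s * x) = 1 - ‖A.f s (zz A x)‖ ^ 2 := by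
      unfold del
      rw [geoa_mul]
    rw [h1, d2 _ hx.le]
    rfl
  have c1 := d4 0 0 (zz A x) one_pos (by simp) hx.le
  have e4 : (4 : ℝ) / (1 - 0) ^ 2 = 4 := by norm_num
  rw [e4, ← e0] at c1
  rw [e1]
  have p := del_pos A x
  nlinarith

/-- left multiplication by a fixed element changes `del` only by a factor -/
theorem del_left (s : Γ) : ∃ C : ℝ, 1 ≤ C ∧ ∀ x, del A x ≤ C * del A (s * x) ∧ del A (s * x) ≤ C * del A x := by
  have hs := del_pos A s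
  have hs1 := del_le_one A s
  refine ⟨4 / del A s, ?_, fun x => ⟨?_, ?_⟩⟩
  · rw [le_div_iff₀ hs]
    linarith
  · have h := geoa_left A s x
    rw [div_mul_eq_mul_div, le_div_iff₀ hs]
    exact h
  · have h := geoa_left A s⁻¹ (s * x)
    rw [inv_mul_cancel_left, del_inv] at h
    rw [div_mul_eq_mul_div, le_div_iff₀ hs]
    exact h

/-- cocompactness: `coc'` at the point `z = (1 - ρ/2) η` gives `γ` with `|f_γ z| ≤ r`; `v = γ⁻¹`, `z = f_v w`, `|w| ≤ r`: `δ_v = |f_v' 0|` is comparable to `|f_v' w| = (1 - |z|^2)/(1 - |w|^2)`, and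
`|z_v - z|^2 = |w|^2 |f_v' 0| |f_v' w|` -/
theorem exists_pos : ∃ M : ℝ, 1 ≤ M ∧ ∀ (η : ℂ) (ρ : ℝ), ‖η‖ = 1 → 0 < ρ → ρ ≤ 1 → ∃ v, Pos A M η ρ v :=
  geoa_exists_pos A

end Pool.Agent.DimDropH
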