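import Pool.Agent.Lib_MP_644907_h.GEOA

/-!
# Piece GEOB: geometry on the boundary
-/

set_option autoImplicit false

open Complex MeasureTheory Metric Filter
open scoped Topology

namespace Pool.Agent.DimDropH

open Pool.Agent.DimDrop (IsoD)
open Pool.Agent.DimDropF (IG mb dmb)

variable {Γ : Type} [Group Γ] (A : IG Γ)

/-- conjugation or the identity -/
noncomputable def geobC (s : Bool) (z : ℂ) : ℂ := if s then starRingEnd ℂ z else z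

omit [Group Γ] in
theorem geobC_norm (s : Bool) (z : ℂ) : ‖geobC s z‖ = ‖z‖ := by
  cases s with
  | false => rfl
  | true => exact Complex.norm_conj z

theorem geobC_sub (s : Bool) (z w : ℂ) : ‖geobC s z - geobC s w‖ = ‖z - w‖ := by
  cases s with
  | false => rfl
  | true =>
    show ‖starRingEnd ℂ z - starRingEnd ℂ w‖ = _
    rw [← map_sub, Complex.norm_conj]

theorem geobC_zero (s : Bool) : geobC s 0 = 0 := by
  cases s with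
  | false => rfl
  | true => exact map_zero _

theorem geobC_invol (s : Bool) (z : ℂ) : geobC s (geobC s z) = z := by
  cases s with
  | false => rfl
  | true => exact Complex.conj_conj z

theorem geobC_cont (s : Bool) : Continuous (geobC s) := by
  cases s with
  | false => exact continuous_id
  | true => exact Complex.continuous_conj

/-- the representation -/
theorem geob_rep (x : Γ) : ∃ α β : ℂ, ‖α‖ ^ 2 - ‖β‖ ^ 2 = 1 ∧ ∃ s : Bool,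
    ∀ z : ℂ, ‖z‖ ≤ 1 → A.f x z = mb α β (geobC s z) :=
  (Pool.Agent.DimDropF.isoD_iff _).1 (A.iso x)

theorem geob_det {a b : ℂ} (h : ‖a‖ ^ 2 - ‖b‖ ^ 2 = 1) :
    a * starRingEnd ℂ a - b * starRingEnd ℂ b = 1 := by
  rw [Complex.mul_conj, Complex.mul_conj, Complex.normSq_eq_norm_sq, Complex.normSq_eq_norm_sq]
  exact_mod_cast h

theorem geob_sub {a b z w : ℂ} (h : ‖a‖ ^ 2 - ‖b‖ ^ 2 = 1) (hz : ‖z‖ ≤ 1) (hw : ‖w‖ ≤ 1) :
    ‖mb a b z - mb a b w‖ = ‖z - w‖ / (‖starRingEnd ℂ b * z + starRingEnd ℂ a‖ *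
      ‖starRingEnd ℂ b * w + starRingEnd ℂ a‖) := by
  have h1 : mb a b z - mb a b w = (z - w) / ((starRingEnd ℂ b * z + starRingEnd ℂ a) *
      (starRingEnd ℂ b * w + starRingEnd ℂ a)) := by
    unfold mb
    rw [div_sub_div _ _ (Pool.Agent.DimDropF.den_ne h hz) (Pool.Agent.DimDropF.den_ne h hw)]
    congr 1
    linear_combination (z - w) * geob_det h
  rw [h1, norm_div, norm_mul]

theorem geob_apos {a b : ℂ} (h : ‖a‖ ^ 2 - ‖b‖ ^ 2 = 1) : 0 < ‖a‖ := by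
  have h1 : ‖a‖ ≠ 0 := by
    intro h0
    rw [h0] at h
    nlinarith [sq_nonneg ‖b‖]
  exact lt_of_le_of_ne (norm_nonneg _) h1.symm

theorem geob_den_pos {a b z : ℂ} (h : ‖a‖ ^ 2 - ‖b‖ ^ 2 = 1) (hz : ‖z‖ ≤ 1) :
    0 < ‖starRingEnd ℂ b * z + starRingEnd ℂ a‖ :=
  norm_pos_iff.2 (Pool.Agent.DimDropF.den_ne h hz)

theorem geob_del {x : Γ} {α β : ℂ} (h : ‖α‖ ^ 2 - ‖β‖ ^ 2 = 1) {s : Bool}
    (hf : ∀ z : ℂ, ‖z‖ ≤ 1 → A.f x z = mb α β (geobC s z)) : del A x = 1 / ‖α‖ ^ 2 := by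
  have h0 : ‖(0:ℂ)‖ ≤ 1 := by simp
  have h1 := Pool.Agent.DimDropF.one_sub_mb (z := 0) h h0
  unfold del zz
  rw [hf 0 h0, geobC_zero, h1]
  unfold dmb
  rw [norm_div, norm_one, norm_pow, mul_zero, zero_add, Complex.norm_conj, norm_zero]
  norm_num

/-- distance of a boundary value from the orbit point -/
theorem geob_dist {x : Γ} {α β : ℂ} (h : ‖α‖ ^ 2 - ‖β‖ ^ 2 = 1) {s : Bool}
    (hf : ∀ z : ℂ, ‖z‖ ≤ 1 → A.f x z = mb α β (geobC s z)) {ζ : ℂ} (hζ : ‖ζ‖ = 1) :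
    ‖A.f x ζ - zz A x‖ = 1 / (‖starRingEnd ℂ β * geobC s ζ + starRingEnd ℂ α‖ * ‖α‖) := by
  have h0 : ‖(0:ℂ)‖ ≤ 1 := by simp
  have hc : ‖geobC s ζ‖ ≤ 1 := by rw [geobC_norm, hζ]
  unfold zz
  rw [hf ζ hζ.le, hf 0 h0, geobC_zero, geob_sub h hc h0, sub_zero, mul_zero, zero_add, Complex.norm_conj,
    geobC_norm, hζ]

/-- boundary: `|f_x ζ - z_x| = 1 / (|α| |conj β ζ + conj α|)` (`ζ` or its conjugate) is `> K δ_x = K / |α|^2` iff `|conj β ζ + conj α| < |α| / K`; for `K ≥ 2` this forces `|β| ≥ |α| / 2` and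
`|ζ - t| < 2 / K` with `t = - conj α / conj β`, `|t| ≥ 1`; `q = t / |t|`, `|t - q| = |t| - 1 ≤ |ζ - t|` -/
theorem conc_geo (x : Γ) : ∃ q : ℂ, ‖q‖ = 1 ∧ ∀ (ζ : ℂ) (K : ℝ), ‖ζ‖ = 1 → 2 ≤ K → K * del A x < ‖A.f x ζ - zz A x‖ → ‖ζ - q‖ ≤ 4 / K := by
  obtain ⟨α, β, h, s, hf⟩ := geob_rep A x
  have ha := geob_apos h
  have hba : ‖β‖ ≤ ‖α‖ := by
    refine le_of_sq_le_sq ?_ (norm_nonneg _)
    linarith
  by_cases hβ : β = 0
  · refine ⟨1, norm_one, fun ζ K hζ hK hlt => ?_⟩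
    exfalso
    rw [geob_del A h hf, geob_dist A h hf hζ, hβ, map_zero, zero_mul, zero_add, Complex.norm_conj] at hlt
    have h1 : 1 / (‖α‖ * ‖α‖) = 1 / ‖α‖ ^ 2 := by ring
    rw [h1] at hlt
    have h2 : 0 < 1 / ‖α‖ ^ 2 := by positivity
    nlinarith
  · have hb : 0 < ‖β‖ := norm_pos_iff.2 hβ
    have hcb : starRingEnd ℂ β ≠ 0 := by
      intro h0
      exact hβ ((map_eq_zero _).1 h0)
    set t : ℂ := -(starRingEnd ℂ α) / starRingEnd ℂ β with ht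
    have htn : ‖t‖ = ‖α‖ / ‖β‖ := by
      rw [ht, norm_div, norm_neg, Complex.norm_conj, Complex.norm_conj]
    have ht1 : 1 ≤ ‖t‖ := by
      rw [htn, one_le_div hb]
      exact hba
    have ht0 : 0 < ‖t‖ := by linarith
    set q0 : ℂ := t / (‖t‖ : ℂ) with hq0
    have hq0n : ‖q0‖ = 1 := by
      rw [hq0, norm_div, Complex.norm_real, norm_norm, div_self ht0.ne']
    have htq : ‖t - q0‖ = ‖t‖ - 1 := by
      have h1 : t - q0 = ((‖t‖ - 1 : ℝ) : ℂ) * q0 := by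
        rw [hq0]
        have h2 : (‖t‖ : ℂ) ≠ 0 := by exact_mod_cast ht0.ne'
        push_cast
        field_simp
      rw [h1, norm_mul, hq0n, mul_one, Complex.norm_real, Real.norm_eq_abs, abs_of_nonneg (by linarith)]
    refine ⟨geobC s q0, by rw [geobC_norm, hq0n], fun ζ K hζ hK hlt => ?_⟩
    have hK0 : 0 < K := by linarith
    set w : ℂ := geobC s ζ with hw
    have hwn : ‖w‖ = 1 := by rw [hw, geobC_norm, hζ]
    have hD := geob_den_pos h hwn.le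
    rw [geob_del A h hf, geob_dist A h hf hζ, ← hw] at hlt
    set D : ℝ := ‖starRingEnd ℂ β * w + starRingEnd ℂ α‖ with hDdef
    have hD1 : K * D < ‖α‖ := by
      rw [lt_div_iff₀ (by positivity)] at hlt
      have h1 : K * (1 / ‖α‖ ^ 2) * (D * ‖α‖) = K * D / ‖α‖ := by
        field_simp
      rw [h1, div_lt_one ha] at hlt
      exact hlt
    have hden : starRingEnd ℂ β * w + starRingEnd ℂ α = starRingEnd ℂ β * (w - t) := by
      rw [ht]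
      field_simp
      ring
    have hD2 : D = ‖β‖ * ‖w - t‖ := by
      rw [hDdef, hden, norm_mul, Complex.norm_conj]
    have hb2 : ‖α‖ ≤ 2 * ‖β‖ := by
      have h1 : ‖starRingEnd ℂ α‖ ≤ ‖starRingEnd ℂ β * w + starRingEnd ℂ α‖ + ‖starRingEnd ℂ β * w‖ := by
        have := norm_sub_le (starRingEnd ℂ β * w + starRingEnd ℂ α) (starRingEnd ℂ β * w)
        rwa [add_sub_cancel_left] at this
      rw [norm_mul, Complex.norm_conj, Complex.norm_conj, hwn, mul_one, ← hDdef] at h1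
      nlinarith
    have hwt : K * ‖w - t‖ ≤ 2 := by
      rw [hD2] at hD1
      have h1 : (K * ‖w - t‖) * ‖β‖ ≤ 2 * ‖β‖ := by nlinarith
      exact le_of_mul_le_mul_right h1 hb
    have h3 : ‖t‖ ≤ 1 + ‖w - t‖ := by
      have h4 := norm_sub_le w (w - t)
      rw [sub_sub_cancel, hwn] at h4
      exact h4
    have h5 : ‖w - q0‖ ≤ 2 * ‖w - t‖ := by
      have h6 : w - q0 = (w - t) + (t - q0) := by ring
      rw [h6]
      refine (norm_add_le _ _).trans ?_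
      rw [htq]
      linarith
    have h7 : ‖ζ - geobC s q0‖ = ‖w - q0‖ := by
      rw [hw, ← geobC_sub s ζ (geobC s q0), geobC_invol]
    rw [h7, le_div_iff₀ hK0]
    nlinarith

/-- the boundary values are continuous and on the circle -/
theorem contOn_f (x : Γ) : ContinuousOn (A.f x) (closedBall 0 1) := by
  obtain ⟨α, β, h, s, hf⟩ := geob_rep A x
  have h1 : ContinuousOn (fun z => mb α β (geobC s z)) (closedBall 0 1) := by
    refine (Pool.Agent.DimDropF.continuousOn_mb h).comp (geobC_cont s).continuousOn ?_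
    intro z hz
    rw [mem_closedBall_zero_iff] at hz ⊢
    rwa [geobC_norm]
  refine h1.congr fun z hz => hf z ?_
  rwa [mem_closedBall_zero_iff] at hz

theorem norm_f_eq (x : Γ) (ζ : ℂ) (hζ : ‖ζ‖ = 1) : ‖A.f x ζ‖ = 1 := by
  obtain ⟨α, β, h, s, hf⟩ := geob_rep A x
  have hc : ‖geobC s ζ‖ = 1 := by rw [geobC_norm, hζ]
  have h1 := Pool.Agent.DimDropF.one_sub_mb h hc.le
  rw [hc] at h1
  rw [hf ζ hζ.le]
  have h2 : ‖mb α β (geobC s ζ)‖ ^ 2 = 1 ^ 2 := by linarith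
  exact (pow_left_inj₀ (norm_nonneg _) zero_le_one two_ne_zero).1 h2

/-- `|f ζ - f ξ| = |ζ - ξ| / (|den ζ| |den ξ|)`, `|f ζ - z| = 1 / (|α| |den ζ|)`, `δ = 1 / |α|^2` -/
theorem bd2 (x : Γ) (ζ ξ : ℂ) (hζ : ‖ζ‖ = 1) (hξ : ‖ξ‖ = 1) :
    ‖ζ - ξ‖ * (‖A.f x ζ - zz A x‖ * ‖A.f x ξ - zz A x‖) = ‖A.f x ζ - A.f x ξ‖ * del A x := by
  obtain ⟨α, β, h, s, hf⟩ := geob_rep A x
  have hcζ : ‖geobC s ζ‖ ≤ 1 := by rw [geobC_norm, hζ]
  have hcξ : ‖geobC s ξ‖ ≤ 1 := by rw [geobC_norm, hξ]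
  have ha := geob_apos h
  have h1 := geob_den_pos h hcζ
  have h2 := geob_den_pos h hcξ
  rw [geob_dist A h hf hζ, geob_dist A h hf hξ, geob_del A h hf, hf ζ hζ.le, hf ξ hξ.le, geob_sub h hcζ hcξ, geobC_sub]
  field_simp

/-- `|f ζ - f 0| = 1 / (|α| |conj β ζ + conj α|)`, `f⁻¹ 0 = - β / α`, `|ζ + β/α| = |α ζ + β| / |α| = |conj β ζ + conj α| / |α|` on the circle (conformal case) -/
theorem bd3 (x : Γ) (ζ : ℂ) (hζ : ‖ζ‖ = 1) : ‖A.f x ζ - zz A x‖ * ‖ζ - zz A x⁻¹‖ = del A x := by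
  obtain ⟨α, β, h, s, hf⟩ := geob_rep A x
  have hcζ : ‖geobC s ζ‖ = 1 := by rw [geobC_norm, hζ]
  have ha := geob_apos h
  have hα : α ≠ 0 := norm_pos_iff.1 ha
  have h1 := geob_den_pos h hcζ.le
  have hz : ‖zz A x⁻¹‖ ≤ 1 := (zz_lt A x⁻¹).le
  have h0 : A.f x (zz A x⁻¹) = 0 := by
    unfold zz
    rw [← A.mul' x x⁻¹ 0 (by simp), mul_inv_cancel, A.one' 0 (by simp)]
  have hcz : ‖geobC s (zz A x⁻¹)‖ ≤ 1 := by rwa [geobC_norm]
  have h2 : α * geobC s (zz A x⁻¹) + β = 0 := by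
    rw [hf _ hz] at h0
    unfold mb at h0
    rcases div_eq_zero_iff.1 h0 with h3 | h3
    · exact h3
    · exact absurd h3 (Pool.Agent.DimDropF.den_ne h hcz)
  have h3 : ‖ζ - zz A x⁻¹‖ * ‖α‖ = ‖α * geobC s ζ + β‖ := by
    rw [← geobC_sub s, mul_comm, ← norm_mul]
    congr 1
    linear_combination (-1 : ℂ) * h2
  have h4 : ‖α * geobC s ζ + β‖ = ‖starRingEnd ℂ β * geobC s ζ + starRingEnd ℂ α‖ := by
    have h5 : ‖starRingEnd ℂ β * geobC s ζ + starRingEnd ℂ α‖ ^ 2 - ‖α * geobC s ζ + β‖ ^ 2 =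
        (‖α‖ ^ 2 - ‖β‖ ^ 2) * (1 - ‖geobC s ζ‖ ^ 2) := by
      simp only [← Complex.normSq_eq_norm_sq, Complex.normSq_apply]
      simp
      ring
    rw [hcζ] at h5
    refine (pow_left_inj₀ (norm_nonneg _) (norm_nonneg _) two_ne_zero).1 ?_
    linarith
  rw [geob_dist A h hf hζ, geob_del A h hf]
  rw [← h4, ← h3]
  rw [h4] at h3
  have h6 : 0 < ‖ζ - zz A x⁻¹‖ := by
    by_contra h7
    push Not at h7
    have h8 : ‖ζ - zz A x⁻¹‖ = 0 := le_antisymm h7 (norm_nonneg _)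
    rw [h8, zero_mul] at h3
    linarith
  field_simp

theorem f_inv (x : Γ) (ζ : ℂ) (hζ : ‖ζ‖ ≤ 1) : A.f x⁻¹ (A.f x ζ) = ζ := by
  rw [← A.mul' x⁻¹ x ζ hζ, inv_mul_cancel, A.one' ζ hζ]

theorem f_inv' (x : Γ) (ζ : ℂ) (hζ : ‖ζ‖ ≤ 1) : A.f x (A.f x⁻¹ ζ) = ζ := by
  rw [← A.mul' x x⁻¹ ζ hζ, mul_inv_cancel, A.one' ζ hζ]

/-- If `‖z_x - ξ‖ ≥ ρ` then `f_x` pulls back the small ball `|ζ - ξ| ≤ d ρ` (`d ≤ 1/2`) into a ball of radius `4 d`: let `ζ = f_x ζ'`, `ξ = f_x ξ'`; by `bd2`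
`|ζ' - ξ'| = |ζ - ξ| δ_x / (|ζ - z_x| |ξ - z_x|)`, `|ζ - z_x| ≥ |ξ - z_x| / 2`, `δ_x ≤ 2 |ξ - z_x|` -/
theorem pull_ball (x : Γ) (ξ : ℂ) (hξ : ‖ξ‖ = 1) (ρ d : ℝ) (hρ : 0 < ρ) (hd : 0 < d) (hd2 : d ≤ 1 / 2) (hx : ρ ≤ ‖zz A x - ξ‖)
    (ζ : ℂ) (hζ : ‖ζ‖ = 1) (h : ‖A.f x ζ - ξ‖ ≤ d * ρ) : ‖ζ - A.f x⁻¹ ξ‖ ≤ 4 * d := by
  have h1 := norm_f_eq A x⁻¹ ξ hξ
  have h2 := bd2 A x ζ (A.f x⁻¹ ξ) hζ h1
  rw [f_inv' A x ξ hξ.le] at h2
  have h3 := del_le' A x ξ hξ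
  have h4 := del_pos A x
  have hR : ‖ξ - zz A x‖ = ‖zz A x - ξ‖ := norm_sub_rev _ _
  rw [hR] at h2
  have h5 : ‖zz A x - ξ‖ ≤ ‖A.f x ζ - zz A x‖ + ‖A.f x ζ - ξ‖ := by
    have h6 : zz A x - ξ = -(A.f x ζ - zz A x) + (A.f x ζ - ξ) := by ring
    rw [h6]
    refine (norm_add_le _ _).trans ?_
    rw [norm_neg]
  have h6 : d * ρ ≤ 1 / 2 * ‖zz A x - ξ‖ := mul_le_mul hd2 hx hρ.le (by norm_num)
  have h7 : ‖zz A x - ξ‖ / 2 ≤ ‖A.f x ζ - zz A x‖ := by linarith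
  set R : ℝ := ‖zz A x - ξ‖ with hRdef
  have hR0 : 0 < R := by linarith
  have h8 : ‖ζ - A.f x⁻¹ ξ‖ * (R / 2 * R) ≤ d * ρ * (2 * R) := by
    calc ‖ζ - A.f x⁻¹ ξ‖ * (R / 2 * R) ≤ ‖ζ - A.f x⁻¹ ξ‖ * (‖A.f x ζ - zz A x‖ * R) :=
          mul_le_mul_of_nonneg_left (mul_le_mul_of_nonneg_right h7 hR0.le) (norm_nonneg _)
      _ = ‖A.f x ζ - ξ‖ * del A x := h2
      _ ≤ d * ρ * (2 * R) := mul_le_mul h h3 h4.le (by positivity)
  have h9 : ‖ζ - A.f x⁻¹ ξ‖ * (R * R) ≤ 4 * d * (R * R) := by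
    have h10 : d * ρ * R ≤ d * R * R :=
      mul_le_mul_of_nonneg_right (mul_le_mul_of_nonneg_left hx hd.le) hR0.le
    nlinarith
  exact le_of_mul_le_mul_right h9 (by positivity)

end Pool.Agent.DimDropH
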