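import Pool.Agent.Lib_MP_644907_h.GLUA
import Pool.Agent.Lib_MP_644907_f.FINAL

/-!
# Piece GLU: the contradiction
-/

set_option autoImplicit false

open Complex MeasureTheory Metric Filter
open scoped Topology

namespace Pool.Agent.DimDropH

open Pool.Agent.DimDrop (IsoD)
open Pool.Agent.DimDropF (IG mb dmb Hol)

namespace WD

variable {Γ : Type} [Group Γ] {n : ℕ} (W : WD Γ n)

private theorem glu_ext (u : ℂ → ℝ) (hu : ContinuousOn u (sphere 0 1)) :
    ∃ F : ℂ → ℝ, ∃ M : ℝ, Continuous F ∧ (∀ ζ, |F ζ| ≤ M) ∧ ∀ ζ : ℂ, ‖ζ‖ = 1 → F ζ = u ζ := by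
  have hcl : IsClosed (sphere (0:ℂ) 1) := isClosed_sphere
  let f : C(sphere (0:ℂ) 1, ℝ) := ⟨(sphere (0:ℂ) 1).domRestrict u, continuousOn_iff_continuous_domRestrict.mp hu⟩
  obtain ⟨g, hg⟩ := ContinuousMap.exists_restrict_eq hcl f
  obtain ⟨M, hM⟩ := (isCompact_sphere (0:ℂ) 1).exists_bound_of_continuousOn hu
  have hgu : ∀ ζ : ℂ, ‖ζ‖ = 1 → g ζ = u ζ := by
    intro ζ hζ
    have h1 : ζ ∈ sphere (0:ℂ) 1 := by simpa using hζ
    have h2 : g ζ = u ζ := congrArg (fun k : C(sphere (0:ℂ) 1, ℝ) => k ⟨ζ, h1⟩) hg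
    exact h2
  refine ⟨fun ζ => max (-|M|) (min |M| (g ζ)), |M|, by fun_prop, fun ζ => ?_, fun ζ hζ => ?_⟩
  · rw [abs_le]
    refine ⟨le_max_left _ _, max_le (by linarith [abs_nonneg M]) (min_le_left _ _)⟩
  · have h3 : |g ζ| ≤ |M| := by
      rw [hgu ζ hζ]
      exact (hM ζ (by simpa using hζ)).trans (le_abs_self M)
    rw [abs_le] at h3
    show max (-|M|) (min |M| (g ζ)) = u ζ
    rw [min_eq_right h3.2, max_eq_right h3.1, hgu ζ hζ]

private theorem glu_stat (φ : ℂ → ℝ)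
    (hF : ∀ F : ℂ → ℝ, Continuous F → W.nu 1 F = ∫ θ in (0:ℝ)..(2 * Real.pi), F (circleMap 0 1 θ) * φ (circleMap 0 1 θ))
    (u : ℂ → ℝ) (hu : ContinuousOn u (sphere 0 1)) :
    ∫ θ in (0:ℝ)..(2 * Real.pi), u (circleMap 0 1 θ) * φ (circleMap 0 1 θ) =
      ∑ i, W.R.p i * ∫ θ in (0:ℝ)..(2 * Real.pi), u (W.A.f (W.R.e i) (circleMap 0 1 θ)) * φ (circleMap 0 1 θ) := by
  obtain ⟨F, M, hFc, hFM, hFu⟩ := glu_ext u hu
  have hcirc : ∀ θ : ℝ, ‖circleMap 0 1 θ‖ = 1 := fun θ => by simp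
  have e0 : ∫ θ in (0:ℝ)..(2 * Real.pi), u (circleMap 0 1 θ) * φ (circleMap 0 1 θ) = W.nu 1 F := by
    rw [hF F hFc]
    refine intervalIntegral.integral_congr fun θ _ => ?_
    simp only [hFu _ (hcirc θ)]
  rw [e0, ← W.nu_harm F hFc.measurable M hFM 1]
  unfold RW.P
  refine Finset.sum_congr rfl fun i _ => ?_
  congr 1
  rw [one_mul]
  have hc : ContinuousOn (fun ζ => F (W.A.f (W.R.e i) ζ)) (sphere 0 1) :=
    hFc.comp_continuousOn ((contOn_f W.A (W.R.e i)).mono sphere_subset_closedBall)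
  obtain ⟨G, M', hGc, hGM, hGu⟩ := glu_ext _ hc
  have e1 : W.nu (W.R.e i) F = W.nu 1 G := by
    unfold WD.nu
    refine integral_congr_ae ?_
    filter_upwards [W.ae_circle] with ζ hζ
    rw [W.A.one' ζ hζ.le, hGu ζ hζ]
  show W.nu (W.R.e i) F = _
  rw [e1, hF G hGc]
  refine intervalIntegral.integral_congr fun θ _ => ?_
  simp only [hGu _ (hcirc θ), hFu _ (norm_f_eq W.A (W.R.e i) _ (hcirc θ))]

/-- `asm` (ASMB) with the subgroup and the function of `exists_sub`, `exists_F`. `hmass`: `ν(1) = 1`. `hstat`: for `h` continuous on the circle (real and imaginary parts, Tietze extension to continuous functions on `ℂ`),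
`∫ h φ dθ = ∫ h dν = ∑ p i ∫ h (f (e i) ζ) dν = ∑ p i ∫ h(f (e i) ·) φ dθ` (`stat`). -/
theorem no_tangent (p : ℂ) (x : ℕ → Γ) (c : ℕ → ℝ) (hT : W.Tangent p x c) (γ : Γ) (hγ : W.A.f γ p ≠ p) : False := by
  obtain ⟨φ, al, C, hal, hal1, hC, hHol, hF⟩ := W.holder_density p x c hT γ hγ
  obtain ⟨Λ, G, hΛ, hG⟩ := Pool.Agent.DimDropF.exists_sub W.A W.R.e W.R.gen
  obtain ⟨F, c', C', hC', hFd, hFc, hc, hFg⟩ := G.exists_F
  have hφc : Continuous (fun θ : ℝ => φ (circleMap 0 1 θ)) := Pool.Agent.DimDropF.asm_phi_cont φ al C hal hHol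
  have hcirc : ∀ θ : ℝ, ‖circleMap 0 1 θ‖ = 1 := fun θ => by simp
  refine Pool.Agent.DimDropF.asm W.A W.R.p W.R.hp W.R.hp1 W.R.e W.R.gen Λ hΛ F c' C' hC' hFd (fun γ z hz => ?_) hc hFg φ al C hal
    (by linarith) hC hHol ?_ (fun h hh => ?_)
  · rw [← hG γ z hz]
    exact hFc γ z hz
  · have h1 := hF (fun _ => 1) continuous_const
    rw [W.nu_one] at h1
    simp only [one_mul] at h1
    rw [← h1]
    norm_num
  · -- complex functions
    have hmem : ∀ θ : ℝ, circleMap 0 1 θ ∈ sphere (0:ℂ) 1 := fun θ => by simp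
    have hcont : ∀ g : ℂ → ℂ, ContinuousOn g (sphere 0 1) →
        Continuous (fun θ : ℝ => g (circleMap 0 1 θ) * (φ (circleMap 0 1 θ) : ℂ)) := by
      intro g hg
      have h1 : Continuous (fun θ : ℝ => g (circleMap 0 1 θ)) :=
        hg.comp_continuous (continuous_circleMap 0 1) hmem
      exact h1.mul (Complex.continuous_ofReal.comp hφc)
    have hcf : ∀ i, ContinuousOn (fun ζ => h (W.A.f (W.R.e i) ζ)) (sphere 0 1) := by
      intro i
      refine hh.comp ((contOn_f W.A (W.R.e i)).mono sphere_subset_closedBall) ?_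
      intro ζ hζ
      have := norm_f_eq W.A (W.R.e i) ζ (by simpa using hζ)
      simpa using this
    have hre : ∀ g : ℂ → ℂ, ContinuousOn g (sphere 0 1) →
        (∫ θ in (0:ℝ)..(2 * Real.pi), g (circleMap 0 1 θ) * (φ (circleMap 0 1 θ) : ℂ)).re =
          ∫ θ in (0:ℝ)..(2 * Real.pi), (g (circleMap 0 1 θ)).re * φ (circleMap 0 1 θ) := by
      intro g hg
      have h1 := Complex.reCLM.intervalIntegral_comp_comm ((hcont g hg).intervalIntegrable (μ := volume) 0 (2 * Real.pi))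
      simp only [Complex.reCLM_apply] at h1
      rw [← h1]
      refine intervalIntegral.integral_congr fun θ _ => ?_
      simp
    have him : ∀ g : ℂ → ℂ, ContinuousOn g (sphere 0 1) →
        (∫ θ in (0:ℝ)..(2 * Real.pi), g (circleMap 0 1 θ) * (φ (circleMap 0 1 θ) : ℂ)).im =
          ∫ θ in (0:ℝ)..(2 * Real.pi), (g (circleMap 0 1 θ)).im * φ (circleMap 0 1 θ) := by
      intro g hg
      have h1 := Complex.imCLM.intervalIntegral_comp_comm ((hcont g hg).intervalIntegrable (μ := volume) 0 (2 * Real.pi))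
      simp only [Complex.imCLM_apply] at h1
      rw [← h1]
      refine intervalIntegral.integral_congr fun θ _ => ?_
      simp
    apply Complex.ext
    · rw [hre h hh, Complex.re_sum]
      rw [W.glu_stat φ hF (fun ζ => (h ζ).re) (Complex.continuous_re.comp_continuousOn hh)]
      refine Finset.sum_congr rfl fun i _ => ?_
      rw [Complex.re_ofReal_mul]
      congr 1
      exact (hre (fun ζ => h (W.A.f (W.R.e i) ζ)) (hcf i)).symm
    · rw [him h hh, Complex.im_sum]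
      rw [W.glu_stat φ hF (fun ζ => (h ζ).im) (Complex.continuous_im.comp_continuousOn hh)]
      refine Finset.sum_congr rfl fun i _ => ?_
      rw [Complex.im_ofReal_mul]
      congr 1
      exact (him (fun ζ => h (W.A.f (W.R.e i) ζ)) (hcf i)).symm

end WD

end Pool.Agent.DimDropH
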