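import Pool.Agent.Lib_MP_644907_h.PTB

/-!
# Piece LEXA: abstract last exit decomposition
-/

set_option autoImplicit false

open Filter
open scoped Topology

namespace Pool.Agent.DimDropH

namespace LEXA

variable {Γ : Type} [Group Γ] {n : ℕ} (R : RW Γ n)

open Classical in
/-- the probability weighted value of `h` after `k` steps inside `H` -/
noncomputable def E (H : Set Γ) (h : Γ → ℝ) : ℕ → Γ → ℝ
  | 0, x => if x ∈ H then h x else 0
  | k + 1, x => if x ∈ H then R.P (E H h k) x else 0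

theorem P_mono {f g : Γ → ℝ} (hfg : ∀ x, f x ≤ g x) (x : Γ) : R.P f x ≤ R.P g x := by
  unfold RW.P
  exact Finset.sum_le_sum (fun i _ => mul_le_mul_of_nonneg_left (hfg _) (R.hp i).le)

theorem P_sub (f g : Γ → ℝ) (x : Γ) : R.P (fun z => f z - g z) x = R.P f x - R.P g x := by
  unfold RW.P
  rw [← Finset.sum_sub_distrib]
  exact Finset.sum_congr rfl (fun i _ => by ring)

theorem P_nonneg {f : Γ → ℝ} (hf : ∀ x, 0 ≤ f x) (x : Γ) : 0 ≤ R.P f x := by
  unfold RW.P
  exact Finset.sum_nonneg (fun i _ => mul_nonneg (R.hp i).le (hf _))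

theorem E_out (H : Set Γ) (h : Γ → ℝ) (k : ℕ) (x : Γ) (hx : x ∉ H) : E R H h k x = 0 := by
  cases k with
  | zero => simp [E, hx]
  | succ k => simp [E, hx]

theorem E_nonneg (H : Set Γ) (h : Γ → ℝ) (h0 : ∀ x, 0 ≤ h x) (k : ℕ) (x : Γ) : 0 ≤ E R H h k x := by
  induction k generalizing x with
  | zero =>
    simp only [E]
    split_ifs
    · exact h0 x
    · exact le_refl 0
  | succ k ih =>
    simp only [E]
    split_ifs
    · exact P_nonneg R ih x
    · exact le_refl 0

theorem E_succ_le (H : Set Γ) (h : Γ → ℝ) (h0 : ∀ x, 0 ≤ h x) (hh : ∀ x, R.P h x = h x) (k : ℕ) (x : Γ) :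
    E R H h (k + 1) x ≤ E R H h k x := by
  classical
  induction k generalizing x with
  | zero =>
    simp only [E]
    split_ifs with hx
    · rw [← hh x]
      refine P_mono R (fun z => ?_) x
      by_cases hz : z ∈ H
      · rw [if_pos hz]
      · rw [if_neg hz]
        exact h0 z
    · exact le_refl 0
  | succ k ih =>
    rw [E, E]
    split_ifs with hx
    · exact P_mono R ih x
    · exact le_refl 0

theorem E_ge (H : Set Γ) (h v : Γ → ℝ) (h1 : ∀ x, h x ≤ 1) (hh : ∀ x, R.P h x = h x) (hv0 : ∀ x, 0 ≤ v x)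
    (hv : ∀ x, R.P v x = v x) (hv1 : ∀ x, x ∉ H → 1 ≤ v x) (k : ℕ) (x : Γ) : h x - E R H h k x ≤ v x := by
  induction k generalizing x with
  | zero =>
    simp only [E]
    split_ifs with hx
    · rw [sub_self]; exact hv0 x
    · rw [sub_zero]; exact (h1 x).trans (hv1 x hx)
  | succ k ih =>
    rw [E]
    split_ifs with hx
    · have h2 := P_mono R ih x
      rw [P_sub, hh, hv] at h2
      exact h2
    · rw [sub_zero]; exact (h1 x).trans (hv1 x hx)

end LEXA

/-- Abstract last exit: `e 0 = 1_H h`, `e (k+1) = 1_H P (e k)` is decreasing, `e = lim`, `e = 1_H P e`, `u = h - e ≥ 0` is superharmonic, `u - P u = 1_{Hᶜ} P e`, which vanishes except at the points `w ∉ H` with some `w e_i ∈ H`.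
By induction `h - e k ≤ v`, so `u ≤ min h v`, and `riesz` gives `u x = ∑ w, G(x, w) (u w - P u w)`. For `x ∉ H`, `u x = h x`. Compare termwise for `x` and `y`. -/
theorem RW.last_exit {Γ : Type} [Group Γ] {n : ℕ} (R : RW Γ n) (ht : R.Trans) (H : Set Γ) (h v : Γ → ℝ) (h0 : ∀ x, 0 ≤ h x) (h1 : ∀ x, h x ≤ 1)
    (hh : ∀ x, R.P h x = h x) (hv0 : ∀ x, 0 ≤ v x) (hv : ∀ x, R.P v x = v x) (hv1 : ∀ x, x ∉ H → 1 ≤ v x)
    (hinf : ∀ ε : ℝ, 0 < ε → {x | ε < h x ∧ ε < v x}.Finite) (x y : Γ) (hx : x ∉ H) (hy : y ∉ H) (a b : ℝ) (ha : 0 ≤ a)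
    (hab : ∀ w, w ∉ H → (∃ i, w * R.e i ∈ H) → a * R.green (y⁻¹ * w) ≤ R.green (x⁻¹ * w) ∧ R.green (x⁻¹ * w) ≤ b * R.green (y⁻¹ * w)) :
    a * h y ≤ h x ∧ h x ≤ b * h y := by
  classical
  have hbdd : ∀ z, BddBelow (Set.range (fun k => LEXA.E R H h k z)) := by
    intro z
    refine ⟨0, ?_⟩
    rintro _ ⟨k, rfl⟩
    exact LEXA.E_nonneg R H h h0 k z
  obtain ⟨e, he⟩ : ∃ e : Γ → ℝ, ∀ z, Tendsto (fun k => LEXA.E R H h k z) atTop (𝓝 (e z)) :=
    ⟨fun z => ⨅ k, LEXA.E R H h k z, fun z => tendsto_atTop_ciInf (antitone_nat_of_succ_le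
      (fun k => LEXA.E_succ_le R H h h0 hh k z)) (hbdd z)⟩
  have he0 : ∀ z, 0 ≤ e z := fun z => ge_of_tendsto' (he z) (fun k => LEXA.E_nonneg R H h h0 k z)
  have heH : ∀ z, z ∉ H → e z = 0 := by
    intro z hz
    have h2 := he z
    have h3 : (fun k => LEXA.E R H h k z) = fun _ => 0 := by
      funext k
      exact LEXA.E_out R H h k z hz
    rw [h3] at h2
    exact (tendsto_nhds_unique h2 tendsto_const_nhds)
  have hPe : ∀ z, z ∈ H → R.P e z = e z := by
    intro z hz
    have h2 : Tendsto (fun k => LEXA.E R H h (k + 1) z) atTop (𝓝 (e z)) := (tendsto_add_atTop_iff_nat 1).2 (he z)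
    have h3 : (fun k => LEXA.E R H h (k + 1) z) = fun k => R.P (LEXA.E R H h k) z := by
      funext k
      rw [LEXA.E, if_pos hz]
    rw [h3] at h2
    have h4 : Tendsto (fun k => R.P (LEXA.E R H h k) z) atTop (𝓝 (R.P e z)) := by
      unfold RW.P
      exact tendsto_finsetSum _ (fun i _ => (he _).const_mul _)
    exact tendsto_nhds_unique h4 h2
  have hle : ∀ z, e z ≤ h z := by
    intro z
    apply le_of_tendsto' (he z)
    intro k
    induction k with
    | zero =>
      simp only [LEXA.E]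
      split_ifs
      · exact le_refl _
      · exact h0 z
    | succ k ih => exact (LEXA.E_succ_le R H h h0 hh k z).trans ih
  obtain ⟨u, hu⟩ : ∃ u : Γ → ℝ, u = fun z => h z - e z := ⟨_, rfl⟩
  have hu0 : ∀ z, 0 ≤ u z := by
    intro z; rw [hu]; simp only; linarith [hle z]
  have huv : ∀ z, u z ≤ v z := by
    intro z
    rw [hu]
    have h2 : Tendsto (fun k => h z - LEXA.E R H h k z) atTop (𝓝 (h z - e z)) := (he z).const_sub _
    exact le_of_tendsto' h2 (fun k => LEXA.E_ge R H h v h1 hh hv0 hv hv1 k z)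
  have huh : ∀ z, u z ≤ h z := by
    intro z; rw [hu]; simp only; linarith [he0 z]
  have hdiff : ∀ z, u z - R.P u z = R.P e z - e z := by
    intro z
    rw [hu, LEXA.P_sub, hh]
    ring
  have hdiff0 : ∀ z, 0 ≤ u z - R.P u z := by
    intro z
    rw [hdiff]
    by_cases hz : z ∈ H
    · rw [hPe z hz, sub_self]
    · rw [heH z hz, sub_zero]
      exact LEXA.P_nonneg R he0 z
  have hzero : ∀ z, ¬ (z ∉ H ∧ ∃ i, z * R.e i ∈ H) → u z - R.P u z = 0 := by
    intro z hz
    rw [hdiff]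
    by_cases hz2 : z ∈ H
    · rw [hPe z hz2, sub_self]
    · rw [heH z hz2, sub_zero]
      unfold RW.P
      apply Finset.sum_eq_zero
      intro i _
      have h3 : z * R.e i ∉ H := fun h4 => hz ⟨hz2, i, h4⟩
      rw [heH _ h3, mul_zero]
  have hfin : ∀ ε : ℝ, 0 < ε → {z | ε < u z}.Finite := by
    intro ε hε
    apply (hinf ε hε).subset
    intro z hz
    exact ⟨lt_of_lt_of_le hz (huh z), lt_of_lt_of_le hz (huv z)⟩
  have hR := R.riesz ht u 1 hu0 (fun z => (huh z).trans (h1 z)) (fun z => by linarith [hdiff0 z]) hfin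
  have hRx := hR x
  have hRy := hR y
  have hux : u x = h x := by rw [hu]; simp only; rw [heH x hx, sub_zero]
  have huy : u y = h y := by rw [hu]; simp only; rw [heH y hy, sub_zero]
  rw [hux] at hRx
  rw [huy] at hRy
  constructor
  · refine hasSum_le ?_ (hRy.mul_left a) hRx
    intro w
    by_cases hw : w ∉ H ∧ ∃ i, w * R.e i ∈ H
    · have h2 := mul_le_mul_of_nonneg_right (hab w hw.1 hw.2).1 (hdiff0 w)
      rw [← mul_assoc]
      exact h2
    · rw [hzero w hw, mul_zero, mul_zero, mul_zero]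
  · refine hasSum_le ?_ hRx (hRy.mul_left b)
    intro w
    by_cases hw : w ∉ H ∧ ∃ i, w * R.e i ∈ H
    · have h2 := mul_le_mul_of_nonneg_right (hab w hw.1 hw.2).2 (hdiff0 w)
      rw [← mul_assoc]
      exact h2
    · rw [hzero w hw, mul_zero, mul_zero, mul_zero]

end Pool.Agent.DimDropH
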