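import Pool.Agent.Lib_MP_644907_h.BDD
import Pool.Agent.Lib_MP_644907_h.LEXA

/-!
# Piece LEX: last exit decomposition
-/

set_option autoImplicit false

open Complex MeasureTheory Metric Filter
open scoped Topology

namespace Pool.Agent.DimDropH

open Pool.Agent.DimDrop (IsoD)
open Pool.Agent.DimDropF (IG mb dmb)

namespace WD

variable {Γ : Type} [Group Γ] {n : ℕ} (W : WD Γ n)

private theorem lex_jumps : ∃ C : ℝ, 1 ≤ C ∧ ∀ i x, ‖zz W.A (x * W.R.e i) - zz W.A x‖ ≤ C * del W.A x ∧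
    del W.A x ≤ C * del W.A (x * W.R.e i) := by
  choose c hc1 hc2 using fun i => jump W.A (W.R.e i)
  have h0 : ∀ i, 0 ≤ c i := fun i => zero_le_one.trans (hc1 i)
  have h1 : ∀ i, c i ≤ 1 + ∑ j, c j := by
    intro i
    have := Finset.single_le_sum (fun j _ => h0 j) (Finset.mem_univ i)
    linarith
  refine ⟨1 + ∑ j, c j, ?_, fun i x => ⟨?_, ?_⟩⟩
  · have := Finset.sum_nonneg (fun j (_ : j ∈ Finset.univ) => h0 j)
    linarith
  · exact (hc2 i x).1.trans (mul_le_mul_of_nonneg_right (h1 i) (del_pos W.A x).le)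
  · exact (hc2 i x).2.1.trans (mul_le_mul_of_nonneg_right (h1 i) (del_pos W.A _).le)

private theorem lex_ind_meas (r : ℝ) (q : ℂ) : Measurable (ind {ζ | r < ‖ζ - q‖}) := by
  unfold ind
  exact measurable_const.indicator (measurableSet_lt measurable_const (by fun_prop))

private theorem lex_ind_meas' (r : ℝ) (q : ℂ) : Measurable (ind {ζ | ‖ζ - q‖ ≤ r}) := by
  unfold ind
  exact measurable_const.indicator (measurableSet_le (by fun_prop) measurable_const)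

private theorem lex_ind_nonneg (E : Set ℂ) (ζ : ℂ) : 0 ≤ ind E ζ :=
  Set.indicator_nonneg (fun _ _ => zero_le_one) _

private theorem lex_ind_le (E : Set ℂ) (ζ : ℂ) : ind E ζ ≤ 1 :=
  Set.indicator_le_self' (fun _ _ => zero_le_one) ζ

/-- if `F ≤ M` and `ν_x F > ε` then `F > ε/2` somewhere near the orbit point -/
private theorem lex_point (F : ℂ → ℝ) (hF : Measurable F) (M : ℝ) (hM : 0 < M) (h0 : ∀ ζ, 0 ≤ F ζ) (h1 : ∀ ζ, F ζ ≤ M)
    (ε K : ℝ) (hε : 0 < ε) (x : Γ) (hK : W.nu x (ind {ζ | K * del W.A x < ‖ζ - zz W.A x‖}) ≤ ε / (4 * M))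
    (hx : ε < W.nu x F) : ∃ ζ : ℂ, ‖ζ‖ = 1 ∧ ‖ζ - zz W.A x‖ ≤ K * del W.A x ∧ ε / 2 < F ζ := by
  by_contra hcon
  push Not at hcon
  set E : Set ℂ := {ζ | K * del W.A x < ‖ζ - zz W.A x‖} with hE
  have m1 : Measurable (fun ζ : ℂ => ε / 2 + M * ind E ζ) :=
    measurable_const.add ((lex_ind_meas _ _).const_mul M)
  have k1 : W.nu x F ≤ W.nu x (fun ζ => ε / 2 + M * ind E ζ) := by
    refine W.nu_mono x F _ hF m1 (ε / 2 + M) (fun ζ => ?_) (fun ζ => ?_) (fun ζ hζ => ?_)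
    · rw [abs_of_nonneg (h0 ζ)]
      linarith [h1 ζ]
    · have a1 := lex_ind_nonneg E ζ
      have a2 := lex_ind_le E ζ
      have a3 : M * ind E ζ ≤ M * 1 := mul_le_mul_of_nonneg_left a2 hM.le
      have a4 : 0 ≤ M * ind E ζ := mul_nonneg hM.le a1
      rw [abs_of_nonneg (by linarith)]
      linarith
    · by_cases hc : K * del W.A x < ‖ζ - zz W.A x‖
      · have hc' : ζ ∈ E := hc
        have a5 : ind E ζ = 1 := Set.indicator_of_mem hc' _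
        rw [a5]
        linarith [h1 ζ]
      · have a6 := hcon ζ hζ (not_lt.1 hc)
        have a1 := mul_nonneg hM.le (lex_ind_nonneg E ζ)
        linarith
  have k2 : W.nu x (fun ζ => ε / 2 + M * ind E ζ) = W.nu x (fun _ => ε / 2) + W.nu x (fun ζ => M * ind E ζ) := by
    refine W.nu_add x (fun _ => ε / 2) (fun ζ => M * ind E ζ) measurable_const
      ((lex_ind_meas _ _).const_mul M) (ε / 2 + M) (fun ζ => ?_) (fun ζ => ?_)
    · rw [abs_of_pos (by linarith)]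
      linarith
    · have a1 := lex_ind_nonneg E ζ
      have a2 := lex_ind_le E ζ
      have a3 : M * ind E ζ ≤ M * 1 := mul_le_mul_of_nonneg_left a2 hM.le
      have a4 : 0 ≤ M * ind E ζ := mul_nonneg hM.le a1
      rw [abs_of_nonneg a4]
      linarith
  have k3 : W.nu x (fun _ => ε / 2) = ε / 2 := by
    have := W.nu_smul x (ε / 2) (fun _ => 1)
    rw [W.nu_one, mul_one] at this
    simpa using this
  have k4 : W.nu x (fun ζ => M * ind E ζ) = M * W.nu x (ind E) := W.nu_smul x M (ind E)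
  have k5 : M * W.nu x (ind E) ≤ M * (ε / (4 * M)) := mul_le_mul_of_nonneg_left hK hM.le
  have k6 : M * (ε / (4 * M)) = ε / 4 := by
    field_simp
  rw [k2, k3, k4] at k1
  linarith

/-- `RW.last_exit` with `H = Bl ξ (ρ/C₇)`, `C₇ = 2 (1 + 2 C^2)` (`jumps`): if `w ∉ H`, `w e_i ∈ H` then `‖z_w - ξ‖ ≤ ρ/C₇ + C δ_w ≤ (1 + 2 C^2) ρ/C₇ < ρ`. `h x = ν_x(F)`, `v x = 2 ν_x(F')`, `F'` continuous, `0 ≤ F' ≤ 1`, `F' = 0` for
`‖ζ - ξ‖ ≤ d ρ`, `F' = 1` for `‖ζ - ξ‖ ≥ 2 d ρ`; `v ≥ 1` off `H` by `nux_ball` (radius `ρ/C₇`, `2 d C₇` in place of `d`, `C * 8 d C₇ ≤ 1/2`).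
Finiteness: `F F' = 0`, both uniformly continuous, `conc (ε/8)`: for `δ_x` small `ν_x(F) > ε` gives a point `ζ` with `‖ζ - z_x‖ ≤ K δ_x`, `F ζ > ε/2`, `ν_x(F') > ε/2` a point `ζ'` with `F' ζ' > ε/4`, and `‖ζ - ζ'‖ ≤ 2 K δ_x`
is small: contradiction (near `ζ` the function `F'` vanishes as `F > ε/4` there); `finite_del`. -/
theorem last_exit (C : ℝ) (hC : 0 < C) (hb : ∀ (q : ℂ) (r : ℝ), 0 < r → W.nu 1 (ind (closedBall q r)) ≤ C * r) :
    ∃ d : ℝ, 0 < d ∧ d ≤ 1 / 2 ∧ ∀ (ξ : ℂ) (ρ : ℝ), ‖ξ‖ = 1 → 0 < ρ → ρ ≤ 1 → ∀ x y, ρ ≤ ‖zz W.A x - ξ‖ → ρ ≤ ‖zz W.A y - ξ‖ →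
      ∀ a b : ℝ, 0 ≤ a → (∀ w ∈ Bl W.A ξ ρ, a * W.G y w ≤ W.G x w ∧ W.G x w ≤ b * W.G y w) →
      ∀ F : ℂ → ℝ, Continuous F → (∀ ζ, 0 ≤ F ζ) → (∀ ζ, F ζ ≤ 1) → (∀ ζ : ℂ, d * ρ ≤ ‖ζ - ξ‖ → F ζ = 0) →
        a * W.nu y F ≤ W.nu x F ∧ W.nu x F ≤ b * W.nu y F := by
  obtain ⟨Cj, hCj1, hCj⟩ := W.lex_jumps
  have hCj0 : 0 < Cj := by linarith
  obtain ⟨C7, hC7⟩ : ∃ C7 : ℝ, C7 = 2 * (1 + 2 * Cj ^ 2) := ⟨_, rfl⟩
  have hC7p : 2 ≤ C7 := by
    rw [hC7]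
    nlinarith [sq_nonneg Cj]
  have hC70 : 0 < C7 := by linarith
  obtain ⟨d, hd⟩ : ∃ d : ℝ, d = min (1 / (4 * C7)) (1 / (16 * C * C7)) := ⟨_, rfl⟩
  have hd0 : 0 < d := by
    rw [hd]
    exact lt_min (by positivity) (by positivity)
  have hd1 : d * (4 * C7) ≤ 1 := by
    rw [← le_div_iff₀ (by positivity), hd]
    exact min_le_left _ _
  have hd2 : d * (16 * C * C7) ≤ 1 := by
    rw [← le_div_iff₀ (by positivity), hd]
    exact min_le_right _ _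
  refine ⟨d, hd0, by nlinarith, ?_⟩
  intro ξ ρ hξ hρ hρ1 x y hx hy a b ha hab F hF hF0 hF1 hFz
  have hdρ : 0 < d * ρ := mul_pos hd0 hρ
  -- the cut-off function
  set F' : ℂ → ℝ := fun ζ => min 1 (max 0 (‖ζ - ξ‖ / (d * ρ) - 1)) with hF'
  have hF'c : Continuous F' := by
    rw [hF']
    fun_prop
  have hF'0 : ∀ ζ, 0 ≤ F' ζ := fun ζ => le_min zero_le_one (le_max_left _ _)
  have hF'1 : ∀ ζ, F' ζ ≤ 1 := fun ζ => min_le_left _ _
  have hF'z : ∀ ζ : ℂ, ‖ζ - ξ‖ ≤ d * ρ → F' ζ = 0 := by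
    intro ζ hζ
    have h1 : ‖ζ - ξ‖ / (d * ρ) ≤ 1 := by
      rw [div_le_one hdρ]
      exact hζ
    show min 1 (max 0 (‖ζ - ξ‖ / (d * ρ) - 1)) = 0
    rw [max_eq_left (by linarith), min_eq_right zero_le_one]
  have hF'o : ∀ ζ : ℂ, 2 * (d * ρ) < ‖ζ - ξ‖ → F' ζ = 1 := by
    intro ζ hζ
    have h1 : 2 < ‖ζ - ξ‖ / (d * ρ) := by
      rw [lt_div_iff₀ hdρ]
      exact hζ
    show min 1 (max 0 (‖ζ - ξ‖ / (d * ρ) - 1)) = 1
    exact min_eq_left (le_trans (by linarith) (le_max_right _ _))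
  have hFm := hF.measurable
  have hF'm := hF'c.measurable
  have hC7ρ : ρ / C7 ≤ ρ := by
    rw [div_le_iff₀ hC70]
    nlinarith
  -- mass of the ball
  have hv1 : ∀ x, x ∉ Bl W.A ξ (ρ / C7) → 1 ≤ W.nu x (fun ζ => 2 * F' ζ) := by
    intro x hx
    have hx' : ρ / C7 ≤ ‖zz W.A x - ξ‖ := not_lt.1 hx
    have h1 := W.nux_ball C hC hb x ξ hξ (ρ / C7) (2 * d * C7) (by positivity) (by positivity) (by linarith) hx'
    have h2 : 2 * d * C7 * (ρ / C7) = 2 * (d * ρ) := by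
      field_simp
    rw [h2] at h1
    have h3 : C * (4 * (2 * d * C7)) ≤ 1 / 2 := by linarith
    have h4 : W.nu x (fun ζ => 1 - F' ζ) ≤ W.nu x (ind {ζ | ‖ζ - ξ‖ ≤ 2 * (d * ρ)}) := by
      refine W.nu_mono x _ _ (measurable_const.sub hF'm) (lex_ind_meas' _ _) 1 (fun ζ => ?_) (fun ζ => ?_)
        (fun ζ _ => ?_)
      · rw [abs_le]
        exact ⟨by linarith [hF'1 ζ], by linarith [hF'0 ζ]⟩
      · rw [abs_of_nonneg (lex_ind_nonneg _ ζ)]
        exact lex_ind_le _ ζ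
      · by_cases hc : ‖ζ - ξ‖ ≤ 2 * (d * ρ)
        · have hc' : ζ ∈ {ζ : ℂ | ‖ζ - ξ‖ ≤ 2 * (d * ρ)} := hc
          have a5 : ind {ζ | ‖ζ - ξ‖ ≤ 2 * (d * ρ)} ζ = 1 := Set.indicator_of_mem hc' _
          rw [a5]
          linarith [hF'0 ζ]
        · rw [hF'o ζ (not_le.1 hc), sub_self]
          exact lex_ind_nonneg _ ζ
    have h5 := W.nu_add x F' (fun ζ => 1 - F' ζ) hF'm (measurable_const.sub hF'm) 1
      (fun ζ => by rw [abs_of_nonneg (hF'0 ζ)]; exact hF'1 ζ)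
      (fun ζ => by
        rw [abs_le]
        exact ⟨by linarith [hF'1 ζ], by linarith [hF'0 ζ]⟩)
    have h6 : (fun ζ : ℂ => F' ζ + (1 - F' ζ)) = fun _ => 1 := by
      funext ζ
      ring
    rw [h6, W.nu_one] at h5
    rw [W.nu_smul x 2 F']
    linarith
  -- finiteness
  have hinf : ∀ ε : ℝ, 0 < ε → {x | ε < W.nu x F ∧ ε < W.nu x (fun ζ => 2 * F' ζ)}.Finite := by
    intro ε hε
    obtain ⟨K, hK2, hK⟩ := W.conc (ε / 8) (by positivity)
    have huc : UniformContinuousOn F (sphere (0 : ℂ) 1) :=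
      (isCompact_sphere (0 : ℂ) 1).uniformContinuousOn_of_continuous hF.continuousOn
    obtain ⟨δ, hδ, hδ'⟩ := Metric.uniformContinuousOn_iff.1 huc (ε / 2) (by positivity)
    refine (finite_del W.A (δ / (2 * K)) (by positivity)).subset ?_
    rintro x ⟨h1, h2⟩
    have hKx := hK x
    obtain ⟨ζ, z1, z2, z3⟩ := W.lex_point F hFm 1 one_pos hF0 hF1 ε K hε x
      (hKx.trans (by
        rw [mul_one]
        exact div_le_div_of_nonneg_left hε.le (by norm_num) (by norm_num))) h1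
    obtain ⟨ζ', z1', z2', z3'⟩ := W.lex_point (fun ζ => 2 * F' ζ) (hF'm.const_mul 2) 2 two_pos
      (fun ζ => by linarith [hF'0 ζ]) (fun ζ => by linarith [hF'1 ζ]) ε K hε x
      (hKx.trans (by norm_num)) h2
    show δ / (2 * K) ≤ del W.A x
    by_contra hlt
    push Not at hlt
    rw [lt_div_iff₀ (by positivity)] at hlt
    have hdist : dist ζ' ζ < δ := by
      rw [dist_eq_norm]
      have : ζ' - ζ = (ζ' - zz W.A x) - (ζ - zz W.A x) := by ring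
      rw [this]
      refine lt_of_le_of_lt (norm_sub_le _ _) ?_
      linarith
    have h3 := hδ' ζ' (mem_sphere_zero_iff_norm.2 z1') ζ (mem_sphere_zero_iff_norm.2 z1) hdist
    rw [Real.dist_eq, abs_lt] at h3
    have h4 : 0 < F ζ' := by linarith [h3.1]
    have h5 : ‖ζ' - ξ‖ ≤ d * ρ := by
      by_contra h6
      push Not at h6
      rw [hFz ζ' h6.le] at h4
      exact lt_irrefl _ h4
    simp only [hF'z ζ' h5] at z3'
    linarith
  refine RW.last_exit W.R W.trans (Bl W.A ξ (ρ / C7)) (fun x => W.nu x F) (fun x => W.nu x (fun ζ => 2 * F' ζ))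
    (fun x => W.nu_nonneg x F (fun ζ _ => hF0 ζ)) (fun x => ?_) (fun x => ?_) (fun x => ?_) (fun x => ?_) hv1 hinf
    x y ?_ ?_ a b ha ?_
  · exact (le_abs_self _).trans (W.nu_le x F hFm 1 (fun ζ => by rw [abs_of_nonneg (hF0 ζ)]; exact hF1 ζ))
  · exact W.nu_harm F hFm 1 (fun ζ => by rw [abs_of_nonneg (hF0 ζ)]; exact hF1 ζ) x
  · exact W.nu_nonneg x _ (fun ζ _ => by
      show 0 ≤ 2 * F' ζ
      linarith [hF'0 ζ])
  · exact W.nu_harm (fun ζ => 2 * F' ζ) (hF'm.const_mul 2) 2 (fun ζ => by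
      show |2 * F' ζ| ≤ 2
      rw [abs_of_nonneg (by linarith [hF'0 ζ])]
      linarith [hF'1 ζ]) x
  · exact not_lt.2 (hC7ρ.trans hx)
  · exact not_lt.2 (hC7ρ.trans hy)
  · rintro w _ ⟨i, hi⟩
    have hi' : ‖zz W.A (w * W.R.e i) - ξ‖ < ρ / C7 := hi
    refine hab w ?_
    show ‖zz W.A w - ξ‖ < ρ
    obtain ⟨j1, j2⟩ := hCj i w
    have j3 := del_le' W.A (w * W.R.e i) ξ hξ
    have j4 : del W.A w ≤ Cj * (2 * (ρ / C7)) := by
      refine j2.trans (mul_le_mul_of_nonneg_left ?_ hCj0.le)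
      linarith
    have j5 : ‖zz W.A w - ξ‖ ≤ ‖zz W.A (w * W.R.e i) - ξ‖ + ‖zz W.A (w * W.R.e i) - zz W.A w‖ := by
      have : zz W.A w - ξ = (zz W.A (w * W.R.e i) - ξ) - (zz W.A (w * W.R.e i) - zz W.A w) := by ring
      rw [this]
      exact norm_sub_le _ _
    have j6 : Cj * del W.A w ≤ Cj * (Cj * (2 * (ρ / C7))) := mul_le_mul_of_nonneg_left j4 hCj0.le
    have j7 : ρ / C7 + Cj * (Cj * (2 * (ρ / C7))) = ρ / 2 := by
      rw [hC7]
      field_simp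
    linarith

end WD

end Pool.Agent.DimDropH
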