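import Pool.Agent.Lib_MP_644907_h.RATB

/-!
# Piece RAT: iteration
-/

set_option autoImplicit false

open Complex MeasureTheory Metric Filter
open scoped Topology

namespace Pool.Agent.DimDropH

open Pool.Agent.DimDrop (IsoD)
open Pool.Agent.DimDropF (IG mb dmb)

/-- elementary estimate for `1/(1+t)` -/
private theorem rat_arith (D dx dw m d : ℝ) (hdx : 0 < dx) (hdw : 0 < dw) (hd : 0 < d)
    (h : 1 / D = 1 + m ^ 2 / (dx * dw)) (h1 : d / 2 ≤ m) (h2 : m ≤ 2 * d) (h3 : dx ≤ 2 * d) (h4 : dw ≤ d) :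
    dx / d ^ 2 * dw / 36 ≤ D ∧ D ≤ 4 * (dx / d ^ 2 * dw) := by
  have hm : 0 < m := lt_of_lt_of_le (by positivity) h1
  have hD' : D = dx * dw / (dx * dw + m ^ 2) := by
    have h5 : 1 / D = (dx * dw + m ^ 2) / (dx * dw) := by
      rw [h]
      field_simp
    have h6 : D = 1 / (1 / D) := by rw [one_div_one_div]
    rw [h6, h5, one_div_div]
  have hm2 : d ^ 2 / 4 ≤ m ^ 2 := by
    have : (d / 2) ^ 2 ≤ m ^ 2 := pow_le_pow_left₀ (by positivity) h1 2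
    calc d ^ 2 / 4 = (d / 2) ^ 2 := by ring
      _ ≤ _ := this
  have hm3 : m ^ 2 ≤ 4 * d ^ 2 := by
    have : m ^ 2 ≤ (2 * d) ^ 2 := pow_le_pow_left₀ hm.le h2 2
    calc m ^ 2 ≤ (2 * d) ^ 2 := this
      _ = _ := by ring
  have hxw : dx * dw ≤ 2 * d ^ 2 := by
    calc dx * dw ≤ (2 * d) * d := mul_le_mul h3 h4 hdw.le (by positivity)
      _ = _ := by ring
  have hpos : 0 < dx * dw := mul_pos hdx hdw
  have hs1 : dx * dw + m ^ 2 ≤ 36 * d ^ 2 := by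
    have : 0 ≤ d ^ 2 := sq_nonneg d
    linarith only [hxw, hm3, this]
  have hs2 : d ^ 2 / 4 ≤ dx * dw + m ^ 2 := by linarith only [hm2, hpos]
  have hd2 : 0 < d ^ 2 := by positivity
  constructor
  · rw [hD']
    calc dx / d ^ 2 * dw / 36 = dx * dw / (36 * d ^ 2) := by
          field_simp
      _ ≤ dx * dw / (dx * dw + m ^ 2) :=
          div_le_div_of_nonneg_left hpos.le (by positivity) hs1
  · rw [hD']
    calc dx * dw / (dx * dw + m ^ 2) ≤ dx * dw / (d ^ 2 / 4) :=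
          div_le_div_of_nonneg_left hpos.le (by positivity) hs2
      _ = 4 * (dx / d ^ 2 * dw) := by
          field_simp

namespace WD

variable {Γ : Type} [Group Γ] {n : ℕ} (W : WD Γ n)

private theorem rat_geo (ξ : ℂ) (ρ : ℝ) (hξ : ‖ξ‖ = 1) (hρ : 0 < ρ) (x w : Γ) (hx : ρ ≤ ‖zz W.A x - ξ‖)
    (hw : w ∈ Bl W.A ξ (ρ / 2)) :
    del W.A x / ‖zz W.A x - ξ‖ ^ 2 * del W.A w / 36 ≤ del W.A (x⁻¹ * w) ∧
      del W.A (x⁻¹ * w) ≤ 4 * (del W.A x / ‖zz W.A x - ξ‖ ^ 2 * del W.A w) := by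
  have hw' : ‖zz W.A w - ξ‖ < ρ / 2 := hw
  set d := ‖zz W.A x - ξ‖ with hd
  have hd0 : 0 < d := lt_of_lt_of_le hρ hx
  have e1 : ‖zz W.A x - zz W.A w‖ ≤ d + ‖zz W.A w - ξ‖ := by
    have h : zz W.A x - zz W.A w = (zz W.A x - ξ) - (zz W.A w - ξ) := by ring
    rw [h]
    exact norm_sub_le _ _
  have e2 : d ≤ ‖zz W.A x - zz W.A w‖ + ‖zz W.A w - ξ‖ := by
    have h : zz W.A x - ξ = (zz W.A x - zz W.A w) + (zz W.A w - ξ) := by ring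
    rw [hd, h]
    exact norm_add_le _ _
  have e3 := del_le' W.A x ξ hξ
  have e4 := del_le' W.A w ξ hξ
  refine rat_arith _ _ _ _ d (del_pos W.A _) (del_pos W.A _) hd0 (del_formula W.A x w) ?_ ?_ e3 ?_
  · linarith only [e2, hw', hx]
  · linarith only [e1, hw', hx, hρ]
  · linarith only [e4, hw', hx]

/-- For `x` outside of `Bl ξ ρ` and `w ∈ Bl ξ (ρ/2)`: `‖z_x - z_w‖` is between `‖z_x - ξ‖/2` and `2 ‖z_x - ξ‖`, `δ_w ≤ 2 ‖z_w - ξ‖ ≤ ρ`, `δ_x ≤ 2 ‖z_x - ξ‖`, so `t = ‖z_x - z_w‖^2/(δ_x δ_w) ≥ 1/8` and `1/δ(x⁻¹ w) = 1 + t ∈ [t, 9 t]`: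
`G(x, w)` is comparable to `δ_w * δ_x/‖z_x - ξ‖^2`. -/
theorem ratio_init (cl Cu : ℝ) (hcl : 0 < cl) (hl : ∀ w, cl * del W.A w ≤ W.R.green w) (hu : ∀ w, W.R.green w ≤ Cu * del W.A w) :
    ∃ C₀ : ℝ, 1 ≤ C₀ ∧ ∀ (ξ : ℂ) (ρ : ℝ), ‖ξ‖ = 1 → 0 < ρ → ρ ≤ 1 → ∀ x y, ρ ≤ ‖zz W.A x - ξ‖ → ρ ≤ ‖zz W.A y - ξ‖ →
      ∃ a : ℝ, 0 < a ∧ ∀ w ∈ Bl W.A ξ (ρ / 2), a * W.G y w ≤ W.G x w ∧ W.G x w ≤ C₀ * a * W.G y w := by
  have hCu : cl ≤ Cu := by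
    have h1 := hl 1
    have h2 := hu 1
    rw [del_one, mul_one] at h1 h2
    exact h1.trans h2
  have hCu0 : 0 < Cu := lt_of_lt_of_le hcl hCu
  refine ⟨(144 * Cu / cl) ^ 2, ?_, ?_⟩
  · have h1 : 1 ≤ 144 * Cu / cl := by
      rw [le_div_iff₀ hcl]
      linarith only [hCu, hCu0]
    exact one_le_pow₀ h1
  intro ξ ρ hξ hρ _ x y hx hy
  set Ax := del W.A x / ‖zz W.A x - ξ‖ ^ 2 with hAx
  set Ay := del W.A y / ‖zz W.A y - ξ‖ ^ 2 with hAy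
  have hAx0 : 0 < Ax := div_pos (del_pos W.A x) (pow_pos (lt_of_lt_of_le hρ hx) 2)
  have hAy0 : 0 < Ay := div_pos (del_pos W.A y) (pow_pos (lt_of_lt_of_le hρ hy) 2)
  refine ⟨cl / (144 * Cu) * (Ax / Ay), by positivity, ?_⟩
  intro w hw
  obtain ⟨gx1, gx2⟩ := rat_geo W ξ ρ hξ hρ x w hx hw
  obtain ⟨gy1, gy2⟩ := rat_geo W ξ ρ hξ hρ y w hy hw
  rw [← hAx] at gx1 gx2
  rw [← hAy] at gy1 gy2
  have hdw := del_pos W.A w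
  have lx : cl * (Ax * del W.A w / 36) ≤ W.G x w :=
    (mul_le_mul_of_nonneg_left gx1 hcl.le).trans (hl _)
  have ux : W.G x w ≤ Cu * (4 * (Ax * del W.A w)) :=
    (hu _).trans (mul_le_mul_of_nonneg_left gx2 hCu0.le)
  have ly : cl * (Ay * del W.A w / 36) ≤ W.G y w :=
    (mul_le_mul_of_nonneg_left gy1 hcl.le).trans (hl _)
  have uy : W.G y w ≤ Cu * (4 * (Ay * del W.A w)) :=
    (hu _).trans (mul_le_mul_of_nonneg_left gy2 hCu0.le)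
  constructor
  · calc cl / (144 * Cu) * (Ax / Ay) * W.G y w ≤ cl / (144 * Cu) * (Ax / Ay) * (Cu * (4 * (Ay * del W.A w))) :=
          mul_le_mul_of_nonneg_left uy (by positivity)
      _ = cl * (Ax * del W.A w / 36) := by
          field_simp
          norm_num
      _ ≤ W.G x w := lx
  · calc W.G x w ≤ Cu * (4 * (Ax * del W.A w)) := ux
      _ = (144 * Cu / cl) ^ 2 * (cl / (144 * Cu) * (Ax / Ay)) * (cl * (Ay * del W.A w / 36)) := by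
          field_simp
          norm_num
      _ ≤ (144 * Cu / cl) ^ 2 * (cl / (144 * Cu) * (Ax / Ay)) * W.G y w :=
          mul_le_mul_of_nonneg_left ly (by positivity)

/-- iterate `ratio_step` from `ratio_init` -/
theorem ratio_iter (cl Cu : ℝ) (hcl : 0 < cl) (hl : ∀ w, cl * del W.A w ≤ W.R.green w) (hu : ∀ w, W.R.green w ≤ Cu * del W.A w) :
    ∃ q θ C₀ : ℝ, 0 < q ∧ q < 1 ∧ 0 < θ ∧ θ < 1 ∧ 1 ≤ C₀ ∧ ∀ (ξ : ℂ) (ρ : ℝ), ‖ξ‖ = 1 → 0 < ρ → ρ ≤ 1 → ∀ x y, ρ ≤ ‖zz W.A x - ξ‖ → ρ ≤ ‖zz W.A y - ξ‖ →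
      ∃ a b : ℕ → ℝ, 0 < a 0 ∧ b 0 ≤ C₀ * a 0 ∧ ∀ j, a 0 ≤ a j ∧ a j ≤ b j ∧ b j ≤ b 0 ∧ b j - a j ≤ (1 - θ) ^ j * b 0 ∧
        ∀ w ∈ Bl W.A ξ (q ^ j * (ρ / 2)), a j * W.G y w ≤ W.G x w ∧ W.G x w ≤ b j * W.G y w := by
  obtain ⟨q, θ, hq0, hq1, hθ0, hθ1, hstep⟩ := W.ratio_step cl Cu hcl hl hu
  obtain ⟨C₀, hC₀, hinit⟩ := W.ratio_init cl Cu hcl hl hu
  refine ⟨q, θ, C₀, hq0, hq1, hθ0, hθ1, hC₀, ?_⟩
  intro ξ ρ hξ hρ hρ1 x y hx hy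
  obtain ⟨a0, ha0, hw0⟩ := hinit ξ ρ hξ hρ hρ1 x y hx hy
  have hqj : ∀ j : ℕ, 0 < q ^ j * (ρ / 2) ∧ q ^ j * (ρ / 2) ≤ ρ / 2 := by
    intro j
    refine ⟨by positivity, ?_⟩
    exact mul_le_of_le_one_left (by positivity) (pow_le_one₀ hq0.le hq1.le)
  let S : ℕ → Type := fun j => {p : ℝ × ℝ // p.1 ≤ p.2 ∧
    ∀ w ∈ Bl W.A ξ (q ^ j * (ρ / 2)), p.1 * W.G y w ≤ W.G x w ∧ W.G x w ≤ p.2 * W.G y w}
  have step : ∀ (j : ℕ) (p : S j), ∃ p' : S (j + 1), p.1.1 ≤ p'.1.1 ∧ p'.1.2 ≤ p.1.2 ∧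
      p'.1.2 - p'.1.1 ≤ (1 - θ) * (p.1.2 - p.1.1) := by
    intro j p
    obtain ⟨h1, h2⟩ := hqj j
    obtain ⟨a', b', k1, k2, k3, k4, k5⟩ := hstep ξ (q ^ j * (ρ / 2)) hξ h1 (by linarith) x y (by linarith) (by linarith)
      p.1.1 p.1.2 p.2.1 p.2.2
    refine ⟨⟨(a', b'), k2, ?_⟩, k1, k3, k4⟩
    intro w hw
    apply k5 w
    have e : q * (q ^ j * (ρ / 2)) = q ^ (j + 1) * (ρ / 2) := by ring
    rw [e]
    exact hw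
  choose g hg using step
  have hs0 : a0 ≤ C₀ * a0 ∧ ∀ w ∈ Bl W.A ξ (q ^ 0 * (ρ / 2)), a0 * W.G y w ≤ W.G x w ∧ W.G x w ≤ C₀ * a0 * W.G y w := by
    refine ⟨le_mul_of_one_le_left ha0.le hC₀, ?_⟩
    intro w hw
    rw [pow_zero, one_mul] at hw
    exact hw0 w hw
  let s : (j : ℕ) → S j := fun j => Nat.rec (motive := S) ⟨(a0, C₀ * a0), hs0⟩ (fun j p => g j p) j
  have hsj : ∀ j, a0 ≤ (s j).1.1 ∧ (s j).1.2 ≤ C₀ * a0 ∧ (s j).1.2 - (s j).1.1 ≤ (1 - θ) ^ j * (C₀ * a0 - a0) := by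
    intro j
    induction j with
    | zero =>
      refine ⟨le_rfl, le_rfl, ?_⟩
      show C₀ * a0 - a0 ≤ (1 - θ) ^ 0 * (C₀ * a0 - a0)
      rw [pow_zero, one_mul]
    | succ j ih =>
      obtain ⟨i1, i2, i3⟩ := ih
      obtain ⟨k1, k2, k3⟩ := hg j (s j)
      refine ⟨i1.trans k1, k2.trans i2, ?_⟩
      refine k3.trans ?_
      have h1 : (1 - θ) * ((s j).1.2 - (s j).1.1) ≤ (1 - θ) * ((1 - θ) ^ j * (C₀ * a0 - a0)) :=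
        mul_le_mul_of_nonneg_left i3 (by linarith)
      calc (1 - θ) * ((s j).1.2 - (s j).1.1) ≤ (1 - θ) * ((1 - θ) ^ j * (C₀ * a0 - a0)) := h1
        _ = (1 - θ) ^ (j + 1) * (C₀ * a0 - a0) := by ring
  refine ⟨fun j => (s j).1.1, fun j => (s j).1.2, ha0, le_rfl, ?_⟩
  intro j
  obtain ⟨i1, i2, i3⟩ := hsj j
  refine ⟨i1, (s j).2.1, i2, ?_, (s j).2.2⟩
  refine i3.trans ?_
  have h1 : (0 : ℝ) ≤ (1 - θ) ^ j := pow_nonneg (by linarith) j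
  have h2 : C₀ * a0 - a0 ≤ C₀ * a0 := sub_le_self _ ha0.le
  exact mul_le_mul_of_nonneg_left h2 h1

end WD

end Pool.Agent.DimDropH
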