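import Pool.Agent.Lib_MP_644907_h.CLCB
import Pool.Agent.Lib_MP_644907_h.RAT
import Pool.Agent.Lib_MP_644907_h.LEX

/-!
# Piece LOC: local comparison of `ν` and of the limit measure
-/

set_option autoImplicit false

open Complex MeasureTheory Metric Filter
open scoped Topology

namespace Pool.Agent.DimDropH

open Pool.Agent.DimDrop (IsoD)
open Pool.Agent.DimDropF (IG mb dmb)

private theorem loc_ind_meas {E : Set ℂ} (hE : MeasurableSet E) : Measurable (ind E) :=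
  measurable_const.indicator hE

private theorem loc_ind_nonneg (E : Set ℂ) (ζ : ℂ) : 0 ≤ ind E ζ :=
  Set.indicator_nonneg (fun _ _ => zero_le_one) ζ

private theorem loc_ind_le (E : Set ℂ) (ζ : ℂ) : ind E ζ ≤ 1 :=
  Set.indicator_le_self' (fun _ _ => zero_le_one) ζ

private theorem loc_ind_abs (E : Set ℂ) (ζ : ℂ) : |ind E ζ| ≤ 1 := by
  rw [abs_of_nonneg (loc_ind_nonneg E ζ)]
  exact loc_ind_le E ζ

namespace WD

variable {Γ : Type} [Group Γ] {n : ℕ} (W : WD Γ n)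

/-- `exists_pos` with a small `ρ'` (such that `(M + K M) ρ' < r`), `G(1, v) ν_v(E) ≤ g(1) ν_1(E)`, `E = {‖ζ - z_v‖ ≤ K δ_v} ⊆ ball ξ r`, `ν_v(E) ≥ 1/2`, `G(1,v) ≥ cl δ_v ≥ cl ρ'/M` -/
theorem nu_ball_pos (cl : ℝ) (hcl : 0 < cl) (hl : ∀ w, cl * del W.A w ≤ W.R.green w) (r : ℝ) (hr : 0 < r) :
    ∃ m : ℝ, 0 < m ∧ ∀ ξ : ℂ, ‖ξ‖ = 1 → m ≤ W.nu 1 (ind (ball ξ r)) := by
  obtain ⟨M, hM, hpos⟩ := exists_pos W.A
  obtain ⟨K, hK, hconc⟩ := W.conc' (1 / 2) (by norm_num)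
  have ht := W.trans
  have hg1 : 0 < W.R.green 1 := W.R.green_pos ht 1
  have hM0 : 0 < M := lt_of_lt_of_le one_pos hM
  have hK0 : 0 < K := lt_of_lt_of_le two_pos hK
  obtain ⟨ρ, hρ⟩ : ∃ ρ, ρ = min 1 (r / (2 * (M + K * M))) := ⟨_, rfl⟩
  have hMK : 0 < M + K * M := by positivity
  have hρ0 : 0 < ρ := by rw [hρ]; exact lt_min one_pos (by positivity)
  have hρ1 : ρ ≤ 1 := by rw [hρ]; exact min_le_left _ _
  have hρr : (M + K * M) * ρ < r := by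
    have h1 : ρ ≤ r / (2 * (M + K * M)) := by rw [hρ]; exact min_le_right _ _
    have h2 : (M + K * M) * ρ ≤ (M + K * M) * (r / (2 * (M + K * M))) :=
      mul_le_mul_of_nonneg_left h1 hMK.le
    have h3 : (M + K * M) * (r / (2 * (M + K * M))) = r / 2 := by
      field_simp
    linarith
  refine ⟨cl * (ρ / M) * (1 / 2) / W.R.green 1, by positivity, fun ξ hξ => ?_⟩
  obtain ⟨v, hv⟩ := hpos ξ ρ hξ hρ0 hρ1
  obtain ⟨E, hE⟩ : ∃ E : Set ℂ, E = {ζ | ‖ζ - zz W.A v‖ ≤ K * del W.A v} := ⟨_, rfl⟩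
  have hEm : MeasurableSet E := by
    rw [hE]
    exact (isClosed_le (continuous_id.sub continuous_const).norm continuous_const).measurableSet
  have h1 : 1 - 1 / 2 ≤ W.nu v (ind E) := by rw [hE]; exact hconc v
  have h2 := W.R.green_le ht (fun x => W.nu x (ind E))
    (fun x => W.nu_nonneg x _ fun ζ _ => loc_ind_nonneg E ζ)
    (fun x => (W.nu_harm (ind E) (loc_ind_meas hEm) 1 (loc_ind_abs E) x).le) 1 v
  rw [inv_one, one_mul] at h2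
  have hsub : ∀ ζ : ℂ, ‖ζ‖ = 1 → ind E ζ ≤ ind (ball ξ r) ζ := by
    intro ζ _
    by_cases hζ : ζ ∈ E
    · have h3 : ζ ∈ ball ξ r := by
        rw [mem_ball, dist_eq_norm]
        rw [hE] at hζ
        have h4 : ‖ζ - ξ‖ ≤ ‖ζ - zz W.A v‖ + ‖zz W.A v - ξ‖ := norm_sub_le_norm_sub_add_norm_sub _ _ _
        have h5 : ‖ζ - zz W.A v‖ ≤ K * del W.A v := hζ
        have h6 := hv.near
        have h7 : K * del W.A v ≤ K * (M * ρ) := mul_le_mul_of_nonneg_left hv.hi hK0.le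
        nlinarith
      rw [ind, ind, Set.indicator_of_mem hζ, Set.indicator_of_mem h3]
    · rw [ind, Set.indicator_of_notMem hζ]
      exact loc_ind_nonneg _ ζ
  have h3 : W.nu 1 (ind E) ≤ W.nu 1 (ind (ball ξ r)) :=
    W.nu_mono 1 _ _ (loc_ind_meas hEm) (loc_ind_meas measurableSet_ball) 1 (loc_ind_abs E)
      (loc_ind_abs _) hsub
  have h4 : cl * (ρ / M) ≤ W.R.green v := by
    have h5 : ρ / M ≤ del W.A v := by
      rw [div_le_iff₀ hM0]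
      have := hv.lo
      linarith
    exact (mul_le_mul_of_nonneg_left h5 hcl.le).trans (hl v)
  rw [div_le_iff₀ hg1]
  have h5 : cl * (ρ / M) * (1 / 2) ≤ W.R.green v * W.nu v (ind E) :=
    mul_le_mul h4 (by linarith) (by norm_num) (le_trans (by positivity) h4)
  have h6 : W.R.green 1 * W.nu 1 (ind E) ≤ W.R.green 1 * W.nu 1 (ind (ball ξ r)) :=
    mul_le_mul_of_nonneg_left h3 hg1.le
  have h7 : W.R.green v * W.nu v (ind E) ≤ W.R.green 1 * W.nu 1 (ind E) := h2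
  linarith

/-- Let `q, θ, C₀'` be from `ratio_iter`, `d'` from `last_exit`, `ρ₀ = min 1 (κ/2)`. For `k` large `‖z_{x k} - ξ‖ ≥ ρ₀`, and `‖z_1 - ξ‖ = 1`. `ratio_iter` for `x k` and `1` gives `a_j^k, b_j^k`; `last_exit` with radius `q^j ρ₀/2`:
`a_j^k ν(F) ≤ ν_{x k}(F) ≤ b_j^k ν(F)` for `F` supported in `‖ζ - ξ‖ < d' q^j ρ₀/2`. For a bump function `F₀` at `ξ` supported there for `j = 0`, `F₀ = 1` on a ball of half the radius: `ν(F₀) ≥ m` (`nu_ball_pos`), `lam p F₀` between two positive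
constants not depending on `ξ` (`lam_ge`, `lam_le`), `c k ν_{x k}(F₀) → lam p F₀`: so `c k a_0^k` and `c k b_0^k` are between two positive constants for `k` large. Take limits `a, b` of `c k a_j^k`, `c k b_j^k` along a subsequence. -/
theorem local_bounds (p : ℂ) (x : ℕ → Γ) (c : ℕ → ℝ) (hT : W.Tangent p x c) (cl Cu : ℝ) (hcl : 0 < cl) (hl : ∀ w, cl * del W.A w ≤ W.R.green w)
    (hu : ∀ w, W.R.green w ≤ Cu * del W.A w) (C : ℝ) (hC : 0 < C) (hb : ∀ (q : ℂ) (r : ℝ), 0 < r → W.nu 1 (ind (closedBall q r)) ≤ C * r)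
    (κ : ℝ) (hκ : 0 < κ) :
    ∃ q θ d C₀ : ℝ, 0 < q ∧ q < 1 ∧ 0 < θ ∧ θ < 1 ∧ 0 < d ∧ 0 < C₀ ∧ ∀ ξ : ℂ, ‖ξ‖ = 1 → κ ≤ ‖ξ - p‖ → ∀ j : ℕ,
      ∃ a b : ℝ, 1 / C₀ ≤ a ∧ a ≤ b ∧ b ≤ C₀ ∧ b - a ≤ C₀ * (1 - θ) ^ j ∧
        ∀ F : ℂ → ℝ, Continuous F → (∀ ζ, 0 ≤ F ζ) → (∀ ζ, F ζ ≤ 1) → (∀ ζ : ℂ, d * q ^ j ≤ ‖ζ - ξ‖ → F ζ = 0) →
          a * W.nu 1 F ≤ lam p F ∧ lam p F ≤ b * W.nu 1 F := by
  obtain ⟨q, θ, B, hq0, hq1, hθ0, hθ1, hB1, hiter⟩ := W.ratio_iter cl Cu hcl hl hu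
  obtain ⟨d', hd0, hd1, hexit⟩ := W.last_exit C hC hb
  obtain ⟨ρ, hρ⟩ : ∃ ρ, ρ = min 1 (κ / 2) := ⟨_, rfl⟩
  have hρ0 : 0 < ρ := by rw [hρ]; exact lt_min one_pos (by positivity)
  have hρ1 : ρ ≤ 1 := by rw [hρ]; exact min_le_left _ _
  have hρκ : ρ ≤ κ / 2 := by rw [hρ]; exact min_le_right _ _
  have hB0 : 0 < B := lt_of_lt_of_le one_pos hB1
  -- radius of the bump function
  obtain ⟨R, hR⟩ : ∃ R, R = d' * (ρ / 2) := ⟨_, rfl⟩
  have hR0 : 0 < R := by rw [hR]; positivity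
  have hRρ : R ≤ ρ / 4 := by
    rw [hR]
    nlinarith
  obtain ⟨m, hm0, hm⟩ := W.nu_ball_pos cl hcl hl (R / 2) (by positivity)
  obtain ⟨U, hU⟩ : ∃ U, U = 32 / κ ^ 2 * R + 1 := ⟨_, rfl⟩
  have hU0 : 0 < U := by rw [hU]; positivity
  obtain ⟨C₀, hC₀⟩ : ∃ C₀, C₀ = max (16 * B / R) (B * (U / m)) := ⟨_, rfl⟩
  have hC₀0 : 0 < C₀ := by rw [hC₀]; exact lt_max_of_lt_left (by positivity)
  refine ⟨q, θ, R, C₀, hq0, hq1, hθ0, hθ1, hR0, hC₀0, fun ξ hξ hξp j => ?_⟩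
  have hqj0 : 0 < q ^ j := pow_pos hq0 j
  have hqj1 : q ^ j ≤ 1 := pow_le_one₀ hq0.le hq1.le
  -- for large k
  have hfar : ∀ᶠ k in atTop, ρ ≤ ‖zz W.A (x k) - ξ‖ := by
    have h1 : Tendsto (fun k => ‖zz W.A (x k) - ξ‖) atTop (𝓝 ‖p - ξ‖) :=
      (hT.hx.sub_const ξ).norm
    have h2 : κ / 2 < ‖p - ξ‖ := by rw [norm_sub_rev]; linarith
    filter_upwards [h1.eventually (lt_mem_nhds h2)] with k hk
    linarith
  have hone : ρ ≤ ‖zz W.A 1 - ξ‖ := by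
    rw [zz_one, zero_sub, norm_neg, hξ]; exact hρ1
  -- functions supported near ξ vanish near p
  have hnear : ∀ ζ : ℂ, ‖ζ - p‖ < κ / 2 → κ / 2 ≤ ‖ζ - ξ‖ := by
    intro ζ hζ
    have h1 : ‖ξ - p‖ ≤ ‖ξ - ζ‖ + ‖ζ - p‖ := norm_sub_le_norm_sub_add_norm_sub _ _ _
    rw [norm_sub_rev ξ ζ] at h1
    linarith
  -- the bump function
  obtain ⟨F₀, hF₀⟩ : ∃ F₀ : ℂ → ℝ, F₀ = fun ζ => max 0 (min 1 (2 - 2 * ‖ζ - ξ‖ / R)) := ⟨_, rfl⟩
  have hF₀c : Continuous F₀ := by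
    rw [hF₀]
    fun_prop
  have hF₀0 : ∀ ζ, 0 ≤ F₀ ζ := fun ζ => by rw [hF₀]; exact le_max_left _ _
  have hF₀1 : ∀ ζ, F₀ ζ ≤ 1 := fun ζ => by
    rw [hF₀]; exact max_le zero_le_one (min_le_left _ _)
  have hF₀out : ∀ ζ : ℂ, R ≤ ‖ζ - ξ‖ → F₀ ζ = 0 := by
    intro ζ hζ
    rw [hF₀]
    have h1 : 2 - 2 * ‖ζ - ξ‖ / R ≤ 0 := by
      have : 2 ≤ 2 * ‖ζ - ξ‖ / R := by rw [le_div_iff₀ hR0]; linarith
      linarith
    exact max_eq_left (le_trans (min_le_right _ _) h1)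
  have hF₀in : ∀ ζ : ℂ, ‖ζ - ξ‖ ≤ R / 2 → 1 ≤ F₀ ζ := by
    intro ζ hζ
    rw [hF₀]
    have h1 : 1 ≤ 2 - 2 * ‖ζ - ξ‖ / R := by
      have : 2 * ‖ζ - ξ‖ / R ≤ 1 := by rw [div_le_iff₀ hR0]; linarith
      linarith
    exact le_max_of_le_right (le_min le_rfl h1)
  have hnuF₀m : m ≤ W.nu 1 F₀ := by
    refine (hm ξ hξ).trans (W.nu_mono 1 _ _ (loc_ind_meas measurableSet_ball) hF₀c.measurable 1
      (loc_ind_abs _) (fun ζ => by rw [abs_of_nonneg (hF₀0 ζ)]; exact hF₀1 ζ) fun ζ _ => ?_)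
    by_cases hζ : ζ ∈ ball ξ (R / 2)
    · rw [ind, Set.indicator_of_mem hζ]
      rw [mem_ball, dist_eq_norm] at hζ
      exact hF₀in ζ hζ.le
    · rw [ind, Set.indicator_of_notMem hζ]
      exact hF₀0 ζ
  have hnuF₀1 : W.nu 1 F₀ ≤ 1 :=
    (le_abs_self _).trans (W.nu_le 1 F₀ hF₀c.measurable 1 fun ζ => by
      rw [abs_of_nonneg (hF₀0 ζ)]; exact hF₀1 ζ)
  have hlamlo : R / 8 ≤ lam p F₀ := by
    have h1 := lam_ge p ξ hT.hp hξ (R / 2) (by positivity) (by linarith) F₀ hF₀c hF₀0 (κ / 2)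
      (by positivity) (fun ζ hζ => hF₀out ζ (by have := hnear ζ hζ; linarith)) hF₀in
    linarith
  have hlamhi : lam p F₀ ≤ 32 / κ ^ 2 * R := by
    have h1 := lam_le p ξ hT.hp hξ κ 0 R hκ hR0.le (by linarith) (by linarith) hξp F₀ hF₀c hF₀0 hF₀1
      (fun ζ hζ => by
        rcases hζ with h | h
        · exact absurd h (not_lt.mpr (norm_nonneg _))
        · exact hF₀out ζ h.le)
    rwa [sub_zero] at h1
  have hlimF₀ : Tendsto (fun k => c k * W.nu (x k) F₀) atTop (𝓝 (lam p F₀)) :=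
    hT.lim F₀ hF₀c ⟨κ / 2, by positivity, fun ζ hζ => hF₀out ζ (by have := hnear ζ hζ; linarith)⟩
  have hev1 : ∀ᶠ k in atTop, R / 16 < c k * W.nu (x k) F₀ :=
    hlimF₀.eventually (lt_mem_nhds (by linarith))
  have hev2 : ∀ᶠ k in atTop, c k * W.nu (x k) F₀ < U :=
    hlimF₀.eventually (gt_mem_nhds (by rw [hU]; linarith))
  -- the two sequences
  have hmain : ∀ᶠ k in atTop, ∃ a b : ℝ, 1 / C₀ ≤ c k * a ∧ c k * a ≤ c k * b ∧ c k * b ≤ C₀ ∧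
      c k * b - c k * a ≤ C₀ * (1 - θ) ^ j ∧
      ∀ F : ℂ → ℝ, Continuous F → (∀ ζ, 0 ≤ F ζ) → (∀ ζ, F ζ ≤ 1) →
        (∀ ζ : ℂ, R * q ^ j ≤ ‖ζ - ξ‖ → F ζ = 0) →
          a * W.nu 1 F ≤ W.nu (x k) F ∧ W.nu (x k) F ≤ b * W.nu 1 F := by
    filter_upwards [hfar, hev1, hev2] with k hk h1 h2
    obtain ⟨a, b, ha0, hb0, hab⟩ := hiter ξ ρ hξ hρ0 hρ1 (x k) 1 hk hone
    have hck := hT.hc k
    have hcmp : ∀ i : ℕ, ∀ F : ℂ → ℝ, Continuous F → (∀ ζ, 0 ≤ F ζ) → (∀ ζ, F ζ ≤ 1) →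
        (∀ ζ : ℂ, R * q ^ i ≤ ‖ζ - ξ‖ → F ζ = 0) →
          a i * W.nu 1 F ≤ W.nu (x k) F ∧ W.nu (x k) F ≤ b i * W.nu 1 F := by
      intro i F hF hF0 hF1 hFs
      obtain ⟨hi1, hi2, hi3, hi4, hi5⟩ := hab i
      have hqi0 : 0 < q ^ i := pow_pos hq0 i
      have hqi1 : q ^ i ≤ 1 := pow_le_one₀ hq0.le hq1.le
      have hr1 : q ^ i * (ρ / 2) ≤ ρ := by nlinarith
      exact hexit ξ (q ^ i * (ρ / 2)) hξ (by positivity) (hr1.trans hρ1) (x k) 1 (hr1.trans hk)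
        (hr1.trans hone) (a i) (b i) (ha0.le.trans hi1) hi5 F hF hF0 hF1
        (fun ζ hζ => hFs ζ (by rw [hR]; linarith))
    obtain ⟨hc1, hc2⟩ := hcmp 0 F₀ hF₀c hF₀0 hF₀1 (fun ζ hζ => hF₀out ζ (by simpa using hζ))
    obtain ⟨hj1, hj2, hj3, hj4, hj5⟩ := hab j
    have hca0 : c k * a 0 ≤ U / m := by
      rw [le_div_iff₀ hm0]
      have h3 : c k * a 0 * m ≤ c k * a 0 * W.nu 1 F₀ :=
        mul_le_mul_of_nonneg_left hnuF₀m (by positivity)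
      have h4 : c k * (a 0 * W.nu 1 F₀) ≤ c k * W.nu (x k) F₀ := mul_le_mul_of_nonneg_left hc1 hck.le
      linarith
    have hcb0 : R / 16 ≤ c k * b 0 := by
      have h4 : c k * W.nu (x k) F₀ ≤ c k * (b 0 * W.nu 1 F₀) := mul_le_mul_of_nonneg_left hc2 hck.le
      have hbnn : 0 ≤ b 0 := by
        have := (hab 0)
        linarith [this.1, this.2.1]
      have h5 : c k * b 0 * W.nu 1 F₀ ≤ c k * b 0 * 1 :=
        mul_le_mul_of_nonneg_left hnuF₀1 (by positivity)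
      linarith
    have hcbB : c k * b 0 ≤ B * (c k * a 0) := by
      have := mul_le_mul_of_nonneg_left hb0 hck.le
      linarith
    have hlo : 1 / C₀ ≤ c k * a 0 := by
      have h3 : R / (16 * B) ≤ c k * a 0 := by
        rw [div_le_iff₀ (by positivity)]
        nlinarith
      refine le_trans ?_ h3
      rw [div_le_div_iff₀ hC₀0 (by positivity)]
      have h4 : 16 * B / R ≤ C₀ := by rw [hC₀]; exact le_max_left _ _
      rw [div_le_iff₀ hR0] at h4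
      linarith
    have hhi : c k * b 0 ≤ C₀ := by
      have h4 : B * (U / m) ≤ C₀ := by rw [hC₀]; exact le_max_right _ _
      have h5 : B * (c k * a 0) ≤ B * (U / m) := mul_le_mul_of_nonneg_left hca0 hB0.le
      linarith
    refine ⟨a j, b j, hlo.trans (mul_le_mul_of_nonneg_left hj1 hck.le),
      mul_le_mul_of_nonneg_left hj2 hck.le, (mul_le_mul_of_nonneg_left hj3 hck.le).trans hhi, ?_,
      hcmp j⟩
    have h6 : c k * (b j - a j) ≤ c k * ((1 - θ) ^ j * b 0) := mul_le_mul_of_nonneg_left hj4 hck.le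
    have h7 : (1 - θ) ^ j * (c k * b 0) ≤ (1 - θ) ^ j * C₀ :=
      mul_le_mul_of_nonneg_left hhi (pow_nonneg (by linarith) j)
    linarith
  -- choose
  obtain ⟨N, hN⟩ := eventually_atTop.mp hmain
  choose! a b h using hN
  have hsub : ∃ᶠ k in atTop, ((c k * a k, c k * b k) : ℝ × ℝ) ∈ Set.Icc (1 / C₀) C₀ ×ˢ Set.Icc (1 / C₀) C₀ := by
    refine Eventually.frequently ?_
    filter_upwards [eventually_ge_atTop N] with k hk
    obtain ⟨h1, h2, h3, h4, h5⟩ := h k hk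
    exact ⟨⟨h1, h2.trans h3⟩, ⟨h1.trans h2, h3⟩⟩
  obtain ⟨⟨a', b'⟩, hab, φ, hφ, hlim⟩ := (isCompact_Icc.prod isCompact_Icc).tendsto_subseq' hsub
  have hla : Tendsto (fun k => c (φ k) * a (φ k)) atTop (𝓝 a') :=
    (continuous_fst.tendsto _).comp hlim
  have hlb : Tendsto (fun k => c (φ k) * b (φ k)) atTop (𝓝 b') :=
    (continuous_snd.tendsto _).comp hlim
  have hφN : ∀ᶠ k in atTop, N ≤ φ k := hφ.tendsto_atTop.eventually (eventually_ge_atTop N)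
  refine ⟨a', b', hab.1.1, ?_, hab.2.2, ?_, fun F hF hF0 hF1 hFs => ?_⟩
  · refine le_of_tendsto_of_tendsto hla hlb ?_
    filter_upwards [hφN] with k hk using (h _ hk).2.1
  · refine le_of_tendsto (hlb.sub hla) ?_
    filter_upwards [hφN] with k hk using (h _ hk).2.2.2.1
  · have hlimF : Tendsto (fun k => c (φ k) * W.nu (x (φ k)) F) atTop (𝓝 (lam p F)) := by
      refine (hT.lim F hF ⟨κ / 2, by positivity, fun ζ hζ => hFs ζ ?_⟩).comp hφ.tendsto_atTop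
      have h1 := hnear ζ hζ
      have h2 : R * q ^ j ≤ R * 1 := mul_le_mul_of_nonneg_left hqj1 hR0.le
      linarith
    constructor
    · refine le_of_tendsto_of_tendsto (hla.mul_const _) hlimF ?_
      filter_upwards [hφN] with k hk
      have h1 := mul_le_mul_of_nonneg_left ((h _ hk).2.2.2.2 F hF hF0 hF1 hFs).1 (hT.hc (φ k)).le
      linarith
    · refine le_of_tendsto_of_tendsto hlimF (hlb.mul_const _) ?_
      filter_upwards [hφN] with k hk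
      have h1 := mul_le_mul_of_nonneg_left ((h _ hk).2.2.2.2 F hF hF0 hF1 hFs).2 (hT.hc (φ k)).le
      linarith

end WD

end Pool.Agent.DimDropH
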