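import Pool.Agent.Lib_MP_644907_h.DEN
import Pool.Agent.Lib_MP_644907_h.LOC
import Pool.Agent.Lib_MP_644907_f.PDEF

/-!
# Piece GLUA: the Hoelder density
-/

set_option autoImplicit false

open Complex MeasureTheory Metric Filter
open scoped Topology

namespace Pool.Agent.DimDropH

open Pool.Agent.DimDrop (IsoD)
open Pool.Agent.DimDropF (IG mb dmb Hol)

/-- change of the exponent for distances at most `2` -/
private theorem glua_rpow (t al al' : ℝ) (ht : 0 ≤ t) (ht2 : t ≤ 2) (hal' : 0 < al') (h1 : al' ≤ al) (h2 : al ≤ 1) :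
    t ^ al ≤ 2 * t ^ al' := by
  rcases ht.eq_or_lt with h | h
  · rw [← h, Real.zero_rpow (by linarith), Real.zero_rpow hal'.ne', mul_zero]
  · have e : t ^ al = t ^ (al - al') * t ^ al' := by
      rw [← Real.rpow_add h]
      congr 1
      ring
    rw [e]
    apply mul_le_mul_of_nonneg_right _ (Real.rpow_nonneg ht _)
    calc t ^ (al - al') ≤ 2 ^ (al - al') := Real.rpow_le_rpow ht ht2 (by linarith)
      _ ≤ 2 ^ (1 : ℝ) := Real.rpow_le_rpow_of_exponent_le (by norm_num) (by linarith)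
      _ = 2 := Real.rpow_one 2

/-- a cut off times a Hoelder function -/
private theorem glua_prod (c : ℂ) (κ al al' C : ℝ) (hκ : 0 < κ) (hal' : 0 < al') (h1 : al' ≤ al) (h2 : al ≤ 1) (hC : 0 ≤ C)
    (φ χ : ℂ → ℝ) (hφ : ∀ ζ : ℂ, ‖ζ‖ = 1 → κ ≤ ‖ζ - c‖ → |φ ζ| ≤ C)
    (hφ2 : ∀ ζ ω : ℂ, ‖ζ‖ = 1 → ‖ω‖ = 1 → κ ≤ ‖ζ - c‖ → κ ≤ ‖ω - c‖ → |φ ζ - φ ω| ≤ C * ‖ζ - ω‖ ^ al)
    (hχ0 : ∀ ζ, 0 ≤ χ ζ) (hχ1 : ∀ ζ, χ ζ ≤ 1) (hχL : ∀ ζ ω, |χ ζ - χ ω| ≤ ‖ζ - ω‖ / κ)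
    (hχs : ∀ ζ : ℂ, ‖ζ - c‖ ≤ 2 * κ → χ ζ = 0) (z w : ℂ) (hz : ‖z‖ = 1) (hw : ‖w‖ = 1) :
    |χ z * φ z - χ w * φ w| ≤ (2 * C + 2 * C / κ) * ‖z - w‖ ^ al' := by
  have ht0 : 0 ≤ ‖z - w‖ := norm_nonneg _
  have ht2 : ‖z - w‖ ≤ 2 := by
    refine (norm_sub_le _ _).trans ?_
    rw [hz, hw]
    norm_num
  have r1 : ‖z - w‖ ^ al ≤ 2 * ‖z - w‖ ^ al' := glua_rpow _ _ _ ht0 ht2 hal' h1 h2
  have r2 : ‖z - w‖ ≤ 2 * ‖z - w‖ ^ al' := by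
    have := glua_rpow ‖z - w‖ 1 al' ht0 ht2 hal' (h1.trans h2) le_rfl
    rwa [Real.rpow_one] at this
  have hCκ : 0 ≤ C / κ := by positivity
  have hT : 0 ≤ ‖z - w‖ ^ al' := Real.rpow_nonneg ht0 _
  -- one point in the region, the other not
  have key : ∀ u v : ℂ, ‖u‖ = 1 → κ ≤ ‖u - c‖ → ‖v - c‖ < κ → ‖u - v‖ = ‖z - w‖ →
      |χ u * φ u - χ v * φ v| ≤ (2 * C + 2 * C / κ) * ‖z - w‖ ^ al' := by
    intro u v hu hu1 hv1 huv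
    have hv0 : χ v = 0 := hχs v (by linarith)
    rw [hv0, zero_mul, sub_zero, abs_mul, abs_of_nonneg (hχ0 u)]
    have hL := hχL u v
    rw [hv0, sub_zero, abs_of_nonneg (hχ0 u), huv] at hL
    calc χ u * |φ u| ≤ (‖z - w‖ / κ) * C := mul_le_mul hL (hφ u hu hu1) (abs_nonneg _) (by positivity)
      _ = C / κ * ‖z - w‖ := by ring
      _ ≤ C / κ * (2 * ‖z - w‖ ^ al') := mul_le_mul_of_nonneg_left r2 hCκ
      _ = (2 * C / κ) * ‖z - w‖ ^ al' := by ring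
      _ ≤ (2 * C + 2 * C / κ) * ‖z - w‖ ^ al' := by
          apply mul_le_mul_of_nonneg_right _ hT
          linarith
  by_cases hz1 : κ ≤ ‖z - c‖
  · by_cases hw1 : κ ≤ ‖w - c‖
    · have e : χ z * φ z - χ w * φ w = χ z * (φ z - φ w) + (χ z - χ w) * φ w := by ring
      rw [e]
      refine (abs_add_le _ _).trans ?_
      rw [abs_mul, abs_mul, abs_of_nonneg (hχ0 z)]
      have a1 : χ z * |φ z - φ w| ≤ 1 * (C * (2 * ‖z - w‖ ^ al')) :=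
        mul_le_mul (hχ1 z) ((hφ2 z w hz hw hz1 hw1).trans (mul_le_mul_of_nonneg_left r1 hC)) (abs_nonneg _) zero_le_one
      have a2 : |χ z - χ w| * |φ w| ≤ (‖z - w‖ / κ) * C :=
        mul_le_mul (hχL z w) (hφ w hw hw1) (abs_nonneg _) (by positivity)
      have a3 : (‖z - w‖ / κ) * C ≤ C / κ * (2 * ‖z - w‖ ^ al') := by
        have : (‖z - w‖ / κ) * C = C / κ * ‖z - w‖ := by ring
        rw [this]
        exact mul_le_mul_of_nonneg_left r2 hCκ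
      have e2 : (2 * C + 2 * C / κ) * ‖z - w‖ ^ al' = 1 * (C * (2 * ‖z - w‖ ^ al')) + C / κ * (2 * ‖z - w‖ ^ al') := by
        ring
      rw [e2]
      exact add_le_add a1 (a2.trans a3)
    · exact key z w hz hz1 (not_le.1 hw1) rfl
  · by_cases hw1 : κ ≤ ‖w - c‖
    · rw [abs_sub_comm]
      exact key w z hw hw1 (not_le.1 hz1) (norm_sub_rev _ _)
    · have h3 : χ z = 0 := hχs z (by linarith [not_le.1 hz1])
      have h4 : χ w = 0 := hχs w (by linarith [not_le.1 hw1])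
      rw [h3, h4, zero_mul, zero_mul, sub_zero, abs_zero]
      positivity

/-- the cut off function -/
private theorem glua_cut (p : ℂ) (κ : ℝ) (hκ : 0 < κ) : ∃ χ : ℂ → ℝ, Continuous χ ∧ (∀ ζ, 0 ≤ χ ζ) ∧ (∀ ζ, χ ζ ≤ 1) ∧
    (∀ ζ ω, |χ ζ - χ ω| ≤ ‖ζ - ω‖ / κ) ∧ (∀ ζ : ℂ, ‖ζ - p‖ ≤ 2 * κ → χ ζ = 0) ∧ (∀ ζ : ℂ, 3 * κ ≤ ‖ζ - p‖ → χ ζ = 1) := by
  refine ⟨fun ζ => max 0 (min 1 ((‖ζ - p‖ - 2 * κ) / κ)), ?_, ?_, ?_, ?_, ?_, ?_⟩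
  · have h : Continuous fun ζ : ℂ => (‖ζ - p‖ - 2 * κ) / κ :=
      ((continuous_norm.comp (continuous_id.sub continuous_const)).sub continuous_const).div_const κ
    exact continuous_const.max (continuous_const.min h)
  · intro ζ
    exact le_max_left _ _
  · intro ζ
    exact max_le zero_le_one (min_le_left _ _)
  · intro ζ ω
    have h1 : |max 0 (min 1 ((‖ζ - p‖ - 2 * κ) / κ)) - max 0 (min 1 ((‖ω - p‖ - 2 * κ) / κ))| ≤
        |min 1 ((‖ζ - p‖ - 2 * κ) / κ) - min 1 ((‖ω - p‖ - 2 * κ) / κ)| := by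
      rw [max_comm 0, max_comm 0]
      exact abs_max_sub_max_le_abs _ _ _
    have h2 : |min 1 ((‖ζ - p‖ - 2 * κ) / κ) - min 1 ((‖ω - p‖ - 2 * κ) / κ)| ≤
        |(‖ζ - p‖ - 2 * κ) / κ - (‖ω - p‖ - 2 * κ) / κ| := by
      refine (abs_min_sub_min_le_max _ _ _ _).trans ?_
      rw [sub_self, abs_zero]
      exact max_le (abs_nonneg _) le_rfl
    have h3 : (‖ζ - p‖ - 2 * κ) / κ - (‖ω - p‖ - 2 * κ) / κ = (‖ζ - p‖ - ‖ω - p‖) / κ := by ring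
    refine (h1.trans h2).trans ?_
    rw [h3, abs_div, abs_of_pos hκ]
    apply div_le_div_of_nonneg_right _ hκ.le
    have h4 := abs_norm_sub_norm_le (ζ - p) (ω - p)
    rwa [sub_sub_sub_cancel_right] at h4
  · intro ζ h
    have h1 : (‖ζ - p‖ - 2 * κ) / κ ≤ 0 := div_nonpos_of_nonpos_of_nonneg (by linarith) hκ.le
    exact max_eq_left ((min_le_right _ _).trans h1)
  · intro ζ h
    have h1 : 1 ≤ (‖ζ - p‖ - 2 * κ) / κ := by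
      rw [le_div_iff₀ hκ]
      linarith
    show max 0 (min 1 ((‖ζ - p‖ - 2 * κ) / κ)) = 1
    rw [min_eq_left h1]
    exact max_eq_right zero_le_one

/-- Hoelder functions are continuous along the circle -/
private theorem glua_cont (ψ : ℂ → ℝ) (al C : ℝ) (hal : 0 < al)
    (h : ∀ z w : ℂ, ‖z‖ = 1 → ‖w‖ = 1 → |ψ z - ψ w| ≤ C * ‖z - w‖ ^ al) :
    Continuous fun θ : ℝ => ψ (circleMap 0 1 θ) := by
  rw [continuous_iff_continuousAt]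
  intro θ₀
  rw [ContinuousAt, tendsto_iff_dist_tendsto_zero]
  have hc : Continuous fun θ : ℝ => C * ‖circleMap 0 1 θ - circleMap 0 1 θ₀‖ ^ al := by
    apply continuous_const.mul
    apply Continuous.rpow_const
    · exact continuous_norm.comp ((continuous_circleMap 0 1).sub continuous_const)
    · intro _
      exact Or.inr hal.le
  have h0 : Tendsto (fun θ : ℝ => C * ‖circleMap 0 1 θ - circleMap 0 1 θ₀‖ ^ al) (𝓝 θ₀) (𝓝 0) := by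
    have := hc.tendsto θ₀
    simp only [sub_self, norm_zero] at this
    rwa [Real.zero_rpow hal.ne', mul_zero] at this
  have hn : ∀ θ : ℝ, ‖circleMap 0 1 θ‖ = 1 := by
    intro θ
    rw [norm_circleMap_zero, abs_one]
  refine squeeze_zero (fun _ => dist_nonneg) (fun θ => ?_) h0
  rw [Real.dist_eq]
  exact h _ _ (hn θ) (hn θ₀)

namespace WD

variable {Γ : Type} [Group Γ] {n : ℕ} (W : WD Γ n)

private theorem glua_integ (F : ℂ → ℝ) (hF : Continuous F) : Integrable (fun ζ => F (W.A.f 1 ζ)) W.ν := by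
  have := W.prob
  obtain ⟨M, hM⟩ := (isCompact_sphere (0 : ℂ) 1).exists_bound_of_continuousOn hF.continuousOn
  refine Integrable.of_bound ((hF.measurable.comp_aemeasurable (W.aemeas 1)).aestronglyMeasurable) M ?_
  filter_upwards [W.ae_circle] with ζ hζ
  apply hM
  rw [mem_sphere, dist_zero_right, W.A.one' ζ hζ.le]
  exact hζ

/-- all hypotheses of `density_away` from a tangent situation: `bdd_ball`, `green_up`, `green_lo`, `local_bounds`, `nu_ball_pos` -/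
theorem density_tan (p : ℂ) (x : ℕ → Γ) (c : ℕ → ℝ) (hT : W.Tangent p x c) (γ : Γ) (hγ : W.A.f γ p ≠ p) (κ : ℝ) (hκ : 0 < κ) :
    ∃ (φ : ℂ → ℝ) (al C : ℝ), 0 < al ∧ al ≤ 1 ∧ 0 ≤ C ∧ (∀ ζ : ℂ, ‖ζ‖ = 1 → κ ≤ ‖ζ - p‖ → |φ ζ| ≤ C) ∧
      (∀ ζ ω : ℂ, ‖ζ‖ = 1 → ‖ω‖ = 1 → κ ≤ ‖ζ - p‖ → κ ≤ ‖ω - p‖ → |φ ζ - φ ω| ≤ C * ‖ζ - ω‖ ^ al) ∧
      ∀ F : ℂ → ℝ, Continuous F → (∀ ζ : ℂ, ‖ζ - p‖ ≤ 2 * κ → F ζ = 0) →
        W.nu 1 F = ∫ θ in (0:ℝ)..(2 * Real.pi), F (circleMap 0 1 θ) * φ (circleMap 0 1 θ) := by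
  obtain ⟨C, hC, hb⟩ := W.bdd_ball p x c hT γ hγ
  obtain ⟨Cu, hCu, hu⟩ := W.green_up C hC hb
  obtain ⟨cl, hcl, hl⟩ := W.green_lo p x c hT γ hγ Cu hCu hu
  obtain ⟨q, θ, d, C₀, hq, hq1, hθ, hθ1, hd, hC₀, hloc⟩ := W.local_bounds p x c hT cl Cu hcl hl hu C hC hb κ hκ
  exact W.density_away p hT.hp κ hκ (fun r hr => W.nu_ball_pos cl hcl hl r hr) q θ d C₀ hq hq1 hθ hθ1 hd hC₀ hloc

/-- `p' = f γ p`, `κ = ‖p - p'‖/8`, `φ₁, φ₂` from `density_tan` for `p` and for `p'` (`tangent_move`; for `p'` use `γ⁻¹`: `f γ⁻¹ p' = p ≠ p'`). `χ₁ ζ = max 0 (min 1 ((‖ζ-p‖ - 2κ)/κ))`, `χ₂ = 1 - χ₁` (supported in `‖ζ - p‖ ≤ 3κ`, so `‖ζ - p'‖ ≥ 5κ`).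
`φ = χ₁ φ₁ + χ₂ φ₂`; `ν(F) = ν(F χ₁) + ν(F χ₂)`. Hoelder with the smaller exponent (distances on the circle are `≤ 2`). -/
theorem holder_density (p : ℂ) (x : ℕ → Γ) (c : ℕ → ℝ) (hT : W.Tangent p x c) (γ : Γ) (hγ : W.A.f γ p ≠ p) :
    ∃ (φ : ℂ → ℝ) (al C : ℝ), 0 < al ∧ al ≤ 1 ∧ 0 ≤ C ∧ Hol φ al C ∧
      ∀ F : ℂ → ℝ, Continuous F → W.nu 1 F = ∫ θ in (0:ℝ)..(2 * Real.pi), F (circleMap 0 1 θ) * φ (circleMap 0 1 θ) := by
  set p' : ℂ := W.A.f γ p with hp'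
  have hd : 0 < ‖p' - p‖ := norm_pos_iff.2 (sub_ne_zero.2 hγ)
  set κ : ℝ := ‖p' - p‖ / 8 with hκd
  have hκ : 0 < κ := by positivity
  have hT' := tangent_move W p x c hT γ
  have hγ' : W.A.f γ⁻¹ p' ≠ p' := by
    rw [hp', f_inv W.A γ p hT.hp.le]
    exact fun h => hγ h.symm
  obtain ⟨φ₁, a₁, C₁, ha₁, ha₁', hC₁, hb₁, hh₁, hi₁⟩ := W.density_tan p x c hT γ hγ κ hκ
  obtain ⟨φ₂, a₂, C₂, ha₂, ha₂', hC₂, hb₂, hh₂, hi₂⟩ := W.density_tan p' _ _ hT' γ⁻¹ hγ' κ hκ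
  obtain ⟨χ, hχc, hχ0, hχ1, hχL, hχs, hχt⟩ := glua_cut p κ hκ
  have hal : 0 < min a₁ a₂ := lt_min ha₁ ha₂
  have hχ2s : ∀ ζ : ℂ, ‖ζ - p'‖ ≤ 2 * κ → 1 - χ ζ = 0 := by
    intro ζ h
    rw [hχt ζ, sub_self]
    have h1 : ‖p' - p‖ ≤ ‖ζ - p‖ + ‖ζ - p'‖ := by
      have e : p' - p = (ζ - p) - (ζ - p') := by ring
      rw [e]
      exact norm_sub_le _ _
    have h2 : ‖p' - p‖ = 8 * κ := by
      rw [hκd]
      ring
    linarith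
  have H1 : ∀ z w : ℂ, ‖z‖ = 1 → ‖w‖ = 1 → |χ z * φ₁ z - χ w * φ₁ w| ≤ (2 * C₁ + 2 * C₁ / κ) * ‖z - w‖ ^ (min a₁ a₂) :=
    fun z w hz hw => glua_prod p κ a₁ _ C₁ hκ hal (min_le_left _ _) ha₁' hC₁ φ₁ χ hb₁ hh₁ hχ0 hχ1 hχL hχs z w hz hw
  have H2 : ∀ z w : ℂ, ‖z‖ = 1 → ‖w‖ = 1 →
      |(1 - χ z) * φ₂ z - (1 - χ w) * φ₂ w| ≤ (2 * C₂ + 2 * C₂ / κ) * ‖z - w‖ ^ (min a₁ a₂) := by
    intro z w hz hw
    refine glua_prod p' κ a₂ _ C₂ hκ hal (min_le_right _ _) ha₂' hC₂ φ₂ (fun ζ => 1 - χ ζ) hb₂ hh₂ ?_ ?_ ?_ hχ2s z w hz hw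
    · intro ζ
      linarith [hχ1 ζ]
    · intro ζ
      linarith [hχ0 ζ]
    · intro ζ ω
      have e : (1 - χ ζ) - (1 - χ ω) = -(χ ζ - χ ω) := by ring
      rw [e, abs_neg]
      exact hχL ζ ω
  refine ⟨fun ζ => χ ζ * φ₁ ζ + (1 - χ ζ) * φ₂ ζ, min a₁ a₂, (2 * C₁ + 2 * C₁ / κ) + (2 * C₂ + 2 * C₂ / κ), hal,
    (min_le_left _ _).trans ha₁', by positivity, ?_, ?_⟩
  · intro z w hz hw
    have e : χ z * φ₁ z + (1 - χ z) * φ₂ z - (χ w * φ₁ w + (1 - χ w) * φ₂ w) =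
        (χ z * φ₁ z - χ w * φ₁ w) + ((1 - χ z) * φ₂ z - (1 - χ w) * φ₂ w) := by ring
    show |χ z * φ₁ z + (1 - χ z) * φ₂ z - (χ w * φ₁ w + (1 - χ w) * φ₂ w)| ≤ _
    rw [e, add_mul]
    exact (abs_add_le _ _).trans (add_le_add (H1 z w hz hw) (H2 z w hz hw))
  · intro F hF
    have c1 : Continuous fun ζ => F ζ * χ ζ := hF.mul hχc
    have c2 : Continuous fun ζ => F ζ * (1 - χ ζ) := hF.mul (continuous_const.sub hχc)
    have i1 := hi₁ (fun ζ => F ζ * χ ζ) c1 (by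
      intro ζ h
      show F ζ * χ ζ = 0
      rw [hχs ζ h, mul_zero])
    have i2 := hi₂ (fun ζ => F ζ * (1 - χ ζ)) c2 (by
      intro ζ h
      show F ζ * (1 - χ ζ) = 0
      rw [hχ2s ζ h, mul_zero])
    have e1 : W.nu 1 F = W.nu 1 (fun ζ => F ζ * χ ζ) + W.nu 1 (fun ζ => F ζ * (1 - χ ζ)) := by
      unfold nu
      rw [← integral_add (W.glua_integ _ c1) (W.glua_integ _ c2)]
      congr 1
      funext ζ
      ring
    rw [e1, i1, i2]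
    have hFc : Continuous fun θ : ℝ => F (circleMap 0 1 θ) := hF.comp (continuous_circleMap 0 1)
    have k1 := glua_cont _ _ _ hal H1
    have k2 := glua_cont _ _ _ hal H2
    rw [← intervalIntegral.integral_add]
    · congr 1
      funext θ
      ring
    · have : (fun θ : ℝ => F (circleMap 0 1 θ) * χ (circleMap 0 1 θ) * φ₁ (circleMap 0 1 θ)) =
          fun θ : ℝ => F (circleMap 0 1 θ) * (χ (circleMap 0 1 θ) * φ₁ (circleMap 0 1 θ)) := by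
        funext θ
        ring
      show IntervalIntegrable (fun θ : ℝ => F (circleMap 0 1 θ) * χ (circleMap 0 1 θ) * φ₁ (circleMap 0 1 θ)) volume 0 (2 * Real.pi)
      rw [this]
      exact (hFc.mul k1).intervalIntegrable _ _
    · have : (fun θ : ℝ => F (circleMap 0 1 θ) * (1 - χ (circleMap 0 1 θ)) * φ₂ (circleMap 0 1 θ)) =
          fun θ : ℝ => F (circleMap 0 1 θ) * ((1 - χ (circleMap 0 1 θ)) * φ₂ (circleMap 0 1 θ)) := by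
        funext θ
        ring
      show IntervalIntegrable (fun θ : ℝ => F (circleMap 0 1 θ) * (1 - χ (circleMap 0 1 θ)) * φ₂ (circleMap 0 1 θ)) volume 0 (2 * Real.pi)
      rw [this]
      exact (hFc.mul k2).intervalIntegrable _ _

end WD

end Pool.Agent.DimDropH
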