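import Mathlib

/-!
# MP_644907_pr, block H: random walks on groups, definitions
-/

set_option autoImplicit false

open scoped Topology
open Filter

namespace Pool.Agent.DimDropH

/-- a finitely supported random walk on a group: `X_{k+1} = X_k * e i` with probability `p i`; the `e i` generate the group as a semigroup -/
structure RW (Γ : Type) [Group Γ] (n : ℕ) where
  p : Fin n → ℝ
  hp : ∀ i, 0 < p i
  hp1 : ∑ i, p i = 1
  e : Fin n → Γ
  gen : ∀ T : Set Γ, (∀ i, e i ∈ T) → (∀ x ∈ T, ∀ y ∈ T, x * y ∈ T) → ∀ γ, γ ∈ T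

namespace RW

variable {Γ : Type} [Group Γ] {n : ℕ} (R : RW Γ n)

/-- the transition operator -/
def P (h : Γ → ℝ) (x : Γ) : ℝ := ∑ i, R.p i * h (x * R.e i)

/-- the transition operator of the reversed walk -/
def Q (h : Γ → ℝ) (x : Γ) : ℝ := ∑ i, R.p i * h (x * (R.e i)⁻¹)

open Classical in
/-- the law of `X_k` -/
noncomputable def pk : ℕ → Γ → ℝ
  | 0, w => if w = 1 then 1 else 0
  | k + 1, w => ∑ i, R.p i * pk k (w * (R.e i)⁻¹)

/-- transience -/
def Trans : Prop := ∀ w, Summable (fun k => R.pk k w)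

/-- the Green function, `G(x, y) = green (x⁻¹ y)` -/
noncomputable def green (w : Γ) : ℝ := ∑' k, R.pk k w

end RW

end Pool.Agent.DimDropH
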