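import Pool.Agent.Lib_MP_644907_f.IGdef
import Pool.Agent.Lib_MP_644907_h.PTDef

/-!
# MP_644907_pr, block H: definitions
-/

set_option autoImplicit false

open Complex MeasureTheory Metric Filter
open scoped Topology

namespace Pool.Agent.DimDropH

open Pool.Agent.DimDrop (IsoD)
open Pool.Agent.DimDropF (IG mb dmb)

section geo

variable {Γ : Type} [Group Γ] (A : IG Γ)

/-- the orbit point of `x` -/
noncomputable def zz (x : Γ) : ℂ := A.f x 0

/-- `1 - |z|^2` at the orbit point, comparable to `exp (- d(0, z))` -/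
noncomputable def del (x : Γ) : ℝ := 1 - ‖zz A x‖ ^ 2

/-- orbit points in the ball of centre `η` (on the circle) and radius `ρ` -/
def Bl (η : ℂ) (ρ : ℝ) : Set Γ := {x | ‖zz A x - η‖ < ρ}

/-- the orbit point of `v` is at bounded distance from the point `(1 - ρ) η` -/
structure Pos (M : ℝ) (η : ℂ) (ρ : ℝ) (v : Γ) : Prop where
  near : ‖zz A v - η‖ ≤ M * ρ
  lo : ρ ≤ M * del A v
  hi : del A v ≤ M * ρ

end geo

/-- indicator functions -/
noncomputable def ind (E : Set ℂ) : ℂ → ℝ := E.indicator (fun _ => 1)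

/-- all the data: group, walk, stationary measure without atoms -/
structure WD (Γ : Type) [Group Γ] (n : ℕ) where
  A : IG Γ
  R : RW Γ n
  ν : Measure ℂ
  prob : IsProbabilityMeasure ν
  supp : ν (sphere (0:ℂ) 1)ᶜ = 0
  stat : ∀ E : Set ℂ, MeasurableSet E → ν E = ∑ i, ENNReal.ofReal (R.p i) * ν (A.f (R.e i) ⁻¹' E)
  na : ∀ ζ : ℂ, ν {ζ} = 0

namespace WD

variable {Γ : Type} [Group Γ] {n : ℕ} (W : WD Γ n)

/-- `ν_x (F)`, `ν_x = x_* ν` -/
noncomputable def nu (x : Γ) (F : ℂ → ℝ) : ℝ := ∫ ζ, F (W.A.f x ζ) ∂W.ν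

/-- `G(x, y)` -/
noncomputable def G (x y : Γ) : ℝ := W.R.green (x⁻¹ * y)

/-- `x k` tends to the point `p` of the circle and the rescaled measures `c k * ν_{x k}` tend to `|ζ - p|^(-2) dθ` away from `p` -/
structure Tangent (p : ℂ) (x : ℕ → Γ) (c : ℕ → ℝ) : Prop where
  hp : ‖p‖ = 1
  hc : ∀ k, 0 < c k
  hx : Tendsto (fun k => zz W.A (x k)) atTop (𝓝 p)
  lim : ∀ F : ℂ → ℝ, Continuous F → (∃ κ : ℝ, 0 < κ ∧ ∀ ζ : ℂ, ‖ζ - p‖ < κ → F ζ = 0) →
    Tendsto (fun k => c k * W.nu (x k) F) atTop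
      (𝓝 (∫ θ in (0:ℝ)..(2 * Real.pi), F (circleMap 0 1 θ) / ‖circleMap 0 1 θ - p‖ ^ 2))

end WD

end Pool.Agent.DimDropH
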