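import Pool.Agent.Lib_MP_644907_h.GEOB

/-!
# Piece NF: no finite invariant set on the circle
-/

set_option autoImplicit false

open Complex MeasureTheory Metric Filter
open scoped Topology

namespace Pool.Agent.DimDropH

open Pool.Agent.DimDrop (IsoD)
open Pool.Agent.DimDropF (IG mb dmb)

variable {Γ : Type} [Group Γ]

/-- uniform discreteness: if the `z_{u i}`, `i ∈ s`, are at distance `≤ C t` from a point `q` and `t/M ≤ δ_{u i} ≤ M t` then `1/δ(u i⁻¹ u j) = 1 + ‖z_i - z_j‖^2/(δ_i δ_j) ≤ 1 + 4 C^2 M^2`, so all `u i` are in `u i₀ * (finite set)` (`finite_del`),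
and `#s ≤ N₀` with `N₀` depending on `C, M` only -/
theorem few (A : IG Γ) (C M : ℝ) (hC : 0 < C) (hM : 1 ≤ M) : ∃ N₀ : ℕ, ∀ (q : ℂ) (t : ℝ), 0 < t → ∀ s : Finset Γ,
    (∀ u ∈ s, ‖zz A u - q‖ ≤ C * t ∧ t ≤ M * del A u ∧ del A u ≤ M * t) → s.card ≤ N₀ := by
  have hM0 : 0 < M := by linarith
  set κ : ℝ := 1 / (1 + 4 * C ^ 2 * M ^ 2) with hκ
  have hκ0 : 0 < κ := by positivity
  have hfin := finite_del A κ hκ0
  refine ⟨hfin.toFinset.card, fun q t ht s hs => ?_⟩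
  rcases s.eq_empty_or_nonempty with h | ⟨u₀, hu₀⟩
  · rw [h]
    simp
  · refine Finset.card_le_card_of_injOn (fun u => u₀⁻¹ * u) ?_ ?_
    · intro u hu
      rw [Finset.mem_coe, Set.Finite.mem_toFinset]
      change κ ≤ del A (u₀⁻¹ * u)
      obtain ⟨a1, a2, a3⟩ := hs u₀ hu₀
      obtain ⟨b1, b2, b3⟩ := hs u hu
      have p0 := del_pos A u₀
      have p1 := del_pos A u
      have p2 := del_pos A (u₀⁻¹ * u)
      have h := del_formula A u₀ u
      have h1 : ‖zz A u₀ - zz A u‖ ≤ 2 * (C * t) := by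
        have e : zz A u₀ - zz A u = (zz A u₀ - q) - (zz A u - q) := by ring
        rw [e]
        exact (norm_sub_le _ _).trans (by linarith)
      have h2 : ‖zz A u₀ - zz A u‖ ^ 2 ≤ (2 * (C * t)) ^ 2 := pow_le_pow_left₀ (norm_nonneg _) h1 2
      have h3 : t ^ 2 ≤ M ^ 2 * (del A u₀ * del A u) := by
        calc t ^ 2 = t * t := sq t
          _ ≤ (M * del A u₀) * (M * del A u) := mul_le_mul a2 b2 ht.le (by positivity)
          _ = M ^ 2 * (del A u₀ * del A u) := by ring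
      have h4 : ‖zz A u₀ - zz A u‖ ^ 2 / (del A u₀ * del A u) ≤ 4 * C ^ 2 * M ^ 2 := by
        rw [div_le_iff₀ (by positivity)]
        calc ‖zz A u₀ - zz A u‖ ^ 2 ≤ (2 * (C * t)) ^ 2 := h2
          _ = 4 * C ^ 2 * t ^ 2 := by ring
          _ ≤ 4 * C ^ 2 * (M ^ 2 * (del A u₀ * del A u)) := mul_le_mul_of_nonneg_left h3 (by positivity)
          _ = 4 * C ^ 2 * M ^ 2 * (del A u₀ * del A u) := by ring
      have h5 : 1 / del A (u₀⁻¹ * u) ≤ 1 + 4 * C ^ 2 * M ^ 2 := by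
        rw [h]
        linarith
      rw [hκ, div_le_iff₀ (by positivity)]
      rw [div_le_iff₀ p2] at h5
      linarith
    · intro a _ b _ hab
      exact mul_left_cancel hab

private theorem nf_inf (η : ℂ) (hη : ‖η‖ = 1) (ε : ℝ) (hε : 0 < ε) : {w : ℂ | ‖w‖ = 1 ∧ ‖w - η‖ < ε}.Infinite := by
  have hη0 : η ≠ 0 := norm_ne_zero_iff.1 (by rw [hη]; exact one_ne_zero)
  have hne : ∀ a : ℝ, (1 : ℂ) - I * (a : ℂ) ≠ 0 := by
    intro a h
    have := congrArg Complex.re h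
    simp at this
  have hsq : ∀ a : ℝ, ‖(1 : ℂ) - I * (a : ℂ)‖ ^ 2 = 1 + a ^ 2 := by
    intro a
    rw [← Complex.normSq_eq_norm_sq, Complex.normSq_apply]
    simp
    ring
  have hsq' : ∀ a : ℝ, ‖(1 : ℂ) + I * (a : ℂ)‖ ^ 2 = 1 + a ^ 2 := by
    intro a
    rw [← Complex.normSq_eq_norm_sq, Complex.normSq_apply]
    simp
    ring
  have hnorm : ∀ a : ℝ, ‖(1 : ℂ) + I * (a : ℂ)‖ = ‖(1 : ℂ) - I * (a : ℂ)‖ := by
    intro a
    have h1 := hsq a
    have h2 := hsq' a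
    rw [← h1] at h2
    exact (sq_eq_sq₀ (norm_nonneg _) (norm_nonneg _)).1 h2
  have hge : ∀ a : ℝ, 1 ≤ ‖(1 : ℂ) - I * (a : ℂ)‖ := by
    intro a
    have h := hsq a
    nlinarith [sq_nonneg a, norm_nonneg ((1 : ℂ) - I * (a : ℂ))]
  refine Set.infinite_of_injective_forall_mem
    (f := fun n : ℕ => η * (((1 : ℂ) + I * ((ε / (3 * ((n : ℝ) + 1)) : ℝ) : ℂ)) / ((1 : ℂ) - I * ((ε / (3 * ((n : ℝ) + 1)) : ℝ) : ℂ)))) ?_ ?_
  · intro n m hnm
    have h1 := mul_left_cancel₀ hη0 hnm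
    rw [div_eq_div_iff (hne _) (hne _)] at h1
    have h2 : ((ε / (3 * ((n : ℝ) + 1)) : ℝ) : ℂ) = ((ε / (3 * ((m : ℝ) + 1)) : ℝ) : ℂ) := by
      have h3 : 2 * I * (((ε / (3 * ((n : ℝ) + 1)) : ℝ) : ℂ) - ((ε / (3 * ((m : ℝ) + 1)) : ℝ) : ℂ)) = 0 := by
        linear_combination h1
      rcases mul_eq_zero.1 h3 with h4 | h4
      · exact absurd h4 (mul_ne_zero two_ne_zero I_ne_zero)
      · exact sub_eq_zero.1 h4
    have h5 : ε / (3 * ((n : ℝ) + 1)) = ε / (3 * ((m : ℝ) + 1)) := by exact_mod_cast h2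
    rw [div_eq_div_iff (by positivity) (by positivity)] at h5
    have h6 : (m : ℝ) = n := by
      have h7 := mul_left_cancel₀ hε.ne' h5
      linarith
    exact_mod_cast h6.symm
  · intro n
    set a : ℝ := ε / (3 * ((n : ℝ) + 1)) with ha
    have ha0 : 0 < a := by positivity
    have ha1 : a ≤ ε / 3 := by
      rw [ha]
      apply div_le_div_of_nonneg_left hε.le (by norm_num)
      have : (0 : ℝ) ≤ n := Nat.cast_nonneg n
      linarith
    have hp : 0 < ‖(1 : ℂ) - I * (a : ℂ)‖ := by linarith [hge a]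
    refine ⟨?_, ?_⟩
    · rw [norm_mul, hη, norm_div, hnorm, div_self hp.ne', one_mul]
    · have e : η * (((1 : ℂ) + I * (a : ℂ)) / ((1 : ℂ) - I * (a : ℂ))) - η = η * ((2 * I * (a : ℂ)) / ((1 : ℂ) - I * (a : ℂ))) := by
        have := hne a
        field_simp
        ring
      rw [e, norm_mul, hη, one_mul, norm_div, norm_mul, norm_mul, Complex.norm_I, Complex.norm_real, Complex.norm_ofNat,
        Real.norm_eq_abs, abs_of_pos ha0, mul_one, div_lt_iff₀ hp]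
      nlinarith [hge a]

/-- Choose an arc of the circle at distance `≥ c > 0` from the finite set `Z`, and in it many points `η_i`, `i < N`; for `t` small the elements `v_i` with `Pos M η_i t v_i` are distinct, `‖z_{v_i} - ζ‖ ≥ c/2` for `ζ ∈ Z`. Let `u_i = v_i⁻¹`, `δ_{u_i} = δ_{v_i}`
(`del_inv`). Fix `ζ ∈ Z`; `q_i = f u_i ζ ∈ Z`, `f v_i q_i = ζ`, so by `bd3` `‖q_i - z_{u_i}‖ = δ_{v_i}/‖ζ - z_{v_i}‖ ≤ (2 M/c) t`. For each `q ∈ Z` at most `N₀` of the `u_i` (`few`): `N ≤ N₀ #Z`, contradiction for `N` large. -/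
theorem no_finite (A : IG Γ) (Z : Set ℂ) (hZ : Z.Finite) (hne : Z.Nonempty) (hZ1 : ∀ ζ ∈ Z, ‖ζ‖ = 1) (hinv : ∀ γ, ∀ ζ ∈ Z, A.f γ ζ ∈ Z) : False := by
  classical
  obtain ⟨M, hM, hpos⟩ := exists_pos A
  have hM0 : 0 < M := by linarith
  obtain ⟨ζ₀, hζ₀⟩ := hne
  have hζ₀1 := hZ1 ζ₀ hζ₀
  -- a point of the circle outside `Z`
  obtain ⟨ηs, hηs, hηsZ⟩ := (nf_inf ζ₀ hζ₀1 3 (by norm_num)).exists_notMem_finite hZ
  have hηs1 : ‖ηs‖ = 1 := hηs.1
  have hc0 : 0 < ‖ζ₀ - ηs‖ := norm_pos_iff.2 (sub_ne_zero.2 (fun h => hηsZ (h ▸ hζ₀)))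
  set c : ℝ := ‖ζ₀ - ηs‖ / 2 with hc
  have hcp : 0 < c := by positivity
  obtain ⟨N₀, hN₀⟩ := few A (2 * M / c) M (by positivity) hM
  -- many points near `ηs`
  obtain ⟨E, hE, hEc⟩ := (nf_inf ηs hηs1 c hcp).exists_subset_card_eq (hZ.toFinset.card * N₀ + 1)
  have hEs : ∀ η ∈ E, ‖η‖ = 1 ∧ ‖η - ηs‖ < c := fun η hη => hE hη
  -- the minimal distance in `E`
  obtain ⟨d, hd, hdE⟩ : ∃ d : ℝ, 0 < d ∧ ∀ η ∈ E, ∀ η' ∈ E, η ≠ η' → d ≤ ‖η - η'‖ := by
    rcases (E.offDiag).eq_empty_or_nonempty with h | h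
    · refine ⟨1, one_pos, fun η hη η' hη' hn => ?_⟩
      have : (η, η') ∈ E.offDiag := Finset.mem_offDiag.2 ⟨hη, hη', hn⟩
      rw [h] at this
      exact absurd this (Finset.notMem_empty _)
    · obtain ⟨⟨a, b⟩, hab, hmin⟩ := Finset.exists_min_image E.offDiag (fun x => ‖x.1 - x.2‖) h
      refine ⟨‖a - b‖, norm_pos_iff.2 (sub_ne_zero.2 (Finset.mem_offDiag.1 hab).2.2), fun η hη η' hη' hn => ?_⟩
      exact hmin (η, η') (Finset.mem_offDiag.2 ⟨hη, hη', hn⟩)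
  set t : ℝ := min 1 (min (c / (2 * M)) (d / (3 * M))) with ht
  have ht0 : 0 < t := lt_min one_pos (lt_min (by positivity) (by positivity))
  have ht1 : t ≤ 1 := min_le_left _ _
  have ht2 : M * t ≤ c / 2 := by
    have : t ≤ c / (2 * M) := (min_le_right _ _).trans (min_le_left _ _)
    calc M * t ≤ M * (c / (2 * M)) := mul_le_mul_of_nonneg_left this hM0.le
      _ = c / 2 := by field_simp
  have ht3 : M * t ≤ d / 3 := by
    have : t ≤ d / (3 * M) := (min_le_right _ _).trans (min_le_right _ _)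
    calc M * t ≤ M * (d / (3 * M)) := mul_le_mul_of_nonneg_left this hM0.le
      _ = d / 3 := by field_simp
  have hv : ∀ η : ℂ, ∃ v : Γ, η ∈ E → Pos A M η t v := by
    intro η
    by_cases h : η ∈ E
    · obtain ⟨v, hv⟩ := hpos η t (hEs η h).1 ht0 ht1
      exact ⟨v, fun _ => hv⟩
    · exact ⟨1, fun h' => absurd h' h⟩
  choose v hv using hv
  have hinj : ∀ η ∈ E, ∀ η' ∈ E, v η = v η' → η = η' := by
    intro η hη η' hη' h
    by_contra hn
    have h1 := hdE η hη η' hη' hn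
    have h2 := (hv η hη).near
    have h3 := (hv η' hη').near
    rw [← h] at h3
    have h4 : ‖η - η'‖ ≤ M * t + M * t := by
      have e : η - η' = (zz A (v η) - η') - (zz A (v η) - η) := by ring
      rw [e]
      exact (norm_sub_le _ _).trans (by linarith)
    linarith
  -- the pigeonhole principle
  obtain ⟨q, hq, hqc⟩ := Finset.exists_lt_card_fiber_of_mul_lt_card_of_maps_to (s := E) (t := hZ.toFinset) (n := N₀)
    (f := fun η => A.f (v η)⁻¹ ζ₀) (fun η _ => (Set.Finite.mem_toFinset hZ).2 (hinv _ _ hζ₀)) (by rw [hEc]; exact Nat.lt_succ_self _)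
  have hcard : (((E.filter (fun η => A.f (v η)⁻¹ ζ₀ = q)).image (fun η => (v η)⁻¹)) : Finset Γ).card =
      (E.filter (fun η => A.f (v η)⁻¹ ζ₀ = q)).card := by
    apply Finset.card_image_of_injOn
    intro η hη η' hη' h
    exact hinj η (Finset.mem_filter.1 hη).1 η' (Finset.mem_filter.1 hη').1 (inv_injective h)
  have hle := hN₀ q t ht0 ((E.filter (fun η => A.f (v η)⁻¹ ζ₀ = q)).image (fun η => (v η)⁻¹)) ?_
  · rw [hcard] at hle
    omega
  · intro u hu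
    obtain ⟨η, hη, rfl⟩ := Finset.mem_image.1 hu
    obtain ⟨hηE, hηq⟩ := Finset.mem_filter.1 hη
    have hP := hv η hηE
    rw [del_inv]
    refine ⟨?_, hP.lo, hP.hi⟩
    have hqn : ‖q‖ = 1 := hZ1 q ((Set.Finite.mem_toFinset hZ).1 hq)
    have hfq : A.f (v η) q = ζ₀ := by
      rw [← hηq]
      exact f_inv' A (v η) ζ₀ hζ₀1.le
    have hb := bd3 A (v η) q hqn
    rw [hfq] at hb
    have h1 : c / 2 ≤ ‖ζ₀ - zz A (v η)‖ := by
      have e : ζ₀ - ηs = (ζ₀ - zz A (v η)) + ((zz A (v η) - η) + (η - ηs)) := by ring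
      have h2 : ‖ζ₀ - ηs‖ ≤ ‖ζ₀ - zz A (v η)‖ + (‖zz A (v η) - η‖ + ‖η - ηs‖) := by
        calc ‖ζ₀ - ηs‖ = ‖(ζ₀ - zz A (v η)) + ((zz A (v η) - η) + (η - ηs))‖ := by rw [← e]
          _ ≤ ‖ζ₀ - zz A (v η)‖ + ‖(zz A (v η) - η) + (η - ηs)‖ := norm_add_le _ _
          _ ≤ _ := by
            have := norm_add_le (zz A (v η) - η) (η - ηs)
            linarith
      have h3 := (hEs η hηE).2
      have h4 := hP.near
      have h5 : ‖ζ₀ - ηs‖ = 2 * c := by rw [hc]; ring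
      linarith
    rw [norm_sub_rev]
    have h6 : c / 2 * ‖q - zz A (v η)⁻¹‖ ≤ M * t := by
      calc c / 2 * ‖q - zz A (v η)⁻¹‖ ≤ ‖ζ₀ - zz A (v η)‖ * ‖q - zz A (v η)⁻¹‖ :=
            mul_le_mul_of_nonneg_right h1 (norm_nonneg _)
        _ = del A (v η) := hb
        _ ≤ M * t := hP.hi
    have h7 : ‖q - zz A (v η)⁻¹‖ ≤ M * t / (c / 2) := by
      rw [le_div_iff₀ (by positivity)]
      linarith
    refine h7.trans (le_of_eq ?_)
    field_simp

/-- `no_finite` with `Z = {p}` -/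
theorem exists_move (A : IG Γ) (p : ℂ) (hp : ‖p‖ = 1) : ∃ γ, A.f γ p ≠ p := by
  by_contra h
  have h' : ∀ γ, A.f γ p = p := by
    intro γ
    by_contra hγ
    exact h ⟨γ, hγ⟩
  refine no_finite A {p} (Set.finite_singleton p) (Set.singleton_nonempty p) ?_ ?_
  · intro ζ hζ
    rw [Set.mem_singleton_iff.1 hζ]
    exact hp
  · intro γ ζ hζ
    rw [Set.mem_singleton_iff.1 hζ, h' γ]
    exact Set.mem_singleton p

end Pool.Agent.DimDropH
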