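import Pool.Agent.Lib_MP_644907_h.PTDef

/-!
# Piece PTA: basic facts, transience
-/

set_option autoImplicit false

open scoped Topology
open Filter

namespace Pool.Agent.DimDropH

namespace RW

variable {Γ : Type} [Group Γ] {n : ℕ} (R : RW Γ n)

include R in
theorem n_pos : 0 < n := by
  rcases Nat.eq_zero_or_pos n with h | h
  · exfalso
    have h1 := R.hp1
    subst h
    rw [Finset.univ_eq_empty, Finset.sum_empty] at h1
    exact zero_ne_one h1
  · exact h

theorem pk_nonneg (k : ℕ) (w : Γ) : 0 ≤ R.pk k w := by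
  induction k generalizing w with
  | zero =>
    unfold pk
    split_ifs <;> norm_num
  | succ k ih =>
    unfold pk
    exact Finset.sum_nonneg fun i _ => mul_nonneg (R.hp i).le (ih _)

private theorem pta_zero (w : Γ) [Decidable (w = 1)] : R.pk 0 w = if w = 1 then 1 else 0 := by
  unfold pk
  split_ifs <;> rfl

private theorem pta_succ (k : ℕ) (w : Γ) :
    R.pk (k + 1) w = ∑ i, R.p i * R.pk k (w * (R.e i)⁻¹) := rfl

/-- the law of `X_k` by the first step -/
theorem pk_succ' (k : ℕ) (w : Γ) : R.pk (k + 1) w = ∑ i, R.p i * R.pk k ((R.e i)⁻¹ * w) := by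
  classical
  induction k generalizing w with
  | zero =>
    rw [pta_succ]
    refine Finset.sum_congr rfl fun i _ => ?_
    rw [pta_zero, pta_zero]
    have h : w * (R.e i)⁻¹ = 1 ↔ (R.e i)⁻¹ * w = 1 := by
      rw [mul_inv_eq_one, inv_mul_eq_one]
      exact eq_comm
    by_cases hc : w * (R.e i)⁻¹ = 1
    · rw [if_pos hc, if_pos (h.mp hc)]
    · rw [if_neg hc, if_neg (fun h2 => hc (h.mpr h2))]
  | succ k ih =>
    rw [pta_succ]
    have e1 : ∀ i, R.pk (k + 1) (w * (R.e i)⁻¹) =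
        ∑ j, R.p j * R.pk k ((R.e j)⁻¹ * (w * (R.e i)⁻¹)) := fun i => ih _
    have e2 : ∀ j, R.pk (k + 1) ((R.e j)⁻¹ * w) =
        ∑ i, R.p i * R.pk k ((R.e j)⁻¹ * w * (R.e i)⁻¹) := fun j => rfl
    simp_rw [e1, e2, Finset.mul_sum]
    rw [Finset.sum_comm]
    refine Finset.sum_congr rfl fun j _ => Finset.sum_congr rfl fun i _ => ?_
    rw [← mul_assoc ((R.e j)⁻¹) w]
    ring

/-- finite support and total mass 1 -/
theorem pk_finite (k : ℕ) : (Function.support (R.pk k)).Finite := by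
  classical
  induction k with
  | zero =>
    refine (Set.finite_singleton (1 : Γ)).subset fun w hw => ?_
    rw [Function.mem_support, pta_zero] at hw
    by_contra h
    exact hw (if_neg h)
  | succ k ih =>
    refine Set.Finite.subset (Set.finite_iUnion fun i : Fin n => ih.image (fun w => w * R.e i)) ?_
    intro w hw
    rw [Function.mem_support, pta_succ] at hw
    obtain ⟨i, _, hi⟩ := Finset.exists_ne_zero_of_sum_ne_zero hw
    refine Set.mem_iUnion.mpr ⟨i, w * (R.e i)⁻¹, ?_, ?_⟩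
    · rw [Function.mem_support]
      exact right_ne_zero_of_mul hi
    · show w * (R.e i)⁻¹ * R.e i = w
      rw [inv_mul_cancel_right]

private theorem pta_fin (k : ℕ) (i : Fin n) :
    (Function.support (fun w => R.p i * R.pk k (w * (R.e i)⁻¹))).Finite := by
  refine ((R.pk_finite k).image (fun w => w * R.e i)).subset fun w hw => ?_
  rw [Function.mem_support] at hw
  refine ⟨w * (R.e i)⁻¹, ?_, ?_⟩
  · rw [Function.mem_support]
    exact right_ne_zero_of_mul hw
  · show w * (R.e i)⁻¹ * R.e i = w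
    rw [inv_mul_cancel_right]

theorem pk_sum (k : ℕ) : ∑ᶠ w, R.pk k w = 1 := by
  classical
  induction k with
  | zero =>
    rw [finsum_eq_single (R.pk 0) 1]
    · rw [pta_zero, if_pos rfl]
    · intro w hw
      rw [pta_zero, if_neg hw]
  | succ k ih =>
    have e : ∑ᶠ w, R.pk (k + 1) w = ∑ᶠ w, ∑ i, R.p i * R.pk k (w * (R.e i)⁻¹) := rfl
    rw [e, finsum_sum_comm Finset.univ _ (fun i _ => R.pta_fin k i)]
    rw [← R.hp1]
    refine Finset.sum_congr rfl fun i _ => ?_
    rw [← mul_finsum (fun w => R.pk k (w * (R.e i)⁻¹)) (R.p i)]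
    have e2 : ∑ᶠ w, R.pk k (w * (R.e i)⁻¹) = ∑ᶠ w, R.pk k w :=
      finsum_comp_equiv (Equiv.mulRight (R.e i)⁻¹) (f := R.pk k)
    rw [e2, ih, mul_one]

private theorem pta_fin2 (k : ℕ) (x : Γ) :
    (Function.support (fun w => R.pk k (x⁻¹ * w))).Finite := by
  refine ((R.pk_finite k).image (fun w => x * w)).subset fun w hw => ?_
  refine ⟨x⁻¹ * w, hw, ?_⟩
  show x * (x⁻¹ * w) = w
  rw [mul_inv_cancel_left]

/-- `P^k h x = ∑ w, pk k (x⁻¹ w) h w` -/
theorem P_iter (k : ℕ) (h : Γ → ℝ) (x : Γ) : (R.P^[k]) h x = ∑ᶠ w, R.pk k (x⁻¹ * w) * h w := by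
  classical
  induction k generalizing x with
  | zero =>
    rw [finsum_eq_single _ x]
    · rw [inv_mul_cancel, pta_zero, if_pos rfl, one_mul]
      rfl
    · intro w hw
      rw [pta_zero, if_neg, zero_mul]
      intro h1
      exact hw (inv_mul_eq_one.mp h1).symm
  | succ k ih =>
    rw [Function.iterate_succ_apply']
    show ∑ i, R.p i * (R.P^[k]) h (x * R.e i) = _
    have e1 : ∀ w, R.pk (k + 1) (x⁻¹ * w) * h w =
        ∑ i, R.p i * (R.pk k ((x * R.e i)⁻¹ * w) * h w) := by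
      intro w
      rw [R.pk_succ', Finset.sum_mul]
      refine Finset.sum_congr rfl fun i _ => ?_
      rw [mul_inv_rev, mul_assoc ((R.e i)⁻¹) x⁻¹ w]
      ring
    have hf : ∀ i : Fin n,
        (Function.support (fun w => R.pk k ((x * R.e i)⁻¹ * w) * h w)).Finite := by
      intro i
      refine (R.pta_fin2 k (x * R.e i)).subset fun w hw => ?_
      rw [Function.mem_support] at hw ⊢
      exact left_ne_zero_of_mul hw
    simp_rw [e1]
    rw [finsum_sum_comm Finset.univ _ (fun i _ => ?_)]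
    · refine Finset.sum_congr rfl fun i _ => ?_
      rw [ih (x * R.e i), mul_finsum _ (R.p i)]
    · refine (hf i).subset fun w hw => ?_
      rw [Function.mem_support] at hw ⊢
      exact right_ne_zero_of_mul hw

theorem pk_mul_le (k l : ℕ) (x y : Γ) : R.pk k x * R.pk l y ≤ R.pk (k + l) (x * y) := by
  classical
  induction l generalizing y with
  | zero =>
    rw [pta_zero]
    by_cases hy : y = 1
    · rw [if_pos hy, hy, mul_one, mul_one]
      exact le_rfl
    · rw [if_neg hy, mul_zero]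
      exact R.pk_nonneg _ _
  | succ l ih =>
    have e : R.pk (k + (l + 1)) (x * y) = ∑ i, R.p i * R.pk (k + l) (x * y * (R.e i)⁻¹) := rfl
    rw [e, pta_succ, Finset.mul_sum]
    refine Finset.sum_le_sum fun i _ => ?_
    have h1 := mul_le_mul_of_nonneg_left (ih (y * (R.e i)⁻¹)) (R.hp i).le
    rw [← mul_assoc x y] at h1
    calc R.pk k x * (R.p i * R.pk l (y * (R.e i)⁻¹))
        = R.p i * (R.pk k x * R.pk l (y * (R.e i)⁻¹)) := by ring
      _ ≤ R.p i * R.pk (k + l) (x * y * (R.e i)⁻¹) := h1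

/-- irreducibility, from `gen` applied to `{w | ∃ k, 0 < pk k w}` -/
theorem pk_pos (w : Γ) : ∃ k, 0 < R.pk k w := by
  classical
  refine R.gen {w | ∃ k, 0 < R.pk k w} (fun i => ⟨1, ?_⟩) ?_ w
  · rw [R.pta_succ 0]
    refine lt_of_lt_of_le ?_ (Finset.single_le_sum (f := fun j => R.p j * R.pk 0 (R.e i * (R.e j)⁻¹))
      (fun j _ => mul_nonneg (R.hp j).le (R.pk_nonneg _ _)) (Finset.mem_univ i))
    show 0 < R.p i * R.pk 0 (R.e i * (R.e i)⁻¹)
    rw [mul_inv_cancel, pta_zero, if_pos rfl, mul_one]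
    exact R.hp i
  · rintro x ⟨k, hk⟩ y ⟨l, hl⟩
    exact ⟨k + l, lt_of_lt_of_le (mul_pos hk hl) (R.pk_mul_le k l x y)⟩

private theorem pta_sub (k : ℕ) : ∀ a b : Γ → ℝ, ∀ x,
    (R.P^[k]) (fun y => a y - b y) x = (R.P^[k]) a x - (R.P^[k]) b x := by
  induction k with
  | zero => intro a b x; rfl
  | succ k ih =>
    intro a b x
    rw [Function.iterate_succ_apply, Function.iterate_succ_apply, Function.iterate_succ_apply]
    have e : R.P (fun y => a y - b y) = fun y => R.P a y - R.P b y := by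
      funext y
      show ∑ i, R.p i * (a (y * R.e i) - b (y * R.e i)) = _
      unfold P
      rw [← Finset.sum_sub_distrib]
      exact Finset.sum_congr rfl fun i _ => mul_sub _ _ _
    rw [e]
    exact ih _ _ x

private theorem pta_le (C : ℝ) (k : ℕ) : ∀ h : Γ → ℝ, (∀ x, h x ≤ C) → ∀ x, (R.P^[k]) h x ≤ C := by
  induction k with
  | zero => intro h hh x; exact hh x
  | succ k ih =>
    intro h hh x
    rw [Function.iterate_succ_apply]
    refine ih _ (fun y => ?_) x
    show ∑ i, R.p i * h (y * R.e i) ≤ C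
    calc ∑ i, R.p i * h (y * R.e i) ≤ ∑ i, R.p i * C :=
          Finset.sum_le_sum fun i _ => mul_le_mul_of_nonneg_left (hh _) (R.hp i).le
      _ = C := by rw [← Finset.sum_mul, R.hp1, one_mul]

/-- `q y = ∑ p i (f (y e i) - f y)^2 = P (f^2) y - f y ^2`, so `∑_{k < N} P^k q = P^N (f^2) - f^2 ≤ M^2`. As `f` is not constant there is `y₀` with `q y₀ > 0` (else `f (y e i) = f y` for all
`y, i`, and `f` is constant by `gen`); so `q y₀ * ∑_{k < N} pk k (x⁻¹ y₀) ≤ M^2`. -/
theorem trans_of_harmonic (f : Γ → ℝ) (M : ℝ) (hM : ∀ x, |f x| ≤ M) (hf : ∀ x, R.P f x = f x) (hne : ∃ x y, f x ≠ f y) : R.Trans := by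
  set q : Γ → ℝ := fun y => ∑ i, R.p i * (f (y * R.e i) - f y) ^ 2 with hq
  have hq0 : ∀ y, 0 ≤ q y := fun y =>
    Finset.sum_nonneg fun i _ => mul_nonneg (R.hp i).le (sq_nonneg _)
  have hqe : q = fun y => R.P (fun z => f z ^ 2) y - f y ^ 2 := by
    funext y
    have h1 := hf y
    unfold P at h1
    show ∑ i, R.p i * (f (y * R.e i) - f y) ^ 2 = ∑ i, R.p i * f (y * R.e i) ^ 2 - f y ^ 2
    have h2 : ∀ i, R.p i * (f (y * R.e i) - f y) ^ 2 = R.p i * f (y * R.e i) ^ 2 -
        2 * f y * (R.p i * f (y * R.e i)) + f y ^ 2 * R.p i := fun i => by ring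
    simp_rw [h2]
    rw [Finset.sum_add_distrib, Finset.sum_sub_distrib, ← Finset.mul_sum, ← Finset.mul_sum, h1,
      R.hp1]
    ring
  have hsum : ∀ N x, ∑ k ∈ Finset.range N, (R.P^[k]) q x =
      (R.P^[N]) (fun z => f z ^ 2) x - f x ^ 2 := by
    intro N x
    induction N with
    | zero => simp
    | succ N ih =>
      rw [Finset.sum_range_succ, ih, hqe, R.pta_sub N (R.P (fun z => f z ^ 2)) (fun z => f z ^ 2) x,
        ← Function.iterate_succ_apply]
      ring
  have hpos : ∃ y, 0 < q y := by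
    by_contra hc
    push Not at hc
    have h1 : ∀ y i, f (y * R.e i) = f y := by
      intro y i
      have h2 : q y = 0 := le_antisymm (hc y) (hq0 y)
      have h3 := (Finset.sum_eq_zero_iff_of_nonneg
        (fun i _ => mul_nonneg (R.hp i).le (sq_nonneg (f (y * R.e i) - f y)))).mp h2 i
        (Finset.mem_univ i)
      rcases mul_eq_zero.mp h3 with h4 | h4
      · exact absurd h4 (R.hp i).ne'
      · exact sub_eq_zero.mp (pow_eq_zero_iff (two_ne_zero)|>.mp h4)
    have h2 := R.gen {γ | ∀ y, f (y * γ) = f y} (fun i y => h1 y i) (by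
      intro a ha b hb y
      rw [← mul_assoc, hb (y * a), ha y])
    obtain ⟨x, y, hxy⟩ := hne
    have h3 := h2 (x⁻¹ * y) x
    rw [mul_inv_cancel_left] at h3
    exact hxy h3.symm
  obtain ⟨y₀, hy₀⟩ := hpos
  intro w
  refine summable_of_sum_range_le (c := M ^ 2 / q y₀) (fun k => R.pk_nonneg k w) fun N => ?_
  rw [le_div_iff₀ hy₀, Finset.sum_mul]
  have h5 := hsum N (y₀ * w⁻¹)
  have h6 : (R.P^[N]) (fun z => f z ^ 2) (y₀ * w⁻¹) ≤ M ^ 2 := by
    refine R.pta_le (M ^ 2) N _ (fun x => ?_) _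
    show f x ^ 2 ≤ M ^ 2
    rw [← sq_abs (f x)]
    exact pow_le_pow_left₀ (abs_nonneg _) (hM x) 2
  have h7 : ∑ k ∈ Finset.range N, R.pk k w * q y₀ ≤
      ∑ k ∈ Finset.range N, (R.P^[k]) q (y₀ * w⁻¹) := by
    refine Finset.sum_le_sum fun k _ => ?_
    rw [R.P_iter]
    have hfin : (Function.support (fun z => R.pk k ((y₀ * w⁻¹)⁻¹ * z) * q z)).Finite := by
      refine (R.pta_fin2 k (y₀ * w⁻¹)).subset fun z hz => ?_
      rw [Function.mem_support] at hz ⊢
      exact left_ne_zero_of_mul hz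
    have h8 := single_le_finsum y₀ hfin
      (fun z => mul_nonneg (R.pk_nonneg _ _) (hq0 z))
    have h9 : (y₀ * w⁻¹)⁻¹ * y₀ = w := by group
    rw [h9] at h8
    exact h8
  have h8 : 0 ≤ f (y₀ * w⁻¹) ^ 2 := sq_nonneg _
  linarith

end RW

end Pool.Agent.DimDropH
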