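import Pool.Agent.Lib_MP_644907_h.CLA

/-!
# Piece RATB: contraction of the oscillation of the ratio of Green functions
-/

set_option autoImplicit false

open Complex MeasureTheory Metric Filter
open scoped Topology

namespace Pool.Agent.DimDropH

open Pool.Agent.DimDrop (IsoD)
open Pool.Agent.DimDropF (IG mb dmb)

namespace WD

variable {Γ : Type} [Group Γ] {n : ℕ} (W : WD Γ n)

private theorem rb_G_le (Cu : ℝ) (hCu : 0 < Cu) (hu : ∀ w, W.R.green w ≤ Cu * del W.A w) (x w : Γ) (d : ℝ) (hd : 0 < d)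
    (h : d ≤ ‖zz W.A x - zz W.A w‖) : W.G x w ≤ Cu * (del W.A x * del W.A w / d ^ 2) := by
  have hx := del_pos W.A x
  have hw := del_pos W.A w
  have hxw := del_pos W.A (x⁻¹ * w)
  have h1 := del_formula W.A x w
  have h2 : d ^ 2 / (del W.A x * del W.A w) ≤ 1 / del W.A (x⁻¹ * w) := by
    rw [h1]
    have h3 : d ^ 2 / (del W.A x * del W.A w) ≤ ‖zz W.A x - zz W.A w‖ ^ 2 / (del W.A x * del W.A w) := by
      gcongr
    linarith
  have h3 : del W.A (x⁻¹ * w) ≤ del W.A x * del W.A w / d ^ 2 := by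
    rw [div_le_div_iff₀ (by positivity) hxw] at h2
    rw [le_div_iff₀ (by positivity)]
    linarith
  exact (hu _).trans (mul_le_mul_of_nonneg_left h3 hCu.le)

private theorem rb_le_G (cl : ℝ) (hcl : 0 < cl) (hl : ∀ w, cl * del W.A w ≤ W.R.green w) (x w : Γ) (d m e : ℝ)
    (h : ‖zz W.A x - zz W.A w‖ ≤ d) (hm : 0 < m) (hmP : m ≤ del W.A x * del W.A w) (hme : m ≤ e) :
    cl * (m / (e + d ^ 2)) ≤ W.G x w := by
  have hx := del_pos W.A x
  have hw := del_pos W.A w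
  have hxw := del_pos W.A (x⁻¹ * w)
  have h1 := del_formula W.A x w
  have hn : 0 ≤ ‖zz W.A x - zz W.A w‖ := norm_nonneg _
  have h2 : 1 / del W.A (x⁻¹ * w) ≤ (e + d ^ 2) / m := by
    rw [h1]
    have h3 : ‖zz W.A x - zz W.A w‖ ^ 2 / (del W.A x * del W.A w) ≤ d ^ 2 / m := by
      gcongr
    have h4 : 1 ≤ e / m := by rwa [le_div_iff₀ hm, one_mul]
    rw [add_div]
    linarith
  have h3 : m / (e + d ^ 2) ≤ del W.A (x⁻¹ * w) := by
    have h5 : 0 < e + d ^ 2 := by have := sq_nonneg d; linarith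
    rw [div_le_div_iff₀ hxw hm] at h2
    rw [div_le_iff₀ h5]
    linarith
  exact (mul_le_mul_of_nonneg_left h3 hcl.le).trans (hl _)

private theorem rb_Q (a b c d : ℝ) (f g h k : Γ → ℝ) (w : Γ) :
    W.R.Q (fun w => a * f w + b * g w + c * h w + d * k w) w =
      a * W.R.Q f w + b * W.R.Q g w + c * W.R.Q h w + d * W.R.Q k w := by
  unfold RW.Q
  rw [Finset.mul_sum, Finset.mul_sum, Finset.mul_sum, Finset.mul_sum, ← Finset.sum_add_distrib,
    ← Finset.sum_add_distrib, ← Finset.sum_add_distrib]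
  refine Finset.sum_congr rfl fun i _ => ?_
  ring

/-- the minimum principle argument -/
private theorem rb_min (Cu : ℝ) (hCu : 0 < Cu) (hu : ∀ w, W.R.green w ≤ Cu * del W.A w)
    (V U₀ : Set Γ) (b y₀ : Γ) (k : ℝ) (hk : 0 ≤ k) (hsub : U₀ ⊆ V) (hb : b ∈ V)
    (hstep : ∀ w ∈ U₀, ∀ i, w * (W.R.e i)⁻¹ ∈ V)
    (hs : ∀ w, w ∉ U₀ → W.G b w ≤ k * W.G y₀ w)
    (x y : Γ) (hx : x ∉ U₀) (hy : y ∉ U₀) (α β : ℝ) (hpos : ∀ w ∈ V, 0 ≤ α * W.G x w + β * W.G y w) :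
    ∀ w ∈ U₀, (α * W.G x b + β * W.G y b) / W.R.green 1 * (W.G b w - k * W.G y₀ w) ≤ α * W.G x w + β * W.G y w := by
  have ht := W.trans
  have g1 : 0 < W.R.green 1 := W.R.green_pos ht 1
  have := infinite_of W.A
  obtain ⟨t, ht'⟩ : ∃ t, t = (α * W.G x b + β * W.G y b) / W.R.green 1 := ⟨_, rfl⟩
  have ht0 : 0 ≤ t := by rw [ht']; exact div_nonneg (hpos b hb) g1.le
  have hGb : W.G b b = W.R.green 1 := by unfold G; rw [inv_mul_cancel]
  have hGpos : ∀ u w, 0 < W.G u w := fun u w => W.R.green_pos ht _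
  have htb : t * W.G b b = α * W.G x b + β * W.G y b := by
    rw [hGb, ht', div_mul_cancel₀ _ g1.ne']
  have hDb : 0 ≤ α * W.G x b + β * W.G y b + (-t) * W.G b b + (t * k) * W.G y₀ b := by
    have := mul_nonneg (mul_nonneg ht0 hk) (hGpos y₀ b).le
    linarith
  have key := W.R.minQ (U₀ \ {b}) (fun w => α * W.G x w + β * W.G y w + (-t) * W.G b w + (t * k) * W.G y₀ w) ?_ ?_ ?_
  · intro w hw
    rw [← ht']
    by_cases hwb : w = b
    · rw [hwb]
      linarith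
    · have := key w ⟨hw, hwb⟩
      linarith
  · intro w hw
    rw [W.rb_Q α β (-t) (t * k) (fun w => W.G x w) (fun w => W.G y w) (fun w => W.G b w) (fun w => W.G y₀ w) w]
    have e1 : W.R.Q (fun w => W.G x w) w = W.G x w := W.R.green_harmQ ht x w (fun h => hx (h ▸ hw.1))
    have e2 : W.R.Q (fun w => W.G y w) w = W.G y w := W.R.green_harmQ ht y w (fun h => hy (h ▸ hw.1))
    have e3 : W.R.Q (fun w => W.G b w) w = W.G b w := W.R.green_harmQ ht b w hw.2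
    have e4 : W.R.Q (fun w => W.G y₀ w) w ≤ W.G y₀ w := W.R.green_superQ ht y₀ w
    rw [e1, e2, e3]
    have := mul_le_mul_of_nonneg_left e4 (mul_nonneg ht0 hk)
    linarith
  · intro w hw i hi
    have hV := hstep w hw.1 i
    by_cases hwb : w * (W.R.e i)⁻¹ = b
    · rw [hwb]; exact hDb
    · have h1 : w * (W.R.e i)⁻¹ ∉ U₀ := fun h => hi ⟨h, hwb⟩
      have h2 := hs _ h1
      have h3 := hpos _ hV
      have h4 := mul_le_mul_of_nonneg_left h2 ht0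
      linarith
  · intro ε hε
    have hinj : Function.Injective (fun w : Γ => b⁻¹ * w) := mul_right_injective _
    rcases ht0.eq_or_lt with h0 | h0
    · refine Set.Finite.subset Set.finite_empty ?_
      rintro w ⟨hw, hD⟩
      exfalso
      rw [← h0] at hD
      have := hpos w (hsub hw.1)
      simp only [neg_zero, zero_mul, add_zero] at hD
      linarith
    · refine ((finite_del W.A (ε / (t * Cu)) (by positivity)).preimage hinj.injOn).subset ?_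
      rintro w ⟨hw, hD⟩
      have h1 := hpos w (hsub hw.1)
      have h2 : 0 ≤ (t * k) * W.G y₀ w := mul_nonneg (mul_nonneg ht0 hk) (hGpos y₀ w).le
      have h3 : ε ≤ t * W.G b w := by linarith
      have h4 : W.G b w ≤ Cu * del W.A (b⁻¹ * w) := hu _
      show ε / (t * Cu) ≤ del W.A (b⁻¹ * w)
      rw [div_le_iff₀ (by positivity)]
      calc ε ≤ t * W.G b w := h3
        _ ≤ t * (Cu * del W.A (b⁻¹ * w)) := mul_le_mul_of_nonneg_left h4 ht0
        _ = del W.A (b⁻¹ * w) * (t * Cu) := by ring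

/-- the geometric estimates -/
private theorem rb_geo (cl Cu : ℝ) (hcl : 0 < cl) (hl : ∀ w, cl * del W.A w ≤ W.R.green w) (hu : ∀ w, W.R.green w ≤ Cu * del W.A w) :
    ∃ q κ C₇ k : ℝ, 0 < q ∧ q < 1 ∧ 0 < κ ∧ 1 < C₇ ∧ 0 ≤ k ∧ q * C₇ < 1 ∧
      (∀ ξ : ℂ, ‖ξ‖ = 1 → ∀ w i, ‖zz W.A (w * (W.R.e i)⁻¹) - ξ‖ ≤ C₇ * ‖zz W.A w - ξ‖) ∧
      ∀ (ξ : ℂ) (ρ : ℝ), ‖ξ‖ = 1 → 0 < ρ → ρ ≤ 1 → ∃ b y₀ : Γ,
        ‖zz W.A b - ξ‖ < ρ / C₇ ∧ (∀ w, ρ / C₇ ≤ ‖zz W.A w - ξ‖ → W.G b w ≤ k * W.G y₀ w) ∧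
        (∀ w, ‖zz W.A w - ξ‖ < q * ρ → k * W.G y₀ w ≤ W.G b w / 2) ∧
        (∀ y, ρ ≤ ‖zz W.A y - ξ‖ → ∀ w, ‖zz W.A w - ξ‖ < q * ρ → κ * W.G y w ≤ W.G y b * W.G b w) := by
  have hCu : 0 < Cu := by
    have h1 := hl 1
    have h2 := hu 1
    rw [del_one] at h1 h2
    linarith
  obtain ⟨C, hC1, hC⟩ := W.jumps
  obtain ⟨M, hM1, hM⟩ := exists_pos W.A
  obtain ⟨K₀, hK₀⟩ : ∃ K₀ : ℝ, K₀ = M * ((M + 1) ^ 2 + 2) := ⟨_, rfl⟩
  have hK₀p : 0 < K₀ := by rw [hK₀]; positivity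
  obtain ⟨C₇, hC₇⟩ : ∃ C₇ : ℝ, C₇ = 1 + 2 * C := ⟨_, rfl⟩
  have hC₇1 : 3 ≤ C₇ := by rw [hC₇]; linarith
  -- `k = K σ`
  obtain ⟨K, hK⟩ : ∃ K : ℝ, K = 4 * M * Cu * K₀ / cl := ⟨_, rfl⟩
  have hKp : 0 < K := by rw [hK]; positivity
  obtain ⟨σ, hσ⟩ : ∃ σ : ℝ, σ = min (1 / (2 * M)) (√(cl / (32 * M ^ 3 * Cu * K * K₀))) := ⟨_, rfl⟩
  have hσp : 0 < σ := by rw [hσ]; exact lt_min (by positivity) (by positivity)
  have hσ1 : M * σ ≤ 1 / 2 := by
    have h1 : σ ≤ 1 / (2 * M) := by rw [hσ]; exact min_le_left _ _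
    rw [le_div_iff₀ (by positivity)] at h1
    linarith
  have hσle : σ ≤ 1 / 2 := by
    have : 1 * σ ≤ M * σ := mul_le_mul_of_nonneg_right hM1 hσp.le
    linarith
  have hσ2 : σ ^ 2 * (32 * M ^ 3 * Cu * K * K₀) ≤ cl := by
    have h1 : σ ≤ √(cl / (32 * M ^ 3 * Cu * K * K₀)) := by rw [hσ]; exact min_le_right _ _
    have h2 : σ ^ 2 ≤ cl / (32 * M ^ 3 * Cu * K * K₀) := by
      calc σ ^ 2 ≤ √(cl / (32 * M ^ 3 * Cu * K * K₀)) ^ 2 := pow_le_pow_left₀ hσp.le h1 2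
        _ = cl / (32 * M ^ 3 * Cu * K * K₀) := Real.sq_sqrt (by positivity)
    rwa [le_div_iff₀ (by positivity)] at h2
  obtain ⟨q', hq'⟩ : ∃ q' : ℝ, q' = min σ (1 / (4 * M)) := ⟨_, rfl⟩
  have hq'p : 0 < q' := by rw [hq']; exact lt_min hσp (by positivity)
  have hq'σ : q' ≤ σ := by rw [hq']; exact min_le_left _ _
  have hq'M : q' ≤ 1 / (4 * M) := by rw [hq']; exact min_le_right _ _
  refine ⟨q' / C₇, cl ^ 2 / (4 * Cu * K₀ ^ 2), C₇, K * σ, by positivity, ?_, by positivity, by linarith, by positivity, ?_, ?_, ?_⟩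
  · rw [div_lt_one (by linarith)]; linarith
  · rw [div_mul_cancel₀ _ (by linarith : C₇ ≠ 0)]; linarith
  · intro ξ hξ w i
    have h1 := (hC i w).2.2.2.1
    have h2 := del_le' W.A w ξ hξ
    calc ‖zz W.A (w * (W.R.e i)⁻¹) - ξ‖ = ‖(zz W.A (w * (W.R.e i)⁻¹) - zz W.A w) + (zz W.A w - ξ)‖ := by congr 1; ring
      _ ≤ ‖zz W.A (w * (W.R.e i)⁻¹) - zz W.A w‖ + ‖zz W.A w - ξ‖ := norm_add_le _ _
      _ ≤ C * (2 * ‖zz W.A w - ξ‖) + ‖zz W.A w - ξ‖ := by
          have := mul_le_mul_of_nonneg_left h2 (by linarith : 0 ≤ C)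
          linarith
      _ = C₇ * ‖zz W.A w - ξ‖ := by rw [hC₇]; ring
  intro ξ ρ hξ hρ hρ1
  obtain ⟨r, hr⟩ : ∃ r : ℝ, r = ρ / C₇ := ⟨_, rfl⟩
  have hrp : 0 < r := by rw [hr]; positivity
  have hrρ : r ≤ ρ / 3 := by
    rw [hr]
    exact div_le_div_of_nonneg_left hρ.le (by norm_num) hC₇1
  obtain ⟨y₀, hy₀⟩ := hM ξ r hξ hrp (by linarith)
  obtain ⟨b, hb⟩ := hM ξ (σ * r) hξ (by positivity) (by nlinarith)
  have hqρ : q' / C₇ * ρ = q' * r := by rw [hr]; ring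
  rw [hqρ, ← hr]
  have hbn : ‖zz W.A b - ξ‖ ≤ r / 2 := by
    refine hb.near.trans ?_
    calc M * (σ * r) = (M * σ) * r := by ring
      _ ≤ 1 / 2 * r := mul_le_mul_of_nonneg_right hσ1 hrp.le
      _ = r / 2 := by ring
  have hbM : ‖zz W.A b - ξ‖ ≤ M * (σ * r) := hb.near
  have hdb : 0 < del W.A b := del_pos _ _
  have hdy : 0 < del W.A y₀ := del_pos _ _
  have hq'r : q' * r ≤ σ * r := mul_le_mul_of_nonneg_right hq'σ hrp.le
  have hq'r2 : q' * r ≤ r / (4 * M) := by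
    calc q' * r ≤ 1 / (4 * M) * r := mul_le_mul_of_nonneg_right hq'M hrp.le
      _ = r / (4 * M) := by ring
  have hMp : 0 < M := by linarith
  -- lower bound for `G(b, w)`, `w` near `ξ`
  have hbw : ∀ w, ‖zz W.A w - ξ‖ < q' * r → cl * (del W.A w / (K₀ * (σ * r))) ≤ W.G b w := by
    intro w hw
    have hdw := del_pos W.A w
    have h1 : ‖zz W.A b - zz W.A w‖ ≤ (M + 1) * (σ * r) := by
      calc ‖zz W.A b - zz W.A w‖ = ‖(zz W.A b - ξ) - (zz W.A w - ξ)‖ := by congr 1; ring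
        _ ≤ ‖zz W.A b - ξ‖ + ‖zz W.A w - ξ‖ := norm_sub_le _ _
        _ ≤ (M + 1) * (σ * r) := by linarith
    have h2 : (σ * r) / M * del W.A w ≤ del W.A b * del W.A w := by
      apply mul_le_mul_of_nonneg_right _ hdw.le
      rw [div_le_iff₀ hMp]
      linarith [hb.lo]
    have h3 : (σ * r) / M * del W.A w ≤ 2 * (σ * r) ^ 2 := by
      have h4 : del W.A w ≤ 2 * (σ * r) := by
        have := del_le' W.A w ξ hξ
        linarith
      calc (σ * r) / M * del W.A w ≤ (σ * r) * (2 * (σ * r)) := by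
            apply mul_le_mul _ h4 hdw.le (by positivity)
            exact div_le_self (by positivity) hM1
        _ = 2 * (σ * r) ^ 2 := by ring
    have h4 := W.rb_le_G cl hcl hl b w ((M + 1) * (σ * r)) ((σ * r) / M * del W.A w) (2 * (σ * r) ^ 2) h1 (by positivity) h2 h3
    have h5 : (σ * r) / M * del W.A w / (2 * (σ * r) ^ 2 + ((M + 1) * (σ * r)) ^ 2) = del W.A w / (K₀ * (σ * r)) := by
      rw [hK₀]
      field_simp
      ring
    rwa [h5] at h4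
  refine ⟨b, y₀, by linarith, ?_, ?_, ?_⟩
  · intro w hw
    have hdw := del_pos W.A w
    obtain ⟨s, hs⟩ : ∃ s : ℝ, s = ‖zz W.A w - ξ‖ := ⟨_, rfl⟩
    rw [← hs] at hw
    have hsp : 0 < s := by linarith
    have h1 : s / 2 ≤ ‖zz W.A b - zz W.A w‖ := by
      have : ‖zz W.A w - ξ‖ ≤ ‖zz W.A b - ξ‖ + ‖zz W.A b - zz W.A w‖ := by
        calc ‖zz W.A w - ξ‖ = ‖(zz W.A b - ξ) - (zz W.A b - zz W.A w)‖ := by congr 1; ring
          _ ≤ ‖zz W.A b - ξ‖ + ‖zz W.A b - zz W.A w‖ := norm_sub_le _ _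
      linarith
    have h2 := W.rb_G_le Cu hCu hu b w (s / 2) (by positivity) h1
    have h3 : W.G b w ≤ Cu * (M * (σ * r) * del W.A w / (s / 2) ^ 2) := by
      refine h2.trans ?_
      gcongr
      exact hb.hi
    have h4 : ‖zz W.A y₀ - zz W.A w‖ ≤ (M + 1) * s := by
      calc ‖zz W.A y₀ - zz W.A w‖ = ‖(zz W.A y₀ - ξ) - (zz W.A w - ξ)‖ := by congr 1; ring
        _ ≤ ‖zz W.A y₀ - ξ‖ + ‖zz W.A w - ξ‖ := norm_sub_le _ _
        _ ≤ M * r + s := by rw [hs]; linarith [hy₀.near]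
        _ ≤ M * s + s := by
            have := mul_le_mul_of_nonneg_left hw hMp.le
            linarith
        _ = (M + 1) * s := by ring
    have h5 : r / M * del W.A w ≤ del W.A y₀ * del W.A w := by
      apply mul_le_mul_of_nonneg_right _ hdw.le
      rw [div_le_iff₀ hMp]
      linarith [hy₀.lo]
    have h6 : r / M * del W.A w ≤ 2 * s ^ 2 := by
      have h7 : del W.A w ≤ 2 * s := by
        rw [hs]; exact del_le' W.A w ξ hξ
      calc r / M * del W.A w ≤ s * (2 * s) := by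
            apply mul_le_mul _ h7 hdw.le hsp.le
            exact (div_le_self hrp.le hM1).trans hw
        _ = 2 * s ^ 2 := by ring
    have h7 := W.rb_le_G cl hcl hl y₀ w ((M + 1) * s) (r / M * del W.A w) (2 * s ^ 2) h4 (by positivity) h5 h6
    calc W.G b w ≤ Cu * (M * (σ * r) * del W.A w / (s / 2) ^ 2) := h3
      _ = K * σ * (cl * (r / M * del W.A w / (2 * s ^ 2 + ((M + 1) * s) ^ 2))) := by
          rw [hK, hK₀]
          field_simp
          ring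
      _ ≤ K * σ * W.G y₀ w := mul_le_mul_of_nonneg_left h7 (by positivity)
  · intro w hw
    have hdw := del_pos W.A w
    have h1 : r / (4 * M) ≤ ‖zz W.A y₀ - zz W.A w‖ := by
      have h2 : ‖zz W.A y₀ - ξ‖ ≤ ‖zz W.A y₀ - zz W.A w‖ + ‖zz W.A w - ξ‖ := by
        calc ‖zz W.A y₀ - ξ‖ = ‖(zz W.A y₀ - zz W.A w) + (zz W.A w - ξ)‖ := by congr 1; ring
          _ ≤ ‖zz W.A y₀ - zz W.A w‖ + ‖zz W.A w - ξ‖ := norm_add_le _ _
      have h3 : r / (2 * M) ≤ ‖zz W.A y₀ - ξ‖ := by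
        have h4 := del_le' W.A y₀ ξ hξ
        have h5 := hy₀.lo
        rw [div_le_iff₀ (by positivity)]
        calc r ≤ M * del W.A y₀ := h5
          _ ≤ M * (2 * ‖zz W.A y₀ - ξ‖) := mul_le_mul_of_nonneg_left h4 hMp.le
          _ = ‖zz W.A y₀ - ξ‖ * (2 * M) := by ring
      have h4 : r / (2 * M) = r / (4 * M) + r / (4 * M) := by field_simp; ring
      linarith
    have h2 := W.rb_G_le Cu hCu hu y₀ w (r / (4 * M)) (by positivity) h1
    have h3 : W.G y₀ w ≤ Cu * (M * r * del W.A w / (r / (4 * M)) ^ 2) := by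
      refine h2.trans ?_
      gcongr
      exact hy₀.hi
    have h4 := hbw w hw
    calc K * σ * W.G y₀ w ≤ K * σ * (Cu * (M * r * del W.A w / (r / (4 * M)) ^ 2)) :=
          mul_le_mul_of_nonneg_left h3 (by positivity)
      _ = (σ ^ 2 * (32 * M ^ 3 * Cu * K * K₀)) * (del W.A w / (K₀ * (σ * r))) / 2 := by
          field_simp
          ring
      _ ≤ cl * (del W.A w / (K₀ * (σ * r))) / 2 := by
          have : 0 ≤ del W.A w / (K₀ * (σ * r)) := by positivity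
          have := mul_le_mul_of_nonneg_right hσ2 this
          linarith
      _ ≤ W.G b w / 2 := by linarith
  · intro y hy w hw
    have hdw := del_pos W.A w
    have hdy' := del_pos W.A y
    obtain ⟨s, hs⟩ : ∃ s : ℝ, s = ‖zz W.A y - ξ‖ := ⟨_, rfl⟩
    rw [← hs] at hy
    have hsp : 0 < s := by linarith
    have h1 : s / 2 ≤ ‖zz W.A y - zz W.A w‖ := by
      have h2 : ‖zz W.A y - ξ‖ ≤ ‖zz W.A y - zz W.A w‖ + ‖zz W.A w - ξ‖ := by
        calc ‖zz W.A y - ξ‖ = ‖(zz W.A y - zz W.A w) + (zz W.A w - ξ)‖ := by congr 1; ring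
          _ ≤ ‖zz W.A y - zz W.A w‖ + ‖zz W.A w - ξ‖ := norm_add_le _ _
      have h3 : q' * r ≤ r / 2 := by
        calc q' * r ≤ σ * r := hq'r
          _ ≤ 1 / 2 * r := mul_le_mul_of_nonneg_right hσle hrp.le
          _ = r / 2 := by ring
      linarith
    have h2 := W.rb_G_le Cu hCu hu y w (s / 2) (by positivity) h1
    have hσr : σ * r ≤ s := by
      calc σ * r ≤ 1 * r := mul_le_mul_of_nonneg_right (by linarith) hrp.le
        _ ≤ s := by linarith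
    have h3 : ‖zz W.A y - zz W.A b‖ ≤ (M + 1) * s := by
      calc ‖zz W.A y - zz W.A b‖ = ‖(zz W.A y - ξ) - (zz W.A b - ξ)‖ := by congr 1; ring
        _ ≤ ‖zz W.A y - ξ‖ + ‖zz W.A b - ξ‖ := norm_sub_le _ _
        _ ≤ s + M * s := by
            rw [← hs]
            have := mul_le_mul_of_nonneg_left hσr hMp.le
            linarith
        _ = (M + 1) * s := by ring
    have h4 : del W.A y * ((σ * r) / M) ≤ del W.A y * del W.A b := by
      apply mul_le_mul_of_nonneg_left _ hdy'.le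
      rw [div_le_iff₀ hMp]
      linarith [hb.lo]
    have h5 : del W.A y * ((σ * r) / M) ≤ 2 * s ^ 2 := by
      have h7 : del W.A y ≤ 2 * s := by
        rw [hs]; exact del_le' W.A y ξ hξ
      calc del W.A y * ((σ * r) / M) ≤ (2 * s) * s := by
            apply mul_le_mul h7 _ (by positivity) (by positivity)
            exact (div_le_self (by positivity) hM1).trans hσr
        _ = 2 * s ^ 2 := by ring
    have h6 := W.rb_le_G cl hcl hl y b ((M + 1) * s) (del W.A y * ((σ * r) / M)) (2 * s ^ 2) h3 (by positivity) h4 h5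
    have h7 := hbw w hw
    have h8 : 0 ≤ cl * (del W.A w / (K₀ * (σ * r))) := by positivity
    have h9 : 0 ≤ cl * (del W.A y * ((σ * r) / M) / (2 * s ^ 2 + ((M + 1) * s) ^ 2)) := by positivity
    calc cl ^ 2 / (4 * Cu * K₀ ^ 2) * W.G y w ≤ cl ^ 2 / (4 * Cu * K₀ ^ 2) * (Cu * (del W.A y * del W.A w / (s / 2) ^ 2)) :=
          mul_le_mul_of_nonneg_left h2 (by positivity)
      _ = cl * (del W.A y * ((σ * r) / M) / (2 * s ^ 2 + ((M + 1) * s) ^ 2)) * (cl * (del W.A w / (K₀ * (σ * r)))) := by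
          have e : M * (2 * s ^ 2 + ((M + 1) * s) ^ 2) = K₀ * s ^ 2 := by rw [hK₀]; ring
          have e2 : del W.A y * ((σ * r) / M) / (2 * s ^ 2 + ((M + 1) * s) ^ 2) = del W.A y * (σ * r) / (K₀ * s ^ 2) := by
            rw [← e]
            field_simp
          rw [e2]
          field_simp
          try ring
      _ ≤ W.G y b * W.G b w := mul_le_mul h6 h7 h8 (h9.trans h6)

/-- Let `C` be as in `jumps`, `M` as in `exists_pos`, `U₀ = Bl ξ (ρ/C₇)` with `C₇ ≥ 2 (1 + 2 C^2)` so that all points reached from `U₀` in one step (of the reversed walk) are in `Bl ξ ρ`. `y₀` with `Pos M ξ (ρ/C₇) y₀`, `b` with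
`Pos M ξ (σ ρ) b`, `σ` small; `s w = G(b, w) - C' σ G(y₀, w)`.
(i) for `w ∉ U₀`: `1/δ(b⁻¹ w) ≥ c ‖z_w - ξ‖^2/(σ ρ δ_w)` and `1/δ(y₀⁻¹ w) ≤ C ‖z_w - ξ‖^2/(ρ δ_w)`, so `s w ≤ 0` for a suitable `C'` (independent of `σ`).
(ii) for `w ∈ Bl ξ (q ρ)`, `q ≤ σ/4` etc.: `G(y₀, w) ≤ C δ_w/ρ`, `G(b, w) ≥ c δ_w/(σ ρ)`, so `C' σ G(y₀, w) ≤ C σ^2 G(b, w) ≤ G(b, w)/2` for `σ` small.
(iii) If `u = G(x, ·) - a G(y, ·)` has `u b ≥ (b' - a)/2 G(y, b)` (here `[a, b']` is the given interval) then by `minQ` on `U = U₀ \ {b}`, `D = u - (u b/g(1)) s`: `u ≥ (u b/g(1)) s` on `U₀`, so on `Bl ξ (qρ)`: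
`u w ≥ (b' - a)/(4 g(1)) G(y, b) G(b, w) ≥ θ (b' - a) G(y, w)` because `1/δ(y⁻¹ b) ≤ C ‖z_y-ξ‖^2/(δ_y σ ρ)`, `1/δ(b⁻¹ w) ≤ C σρ/δ_w`, `1/δ(y⁻¹ w) ≥ c ‖z_y - ξ‖^2/(δ_y δ_w)`. Otherwise the same for `b' G(y, ·) - G(x, ·)`.
(`D` is superharmonic for the reversed walk on `U`: `green_harmQ`, `green_superQ`, `x, y ∉ U₀`; finiteness from `hu`.) -/
theorem ratio_step (cl Cu : ℝ) (hcl : 0 < cl) (hl : ∀ w, cl * del W.A w ≤ W.R.green w) (hu : ∀ w, W.R.green w ≤ Cu * del W.A w) :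
    ∃ q θ : ℝ, 0 < q ∧ q < 1 ∧ 0 < θ ∧ θ < 1 ∧ ∀ (ξ : ℂ) (ρ : ℝ), ‖ξ‖ = 1 → 0 < ρ → ρ ≤ 1 → ∀ x y, ρ ≤ ‖zz W.A x - ξ‖ → ρ ≤ ‖zz W.A y - ξ‖ →
      ∀ a b : ℝ, a ≤ b → (∀ w ∈ Bl W.A ξ ρ, a * W.G y w ≤ W.G x w ∧ W.G x w ≤ b * W.G y w) →
      ∃ a' b' : ℝ, a ≤ a' ∧ a' ≤ b' ∧ b' ≤ b ∧ b' - a' ≤ (1 - θ) * (b - a) ∧
        ∀ w ∈ Bl W.A ξ (q * ρ), a' * W.G y w ≤ W.G x w ∧ W.G x w ≤ b' * W.G y w := by
  have hCu : 0 < Cu := by
    have h1 := hl 1
    have h2 := hu 1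
    rw [del_one] at h1 h2
    linarith
  obtain ⟨q, κ, C₇, k, hq0, hq1, hκ, hC7, hk, hqC, hst, hgeo⟩ := W.rb_geo cl Cu hcl hl hu
  have ht := W.trans
  have g1 : 0 < W.R.green 1 := W.R.green_pos ht 1
  obtain ⟨θ, hθ⟩ : ∃ θ : ℝ, θ = min (1 / 2) (κ / (4 * W.R.green 1)) := ⟨_, rfl⟩
  have hθ0 : 0 < θ := by rw [hθ]; exact lt_min (by norm_num) (by positivity)
  have hθ1 : θ ≤ 1 / 2 := by rw [hθ]; exact min_le_left _ _
  have hθ2 : θ ≤ κ / (4 * W.R.green 1) := by rw [hθ]; exact min_le_right _ _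
  refine ⟨q, θ, hq0, hq1, hθ0, by linarith, ?_⟩
  intro ξ ρ hξ hρ hρ1 x y hx hy a b hab hw
  obtain ⟨b₀, y₀, hb₀, hi, hii, hiii⟩ := hgeo ξ ρ hξ hρ hρ1
  have hrρ : ρ / C₇ < ρ := div_lt_self hρ hC7
  have hqr : q * ρ ≤ ρ / C₇ := by
    rw [le_div_iff₀ (by linarith)]
    calc q * ρ * C₇ = (q * C₇) * ρ := by ring
      _ ≤ 1 * ρ := mul_le_mul_of_nonneg_right hqC.le hρ.le
      _ = ρ := one_mul _
  have hGpos : ∀ u w, 0 < W.G u w := fun u w => W.R.green_pos ht _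
  have main : ∀ α β : ℝ, (∀ w ∈ Bl W.A ξ ρ, 0 ≤ α * W.G x w + β * W.G y w) →
      (b - a) / 2 * W.G y b₀ ≤ α * W.G x b₀ + β * W.G y b₀ →
      ∀ w ∈ Bl W.A ξ (q * ρ), θ * (b - a) * W.G y w ≤ α * W.G x w + β * W.G y w := by
    intro α β hpos hbig w hwq
    have hwU : w ∈ Bl W.A ξ (ρ / C₇) := lt_of_lt_of_le hwq hqr
    have h1 := W.rb_min Cu hCu hu (Bl W.A ξ ρ) (Bl W.A ξ (ρ / C₇)) b₀ y₀ k hk
      (fun w hw => lt_trans hw hrρ) (lt_trans hb₀ hrρ)
      (fun w hw i => by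
        have h2 := hst ξ hξ w i
        have h3 : ‖zz W.A w - ξ‖ < ρ / C₇ := hw
        show ‖zz W.A (w * (W.R.e i)⁻¹) - ξ‖ < ρ
        calc ‖zz W.A (w * (W.R.e i)⁻¹) - ξ‖ ≤ C₇ * ‖zz W.A w - ξ‖ := h2
          _ < C₇ * (ρ / C₇) := mul_lt_mul_of_pos_left h3 (by linarith)
          _ = ρ := mul_div_cancel₀ _ (by linarith))
      (fun w hw => hi w (not_lt.1 hw)) x y
      (fun h => absurd (lt_trans (show ‖zz W.A x - ξ‖ < ρ / C₇ from h) hrρ) (not_lt.2 hx))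
      (fun h => absurd (lt_trans (show ‖zz W.A y - ξ‖ < ρ / C₇ from h) hrρ) (not_lt.2 hy))
      α β hpos w hwU
    have h2 := hii w hwq
    have h3 := hiii y hy w hwq
    have h4 : 0 ≤ (b - a) / 2 * W.G y b₀ / W.R.green 1 := by
      have := (hGpos y b₀).le
      have : 0 ≤ b - a := by linarith
      positivity
    have h5 : (b - a) / 2 * W.G y b₀ / W.R.green 1 ≤ (α * W.G x b₀ + β * W.G y b₀) / W.R.green 1 :=
      div_le_div_of_nonneg_right hbig g1.le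
    have h6 : 0 ≤ W.G b₀ w / 2 := by have := (hGpos b₀ w).le; positivity
    calc θ * (b - a) * W.G y w ≤ κ / (4 * W.R.green 1) * (b - a) * W.G y w := by
          have h7 : 0 ≤ b - a := by linarith
          have h8 := (hGpos y w).le
          gcongr
      _ = (b - a) / 2 / W.R.green 1 * (κ * W.G y w) / 2 := by field_simp; ring
      _ ≤ (b - a) / 2 / W.R.green 1 * (W.G y b₀ * W.G b₀ w) / 2 := by
          have h7 : 0 ≤ (b - a) / 2 / W.R.green 1 := by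
            have : 0 ≤ b - a := by linarith
            positivity
          have := mul_le_mul_of_nonneg_left h3 h7
          linarith
      _ = (b - a) / 2 * W.G y b₀ / W.R.green 1 * (W.G b₀ w / 2) := by ring
      _ ≤ (α * W.G x b₀ + β * W.G y b₀) / W.R.green 1 * (W.G b₀ w / 2) := mul_le_mul_of_nonneg_right h5 h6
      _ ≤ (α * W.G x b₀ + β * W.G y b₀) / W.R.green 1 * (W.G b₀ w - k * W.G y₀ w) :=
          mul_le_mul_of_nonneg_left (by linarith) (h4.trans h5)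
      _ ≤ α * W.G x w + β * W.G y w := h1
  by_cases hcase : (b - a) / 2 * W.G y b₀ ≤ 1 * W.G x b₀ + (-a) * W.G y b₀
  · have h1 := main 1 (-a) (fun w hw' => by have := (hw w hw').1; linarith) hcase
    refine ⟨a + θ * (b - a), b, ?_, ?_, le_rfl, ?_, ?_⟩
    · have := mul_nonneg hθ0.le (by linarith : 0 ≤ b - a); linarith
    · have := mul_le_mul_of_nonneg_right hθ1 (by linarith : 0 ≤ b - a); linarith
    · exact le_of_eq (by ring)
    · intro w hw'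
      have h2 := h1 w hw'
      refine ⟨by linarith, (hw w ?_).2⟩
      exact lt_trans (lt_of_lt_of_le hw' hqr) hrρ
  · push Not at hcase
    have h1 := main (-1) b (fun w hw' => by have := (hw w hw').2; linarith) (by linarith)
    refine ⟨a, b - θ * (b - a), le_rfl, ?_, ?_, ?_, ?_⟩
    · have := mul_le_mul_of_nonneg_right hθ1 (by linarith : 0 ≤ b - a); linarith
    · have := mul_nonneg hθ0.le (by linarith : 0 ≤ b - a); linarith
    · exact le_of_eq (by ring)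
    · intro w hw'
      have h2 := h1 w hw'
      refine ⟨(hw w ?_).1, by linarith⟩
      exact lt_trans (lt_of_lt_of_le hw' hqr) hrρ

end WD

end Pool.Agent.DimDropH
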